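import Pool.Agent.V7H57.WL.Lim

/-!
# Commensurating elements which shift a half-space give `ℤ²`
-/

set_option autoImplicit false

open Metric Set Filter Topology
open Pool.Agent.TH60.FP Pool.Agent.TH60.FP.Strip Pool.Agent.Y34.HB Pool.Agent.Y34.EL
open Pool.Agent.T6.H46.RR Pool.Agent.T6.H67.TA Pool.Agent.T6.H46.RC Pool.Agent.V7H57.RK
open scoped Pointwise

namespace Pool.Agent.V7H57.WL

variable {X : Type} [MetricSpace X] {G : Type} [Group G] [MulAction G X]
variable {V : Type} [MulAction G V]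

lemma shift_pow {A : Set V} {g : G} (hg : g • A ⊂ A) (n : ℕ) (hn : 0 < n) : g ^ n • A ⊂ A := by
  induction n with
  | zero => omega
  | succ n ih =>
    rcases Nat.eq_zero_or_pos n with h0 | h0
    · rw [h0, zero_add, pow_one]; exact hg
    · have h1 := ih h0
      refine ssubset_of_subset_of_ssubset ?_ h1
      rw [pow_succ, mul_smul]
      exact Set.smul_set_mono hg.subset

/-- an element which shifts a half-space and maps an infinite subgroup of a virtually abelian group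
which fixes the half-space back into this group -/
theorem z2_final (hG : Geo X G) (o : X) {A : Set V} {g : G} (hg : g • A ⊂ A)
    {A' K : Subgroup G} (hfin : A'.relIndex K ≠ 0) (hfg : A'.FG)
    (hcomm : ∀ a ∈ A', ∀ b ∈ A', a * b = b * a) {L : Subgroup G} (hL : L ≤ K)
    (hinf : (L : Set G).Infinite) (hLg : ∀ a ∈ L, g⁻¹ * a * g ∈ K) (hu : ∀ a ∈ L, a • A = A) :
    ∃ φ : Multiplicative (ℤ × ℤ) →* G, Function.Injective φ := by
  by_contra hno
  obtain ⟨a, haL, ha⟩ := FL.exists_inf_order hfin hfg hcomm hL hinf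
  obtain ⟨P, hP, -, hPa⟩ := Subgroup.exists_pow_mem_of_relIndex_ne_zero hfin (hL haL)
  obtain ⟨Q, hQ, -, hQa⟩ := Subgroup.exists_pow_mem_of_relIndex_ne_zero hfin (hLg a haL)
  have hconj : ∀ n : ℤ, (g⁻¹ * a * g) ^ n = g⁻¹ * a ^ n * g := by
    intro n
    have := conj_zpow (a := g⁻¹) (b := a) (i := n)
    rwa [inv_inv] at this
  have haz : ∀ n : ℤ, a ^ n = 1 → n = 0 := by
    intro n hn
    by_contra hn0
    apply ha n.natAbs (Int.natAbs_pos.2 hn0)
    rcases Int.natAbs_eq n with h | h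
    · rw [h, zpow_natCast] at hn; exact hn
    · rw [h, zpow_neg, zpow_natCast, inv_eq_one] at hn; exact hn
  have hind : ∃ m n : ℤ, (a ^ P) ^ m * ((g⁻¹ * a * g) ^ Q) ^ n = 1 ∧ ¬ (m = 0 ∧ n = 0) := by
    by_contra hc
    push Not at hc
    apply hno
    exact FL.z2_of_comm (hcomm _ hPa.1 _ hQa.1) fun m n h => hc m n h
  obtain ⟨m, n, hmn, hmn0⟩ := hind
  have e1 : (a ^ P) ^ m = a ^ ((P : ℤ) * m) := by rw [zpow_mul, zpow_natCast]
  have e2 : ((g⁻¹ * a * g) ^ Q) ^ n = g⁻¹ * a ^ ((Q : ℤ) * n) * g := by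
    rw [← hconj, zpow_mul, zpow_natCast]
  rw [e1, e2] at hmn
  have hm : m ≠ 0 := by
    rintro rfl
    rw [mul_zero, zpow_zero, one_mul] at hmn
    have h1 : a ^ ((Q : ℤ) * n) = 1 := by
      have : a ^ ((Q : ℤ) * n) = g * (g⁻¹ * a ^ ((Q : ℤ) * n) * g) * g⁻¹ := by group
      rw [this, hmn]; group
    have h2 := haz _ h1
    have h3 : (Q : ℤ) ≠ 0 := by exact_mod_cast hQ.ne'
    exact hmn0 ⟨rfl, (mul_eq_zero.1 h2).resolve_left h3⟩
  have hrel : g * a ^ ((P : ℤ) * m) * g⁻¹ = a ^ (-((Q : ℤ) * n)) := by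
    have h1 : a ^ ((P : ℤ) * m) = (g⁻¹ * a ^ ((Q : ℤ) * n) * g)⁻¹ := eq_inv_of_mul_eq_one_left hmn
    rw [h1, zpow_neg]; group
  set r : ℤ := (P : ℤ) * m with hr
  have hr0 : r ≠ 0 := mul_ne_zero (by exact_mod_cast hP.ne') hm
  have hlen := FL.trans_len hG o ha hrel
  have hcomm2 : g ^ 2 * a ^ r = a ^ r * g ^ 2 := by
    have h1 : g * a ^ r = a ^ (-((Q : ℤ) * n)) * g := by rw [← hrel]; group
    rcases hlen with h2 | h2
    · rw [h2] at h1
      rw [pow_two, mul_assoc, h1, ← mul_assoc, h1, mul_assoc]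
    · rw [h2] at h1
      have h3 : g * a ^ (-r) = a ^ r * g := by
        have h4 : g = a ^ (-r) * g * a ^ (-r) := by
          rw [← h1]
          rw [mul_assoc, ← zpow_add, add_neg_cancel, zpow_zero, mul_one]
        calc g * a ^ (-r) = a ^ r * (a ^ (-r) * g * a ^ (-r)) := by
              rw [← mul_assoc, ← mul_assoc, ← zpow_add, add_neg_cancel, zpow_zero, one_mul]
          _ = a ^ r * g := by rw [← h4]
      rw [pow_two, mul_assoc, h1, ← mul_assoc, h3, mul_assoc]
  apply hno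
  refine FL.z2_of_comm hcomm2 fun m' n' h => ?_
  have hau : ∀ i : ℤ, a ^ i • A = A := by
    intro i
    have : a ^ i ∈ MulAction.stabilizer G A :=
      Subgroup.zpow_mem _ (MulAction.mem_stabilizer_iff.2 (hu a haL)) i
    exact this
  have h1 : (g ^ 2) ^ m' • A = A := by
    have h2 : (a ^ r) ^ n' • A = A := by rw [← zpow_mul]; exact hau _
    have h3 := congrArg (fun x : G => x • A) h
    simp only [one_smul] at h3
    rw [mul_smul, h2] at h3
    exact h3
  have hm' : m' = 0 := by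
    by_contra hne
    have h2 : ∀ i : ℕ, (g ^ 2) ^ i • A = A → i = 0 := by
      intro i hi
      by_contra hi0
      rw [← pow_mul] at hi
      have h3 := shift_pow hg (2 * i) (by omega)
      rw [hi] at h3
      exact (ssubset_irrefl A) h3
    have h3 : (g ^ 2) ^ m'.natAbs • A = A := by
      rcases Int.natAbs_eq m' with h4 | h4
      · rw [h4, zpow_natCast] at h1; exact h1
      · rw [h4, zpow_neg, zpow_natCast, inv_smul_eq_iff] at h1; exact h1.symm
    have := h2 _ h3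
    omega
  refine ⟨hm', ?_⟩
  rw [hm', zpow_zero, one_mul, ← zpow_mul] at h
  exact (mul_eq_zero.1 (haz _ h)).resolve_left hr0

/-- the types of the walls near `x`, seen from an orbit point near `x` -/
lemma Dat.type {W : Set (Set V)} {o : X} {D0 : ℝ} {v0 : V} {ρ : Set V → X → ℝ} {E0 : Set (Set V)}
    {C : ℝ} (h : Dat G W o D0 v0 ρ E0 C) {A : Set V} {x : X} {r : ℝ} {g : G}
    (hg : dist x (g • o) ≤ D0) (hk : ∃ g : G, g • A ∈ E0) (hx : ρ A x ≤ r) :
    g⁻¹ • A ∈ {A : Set V | (∃ k : G, k • A ∈ E0) ∧ ρ A o ≤ r + D0} := by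
  have := h.geo.isom
  have hA := h.mem_of hk
  obtain ⟨κ, hκ⟩ := hk
  refine ⟨⟨κ * g, ?_⟩, ?_⟩
  · rw [mul_smul, smul_inv_smul]; exact hκ
  · have h1 := h.rho.lip (g⁻¹ • A) o (g⁻¹ • x)
    rw [h.rho.inv A hA] at h1
    have h2 : dist o (g⁻¹ • x) = dist x (g • o) := by
      rw [← dist_smul g, smul_inv_smul, dist_comm]
    linarith

end Pool.Agent.V7H57.WL
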