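import Pool.Agent.V7H57.WL.Skew

/-!
# Elements which shift a half-space: rank one isometries and commensurated subgroups
-/

set_option autoImplicit false

open Metric Set Filter Topology
open Pool.Agent.TH60.FP Pool.Agent.TH60.FP.Strip Pool.Agent.Y34.HB Pool.Agent.Y34.EL
open Pool.Agent.T6.H46.RR Pool.Agent.T6.H67.TA Pool.Agent.T6.H46.RC Pool.Agent.V7H57.RK
open scoped Pointwise

namespace Pool.Agent.V7H57.WL

variable {X : Type} [MetricSpace X] {G : Type} [Group G] [MulAction G X]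
variable {V : Type} [MulAction G V]

/-! ### the common stabilisers -/

/-- the common stabiliser of `t ^ i • A, …, t ^ j • A` -/
def Cs (t : G) (A : Set V) (i j : ℤ) : Subgroup G :=
  ⨅ l ∈ Set.Icc i j, MulAction.stabilizer G (t ^ l • A)

lemma mem_Cs {t : G} {A : Set V} {i j : ℤ} {a : G} :
    a ∈ Cs t A i j ↔ ∀ l : ℤ, i ≤ l → l ≤ j → a • (t ^ l • A) = t ^ l • A := by
  unfold Cs
  simp only [Subgroup.mem_iInf, Set.mem_Icc, MulAction.mem_stabilizer_iff, and_imp]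

lemma Cs_map (t : G) (A : Set V) (i j p : ℤ) :
    Cs t A (i + p) (j + p) = (Cs t A i j).map (MulAut.conj (t ^ p)).toMonoidHom := by
  have key : ∀ a : G, t ^ p * a * (t ^ p)⁻¹ ∈ Cs t A (i + p) (j + p) ↔ a ∈ Cs t A i j := by
    intro a
    have e : ∀ l : ℤ, (t ^ p * a * (t ^ p)⁻¹) • (t ^ (l + p) • A) = t ^ (l + p) • A ↔
        a • (t ^ l • A) = t ^ l • A := by
      intro l
      have e1 : t ^ (l + p) • A = t ^ p • (t ^ l • A) := by rw [smul_smul, ← zpow_add, add_comm]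
      rw [e1, mul_smul, mul_smul, inv_smul_smul]
      exact (MulAction.injective (t ^ p)).eq_iff
    rw [mem_Cs, mem_Cs]
    constructor
    · intro h l h1 h2
      exact (e l).1 (h (l + p) (by omega) (by omega))
    · intro h l h1 h2
      have := (e (l - p)).2 (h (l - p) (by omega) (by omega))
      rwa [sub_add_cancel] at this
  ext a
  rw [Subgroup.mem_map]
  constructor
  · intro ha
    refine ⟨(t ^ p)⁻¹ * a * t ^ p, ?_, ?_⟩
    · rw [← key]
      have : t ^ p * ((t ^ p)⁻¹ * a * t ^ p) * (t ^ p)⁻¹ = a := by group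
      rwa [this]
    · show t ^ p * ((t ^ p)⁻¹ * a * t ^ p) * (t ^ p)⁻¹ = a
      group
  · rintro ⟨b, hb, rfl⟩
    exact (key b).2 hb

lemma Cs_shift (t : G) (A : Set V) (i j i' j' p : ℤ) :
    (Cs t A (i + p) (j + p)).relIndex (Cs t A (i' + p) (j' + p)) =
      (Cs t A i j).relIndex (Cs t A i' j') := by
  rw [Cs_map, Cs_map, Subgroup.relIndex_map_map_of_injective _ _ (MulAut.conj (t ^ p)).injective]

lemma Cs_le {t : G} {A : Set V} {i j i' j' : ℤ} (h1 : i ≤ i') (h2 : j' ≤ j) :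
    Cs t A i j ≤ Cs t A i' j' := by
  intro a ha
  rw [mem_Cs] at ha ⊢
  exact fun l l1 l2 => ha l (by omega) (by omega)

lemma Cs_inf (t : G) (A : Set V) (n : ℤ) (hn : 0 ≤ n) :
    Cs t A 0 (n + 2) = Cs t A 0 (n + 1) ⊓ Cs t A 1 (n + 2) := by
  ext a
  rw [Subgroup.mem_inf, mem_Cs, mem_Cs, mem_Cs]
  constructor
  · intro h
    exact ⟨fun l h1 h2 => h l h1 (by omega), fun l h1 h2 => h l (by omega) h2⟩
  · rintro ⟨h1, h2⟩ l l1 l2
    by_cases hl : l = 0
    · exact h1 l l1 (by omega)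
    · exact h2 l (by omega) l2

lemma right_step {t : G} {A : Set V} {n : ℤ} (hn : 0 ≤ n)
    (h : (Cs t A 0 (n + 1)).relIndex (Cs t A 0 n) ≠ 0) :
    (Cs t A 0 (n + 1 + 1)).relIndex (Cs t A 0 (n + 1)) ≠ 0 := by
  have e : n + 1 + 1 = n + 2 := by ring
  rw [e, Cs_inf t A n hn, inf_comm, Subgroup.inf_relIndex_right]
  have h1 := Cs_shift t A 0 (n + 1) 0 n 1
  rw [zero_add, e] at h1
  rw [← h1] at h
  intro h2
  exact h (Subgroup.relIndex_eq_zero_of_le_right (Cs_le (by omega) le_rfl) h2)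

lemma left_step {t : G} {A : Set V} {n : ℤ} (hn : 0 ≤ n)
    (h : (Cs t A 0 (n + 1)).relIndex (Cs t A 1 (n + 1)) ≠ 0) :
    (Cs t A 0 (n + 1 + 1)).relIndex (Cs t A 1 (n + 1 + 1)) ≠ 0 := by
  have e : n + 1 + 1 = n + 2 := by ring
  rw [e, Cs_inf t A n hn, Subgroup.inf_relIndex_right]
  intro h2
  exact h (Subgroup.relIndex_eq_zero_of_le_right (Cs_le le_rfl (by omega)) h2)

/-- some common stabiliser is commensurated by `t` -/
lemma exists_comm {t : G} {A : Set V} {m : ℤ} (hm : 0 ≤ m) {A' : Subgroup G}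
    (hfin : A'.relIndex (Cs t A 0 m) ≠ 0) (hfg : A'.FG)
    (hcomm : ∀ a ∈ A', ∀ b ∈ A', a * b = b * a) : ∃ n : ℤ, m ≤ n ∧
      (Cs t A 0 (n + 1)).relIndex (Cs t A 0 n) ≠ 0 ∧
      (Cs t A 0 (n + 1)).relIndex (Cs t A 1 (n + 1)) ≠ 0 := by
  obtain ⟨n1, hn1⟩ := chain_ab hfin hfg hcomm (fun n : ℕ => Cs t A 0 (m + n))
    (by simp only [Nat.cast_zero, add_zero]; exact le_rfl)
    (fun n => Cs_le le_rfl (by push_cast; omega))
  obtain ⟨n2, hn2⟩ := chain_ab hfin hfg hcomm (fun n : ℕ => Cs t A (-n) m)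
    (by simp only [Nat.cast_zero, neg_zero]; exact le_rfl)
    (fun n => Cs_le (by push_cast; omega) le_rfl)
  have h1 : ∀ k : ℕ, (Cs t A 0 (m + n1 + k + 1)).relIndex (Cs t A 0 (m + n1 + k)) ≠ 0 := by
    intro k
    induction k with
    | zero =>
      simp only [Nat.cast_zero, add_zero]
      have e : m + ((n1 + 1 : ℕ) : ℤ) = m + n1 + 1 := by push_cast; ring
      rwa [e] at hn1
    | succ k ih =>
      have := right_step (by omega) ih
      have e : m + n1 + ((k + 1 : ℕ) : ℤ) = m + n1 + k + 1 := by push_cast; ring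
      rwa [e]
  have h2 : ∀ k : ℕ, (Cs t A 0 (m + n2 + k + 1)).relIndex (Cs t A 1 (m + n2 + k + 1)) ≠ 0 := by
    intro k
    induction k with
    | zero =>
      simp only [Nat.cast_zero, add_zero]
      have e := Cs_shift t A (-(n2 + 1 : ℤ)) m (-(n2 : ℤ)) m (n2 + 1)
      have e1 : -((n2 : ℤ) + 1) + (n2 + 1) = 0 := by ring
      have e2 : -(n2 : ℤ) + (n2 + 1) = 1 := by ring
      have e3 : m + ((n2 : ℤ) + 1) = m + n2 + 1 := by ring
      rw [e1, e2, e3] at e
      rw [e]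
      have e4 : -(((n2 + 1 : ℕ) : ℤ)) = -((n2 : ℤ) + 1) := by push_cast; ring
      rwa [e4] at hn2
    | succ k ih =>
      have := left_step (by omega) ih
      have e : m + n2 + ((k + 1 : ℕ) : ℤ) = m + n2 + k + 1 := by push_cast; ring
      rwa [e]
  refine ⟨m + n1 + n2, by omega, h1 n2, ?_⟩
  have h3 := h2 n1
  have e : m + (n2 : ℤ) + n1 = m + n1 + n2 := by ring
  rwa [e] at h3

/-! ### `ℤ²` -/

lemma z2_of_comm' {x y : G} (hxy : x * y = y * x)
    (h : ∀ m n : ℤ, x ^ m * y ^ n = 1 → m = 0 ∧ n = 0) :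
    ∃ φ : Multiplicative (ℤ × ℤ) →* G, Function.Injective φ ∧
      ∀ z : ℤ × ℤ, φ (Multiplicative.ofAdd z) = x ^ z.1 * y ^ z.2 := by
  have hc : Commute x y := hxy
  refine ⟨{ toFun := fun z => x ^ (Multiplicative.toAdd z).1 * y ^ (Multiplicative.toAdd z).2
            map_one' := by simp
            map_mul' := ?_ }, ?_, fun z => rfl⟩
  · intro z w
    rw [toAdd_mul, Prod.fst_add, Prod.snd_add, zpow_add, zpow_add]
    have e := (hc.zpow_zpow (Multiplicative.toAdd w).1 (Multiplicative.toAdd z).2).eq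
    calc x ^ (Multiplicative.toAdd z).1 * x ^ (Multiplicative.toAdd w).1 *
          (y ^ (Multiplicative.toAdd z).2 * y ^ (Multiplicative.toAdd w).2)
        = x ^ (Multiplicative.toAdd z).1 * (x ^ (Multiplicative.toAdd w).1 *
          y ^ (Multiplicative.toAdd z).2) * y ^ (Multiplicative.toAdd w).2 := by group
      _ = _ := by rw [e]; group
  · rw [injective_iff_map_eq_one]
    intro z hz
    obtain ⟨h1, h2⟩ := h _ _ hz
    exact Multiplicative.toAdd.injective (Prod.ext h1 h2)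

/-- an element which shifts a half-space and maps an infinite subgroup of a virtually abelian group
which fixes the half-space back into this group -/
theorem z2_two (hG : Geo X G) (o : X) {A : Set V} {g : G} (hg : g • A ⊂ A)
    {A' K : Subgroup G} (hle : A' ≤ K) (hfin : A'.relIndex K ≠ 0) (hfg : A'.FG)
    (hcomm : ∀ a ∈ A', ∀ b ∈ A', a * b = b * a) {L : Subgroup G} (hL : L ≤ K)
    (hinf : (L : Set G).Infinite) (hLg : ∀ a ∈ L, g⁻¹ * a * g ∈ K)
    (hu : ∀ a ∈ L, a • A = A) (hu' : ∀ a ∈ L, a • (g • A) = g • A) :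
    (∃ φ : Multiplicative (ℤ × ℤ) →* G, Function.Injective φ ∧ ∀ z, φ z ∈ K) ∨
    ∃ φ : Multiplicative (ℤ × ℤ) →* G, Function.Injective φ ∧
      φ (Multiplicative.ofAdd (1, 0)) = g ^ 2 ∧
      ∀ l : ℤ, φ (Multiplicative.ofAdd (0, 1)) • (g ^ l • A) = g ^ l • A := by
  by_cases hno : ∃ φ : Multiplicative (ℤ × ℤ) →* G, Function.Injective φ ∧ ∀ z, φ z ∈ K
  · exact Or.inl hno
  right
  obtain ⟨a, haL, ha⟩ := FL.exists_inf_order hfin hfg hcomm hL hinf
  obtain ⟨P, hP, -, hPa⟩ := Subgroup.exists_pow_mem_of_relIndex_ne_zero hfin (hL haL)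
  obtain ⟨Q, hQ, -, hQa⟩ := Subgroup.exists_pow_mem_of_relIndex_ne_zero hfin (hLg a haL)
  have hconj : ∀ n : ℤ, (g⁻¹ * a * g) ^ n = g⁻¹ * a ^ n * g := by
    intro n
    have := conj_zpow (a := g⁻¹) (b := a) (i := n)
    rwa [inv_inv] at this
  have haz : ∀ n : ℤ, a ^ n = 1 → n = 0 := by
    intro n hn
    by_contra hn0
    apply ha n.natAbs (Int.natAbs_pos.2 hn0)
    rcases Int.natAbs_eq n with h | h
    · rw [h, zpow_natCast] at hn; exact hn
    · rw [h, zpow_neg, zpow_natCast, inv_eq_one] at hn; exact hn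
  have hind : ∃ m n : ℤ, (a ^ P) ^ m * ((g⁻¹ * a * g) ^ Q) ^ n = 1 ∧ ¬ (m = 0 ∧ n = 0) := by
    by_contra hc
    push Not at hc
    apply hno
    obtain ⟨φ, h1, h2⟩ := z2_of_comm' (hcomm _ hPa.1 _ hQa.1) fun m n h => hc m n h
    refine ⟨φ, h1, fun z => ?_⟩
    rw [← ofAdd_toAdd z, h2]
    exact K.mul_mem (K.zpow_mem (hle hPa.1) _) (K.zpow_mem (hle hQa.1) _)
  obtain ⟨m, n, hmn, hmn0⟩ := hind
  have e1 : (a ^ P) ^ m = a ^ ((P : ℤ) * m) := by rw [zpow_mul, zpow_natCast]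
  have e2 : ((g⁻¹ * a * g) ^ Q) ^ n = g⁻¹ * a ^ ((Q : ℤ) * n) * g := by
    rw [← hconj, zpow_mul, zpow_natCast]
  rw [e1, e2] at hmn
  have hm : m ≠ 0 := by
    rintro rfl
    rw [mul_zero, zpow_zero, one_mul] at hmn
    have h1 : a ^ ((Q : ℤ) * n) = 1 := by
      have : a ^ ((Q : ℤ) * n) = g * (g⁻¹ * a ^ ((Q : ℤ) * n) * g) * g⁻¹ := by group
      rw [this, hmn]; group
    have h2 := haz _ h1
    have h3 : (Q : ℤ) ≠ 0 := by exact_mod_cast hQ.ne'
    exact hmn0 ⟨rfl, (mul_eq_zero.1 h2).resolve_left h3⟩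
  have hrel : g * a ^ ((P : ℤ) * m) * g⁻¹ = a ^ (-((Q : ℤ) * n)) := by
    have h1 : a ^ ((P : ℤ) * m) = (g⁻¹ * a ^ ((Q : ℤ) * n) * g)⁻¹ := eq_inv_of_mul_eq_one_left hmn
    rw [h1, zpow_neg]; group
  set r : ℤ := (P : ℤ) * m with hr
  have hr0 : r ≠ 0 := mul_ne_zero (by exact_mod_cast hP.ne') hm
  have hlen := FL.trans_len hG o ha hrel
  have hcomm2 : g ^ 2 * a ^ r = a ^ r * g ^ 2 := by
    have h1 : g * a ^ r = a ^ (-((Q : ℤ) * n)) * g := by rw [← hrel]; group
    rcases hlen with h2 | h2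
    · rw [h2] at h1
      rw [pow_two, mul_assoc, h1, ← mul_assoc, h1, mul_assoc]
    · rw [h2] at h1
      have h3 : g * a ^ (-r) = a ^ r * g := by
        have h4 : g = a ^ (-r) * g * a ^ (-r) := by
          rw [← h1]
          rw [mul_assoc, ← zpow_add, add_neg_cancel, zpow_zero, mul_one]
        calc g * a ^ (-r) = a ^ r * (a ^ (-r) * g * a ^ (-r)) := by
              rw [← mul_assoc, ← mul_assoc, ← zpow_add, add_neg_cancel, zpow_zero, one_mul]
          _ = a ^ r * g := by rw [← h4]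
      rw [pow_two, mul_assoc, h1, ← mul_assoc, h3, mul_assoc]
  have har : a ^ r ∈ L := L.zpow_mem haL r
  have hau : ∀ i : ℤ, a ^ i • A = A := fun i => hu _ (L.zpow_mem haL i)
  obtain ⟨φ, h1, h2⟩ := z2_of_comm' hcomm2 fun m' n' h => by
    have h1 : (g ^ 2) ^ m' • A = A := by
      have h2 : (a ^ r) ^ n' • A = A := by rw [← zpow_mul]; exact hau _
      have h3 := congrArg (fun x : G => x • A) h
      simp only [one_smul] at h3
      rw [mul_smul, h2] at h3
      exact h3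
    have hm' : m' = 0 := by
      by_contra hne
      have h2 : ∀ i : ℕ, (g ^ 2) ^ i • A = A → i = 0 := by
        intro i hi
        by_contra hi0
        rw [← pow_mul] at hi
        have h3 := shift_pow hg (2 * i) (by omega)
        rw [hi] at h3
        exact (ssubset_irrefl A) h3
      have h3 : (g ^ 2) ^ m'.natAbs • A = A := by
        rcases Int.natAbs_eq m' with h4 | h4
        · rw [h4, zpow_natCast] at h1; exact h1
        · rw [h4, zpow_neg, zpow_natCast, inv_smul_eq_iff] at h1; exact h1.symm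
      have := h2 _ h3
      omega
    refine ⟨hm', ?_⟩
    rw [hm', zpow_zero, one_mul, ← zpow_mul] at h
    exact (mul_eq_zero.1 (haz _ h)).resolve_left hr0
  refine ⟨φ, h1, by rw [h2, zpow_one, zpow_zero, mul_one], fun l => ?_⟩
  rw [h2, zpow_zero, zpow_one, one_mul]
  have hc : ∀ i : ℤ, a ^ r * (g ^ 2) ^ i = (g ^ 2) ^ i * a ^ r := fun i =>
    ((show Commute (g ^ 2) (a ^ r) from hcomm2).zpow_left i).eq.symm
  rcases Int.even_or_odd' l with ⟨i, rfl | rfl⟩
  · have e : g ^ (2 * i) = (g ^ 2) ^ i := by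
      rw [zpow_mul]; norm_cast
    rw [e, smul_smul, hc, mul_smul, hau]
  · have e : g ^ (2 * i + 1) = (g ^ 2) ^ i * g := by
      rw [zpow_add, zpow_mul, zpow_one]; norm_cast
    rw [e, smul_smul, ← mul_assoc, hc, mul_assoc, mul_smul, mul_smul, mul_smul, hu' _ har]

/-! ### the axis -/

lemma exists_axis_inf (hG : Geo X G) (o : X) {a : G} (ha : ∀ n : ℕ, 0 < n → a ^ n ≠ 1) :
    ∃ (τ : ℝ) (c : ℝ → X), 0 < τ ∧ Axis a τ c := by
  have := hG.isom
  have := hG.proper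
  obtain ⟨y, hy⟩ := exists_torus_point hG (Subgroup.zpowers a)
    ⟨{a}, by rw [Finset.coe_singleton, Subgroup.zpowers_eq_closure]⟩
    (by
      rintro _ ⟨m, rfl⟩ _ ⟨n, rfl⟩
      show a ^ m * a ^ n = a ^ n * a ^ m
      rw [← zpow_add, ← zpow_add, add_comm]) o
  have hmin := hy a (Subgroup.mem_zpowers a)
  have hnat : ∀ n : ℕ, dist y (a ^ n • y) = n * dist y (a • y) := growth_of_isMin hG.cn hmin
  have hτ0 : 0 < dist y (a • y) := by
    rcases eq_or_lt_of_le (dist_nonneg (x := y) (y := a • y)) with h0 | h0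
    · exfalso
      have h1 : ∀ n : ℕ, a ^ n ∈ {s : G | dist y (s • y) ≤ 0} := by
        intro n
        show dist y (a ^ n • y) ≤ 0
        rw [hnat, ← h0, mul_zero]
      have hinj : Function.Injective (fun n : ℕ => a ^ n) := by
        have key : ∀ m n : ℕ, m < n → a ^ m ≠ a ^ n := by
          intro m n hmn he
          apply ha (n - m) (by omega)
          have : a ^ m * a ^ (n - m) = a ^ m := by
            rw [← pow_add, Nat.add_sub_cancel' hmn.le, he]
          exact mul_eq_left.1 this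
        intro m n he
        rcases lt_trichotomy m n with h2 | h2 | h2
        · exact absurd he (key m n h2)
        · exact h2
        · exact absurd he.symm (key n m h2)
      exact Set.infinite_of_injective_forall_mem hinj h1 (finite_short hG y 0)
    · exact h0
  obtain ⟨c, hc, -⟩ := axis_through hG.cn hmin hτ0
  exact ⟨_, c, hτ0, hc⟩

/-! ### conjugates -/

lemma cc_conj (hG : Geo X G) {A : Set V} {B : Set X} (hB : CC (MulAction.stabilizer G A) B)
    (g : G) : CC (MulAction.stabilizer G (g • A)) {x | g⁻¹ • x ∈ B} := by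
  have := hG.isom
  have hmem : ∀ s : G, s ∈ MulAction.stabilizer G (g • A) →
      g⁻¹ * s * g ∈ MulAction.stabilizer G A := by
    intro s hs
    rw [MulAction.mem_stabilizer_iff] at hs ⊢
    rw [mul_smul, mul_smul, hs, inv_smul_smul]
  refine ⟨?_, ?_, ?_, ?_, ?_⟩
  · obtain ⟨x, hx⟩ := hB.ne
    exact ⟨g • x, by rw [Set.mem_ofPred_eq, inv_smul_smul]; exact hx⟩
  · exact hB.closed.preimage (continuous_const_smul g⁻¹)
  · intro p hp q hq m hm
    refine hB.conv _ hp _ hq _ ?_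
    rw [dist_smul, dist_smul, dist_smul]; exact hm
  · intro s hs x hx
    show g⁻¹ • s • x ∈ B
    have := hB.inv _ (hmem s hs) _ hx
    rwa [mul_smul, mul_smul, smul_inv_smul] at this
  · obtain ⟨C, hC, hcov⟩ := hB.cc
    refine ⟨(fun x => g • x) '' C, hC.image (continuous_const_smul g), fun x hx => ?_⟩
    obtain ⟨s, hs, hsx⟩ := hcov _ hx
    refine ⟨g * s * g⁻¹, ?_, ?_⟩
    · rw [MulAction.mem_stabilizer_iff] at hs ⊢
      rw [mul_smul, mul_smul, inv_smul_smul, hs]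
    · exact ⟨_, hsx, by simp only [mul_smul]⟩

lemma stab_compl (A : Set V) : MulAction.stabilizer G Aᶜ = MulAction.stabilizer G A := by
  ext s
  rw [MulAction.mem_stabilizer_iff, MulAction.mem_stabilizer_iff, Set.smul_set_compl,
    compl_inj_iff]

/-- **Main theorem.** -/
theorem skew_main (hG : Geo X G) (o : X) {A : Set V}
    (hfin : ∀ u v : V, {B : Set V | (∃ g : G, B = g • A) ∧ u ∈ B ∧ v ∉ B}.Finite)
    (hE : ∃ B : Set X, CC (MulAction.stabilizer G A) B) {t : G} (ht : t • A ⊂ A) :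
    RankOne X t ∨ ∀ n : ℕ, (Cs t A 0 n : Set G).Infinite := by
  have := hG.isom
  have hord : ∀ n : ℕ, 0 < n → t ^ n ≠ 1 := by
    intro n hn h1
    have h2 := shift_pow ht n hn
    rw [h1, one_smul] at h2
    exact ssubset_irrefl A h2
  obtain ⟨τ, c, hτ, hc⟩ := exists_axis_inf hG o hord
  by_cases hH : HP c = ∅
  · exact Or.inl ⟨τ, c, hτ, hc, hH⟩
  right
  obtain ⟨H, hH⟩ := Set.nonempty_iff_ne_empty.2 hH
  obtain ⟨v0, h0, h1⟩ := Set.exists_of_ssubset ht
  set W : Set (Set V) := {B | ∃ g : G, B = g • A ∨ B = (g • A)ᶜ} with hW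
  have hW1 : ∀ B ∈ W, Bᶜ ∈ W := by
    rintro B ⟨g, rfl | rfl⟩
    · exact ⟨g, Or.inr rfl⟩
    · exact ⟨g, Or.inl (compl_compl _)⟩
  have hW2 : ∀ B ∈ W, ∀ g : G, g • B ∈ W := by
    rintro B ⟨g, rfl | rfl⟩ k
    · exact ⟨k * g, Or.inl (by rw [mul_smul])⟩
    · exact ⟨k * g, Or.inr (by rw [mul_smul, Set.smul_set_compl])⟩
  have hW3 : ∀ u v : V, {B | B ∈ W ∧ u ∈ B ∧ v ∉ B}.Finite := by
    intro u v
    refine ((hfin u v).union ((hfin v u).image compl)).subset ?_
    rintro B ⟨⟨g, rfl | rfl⟩, hu, hv⟩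
    · exact Or.inl ⟨⟨g, rfl⟩, hu, hv⟩
    · refine Or.inr ⟨g • A, ⟨⟨g, rfl⟩, ?_, hu⟩, rfl⟩
      by_contra hc
      exact hv hc
  have hW4 : ∀ B ∈ W, ∃ B' : Set X, CC (MulAction.stabilizer G B) B' := by
    obtain ⟨B', hB'⟩ := hE
    rintro B ⟨g, rfl | rfl⟩
    · exact ⟨_, cc_conj hG hB' g⟩
    · rw [stab_compl]
      exact ⟨_, cc_conj hG hB' g⟩
  obtain ⟨D0, ρ, E0, C, h⟩ := exists_dat hG hW1 hW2 hW3 hW4 (c 0) v0
  intro n
  have hA : A ∈ W := ⟨1, Or.inl (one_smul _ _).symm⟩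
  refine (h.inf_chain hA ht h0 h1 hτ hc hH n).mono ?_
  intro a ha
  rw [SetLike.mem_coe, Subgroup.mem_iInf] at ha
  rw [SetLike.mem_coe, mem_Cs]
  intro l l1 l2
  obtain ⟨k, rfl⟩ := Int.eq_ofNat_of_zero_le l1
  have := ha ⟨k, by omega⟩
  rw [MulAction.mem_stabilizer_iff] at this
  rw [zpow_natCast]
  exact this

/-- **Virtually abelian stabilisers.** -/
theorem skew_ab (hG : Geo X G) (o : X) {A : Set V} {t : G} (ht : t • A ⊂ A)
    (hinf : ∀ n : ℕ, (Cs t A 0 n : Set G).Infinite) (m : ℕ) {A' : Subgroup G}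
    (hle : A' ≤ Cs t A 0 m) (hfin : A'.relIndex (Cs t A 0 m) ≠ 0) (hfg : A'.FG)
    (hcomm : ∀ a ∈ A', ∀ b ∈ A', a * b = b * a) :
    (∃ n : ℕ, m ≤ n ∧ (Cs t A 0 (n + 1)).relIndex (Cs t A 0 n) ≠ 0 ∧
      (Cs t A 0 (n + 1)).relIndex (Cs t A 1 (n + 1)) ≠ 0) ∧
    ((∃ φ : Multiplicative (ℤ × ℤ) →* G, Function.Injective φ ∧ ∀ z, φ z ∈ Cs t A 0 m) ∨
    ∃ φ : Multiplicative (ℤ × ℤ) →* G, Function.Injective φ ∧
      φ (Multiplicative.ofAdd (1, 0)) = t ^ 2 ∧
      ∀ l : ℤ, φ (Multiplicative.ofAdd (0, 1)) • (t ^ l • A) = t ^ l • A) := by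
  constructor
  · obtain ⟨n, h1, h2, h3⟩ := exists_comm (by positivity) hfin hfg hcomm
    obtain ⟨k, rfl⟩ := Int.eq_ofNat_of_zero_le ((by positivity : (0 : ℤ) ≤ m).trans h1)
    exact ⟨k, by omega, h2, h3⟩
  · have e0 : ∀ a ∈ Cs t A 0 (m + 1), a • A = A := by
      intro a ha
      have := mem_Cs.1 ha 0 le_rfl (by omega)
      rwa [zpow_zero, one_smul] at this
    refine z2_two hG o ht hle hfin hfg hcomm (L := Cs t A 0 ((m + 1 : ℕ) : ℤ))
      (Cs_le le_rfl (by push_cast; omega)) (hinf (m + 1)) ?_ ?_ ?_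
    · intro a ha
      rw [mem_Cs] at ha ⊢
      intro l l1 l2
      have h1 := ha (l + 1) (by omega) (by push_cast; omega)
      have e : t ^ (l + 1) • A = t • (t ^ l • A) := by
        rw [smul_smul, ← zpow_one_add, add_comm]
      rw [e] at h1
      rw [mul_smul, mul_smul, h1, inv_smul_smul]
    · intro a ha
      exact e0 a (by push_cast at ha; exact ha)
    · intro a ha
      have := mem_Cs.1 ha 1 (by omega) (by push_cast; omega)
      rwa [zpow_one] at this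

end Pool.Agent.V7H57.WL
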