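import Pool.Agent.V7H57.WL.Rho

/-!
# Sides of walls and crossings
-/

set_option autoImplicit false

open Metric Set Filter Topology
open Pool.Agent.TH60.FP Pool.Agent.TH60.FP.Strip Pool.Agent.Y34.HB Pool.Agent.Y34.EL
open Pool.Agent.T6.H46.RR Pool.Agent.T6.H67.TA Pool.Agent.T6.H46.RC Pool.Agent.V7H57.RK
open scoped Pointwise

namespace Pool.Agent.V7H57.WL

variable {X : Type} [MetricSpace X] {G : Type} [Group G] [MulAction G X]
variable {V : Type} [MulAction G V] {W : Set (Set V)}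

/-- the half-space has a translate in the finite set `E0` and `x` is near its convex set -/
def Ins (G : Type) [Group G] [MulAction G V] (ρ : Set V → X → ℝ) (E0 : Set (Set V)) (C : ℝ)
    (A : Set V) (x : X) : Prop :=
  (∃ k : G, k • A ∈ E0) ∧ ρ A x ≤ C

/-- `x` is near an orbit point `g o` such that `g v0` is in `A` -/
def Sd (G : Type) [Group G] [MulAction G V] [MulAction G X] (o : X) (D0 : ℝ)
    (v0 : V) (A : Set V) (x : X) : Prop :=
  ∃ g : G, dist x (g • o) ≤ D0 ∧ g • v0 ∈ A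

/-- all the data -/
structure Dat (G : Type) [Group G] [MulAction G V] [MulAction G X] (W : Set (Set V)) (o : X)
    (D0 : ℝ) (v0 : V) (ρ : Set V → X → ℝ) (E0 : Set (Set V)) (C : ℝ) : Prop where
  geo : Geo X G
  compl : ∀ A ∈ W, Aᶜ ∈ W
  act : ∀ A ∈ W, ∀ g : G, g • A ∈ W
  rho : Rho G W ρ
  cov : ∀ x : X, ∃ g : G, dist x (g • o) ≤ D0
  fin : E0.Finite
  sub : ∀ A ∈ E0, A ∈ W
  sym : ∀ A ∈ E0, Aᶜ ∈ E0
  cross : ∀ A ∈ W, ∀ x y : X, dist x y ≤ 1 → Sd G o D0 v0 Aᶜ x →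
    Sd G o D0 v0 A y → Ins G ρ E0 C A x ∧ Ins G ρ E0 C A y

theorem exists_dat (hG : Geo X G) (hW1 : ∀ A ∈ W, Aᶜ ∈ W) (hW2 : ∀ A ∈ W, ∀ g : G, g • A ∈ W)
    (hW3 : ∀ u v : V, {A | A ∈ W ∧ u ∈ A ∧ v ∉ A}.Finite)
    (hE : ∀ A ∈ W, ∃ B : Set X, CC (MulAction.stabilizer G A) B) (o : X) (v0 : V) :
    ∃ (D0 : ℝ) (ρ : Set V → X → ℝ) (E0 : Set (Set V)) (C : ℝ), Dat G W o D0 v0 ρ E0 C := by
  classical
  have := hG.isom
  have := hG.proper
  obtain ⟨ρ, hρ⟩ := exists_rho hG hW1 hW2 hE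
  obtain ⟨K, hK, hcov⟩ := hG.cc
  obtain ⟨D0, hD0⟩ := hK.isBounded.subset_closedBall o
  have hcov' : ∀ x : X, ∃ g : G, dist x (g • o) ≤ D0 := by
    intro x
    obtain ⟨g, hg⟩ := hcov x
    refine ⟨g⁻¹, ?_⟩
    rw [← dist_smul g, smul_inv_smul]
    exact mem_closedBall.1 (hD0 hg)
  set Γ : Set G := {h | dist o (h • o) ≤ 2 * D0 + 1} with hΓ
  have hΓf : Γ.Finite := finite_short hG o _
  set E0 : Set (Set V) := {A | A ∈ W ∧ ∃ h ∈ Γ, (v0 ∈ A ∧ h • v0 ∉ A) ∨ (v0 ∉ A ∧ h • v0 ∈ A)}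
    with hE0
  have hfin : E0.Finite := by
    refine (hΓf.biUnion (t := fun h => {A | A ∈ W ∧ v0 ∈ A ∧ h • v0 ∉ A} ∪
      {A | A ∈ W ∧ h • v0 ∈ A ∧ v0 ∉ A}) fun h _ => (hW3 _ _).union (hW3 _ _)).subset ?_
    rintro A ⟨hA, h, hh, h1 | h1⟩
    · exact mem_biUnion hh (Or.inl ⟨hA, h1.1, h1.2⟩)
    · exact mem_biUnion hh (Or.inr ⟨hA, h1.2, h1.1⟩)
  obtain ⟨M, hM⟩ := (hfin.image (fun A => ρ A o)).bddAbove
  refine ⟨D0, ρ, E0, M + D0 + 1, hG, hW1, hW2, hρ, hcov', hfin, fun A hA => hA.1, ?_, ?_⟩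
  · rintro A ⟨h1, h, hh, h2 | h2⟩
    · exact ⟨hW1 A h1, h, hh, Or.inr ⟨fun h3 => h3 h2.1, h2.2⟩⟩
    · exact ⟨hW1 A h1, h, hh, Or.inl ⟨h2.1, fun h3 => h3 h2.2⟩⟩
  · rintro A hA x y hxy ⟨g, hg1, hg2⟩ ⟨h, hh1, hh2⟩
    have e1 : g⁻¹ * h ∈ Γ := by
      show dist o ((g⁻¹ * h) • o) ≤ 2 * D0 + 1
      rw [mul_smul, ← dist_smul g, smul_inv_smul]
      have := dist_triangle4 (g • o) x y (h • o)
      rw [dist_comm (g • o) x] at this
      linarith
    have hmem : g⁻¹ • A ∈ E0 := by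
      refine ⟨hW2 A hA _, g⁻¹ * h, e1, Or.inr ⟨fun h1 => hg2 ?_, ?_⟩⟩
      · rwa [Set.mem_inv_smul_set_iff] at h1
      · rw [Set.mem_inv_smul_set_iff, mul_smul, smul_inv_smul]; exact hh2
    have hx : ρ A x ≤ M + D0 := by
      rw [← hρ.inv A hA g⁻¹ x]
      have h1 := hρ.lip (g⁻¹ • A) (g⁻¹ • x) o
      have h2 : dist (g⁻¹ • x) o = dist x (g • o) := by rw [← dist_smul g, smul_inv_smul]
      have h3 : ρ (g⁻¹ • A) o ≤ M := hM ⟨_, hmem, rfl⟩
      linarith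
    have hy := hρ.lip A y x
    rw [dist_comm] at hy
    exact ⟨⟨⟨g⁻¹, hmem⟩, by linarith⟩, ⟨⟨g⁻¹, hmem⟩, by linarith⟩⟩

variable {o : X} {D0 : ℝ} {v0 : V} {ρ : Set V → X → ℝ} {E0 : Set (Set V)} {C : ℝ}

lemma Ins.symm (h : Dat G W o D0 v0 ρ E0 C) {A : Set V} {x : X} (hi : Ins G ρ E0 C A x) :
    Ins G ρ E0 C Aᶜ x := by
  obtain ⟨⟨k, hk⟩, h2⟩ := hi
  refine ⟨⟨k, by rw [Set.smul_set_compl]; exact h.sym _ hk⟩, ?_⟩
  rw [h.rho.symm]; exact h2

lemma Ins.symm' (h : Dat G W o D0 v0 ρ E0 C) {A : Set V} {x : X} (hi : Ins G ρ E0 C Aᶜ x) :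
    Ins G ρ E0 C A x := by
  have := hi.symm h
  rwa [compl_compl] at this

lemma Dat.mem_of (h : Dat G W o D0 v0 ρ E0 C) {A : Set V} (hk : ∃ k : G, k • A ∈ E0) : A ∈ W := by
  obtain ⟨k, hk⟩ := hk
  have := h.act _ (h.sub _ hk) k⁻¹
  rwa [inv_smul_smul] at this

/-- uniform cocompactness on the walls of `E0` -/
lemma Dat.unif (h : Dat G W o D0 v0 ρ E0 C) (r : ℝ) : ∃ R : ℝ, ∀ A : Set V, ∀ k : G,
    k • A ∈ E0 → ∀ x : X, ρ A x ≤ r → ∃ g : G, g • k • A = k • A ∧ dist (g • k • x) o ≤ R := by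
  classical
  have hc : ∀ e : Set V, ∃ R : ℝ, e ∈ E0 → ∀ x, ρ e x ≤ r →
      ∃ g ∈ MulAction.stabilizer G e, dist (g • x) o ≤ R := by
    intro e
    by_cases he : e ∈ E0
    · obtain ⟨R, hR⟩ := h.rho.coc e (h.sub e he) o r
      exact ⟨R, fun _ => hR⟩
    · exact ⟨0, fun h => absurd h he⟩
  choose R hR using hc
  obtain ⟨M, hM⟩ := (h.fin.image R).bddAbove
  refine ⟨M, fun A k hk x hx => ?_⟩
  rw [← h.rho.inv A (h.mem_of ⟨k, hk⟩) k x] at hx
  obtain ⟨g, hg, hgx⟩ := hR (k • A) hk (k • x) hx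
  exact ⟨g, MulAction.mem_stabilizer_iff.1 hg, hgx.trans (hM ⟨_, hk, rfl⟩)⟩

lemma Dat.loc_fin (h : Dat G W o D0 v0 ρ E0 C) (r : ℝ) :
    {A : Set V | (∃ k : G, k • A ∈ E0) ∧ ρ A o ≤ r}.Finite := by
  have := h.geo.isom
  obtain ⟨R, hR⟩ := h.unif r
  refine (((finite_short h.geo o R).prod h.fin).image
    (fun z : G × Set V => z.1⁻¹ • z.2)).subset ?_
  rintro A ⟨⟨k, hk⟩, he⟩
  obtain ⟨g, h1, h3⟩ := hR A k hk o he
  refine ⟨(g * k, k • A), ⟨?_, hk⟩, ?_⟩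
  · show dist o ((g * k) • o) ≤ R
    rw [dist_comm, mul_smul]; exact h3
  · show (g * k)⁻¹ • (k • A) = A
    rw [inv_smul_eq_iff, mul_smul, h1]

lemma Dat.side (h : Dat G W o D0 v0 ρ E0 C) (A : Set V) (x : X) :
    Sd G o D0 v0 A x ∨ Sd G o D0 v0 Aᶜ x := by
  obtain ⟨g, hg⟩ := h.cov x
  by_cases hA : g • v0 ∈ A
  · exact Or.inl ⟨g, hg, hA⟩
  · exact Or.inr ⟨g, hg, hA⟩

lemma Dat.side_smul (h : Dat G W o D0 v0 ρ E0 C) (k : G) {A : Set V} {x : X}
    (hs : Sd G o D0 v0 A x) : Sd G o D0 v0 (k • A) (k • x) := by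
  have := h.geo.isom
  obtain ⟨g, h1, h2⟩ := hs
  refine ⟨k * g, ?_, ?_⟩
  · rw [mul_smul, dist_smul]; exact h1
  · rw [mul_smul]; exact Set.smul_mem_smul_set h2

lemma Dat.ins_smul (h : Dat G W o D0 v0 ρ E0 C) (k : G) {A : Set V} {x : X}
    (hs : Ins G ρ E0 C A x) : Ins G ρ E0 C (k • A) (k • x) := by
  have hA := h.mem_of hs.1
  obtain ⟨⟨g, hg⟩, h2⟩ := hs
  refine ⟨⟨g * k⁻¹, ?_⟩, ?_⟩
  · rw [mul_smul, inv_smul_smul]; exact hg
  · rw [h.rho.inv A hA]; exact h2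

/-- not both sides -/
lemma Dat.one_side (h : Dat G W o D0 v0 ρ E0 C) {A : Set V} (hA : A ∈ W) {x y : X}
    (hxy : dist x y ≤ 1) (h1 : Sd G o D0 v0 Aᶜ x) (h2 : Sd G o D0 v0 A y)
    (h3 : ¬ Ins G ρ E0 C A x ∨ ¬ Ins G ρ E0 C A y) : False := by
  obtain ⟨e1, e2⟩ := h.cross A hA x y hxy h1 h2
  rcases h3 with h3 | h3
  · exact h3 e1
  · exact h3 e2

variable {k : ℕ}

lemma Dat.side_all (h : Dat G W o D0 v0 ρ E0 C) {A : Set V} (hA : A ∈ W) {x : X}
    (hx : ¬ Ins G ρ E0 C A x) (hs : Sd G o D0 v0 A x) {g : G} (hg : dist x (g • o) ≤ D0) :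
    g • v0 ∈ A := by
  by_contra hc
  exact h.one_side hA (x := x) (y := x) (by rw [dist_self]; exact zero_le_one)
    ⟨g, hg, hc⟩ hs (Or.inl hx)

lemma Dat.side_all' (h : Dat G W o D0 v0 ρ E0 C) {A : Set V} (hA : A ∈ W) {x : X}
    (hx : ¬ Ins G ρ E0 C A x) (hs : Sd G o D0 v0 Aᶜ x) {g : G} (hg : dist x (g • o) ≤ D0) :
    g • v0 ∈ Aᶜ :=
  h.side_all (h.compl A hA) (fun hi => hx (hi.symm' h)) hs hg

lemma Dat.cont (h : Dat G W o D0 v0 ρ E0 C) (A : Set V) : Continuous (ρ A) := by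
  have : LipschitzWith 1 (ρ A) := LipschitzWith.of_le_add_mul 1 fun x y => by
    rw [NNReal.coe_one, one_mul]; exact h.rho.lip A x y
  exact this.continuous

lemma Dat.closed (h : Dat G W o D0 v0 ρ E0 C) (A : Set V) {f : E k → X} (hf : Isometry f) :
    IsClosed {z | Ins G ρ E0 C A (f z)} := by
  by_cases hk : ∃ g : G, g • A ∈ E0
  · have e : {z | Ins G ρ E0 C A (f z)} = {z | ρ A (f z) ≤ C} := by
      ext z
      exact ⟨fun hz => hz.2, fun hz => ⟨hk, hz⟩⟩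
    rw [e]
    exact isClosed_le ((h.cont A).comp hf.continuous) continuous_const
  · have e : {z | Ins G ρ E0 C A (f z)} = ∅ := by
      ext z
      exact ⟨fun hz => hk hz.1, fun hz => hz.elim⟩
    rw [e]
    exact isClosed_empty

lemma Dat.convex (h : Dat G W o D0 v0 ρ E0 C) {A : Set V} (hA : A ∈ W) {f : E k → X}
    (hf : Isometry f) : Convex ℝ {z | Ins G ρ E0 C A (f z)} := by
  intro x hx y hy s t hs ht hst
  refine ⟨hx.1, ?_⟩
  have e1 : dist x (s • x + t • y) = t * dist x y := by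
    rw [dist_eq_norm, dist_eq_norm, ← abs_of_nonneg ht, ← Real.norm_eq_abs, ← norm_smul,
      Real.norm_eq_abs, abs_of_nonneg ht]
    congr 1
    have : s = 1 - t := by linarith
    rw [this]; module
  have e2 : dist (s • x + t • y) y = s * dist x y := by
    rw [dist_eq_norm, dist_eq_norm, ← abs_of_nonneg hs, ← Real.norm_eq_abs, ← norm_smul,
      Real.norm_eq_abs, abs_of_nonneg hs]
    congr 1
    have : t = 1 - s := by linarith
    rw [this]; module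
  have h1 := h.rho.conv A hA (f x) (f y) (f (s • x + t • y)) (by
    rw [hf.dist_eq, hf.dist_eq, hf.dist_eq, e1, e2, ← add_mul, add_comm t, hst, one_mul])
  rw [hf.dist_eq, hf.dist_eq, hf.dist_eq, e1, e2] at h1
  rcases eq_or_lt_of_le (dist_nonneg (x := x) (y := y)) with h0 | h0
  · have : s • x + t • y = x := by
      rw [← dist_eq_zero.1 h0.symm, ← add_smul, hst, one_smul]
    rw [this]; exact hx.2
  · have h2 : s * dist x y * ρ A (f x) + t * dist x y * ρ A (f y) ≤ dist x y * C := by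
      have i1 := mul_le_mul_of_nonneg_left hx.2 (mul_nonneg hs h0.le)
      have i2 := mul_le_mul_of_nonneg_left hy.2 (mul_nonneg ht h0.le)
      have i3 : dist x y * C = s * dist x y * C + t * dist x y * C := by
        rw [← add_mul, ← add_mul, hst, one_mul]
      linarith
    exact le_of_mul_le_mul_left (h1.trans h2) h0

/-- points of a convex set outside are on the same side -/
lemma Dat.same (h : Dat G W o D0 v0 ρ E0 C) {A : Set V} (hA : A ∈ W) {f : E k → X}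
    (hf : Isometry f) {H : Set (E k)} (hH : Convex ℝ H) (hd : ∀ z ∈ H, ¬ Ins G ρ E0 C A (f z))
    {z w : E k} (hz : z ∈ H) (hw : w ∈ H) (hs : Sd G o D0 v0 A (f z)) :
    Sd G o D0 v0 A (f w) := by
  obtain ⟨N, hN⟩ := exists_nat_gt ‖w - z‖
  have hN0 : (0 : ℝ) < N := lt_of_le_of_lt (norm_nonneg _) hN
  have hmem : ∀ i : ℕ, i ≤ N → z + ((i : ℝ) / N) • (w - z) ∈ H := by
    intro i hi
    refine hH.add_smul_sub_mem hz hw ⟨by positivity, ?_⟩
    rw [div_le_one hN0]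
    exact_mod_cast hi
  have key : ∀ i : ℕ, i ≤ N → Sd G o D0 v0 A (f (z + ((i : ℝ) / N) • (w - z))) := by
    intro i
    induction i with
    | zero => intro _; simpa using hs
    | succ i ih =>
      intro hi
      have h1 := ih (by omega)
      rcases h.side A (f (z + (((i + 1 : ℕ) : ℝ) / N) • (w - z))) with h2 | h2
      · exact h2
      · refine (h.one_side hA ?_ h2 h1 (Or.inl (hd _ (hmem _ hi)))).elim
        rw [hf.dist_eq, dist_eq_norm]
        have e : z + (((i + 1 : ℕ) : ℝ) / N) • (w - z) - (z + ((i : ℝ) / N) • (w - z)) =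
            (1 / (N : ℝ)) • (w - z) := by
          push_cast
          rw [add_div]
          module
        rw [e, norm_smul, Real.norm_of_nonneg (by positivity), div_mul_eq_mul_div, one_mul,
          div_le_one hN0]
        exact hN.le
  have h1 := key N le_rfl
  rw [div_self hN0.ne', one_smul, add_sub_cancel] at h1
  exact h1

/-- the wall of `A` separates the flat `f` along the slab with the centre `p` and the normal
vector `n` -/
def Sep (G : Type) [Group G] [MulAction G V] [MulAction G X] (o : X)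
    (D0 : ℝ) (v0 : V) (ρ : Set V → X → ℝ) (E0 : Set (Set V)) (C : ℝ) (f : E k → X) (A : Set V)
    (p n : E k) (M : ℝ) : Prop :=
  (∀ z, M ≤ inner ℝ n (z - p) → ¬ Ins G ρ E0 C A (f z) ∧ Sd G o D0 v0 A (f z)) ∧
    ∀ z, inner ℝ n (z - p) ≤ -M → ¬ Ins G ρ E0 C A (f z) ∧ Sd G o D0 v0 Aᶜ (f z)

lemma Sep.neg (h : Dat G W o D0 v0 ρ E0 C) {f : E k → X} {A : Set V} {p n : E k} {M : ℝ}
    (hs : Sep G o D0 v0 ρ E0 C f A p (-n) M) : Sep G o D0 v0 ρ E0 C f Aᶜ p n M := by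
  refine ⟨fun z hz => ?_, fun z hz => ?_⟩
  · obtain ⟨h1, h2⟩ := hs.2 z (by rw [inner_neg_left]; linarith)
    exact ⟨fun hi => h1 (hi.symm' h), h2⟩
  · obtain ⟨h1, h2⟩ := hs.1 z (by rw [inner_neg_left]; linarith)
    exact ⟨fun hi => h1 (hi.symm' h), by rw [compl_compl]; exact h2⟩

theorem Dat.sep (h : Dat G W o D0 v0 ρ E0 C) {A : Set V} (hA : A ∈ W) {f : E k → X}
    (hf : Isometry f) {p z1 z2 : E k} {M : ℝ} (hz1 : dist z1 p ≤ M) (hz2 : dist z2 p ≤ M)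
    (h1 : ¬ Ins G ρ E0 C A (f z1)) (h2 : ¬ Ins G ρ E0 C A (f z2))
    (s1 : Sd G o D0 v0 Aᶜ (f z1)) (s2 : Sd G o D0 v0 A (f z2)) :
    ∃ n : E k, ‖n‖ = 1 ∧ Sep G o D0 v0 ρ E0 C f A p n M := by
  have contra : ∀ x : X, ¬ Ins G ρ E0 C A x → Sd G o D0 v0 Aᶜ x → Sd G o D0 v0 A x →
      False := fun x e1 e2 e3 =>
    h.one_side hA (by rw [dist_self]; exact zero_le_one) e2 e3 (Or.inl e1)
  have hsym : ∀ x : X, ¬ Ins G ρ E0 C A x → ¬ Ins G ρ E0 C Aᶜ x := fun x hx hi =>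
    hx (hi.symm' h)
  -- the convex set is not empty
  obtain ⟨z0, hz0⟩ : ∃ z, Ins G ρ E0 C A (f z) := by
    by_contra hc
    push Not at hc
    have e := h.same hA hf (H := univ) convex_univ (fun z _ => hc z) (mem_univ z2)
      (mem_univ z1) s2
    exact contra _ h1 s1 e
  have sepa : ∀ z : E k, ¬ Ins G ρ E0 C A (f z) → ∃ (n : E k) (c u : ℝ), ‖n‖ = 1 ∧ 0 < c ∧
      (∀ w, u ≤ c * inner ℝ n w → ¬ Ins G ρ E0 C A (f w)) ∧ u ≤ c * inner ℝ n z := by
    intro z hz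
    obtain ⟨φ, u, hu1, hu2⟩ := geometric_hahn_banach_closed_point (h.convex hA hf)
      (h.closed A hf) hz
    set m := (InnerProductSpace.toDual ℝ (E k)).symm φ with hm
    have hφ : ∀ w, φ w = inner ℝ m w := by
      intro w
      rw [hm, InnerProductSpace.toDual_symm_apply]
    have hm0 : m ≠ 0 := by
      intro h0
      have e1 := hu1 z0 hz0
      rw [hφ, h0, inner_zero_left] at e1
      rw [hφ, h0, inner_zero_left] at hu2
      linarith
    have hmn : 0 < ‖m‖ := norm_pos_iff.2 hm0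
    have e : ∀ w, ‖m‖ * inner ℝ (‖m‖⁻¹ • m) w = φ w := by
      intro w
      rw [real_inner_smul_left, hφ, ← mul_assoc, mul_inv_cancel₀ hmn.ne', one_mul]
    refine ⟨‖m‖⁻¹ • m, ‖m‖, u, ?_, hmn, fun w hw hi => ?_, ?_⟩
    · rw [norm_smul, norm_inv, norm_norm, inv_mul_cancel₀ hmn.ne']
    · rw [e] at hw
      have := hu1 w hi
      linarith
    · rw [e]; exact hu2.le
  obtain ⟨n1, c1, u1, hn1, hc1, hd1, hu1⟩ := sepa z1 h1
  obtain ⟨n2, c2, u2, hn2, hc2, hd2, hu2⟩ := sepa z2 h2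
  have hconv : ∀ (n : E k) (c u : ℝ), Convex ℝ {w : E k | u ≤ c * inner ℝ n w} := by
    intro n c u x hx y hy s t hs ht hst
    show u ≤ c * inner ℝ n (s • x + t • y)
    rw [inner_add_right, real_inner_smul_right, real_inner_smul_right]
    have i1 := mul_le_mul_of_nonneg_left (show u ≤ c * inner ℝ n x from hx) hs
    have i2 := mul_le_mul_of_nonneg_left (show u ≤ c * inner ℝ n y from hy) ht
    have i3 : u = s * u + t * u := by rw [← add_mul, hst, one_mul]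
    rw [i3]
    linarith
  have side1 : ∀ w, u1 ≤ c1 * inner ℝ n1 w → Sd G o D0 v0 Aᶜ (f w) := fun w hw =>
    h.same (h.compl A hA) hf (hconv n1 c1 u1) (fun z hz => hsym _ (hd1 z hz)) hu1 hw s1
  have side2 : ∀ w, u2 ≤ c2 * inner ℝ n2 w → Sd G o D0 v0 A (f w) := fun w hw =>
    h.same hA hf (hconv n2 c2 u2) hd2 hu2 hw s2
  have hneg : n2 = -n1 := by
    refine FL.unit_eq_neg hn1 hn2 ?_
    by_contra hc
    push Not at hc
    have hpos : 0 < 1 + inner ℝ n1 n2 := by linarith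
    obtain ⟨y1, hy1⟩ := FL.large (c := c1 * (1 + inner ℝ n1 n2)) (u := u1) (by positivity)
    obtain ⟨y2, hy2⟩ := FL.large (c := c2 * (1 + inner ℝ n1 n2)) (u := u2) (by positivity)
    have i1 : inner ℝ n1 (max y1 y2 • (n1 + n2)) = max y1 y2 * (1 + inner ℝ n1 n2) := by
      rw [real_inner_smul_right, inner_add_right, real_inner_self_eq_norm_sq, hn1]
      ring
    have i2 : inner ℝ n2 (max y1 y2 • (n1 + n2)) = max y1 y2 * (1 + inner ℝ n1 n2) := by
      rw [real_inner_smul_right, inner_add_right, real_inner_self_eq_norm_sq, hn2,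
        real_inner_comm]
      ring
    have j1 := hy1 _ (le_max_left y1 y2)
    have j2 := hy2 _ (le_max_right y1 y2)
    have k1 : u1 ≤ c1 * inner ℝ n1 (max y1 y2 • (n1 + n2)) := by
      rw [i1]
      calc u1 ≤ _ := j1
        _ = _ := by ring
    have k2 : u2 ≤ c2 * inner ℝ n2 (max y1 y2 • (n1 + n2)) := by
      rw [i2]
      calc u2 ≤ _ := j2
        _ = _ := by ring
    exact contra _ (hd1 _ k1) (side1 _ k1) (side2 _ k2)
  have bound : ∀ (n z : E k), ‖n‖ = 1 → dist z p ≤ M → inner ℝ n (z - p) ≤ M := by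
    intro n z hn hz
    refine (real_inner_le_norm _ _).trans ?_
    rw [hn, one_mul, ← dist_eq_norm]; exact hz
  refine ⟨n2, hn2, fun z hz => ?_, fun z hz => ?_⟩
  · have i1 := bound n2 z2 hn2 hz2
    rw [inner_sub_right] at i1 hz
    have i2 : u2 ≤ c2 * inner ℝ n2 z := hu2.trans
      (mul_le_mul_of_nonneg_left (by linarith) hc2.le)
    exact ⟨hd2 _ i2, side2 _ i2⟩
  · have i1 := bound n1 z1 hn1 hz1
    rw [hneg, inner_neg_left] at hz
    rw [inner_sub_right] at i1 hz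
    have i2 : u1 ≤ c1 * inner ℝ n1 z := hu1.trans
      (mul_le_mul_of_nonneg_left (by linarith) hc1.le)
    exact ⟨hd1 _ i2, side1 _ i2⟩

/-- all points of the middle hyperplane are near the wall -/
lemma Dat.mid (h : Dat G W o D0 v0 ρ E0 C) {A : Set V} (hA : A ∈ W) {f : E k → X}
    (hf : Isometry f) {p n : E k} (hn : ‖n‖ = 1) {M : ℝ} (hM : 0 ≤ M)
    (hs : Sep G o D0 v0 ρ E0 C f A p n M) {q : E k} (hq : inner ℝ n (q - p) = (0 : ℝ)) :
    (∃ g : G, g • A ∈ E0) ∧ ρ A (f q) ≤ C + M := by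
  have e1 : ∀ t : ℝ, inner ℝ n (q + t • n - p) = t := by
    intro t
    rw [show q + t • n - p = (q - p) + t • n by abel, inner_add_right, hq,
      real_inner_smul_right, real_inner_self_eq_norm_sq, hn]
    ring
  by_contra hc
  have hd : ∀ z ∈ segment ℝ (q + (-M) • n) (q + M • n), ¬ Ins G ρ E0 C A (f z) := by
    intro z hz hi
    apply hc
    refine ⟨hi.1, ?_⟩
    have h1 := h.rho.lip A (f q) (f z)
    rw [hf.dist_eq] at h1
    have h2 : dist q z ≤ M := by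
      have hsub : segment ℝ (q + (-M) • n) (q + M • n) ⊆ closedBall q M := by
        refine (convex_closedBall q M).segment_subset ?_ ?_
        · rw [mem_closedBall, dist_eq_norm, add_sub_cancel_left, norm_smul, hn, norm_neg,
            Real.norm_of_nonneg hM, mul_one]
        · rw [mem_closedBall, dist_eq_norm, add_sub_cancel_left, norm_smul, hn,
            Real.norm_of_nonneg hM, mul_one]
      rw [dist_comm]
      exact mem_closedBall.1 (hsub hz)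
    linarith [hi.2]
  obtain ⟨i1, i2⟩ := hs.1 (q + M • n) (by rw [e1])
  obtain ⟨j1, j2⟩ := hs.2 (q + (-M) • n) (by rw [e1])
  have := h.same hA hf (convex_segment _ _) hd (right_mem_segment ℝ _ _)
    (left_mem_segment ℝ _ _) i2
  exact h.one_side hA (by rw [dist_self]; exact zero_le_one) j2 this (Or.inl j1)

/-- transverse half-spaces -/
def Tv (A B : Set V) : Prop :=
  (A ∩ B).Nonempty ∧ (A ∩ Bᶜ).Nonempty ∧ (Aᶜ ∩ B).Nonempty ∧ (Aᶜ ∩ Bᶜ).Nonempty

/-- separating slabs which are not parallel come from transverse walls -/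
lemma Dat.tv (h : Dat G W o D0 v0 ρ E0 C) {A A' : Set V} (hA : A ∈ W) (hA' : A' ∈ W)
    {f : E k → X} {p n p' n' : E k} {M M' : ℝ} (hn : ‖n‖ = 1)
    (hn' : ‖n'‖ = 1) (hs : Sep G o D0 v0 ρ E0 C f A p n M)
    (hs' : Sep G o D0 v0 ρ E0 C f A' p' n' M') (hc1 : n' ≠ n) (hc2 : n' ≠ -n) : Tv A A' := by
  have c1 : (-1 : ℝ) < inner ℝ n n' := by
    by_contra h1
    exact hc2 (FL.unit_eq_neg hn hn' (not_lt.1 h1))
  have c2 : inner ℝ n n' < (1 : ℝ) := by
    by_contra h1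
    have h2 := FL.unit_eq_neg (n := -n) (m := n') (by rw [norm_neg, hn]) hn'
      (by rw [inner_neg_left]; linarith)
    rw [neg_neg] at h2
    exact hc1 h2
  set c : ℝ := inner ℝ n n' with hcd
  have hdet : 0 < 1 - c ^ 2 := by nlinarith
  -- points with prescribed coordinates
  have hex : ∀ s t : ℝ, ∃ z : E k, inner ℝ n z = s ∧ inner ℝ n' z = t := by
    intro s t
    refine ⟨((s - c * t) / (1 - c ^ 2)) • n + ((t - c * s) / (1 - c ^ 2)) • n', ?_, ?_⟩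
    · rw [inner_add_right, real_inner_smul_right, real_inner_smul_right,
        real_inner_self_eq_norm_sq, hn, ← hcd]
      field_simp
      ring
    · rw [inner_add_right, real_inner_smul_right, real_inner_smul_right,
        real_inner_self_eq_norm_sq, hn', real_inner_comm, ← hcd]
      field_simp
      ring
  have hv : ∀ s t : ℝ, ∃ (z : E k) (g : G), inner ℝ n (z - p) = s ∧ inner ℝ n' (z - p') = t ∧
      dist (f z) (g • o) ≤ D0 := by
    intro s t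
    obtain ⟨z, hz1, hz2⟩ := hex (s + inner ℝ n p) (t + inner ℝ n' p')
    obtain ⟨g, hg⟩ := h.cov (f z)
    exact ⟨z, g, by rw [inner_sub_right, hz1]; ring, by rw [inner_sub_right, hz2]; ring, hg⟩
  obtain ⟨z1, g1, x1, y1, d1⟩ := hv M M'
  obtain ⟨z2, g2, x2, y2, d2⟩ := hv M (-M')
  obtain ⟨z3, g3, x3, y3, d3⟩ := hv (-M) M'
  obtain ⟨z4, g4, x4, y4, d4⟩ := hv (-M) (-M')
  have p1 := hs.1 z1 x1.ge
  have q1 := hs'.1 z1 y1.ge
  have p2 := hs.1 z2 x2.ge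
  have q2 := hs'.2 z2 y2.le
  have p3 := hs.2 z3 x3.le
  have q3 := hs'.1 z3 y3.ge
  have p4 := hs.2 z4 x4.le
  have q4 := hs'.2 z4 y4.le
  exact ⟨⟨_, h.side_all hA p1.1 p1.2 d1, h.side_all hA' q1.1 q1.2 d1⟩,
    ⟨_, h.side_all hA p2.1 p2.2 d2, h.side_all' hA' q2.1 q2.2 d2⟩,
    ⟨_, h.side_all' hA p3.1 p3.2 d3, h.side_all hA' q3.1 q3.2 d3⟩,
    ⟨_, h.side_all' hA p4.1 p4.2 d4, h.side_all' hA' q4.1 q4.2 d4⟩⟩

end Pool.Agent.V7H57.WL
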