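import Pool.Agent.V7H57.WL.Ext1

/-!
# Rank rigidity with stabilisers which are extensions of groups with rank one elements
-/

set_option autoImplicit false

open Metric Set Filter Topology
open Pool.Agent.TH60.FP Pool.Agent.TH60.FP.Strip Pool.Agent.Y34.HB Pool.Agent.Y34.EL
open Pool.Agent.T6.H46.RR Pool.Agent.T6.H67.TA Pool.Agent.T6.H46.RC Pool.Agent.V7H57.RK
open scoped Pointwise

namespace Pool.Agent.V7H57.WL

variable {G : Type} [Group G] {X : Type} [MetricSpace X] [MulAction G X]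
variable {V : Type} [MulAction G V] {A B : Set V} {t₀ : G}

/-- the conjugate subgroup -/
def cj (K : Subgroup G) (h : G) : Subgroup G := K.map (MulAut.conj h).toMonoidHom

lemma mem_cj {K : Subgroup G} {h s : G} : s ∈ cj K h ↔ h⁻¹ * s * h ∈ K := by
  unfold cj
  rw [Subgroup.mem_map]
  constructor
  · rintro ⟨x, hx, rfl⟩
    have : h⁻¹ * ((MulAut.conj h).toMonoidHom x) * h = x := by
      show h⁻¹ * (h * x * h⁻¹) * h = x
      group
    rw [this]; exact hx
  · intro hs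
    refine ⟨_, hs, ?_⟩
    show h * (h⁻¹ * s * h) * h⁻¹ = s
    group

lemma cj_le {K : Subgroup G} (hK : K ≤ Kp G A B) (h : G) : cj K h ≤ Kp G (h • A) (h • B) := by
  rw [Kp_smul]
  exact Subgroup.map_mono hK

lemma cj_relIndex {K : Subgroup G} (hK : K.relIndex (Kp G A B) ≠ 0) (h : G) :
    (cj K h).relIndex (Kp G (h • A) (h • B)) ≠ 0 := by
  rw [Kp_smul]
  unfold cj
  rw [Subgroup.relIndex_map_map_of_injective _ _ (MulAut.conj h).injective]
  exact hK

/-- the one-sided stable pair -/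
lemma exists_inner_stable
    (hfin : ∀ u v : V, {C : Set V | C ∈ Wp G A B ∧ u ∈ C ∧ v ∉ C}.Finite)
    (hBA : B ⊆ A) (ht₀ : t₀ • A ⊂ B) {N : Subgroup G}
    (hch : ∀ J : ℕ → Subgroup G, J 0 ≤ N → (∀ n, J (n + 1) ≤ J n) →
      ∃ n, (J (n + 1)).relIndex (J n) ≠ 0) :
    ∃ h₀ : G, h₀ • A ⊆ B ∧ ∀ Q' ∈ Wp G A B, Q' ⊆ h₀ • B →
      (N ⊓ Kp G A Q').relIndex (N ⊓ Kp G A (h₀ • B)) ≠ 0 := by
  classical
  have htA : t₀ • A ⊂ A := ht₀.trans_subset hBA
  obtain ⟨hne, hnu⟩ := ne_of_shift htA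
  have hneB : B.Nonempty := (hne.smul_set (a := t₀)).mono ht₀.subset
  have hnuB : Bᶜ.Nonempty := hnu.mono (compl_subset_compl.2 hBA)
  have hD := cls_Wp hfin hne hnu hneB hnuB
  have hA0 : A ∈ Wp G A B := ⟨1, Or.inl (one_smul _ _).symm⟩
  have hB1 : ∀ g : G, g • B ∈ Wp G A B := fun g => ⟨g, Or.inr rfl⟩
  by_contra hcon
  push Not at hcon
  let Z := {h : G // h • A ⊆ B}
  have step : ∀ s : Z, ∃ s' : Z, s'.1 • B ⊆ s.1 • B ∧
      (N ⊓ Kp G A (s'.1 • B)).relIndex (N ⊓ Kp G A (s.1 • B)) = 0 := by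
    rintro ⟨h, hh⟩
    obtain ⟨Q', hQ', h1, h2⟩ := hcon h hh
    obtain ⟨h', h3⟩ := down_A ht₀ Q' hQ'
    have h4 : h' • B ⊆ Q' := (Set.smul_set_mono hBA).trans h3
    have h5 : h • B ⊆ B := (Set.smul_set_mono hBA).trans hh
    refine ⟨⟨h', h3.trans (h1.trans h5)⟩, h4.trans h1, ?_⟩
    by_contra hc
    refine Subgroup.relIndex_ne_zero_trans ?_ hc h2
    refine relIndex_inf_inf ?_
    have h6 : Q' ⊆ A := h1.trans (h5.trans hBA)
    exact hD.between hA0 (hB1 h') hA0 hQ' (h4.trans h6) Subset.rfl h4 h6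
  choose f hf1 hf2 using step
  let s : ℕ → Z := fun n => f^[n] ⟨t₀, ht₀.subset⟩
  have hs : ∀ n, s (n + 1) = f (s n) := fun n => Function.iterate_succ_apply' f n _
  have hdown : ∀ n k : ℕ, (s (n + k)).1 • B ⊆ (s n).1 • B := by
    intro n k
    induction k with
    | zero => exact Subset.rfl
    | succ k ih =>
      rw [← add_assoc, hs]
      exact (hf1 _).trans ih
  have hle : ∀ k n : ℕ, k ≤ n → (s n).1 • B ⊆ (s k).1 • B := by
    intro k n hkn
    have := hdown k (n - k)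
    rwa [Nat.add_sub_cancel' hkn] at this
  have hsub : ∀ n, (s n).1 • B ⊆ A := fun n =>
    (Set.smul_set_mono hBA).trans ((s n).2.trans hBA)
  set J : ℕ → Subgroup G := fun n => N ⊓ ⨅ k : Fin (n + 1), Kp G A ((s k).1 • B) with hJ
  have memJ : ∀ n (a : G), a ∈ J n ↔ a ∈ N ∧ ∀ k : ℕ, k ≤ n → a ∈ Kp G A ((s k).1 • B) := by
    intro n a
    rw [hJ, Subgroup.mem_inf, Subgroup.mem_iInf]
    exact ⟨fun h => ⟨h.1, fun k hk => h.2 ⟨k, by omega⟩⟩,
      fun h => ⟨h.1, fun k => h.2 k (by omega)⟩⟩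
  have hJle : ∀ n, J n ≤ N ⊓ Kp G A ((s n).1 • B) := fun n a ha =>
    ⟨((memJ n a).1 ha).1, ((memJ n a).1 ha).2 n le_rfl⟩
  have hJfin : ∀ n, (J n).relIndex (N ⊓ Kp G A ((s n).1 • B)) ≠ 0 := by
    intro n
    refine relIndex_inf_inf (Subgroup.relIndex_iInf_ne_zero fun k : Fin (n + 1) => ?_)
    exact hD.between hA0 (hB1 _) hA0 (hB1 _) (hsub n) Subset.rfl (hle k n (by omega)) (hsub k)
  obtain ⟨n, hn⟩ := hch J (fun a ha => ((memJ 0 a).1 ha).1)
    (fun n a ha => (memJ n a).2 ⟨((memJ (n + 1) a).1 ha).1,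
      fun k hk => ((memJ (n + 1) a).1 ha).2 k (by omega)⟩)
  have h1 := Subgroup.relIndex_ne_zero_trans hn (hJfin n)
  have h2 := relIndex_le_left (hJle (n + 1)) h1
  rw [hs] at h2
  exact h2 (hf2 (s n))

variable {E : Set X} {K : Subgroup G} {hE : CC K E} {Q Y F : Type} [Group Q]
  [MetricSpace Y] [MulAction Q Y] [MetricSpace F] {ρ : K →* Q} {e : E ≃ Y × F}

/-- the images of the intersections with the conjugates by the nested elements have finite index -/
theorem inner_main (hG : Geo X G) (hGC : GC X)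
    (hfin : ∀ u v : V, {C : Set V | C ∈ Wp G A B ∧ u ∈ C ∧ v ∉ C}.Finite)
    (hBA : B ⊆ A) (ht₀ : t₀ • A ⊂ B)
    {d : ℕ} (hd : ∀ S : Finset G, (∀ g ∈ S, ∀ g' ∈ S, g ≠ g' → TT A B g g') → S.card ≤ d)
    (hK1 : K ≤ Kp G A B) (hK2 : K.relIndex (Kp G A B) ≠ 0) (hE : CC K E) (hQ : Infinite Q)
    (hch : ∀ J : ℕ → Subgroup G, J 0 ≤ Kr ρ → (∀ n, J (n + 1) ≤ J n) →
      ∃ n, (J (n + 1)).relIndex (J n) ≠ 0)
    (hbig : ∀ h : G, h • A ⊆ B → ((IK K h).map ρ).index ≠ 0) :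
    ∃ (h : G) (B₀ : Set X), h • B ⊆ B ∧ CC (Kp G A (h • B)) B₀ ∧ Nontrivial B₀ ∧
      ∃ (Z : Type) (_ : MetricSpace Z) (_ : Nontrivial Z) (e : X ≃ Z × B₀),
        ∀ x x' : X, dist x x' ^ 2 = dist (e x).1 (e x').1 ^ 2 + dist (e x).2 (e x').2 ^ 2 := by
  have := hG.isom
  have := hG.proper
  have htA : t₀ • A ⊂ A := ht₀.trans_subset hBA
  obtain ⟨hne, hnu⟩ := ne_of_shift htA
  have hneB : B.Nonempty := (hne.smul_set (a := t₀)).mono ht₀.subset
  have hnuB : Bᶜ.Nonempty := hnu.mono (compl_subset_compl.2 hBA)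
  have hD := cls_Wp hfin hne hnu hneB hnuB
  have hA0 : A ∈ Wp G A B := ⟨1, Or.inl (one_smul _ _).symm⟩
  have hB0 : B ∈ Wp G A B := ⟨1, Or.inr (one_smul _ _).symm⟩
  have hA1 : ∀ g : G, g • A ∈ Wp G A B := fun g => ⟨g, Or.inl rfl⟩
  have hB1 : ∀ g : G, g • B ∈ Wp G A B := fun g => ⟨g, Or.inr rfl⟩
  obtain ⟨h₀, hh₀, hstab⟩ := exists_inner_stable hfin hBA ht₀ hch
  set B' : Set V := h₀ • B with hB'
  set L : Subgroup G := Kp G A B' with hL
  have b1 : B' ⊆ h₀ • A := Set.smul_set_mono hBA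
  have b2 : B' ⊆ B := b1.trans hh₀
  have b3 : B' ⊆ A := b2.trans hBA
  -- the convex set of the longer pair
  obtain ⟨E1, -, hE1⟩ := cc_inter hG hE (L := K ⊓ cj K h₀) h₀ (by
    intro s
    rw [Subgroup.mem_inf, mem_cj])
  have hKle : K ⊓ cj K h₀ ≤ L := by
    intro s hs
    obtain ⟨s1, s2⟩ := Subgroup.mem_inf.1 hs
    exact mem_Kp.2 ⟨(mem_Kp.1 (hK1 s1)).1, (mem_Kp.1 (cj_le hK1 h₀ s2)).2⟩
  have hKL : K.relIndex L ≠ 0 := Subgroup.relIndex_ne_zero_trans hK2
    (hD.between hA0 (hB1 h₀) hA0 hB0 b3 Subset.rfl b2 hBA)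
  obtain ⟨E2, hE2⟩ := cc_fin hG hKle (Subgroup.relIndex_inf_ne_zero hKL
    (Subgroup.relIndex_ne_zero_trans (cj_relIndex hK2 h₀)
      (hD.between hA0 (hB1 h₀) (hA1 h₀) (hB1 h₀) b1 (hh₀.trans hBA) Subset.rfl b3))) hE1
  have ht' : (h₀ * t₀) • A ⊂ B' := by
    rw [mul_smul]
    exact smul_ssub h₀ ht₀
  have hfin' : ∀ u v : V, {C : Set V | C ∈ Wp G A B' ∧ u ∈ C ∧ v ∉ C}.Finite := by
    have : Wp G A B' = Wp G A B := by
      have := Wp_smul (A := A) (B := B) (1 : G) h₀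
      rwa [one_smul] at this
    rw [this]; exact hfin
  have hd' : ∀ S : Finset G, (∀ g ∈ S, ∀ g' ∈ S, g ≠ g' → TT A B' g g') → S.card ≤ d := by
    refine fun S hS => hd S fun g hg g' hg' hne => ?_
    obtain ⟨h1, h2, h3, h4⟩ := hS g hg g' hg' hne
    have key : ∀ C C' : Set V, B' ⊆ C → C ⊆ A → B' ⊆ C' → C' ⊆ A → Tv (g • C) (g' • C') := by
      intro C C' c1 c2 c3 c4
      refine ⟨h4.1.mono (inter_subset_inter (Set.smul_set_mono c1) (Set.smul_set_mono c3)),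
        h3.2.1.mono (inter_subset_inter (Set.smul_set_mono c1)
          (compl_subset_compl.2 (Set.smul_set_mono c4))),
        h2.2.2.1.mono (inter_subset_inter (compl_subset_compl.2 (Set.smul_set_mono c2))
          (Set.smul_set_mono c3)),
        h1.2.2.2.mono (inter_subset_inter (compl_subset_compl.2 (Set.smul_set_mono c2))
          (compl_subset_compl.2 (Set.smul_set_mono c4)))⟩
    exact ⟨key A A b3 Subset.rfl b3 Subset.rfl, key A B b3 Subset.rfl b2 hBA,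
      key B A b2 hBA b3 Subset.rfl, key B B b2 hBA b2 hBA⟩
  -- the convex set is near its nested translates
  have hI : ∀ g : G, g • A ⊆ B' → Bd E2 g := by
    intro g hg
    have c0 : g • B' ⊆ g • A := Set.smul_set_mono b3
    have c1 : g • B' ⊆ B' := c0.trans hg
    have c2 : g • B' ⊆ A := c1.trans b3
    have eB : g • B' = (g * h₀) • B := by rw [hB', mul_smul]
    have hgB : g • B' ∈ Wp G A B := by rw [eB]; exact hB1 _
    have a1 : (Kp G (g • A) (g • B')).relIndex (Kp G A (g • B')) ≠ 0 :=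
      hD.between hA0 hgB (hA1 g) hgB c0 (hg.trans b3) Subset.rfl c2
    have hin : (g * h₀) • A ⊆ B := by
      rw [mul_smul]
      exact (Set.smul_set_mono (hh₀.trans hBA)).trans (hg.trans b2)
    -- the index
    have a2 : (Kp G A (g • B')).relIndex (K ⊓ L) ≠ 0 := by
      refine relIndex_ext (ρ := ρ) inf_le_left ?_ ?_
      · set I' : Subgroup G := cj K (g * h₀) ⊓ K with hI'
        have hI1 : I'.subgroupOf K = IK K (g * h₀) := by
          ext s
          rw [Subgroup.mem_subgroupOf, mem_IK, hI', Subgroup.mem_inf, mem_cj]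
          exact ⟨fun h => h.1, fun h => ⟨h, s.2⟩⟩
        have hI2 : I' ≤ Kp G A (g • B') := by
          intro s hs
          obtain ⟨s1, s2⟩ := Subgroup.mem_inf.1 hs
          rw [eB]
          exact mem_Kp.2 ⟨(mem_Kp.1 (hK1 s2)).1, (mem_Kp.1 (cj_le hK1 _ s1)).2⟩
        have hI3 : L.relIndex I' ≠ 0 :=
          relIndex_le_right hI2 (hD.between hA0 hgB hA0 (hB1 h₀) c2 Subset.rfl c1 b3)
        have hI4 : (Kp G A (g • B') ⊓ (K ⊓ L)).relIndex I' ≠ 0 :=
          Subgroup.relIndex_inf_ne_zero (relIndex_of_le hI2)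
            (Subgroup.relIndex_inf_ne_zero (relIndex_of_le inf_le_right) hI3)
        have hI5 : ((Kp G A (g • B') ⊓ (K ⊓ L)).subgroupOf K).relIndex (I'.subgroupOf K) ≠ 0 := by
          rw [Subgroup.relIndex_subgroupOf inf_le_right]
          exact hI4
        have hI6 := map_relIndex ρ hI5
        rw [hI1] at hI6
        have hI7 := hbig _ hin
        rw [← Subgroup.relIndex_top_right] at hI7 ⊢
        exact Subgroup.relIndex_ne_zero_trans hI6 hI7
      · refine relIndex_le_left (inf_le_right (a := Kr ρ)) ?_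
        refine relIndex_le_right ?_ (hstab _ hgB c1)
        exact inf_le_inf_left _ inf_le_right
    have a3 : (Kp G A (g • B')).relIndex L ≠ 0 := by
      refine Subgroup.relIndex_ne_zero_trans a2 ?_
      rw [Subgroup.inf_relIndex_right]
      exact hKL
    exact bd_of_index hG hE2 (M := Kp G (g • A) (g • B'))
      (Subgroup.relIndex_ne_zero_trans a1 a3) fun s hs => mem_Kp_smul hs
  obtain ⟨B₀, hsub, h₁, hprod⟩ := prod_of_inner hG hGC hfin' b3 ht' hd' hE2 hI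
  refine ⟨h₀, B₀, b2, h₁, ?_, hprod⟩
  -- the factor is nontrivial
  rw [Set.nontrivial_coe_sort]
  by_contra hcon
  rw [Set.not_nontrivial_iff] at hcon
  obtain ⟨z, hz⟩ := h₁.ne
  have hLf : (L : Set G).Finite := (finite_short hG z 0).subset fun s hs => by
    have h2 : s • z = z := hcon (h₁.inv s hs z hz) hz
    show dist z (s • z) ≤ 0
    rw [h2, dist_self]
  have hIf : (IK K h₀ : Set K).Finite := by
    refine Set.Finite.of_injOn (f := fun s : K => (s : G)) ?_ (Subtype.val_injective.injOn) hLf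
    intro s hs
    have hs' : h₀⁻¹ * (s : G) * h₀ ∈ K := hs
    exact hKle (Subgroup.mem_inf.2 ⟨s.2, mem_cj.2 hs'⟩)
  have hMf : (((IK K h₀).map ρ : Subgroup Q) : Set Q).Finite := by
    rw [Subgroup.coe_map]
    exact hIf.image _
  have h9 := hbig h₀ hh₀
  rw [← Subgroup.relIndex_top_right] at h9
  have h10 := finite_of_index hMf h9
  exact Set.infinite_univ (by rwa [Subgroup.coe_top] at h10)

end Pool.Agent.V7H57.WL
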