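import Pool.Agent.V7H57.WL.Nest

/-!
# Indices of subgroups of an extension
-/

set_option autoImplicit false

open Set
open Pool.Agent.V7H57.RK
open scoped Pointwise

namespace Pool.Agent.V7H57.WL

variable {G : Type} [Group G]

lemma relIndex_of_reps {M L : Subgroup G} {F : Set G} (hF : F.Finite)
    (h : ∀ s ∈ L, ∃ r ∈ F, s * r⁻¹ ∈ M) : M.relIndex L ≠ 0 := by
  have hfin := hF.to_subtype
  have h1 : ∀ q : L ⧸ M.subgroupOf L, ∃ r : F, ((q.out : L) : G)⁻¹ * (r : G)⁻¹ ∈ M := by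
    intro q
    obtain ⟨r, hr, hr'⟩ := h ((q.out : L) : G)⁻¹ (L.inv_mem (q.out : L).2)
    exact ⟨⟨r, hr⟩, hr'⟩
  choose f hf using h1
  have hinj : Function.Injective f := by
    intro q q' hqq
    have e1 := hf q
    have e2 := hf q'
    rw [hqq] at e1
    have e3 : (((q.out : L) : G)⁻¹ * (f q' : G)⁻¹) * (((q'.out : L) : G)⁻¹ * (f q' : G)⁻¹)⁻¹ ∈ M :=
      M.mul_mem e1 (M.inv_mem e2)
    have e4 : (((q.out : L) : G)⁻¹ * (f q' : G)⁻¹) * (((q'.out : L) : G)⁻¹ * (f q' : G)⁻¹)⁻¹ =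
        ((q.out : L) : G)⁻¹ * ((q'.out : L) : G) := by group
    rw [e4] at e3
    have e5 : (QuotientGroup.mk (q.out : L) : L ⧸ M.subgroupOf L) = QuotientGroup.mk q'.out :=
      QuotientGroup.eq.2 (Subgroup.mem_subgroupOf.2 e3)
    rwa [QuotientGroup.out_eq', QuotientGroup.out_eq'] at e5
  have : Finite (L ⧸ M.subgroupOf L) := Finite.of_injective f hinj
  exact Subgroup.index_ne_zero_of_finite

lemma relIndex_of_le {M L : Subgroup G} (h : L ≤ M) : M.relIndex L ≠ 0 := by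
  rw [Subgroup.relIndex_eq_one.2 h]; exact one_ne_zero

lemma relIndex_le_left {M M' L : Subgroup G} (h : M ≤ M') (h1 : M.relIndex L ≠ 0) :
    M'.relIndex L ≠ 0 := fun h0 => h1 (Subgroup.relIndex_eq_zero_of_le_left h h0)

lemma relIndex_inf_inf {N M L : Subgroup G} (h : M.relIndex L ≠ 0) :
    (N ⊓ M).relIndex (N ⊓ L) ≠ 0 :=
  Subgroup.relIndex_inf_ne_zero (relIndex_of_le inf_le_left) (relIndex_le_right inf_le_right h)

lemma map_relIndex {Q : Type} [Group Q] (f : G →* Q) {M L : Subgroup G}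
    (h : M.relIndex L ≠ 0) : (M.map f).relIndex (L.map f) ≠ 0 := by
  obtain ⟨F, hF, hrep⟩ := exists_reps h
  refine relIndex_of_reps (hF.image f) ?_
  rintro _ ⟨s, hs, rfl⟩
  obtain ⟨r, hr, hr'⟩ := hrep s hs
  exact ⟨f r, ⟨r, hr, rfl⟩, ⟨s * r⁻¹, hr', by rw [map_mul, map_inv]⟩⟩

variable {K : Subgroup G} {Q : Type} [Group Q] {ρ : K →* Q}

/-- the kernel as a subgroup of the big group -/
def Kr (ρ : K →* Q) : Subgroup G := ρ.ker.map K.subtype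

lemma mem_Kr {s : G} : s ∈ Kr ρ ↔ ∃ h : s ∈ K, ρ ⟨s, h⟩ = 1 := by
  unfold Kr
  rw [Subgroup.mem_map]
  constructor
  · rintro ⟨x, hx, rfl⟩
    exact ⟨x.2, hx⟩
  · rintro ⟨h1, h2⟩
    exact ⟨⟨s, h1⟩, h2, rfl⟩

/-- finite image: the kernel has finite index -/
lemma kr_of_finite {L : Subgroup G} (hL : L ≤ K)
    (hfin : (ρ '' {x : K | (x : G) ∈ L}).Finite) : (Kr ρ).relIndex L ≠ 0 := by
  classical
  have hch : ∀ q : Q, ∃ r : K, (∃ s : K, (s : G) ∈ L ∧ ρ s = q) → ρ r = q := by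
    intro q
    by_cases h : ∃ s : K, (s : G) ∈ L ∧ ρ s = q
    · obtain ⟨s, -, hs⟩ := h
      exact ⟨s, fun _ => hs⟩
    · exact ⟨1, fun h' => absurd h' h⟩
  choose r hr using hch
  refine relIndex_of_reps (hfin.image fun q => (r q : G)) fun s hs => ?_
  refine ⟨(r (ρ ⟨s, hL hs⟩) : G), ⟨ρ ⟨s, hL hs⟩, ⟨⟨s, hL hs⟩, hs, rfl⟩, rfl⟩, ?_⟩
  have h1 := hr (ρ ⟨s, hL hs⟩) ⟨⟨s, hL hs⟩, hs, rfl⟩
  rw [mem_Kr]
  refine ⟨K.mul_mem (hL hs) (K.inv_mem (r _).2), ?_⟩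
  have h2 : (⟨s * (r (ρ ⟨s, hL hs⟩) : G)⁻¹, K.mul_mem (hL hs) (K.inv_mem (r _).2)⟩ : K) =
      ⟨s, hL hs⟩ * (r (ρ ⟨s, hL hs⟩))⁻¹ := rfl
  rw [h2, map_mul, map_inv, h1, mul_inv_cancel]

/-- the index is finite if the index of the images and the index in the kernel are finite -/
lemma relIndex_ext {P L : Subgroup G} (hL : L ≤ K)
    (h1 : (((P ⊓ L).subgroupOf K).map ρ).index ≠ 0) (h2 : P.relIndex (Kr ρ ⊓ L) ≠ 0) :
    P.relIndex L ≠ 0 := by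
  classical
  rw [← Subgroup.relIndex_top_right] at h1
  obtain ⟨T, hT, hrepT⟩ := exists_reps h1
  obtain ⟨F, hF, hrepF⟩ := exists_reps h2
  set M := (((P ⊓ L).subgroupOf K).map ρ) with hM
  have hch : ∀ q : Q, ∃ r : K, (∃ s : K, (s : G) ∈ L ∧ ρ s * q⁻¹ ∈ M) →
      (r : G) ∈ L ∧ ρ r * q⁻¹ ∈ M := by
    intro q
    by_cases h : ∃ s : K, (s : G) ∈ L ∧ ρ s * q⁻¹ ∈ M
    · obtain ⟨s, hs, hs'⟩ := h
      exact ⟨s, fun _ => ⟨hs, hs'⟩⟩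
    · exact ⟨1, fun h' => absurd h' h⟩
  choose r hr using hch
  refine relIndex_of_reps ((hF.prod hT).image fun z : G × Q => z.1 * (r z.2 : G)) fun s hs => ?_
  obtain ⟨q, hq, hq'⟩ := hrepT (ρ ⟨s, hL hs⟩) (Subgroup.mem_top _)
  obtain ⟨r1, r2⟩ := hr q ⟨⟨s, hL hs⟩, hs, hq'⟩
  have h3 : ρ ⟨s, hL hs⟩ * (ρ (r q))⁻¹ ∈ M := by
    have := M.mul_mem hq' (M.inv_mem r2)
    have e : ρ ⟨s, hL hs⟩ * q⁻¹ * (ρ (r q) * q⁻¹)⁻¹ = ρ ⟨s, hL hs⟩ * (ρ (r q))⁻¹ := by group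
    rwa [e] at this
  obtain ⟨m, hm, hm'⟩ := h3
  obtain ⟨m1, m2⟩ := Subgroup.mem_inf.1 (Subgroup.mem_subgroupOf.1 hm)
  -- the element of the kernel
  have hn : (m : G)⁻¹ * s * (r q : G)⁻¹ ∈ Kr ρ ⊓ L := by
    refine Subgroup.mem_inf.2 ⟨mem_Kr.2 ?_, L.mul_mem (L.mul_mem (L.inv_mem m2) hs) (L.inv_mem r1)⟩
    refine ⟨K.mul_mem (K.mul_mem (K.inv_mem m.2) (hL hs)) (K.inv_mem (r q).2), ?_⟩
    have h4 : (⟨(m : G)⁻¹ * s * (r q : G)⁻¹,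
        K.mul_mem (K.mul_mem (K.inv_mem m.2) (hL hs)) (K.inv_mem (r q).2)⟩ : K) =
        m⁻¹ * ⟨s, hL hs⟩ * (r q)⁻¹ := rfl
    rw [h4, map_mul, map_mul, map_inv, map_inv, hm', mul_inv_rev, inv_inv]
    group
  obtain ⟨f, hf, hf'⟩ := hrepF _ hn
  refine ⟨f * (r q : G), ⟨(f, q), ⟨hf, hq⟩, rfl⟩, ?_⟩
  have e : s * (f * (r q : G))⁻¹ = (m : G) * ((m : G)⁻¹ * s * (r q : G)⁻¹ * f⁻¹) := by group
  rw [e]
  exact P.mul_mem m1 hf'

/-- the chain condition passes to finite extensions -/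
lemma chain_fi {N L : Subgroup G} (hN : N.relIndex L ≠ 0)
    (hch : ∀ J : ℕ → Subgroup G, J 0 ≤ N → (∀ n, J (n + 1) ≤ J n) →
      ∃ n, (J (n + 1)).relIndex (J n) ≠ 0)
    (J : ℕ → Subgroup G) (h0 : J 0 ≤ L) (hJ : ∀ n, J (n + 1) ≤ J n) :
    ∃ n, (J (n + 1)).relIndex (J n) ≠ 0 := by
  obtain ⟨n, hn⟩ := hch (fun n => N ⊓ J n) inf_le_left fun n => inf_le_inf_left _ (hJ n)
  have hle : ∀ n, J n ≤ L := by
    intro n
    induction n with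
    | zero => exact h0
    | succ n ih => exact (hJ n).trans ih
  refine ⟨n, relIndex_le_left inf_le_right (Subgroup.relIndex_ne_zero_trans hn ?_)⟩
  rw [Subgroup.inf_relIndex_right]
  exact relIndex_le_right (hle n) hN

variable {V : Type} [MulAction G V] {A B : Set V} {t₀ : G}

lemma Wp_smul (a b : G) : Wp G (a • A) (b • B) = Wp G A B := by
  ext C
  constructor
  · rintro ⟨g, rfl | rfl⟩
    · exact ⟨g * a, Or.inl (by rw [mul_smul])⟩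
    · exact ⟨g * b, Or.inr (by rw [mul_smul])⟩
  · rintro ⟨g, rfl | rfl⟩
    · exact ⟨g * a⁻¹, Or.inl (by rw [mul_smul, inv_smul_smul])⟩
    · exact ⟨g * b⁻¹, Or.inr (by rw [mul_smul, inv_smul_smul])⟩

lemma Wm_smul (a b : G) : Wm G (a • A) (b • B) = Wm G A B := by
  unfold Wm
  rw [Wp_smul]

lemma Flips.smul {a : G} (h : Flips G A) : Flips G (a • A) := by
  obtain ⟨⟨x, hx⟩, y, hy⟩ := h
  refine ⟨⟨a * x * a⁻¹, ?_⟩, a * y * a⁻¹, ?_⟩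
  · rw [mul_smul, inv_smul_smul, mul_smul, ← Set.smul_set_inter, hx, Set.smul_set_empty]
  · rw [mul_smul, inv_smul_smul, mul_smul, ← Set.smul_set_compl]
    exact Set.smul_set_mono hy

lemma HasStb.of_smul {a b : G} (hA : A ⊆ a • A) (hB : b • B ⊆ B)
    (h : HasStb G (a • A) (b • B)) : HasStb G A B := by
  obtain ⟨P, hP, Q, hQ, h1, h2, h3, h4⟩ := h
  rw [Wp_smul] at hP hQ h3
  rw [Wm_smul] at h4
  exact ⟨P, hP, Q, hQ, hA.trans h1, h2.trans hB, h3, fun hf => h4 hf.smul⟩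

/-- a longer pair whose stabiliser is up to finite index in a group with the chain condition -/
lemma hasStb_of_longer
    (hfin : ∀ u v : V, {C : Set V | C ∈ Wp G A B ∧ u ∈ C ∧ v ∉ C}.Finite)
    (hBA : B ⊆ A) (ht₀ : t₀ • A ⊂ B) {N : Subgroup G}
    (hch : ∀ J : ℕ → Subgroup G, J 0 ≤ N → (∀ n, J (n + 1) ≤ J n) →
      ∃ n, (J (n + 1)).relIndex (J n) ≠ 0) {a b : G} (hA : A ⊆ a • A) (hB : b • B ⊆ B)
    (hN : N.relIndex (Kp G (a • A) (b • B)) ≠ 0) : HasStb G A B := by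
  refine HasStb.of_smul hA hB (hasStb_of_chain (t₀ := b * t₀ * a⁻¹) ?_ ?_ ?_
    fun J h1 h2 _ => chain_fi hN hch J h1 h2)
  · rw [Wp_smul]; exact hfin
  · exact hB.trans (hBA.trans hA)
  · rw [mul_smul, inv_smul_smul, mul_smul]
    exact smul_ssub b ht₀

end Pool.Agent.V7H57.WL
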