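import Pool.Agent.V7H57.WL.Rkn

/-!
# Families of half-spaces with an unbounded orbit
-/

set_option autoImplicit false

open Metric Set Filter Topology
open Pool.Agent.TH60.FP Pool.Agent.TH60.FP.Strip Pool.Agent.Y34.HB Pool.Agent.Y34.EL
open Pool.Agent.T6.H46.RR Pool.Agent.T6.H67.TA Pool.Agent.T6.H46.RC Pool.Agent.V7H57.RK
open scoped Pointwise

namespace Pool.Agent.V7H57.WL

variable {G : Type} [Group G] {X : Type} [MetricSpace X] [MulAction G X]
variable {V : Type} [MulAction G V]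

/-- half-spaces which separate two points of an orbit are translates of finitely many ones -/
lemma orbit_reps (hG : Geo X G) (o : X) {H : Set (Set V)} (hact : ∀ P ∈ H, ∀ g : G, g • P ∈ H)
    (hfin : ∀ u v : V, {P : Set V | P ∈ H ∧ u ∈ P ∧ v ∉ P}.Finite) (v : V) :
    ∃ F : Finset (Set V), ∀ (g : G) (P : Set V), P ∈ H → v ∈ P → g • v ∉ P →
      ∃ (a : G), a⁻¹ • P ∈ F := by
  classical
  have := hG.isom
  have := hG.proper
  obtain ⟨C, hC, hcov⟩ := hG.cc
  obtain ⟨D, hD⟩ := hC.isBounded.subset_closedBall o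
  have hnear : ∀ x : X, ∃ g : G, dist x (g • o) ≤ D := by
    intro x
    obtain ⟨g, hg⟩ := hcov x
    refine ⟨g⁻¹, ?_⟩
    rw [← dist_smul g, smul_inv_smul]
    exact mem_closedBall.1 (hD hg)
  have hS := finite_short hG o (2 * D + 1)
  have hF : (⋃ s ∈ {s : G | dist o (s • o) ≤ 2 * D + 1},
      {P : Set V | P ∈ H ∧ v ∈ P ∧ s • v ∉ P}).Finite :=
    hS.biUnion fun s _ => hfin v (s • v)
  have hone : ∀ (a b : G) (P : Set V), P ∈ H → a • v ∈ P → b • v ∉ P →
      dist (a • o) (b • o) ≤ 2 * D + 1 → ∃ a : G, a⁻¹ • P ∈ hF.toFinset := by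
    intro a b P hP ha hb hab
    refine ⟨a, ?_⟩
    rw [Set.Finite.mem_toFinset]
    simp only [mem_iUnion, exists_prop]
    refine ⟨a⁻¹ * b, ?_, hact P hP _, ?_, ?_⟩
    · show dist o ((a⁻¹ * b) • o) ≤ 2 * D + 1
      rw [mul_smul, ← dist_smul a, smul_inv_smul]
      exact hab
    · rw [Set.mem_inv_smul_set_iff]; exact ha
    · rw [Set.mem_inv_smul_set_iff, mul_smul, smul_inv_smul]; exact hb
  have key : ∀ (n : ℕ) (x y : X) (a b : G) (P : Set V), dist x y ≤ n → dist x (a • o) ≤ D →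
      dist y (b • o) ≤ D → P ∈ H → a • v ∈ P → b • v ∉ P → ∃ a : G, a⁻¹ • P ∈ hF.toFinset := by
    intro n
    induction n with
    | zero =>
      intro x y a b P hxy hxa hyb hP ha hb
      refine hone a b P hP ha hb ?_
      have h1 := dist_triangle4 (a • o) x y (b • o)
      rw [dist_comm (a • o) x] at h1
      push_cast at hxy
      linarith
    | succ n ih =>
      intro x y a b P hxy hxa hyb hP ha hb
      by_cases h1 : dist x y ≤ n
      · exact ih x y a b P h1 hxa hyb hP ha hb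
      · push Not at h1
        rcases le_total (dist x y) 1 with h2 | h2
        · refine hone a b P hP ha hb ?_
          have h3 := dist_triangle4 (a • o) x y (b • o)
          rw [dist_comm (a • o) x] at h3
          linarith
        · obtain ⟨z, hz1, hz2⟩ := ex_on hG.cn (o := x) (p := y) (t := 1) zero_le_one h2
          obtain ⟨c, hc⟩ := hnear z
          by_cases hcP : c • v ∈ P
          · refine ih z y c b P ?_ hc hyb hP hcP hb
            rw [hz2]
            push_cast at hxy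
            linarith
          · refine hone a c P hP ha hcP ?_
            have h3 := dist_triangle4 (a • o) x z (c • o)
            rw [dist_comm (a • o) x] at h3
            linarith
  refine ⟨hF.toFinset, fun g P hP h1 h2 => ?_⟩
  obtain ⟨n, hn⟩ := exists_nat_ge (dist o (g • o))
  have hD0 : 0 ≤ D := by
    obtain ⟨g₀, hg₀⟩ := hnear o
    exact dist_nonneg.trans hg₀
  exact key n o (g • o) 1 g P hn (by rw [one_smul, dist_self]; exact hD0)
    (by rw [dist_self]; exact hD0) hP (by rw [one_smul]; exact h1) h2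

/-- an unbounded orbit gives a half-space which is mapped properly into itself -/
theorem exists_skewer (hG : Geo X G) (o : X) {H : Set (Set V)}
    (hact : ∀ P ∈ H, ∀ g : G, g • P ∈ H)
    (hfin : ∀ u v : V, {P : Set V | P ∈ H ∧ u ∈ P ∧ v ∉ P}.Finite)
    (hd : ∀ P ∈ H, ∃ d : ℕ, ∀ S : Finset G,
      (∀ g ∈ S, ∀ g' ∈ S, g ≠ g' → Tv (g • P) (g' • P)) → S.card ≤ d) (v : V)
    (hunb : ∀ n : ℕ, ∃ (g : G) (F : Finset (Set V)), n ≤ F.card ∧
      ∀ P ∈ F, P ∈ H ∧ v ∈ P ∧ g • v ∉ P) :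
    ∃ P ∈ H, ∃ t : G, t • P ⊂ P := by
  classical
  obtain ⟨F₀, hF₀⟩ := orbit_reps hG o hact hfin v
  have hd' : ∀ P : Set V, ∃ d : ℕ, P ∈ H → ∀ S : Finset G,
      (∀ g ∈ S, ∀ g' ∈ S, g ≠ g' → Tv (g • P) (g' • P)) → S.card ≤ d := by
    intro P
    by_cases hP : P ∈ H
    · obtain ⟨d, hd⟩ := hd P hP
      exact ⟨d, fun _ => hd⟩
    · exact ⟨0, fun h => absurd h hP⟩
  choose dd hdd using hd'
  set d : ℕ := F₀.sup dd with hdef
  obtain ⟨g, F, hF, hFP⟩ := hunb (F₀.card * d + 1)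
  have h1 : ∀ P : Set V, ∃ a : G, P ∈ F → a⁻¹ • P ∈ F₀ := by
    intro P
    by_cases hP : P ∈ F
    · obtain ⟨h2, h3, h4⟩ := hFP P hP
      obtain ⟨a, ha⟩ := hF₀ g P h2 h3 h4
      exact ⟨a, fun _ => ha⟩
    · exact ⟨1, fun h => absurd h hP⟩
  choose a ha using h1
  obtain ⟨Q, hQF, hcard⟩ := Finset.exists_lt_card_fiber_of_mul_lt_card_of_maps_to
    (s := F) (t := F₀) (f := fun P => (a P)⁻¹ • P) (n := d) (fun P hP => ha P hP) (by omega)
  set Fb := F.filter (fun P => (a P)⁻¹ • P = Q) with hFb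
  have hPa : ∀ P ∈ Fb, P = a P • Q := by
    intro P hP
    have h2 := (Finset.mem_filter.1 hP).2
    rw [← h2, smul_inv_smul]
  have hinj : Set.InjOn a Fb := by
    intro P hP P' hP' h
    rw [hPa P hP, hPa P' hP', h]
  have hne : Fb.Nonempty := by
    rw [← Finset.card_pos]; omega
  have hQH : Q ∈ H := by
    obtain ⟨P, hP⟩ := hne
    obtain ⟨h2, h3⟩ := Finset.mem_filter.1 hP
    rw [← h3]
    exact hact P (hFP P h2).1 _
  have hnot : ∃ P ∈ Fb, ∃ P' ∈ Fb, P ≠ P' ∧ ¬ Tv P P' := by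
    by_contra hc
    push Not at hc
    have h2 := hdd Q hQH (Fb.image a) (by
      intro g hg g' hg' hne
      obtain ⟨P, hP, rfl⟩ := Finset.mem_image.1 hg
      obtain ⟨P', hP', rfl⟩ := Finset.mem_image.1 hg'
      rw [← hPa P hP, ← hPa P' hP']
      exact hc P hP P' hP' fun h => hne (by rw [h]))
    rw [Finset.card_image_of_injOn hinj] at h2
    have h3 : dd Q ≤ d := Finset.le_sup (f := dd) hQF
    omega
  obtain ⟨P, hP, P', hP', hne, hT⟩ := hnot
  obtain ⟨p1, p2, p3⟩ := hFP P (Finset.mem_filter.1 hP).1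
  obtain ⟨q1, q2, q3⟩ := hFP P' (Finset.mem_filter.1 hP').1
  rcases not_tv hT with h | h | h | h
  · exfalso
    have : v ∈ P ∩ P' := ⟨p2, q2⟩
    rw [h] at this
    exact this
  · refine ⟨P', q1, a P * (a P')⁻¹, ?_⟩
    have e : (a P * (a P')⁻¹) • P' = P := by
      have e1 : (a P')⁻¹ • P' = Q := (Finset.mem_filter.1 hP').2
      rw [mul_smul, e1, ← hPa P hP]
    rw [e]
    exact ssubset_of_subset_of_ne h hne
  · refine ⟨P, p1, a P' * (a P)⁻¹, ?_⟩
    have e : (a P' * (a P)⁻¹) • P = P' := by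
      have e1 : (a P)⁻¹ • P = Q := (Finset.mem_filter.1 hP).2
      rw [mul_smul, e1, ← hPa P' hP']
    rw [e]
    exact ssubset_of_subset_of_ne h (Ne.symm hne)
  · exact absurd (h p3) q3

/-- pairwise transverse translates of pairs give pairwise transverse translates -/
lemma width_pair {P : Set V} {d : ℕ}
    (hd : ∀ S : Finset G, (∀ g ∈ S, ∀ g' ∈ S, g ≠ g' → Tv (g • P) (g' • P)) → S.card ≤ d)
    (Q : Set V) : ∀ S : Finset G, (∀ g ∈ S, ∀ g' ∈ S, g ≠ g' → TT P Q g g') → S.card ≤ d :=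
  fun S hS => hd S fun g hg g' hg' hne => (hS g hg g' hg' hne).1

lemma pow_sub {P : Set V} {t : G} (ht : t • P ⊂ P) (L : ℕ) : t ^ L • P ⊆ P := by
  rcases Nat.eq_zero_or_pos L with rfl | h
  · rw [pow_zero, one_smul]
  · exact (shift_pow ht L h).subset

lemma pow_ssub {P : Set V} {t : G} (ht : t • P ⊂ P) (L : ℕ) :
    t ^ (L + 1) • P ⊂ t ^ L • P := by
  rw [pow_succ, mul_smul]
  exact smul_ssub _ ht

end Pool.Agent.V7H57.WL
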