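import Pool.Agent.V7H57.WL.Ext
import Pool.Agent.V7H57.WL.Fam

/-!
# Rank rigidity with stabilisers which are extensions of groups with rank one elements
-/

set_option autoImplicit false

open Metric Set Filter Topology
open Pool.Agent.TH60.FP Pool.Agent.TH60.FP.Strip Pool.Agent.Y34.HB Pool.Agent.Y34.EL
open Pool.Agent.T6.H46.RR Pool.Agent.T6.H67.TA Pool.Agent.T6.H46.RC Pool.Agent.V7H57.RK
open scoped Pointwise

namespace Pool.Agent.V7H57.WL

variable {G : Type} [Group G] {X : Type} [MetricSpace X] [MulAction G X]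
variable {V : Type} [MulAction G V] {A B : Set V} {t₀ : G}

lemma Tv.of_compl {C C' : Set V} (h : Tv Cᶜ C'ᶜ) : Tv C C' := by
  obtain ⟨h1, h2, h3, h4⟩ := h
  rw [compl_compl] at h2 h3 h4
  rw [compl_compl] at h4
  exact ⟨h4, h3, h2, h1⟩

lemma TT.of_compl {g g' : G} (h : TT Bᶜ Aᶜ g g') : TT A B g g' := by
  obtain ⟨h1, h2, h3, h4⟩ := h
  rw [Set.smul_set_compl, Set.smul_set_compl] at h1 h2 h3 h4
  exact ⟨h4.of_compl, h3.of_compl, h2.of_compl, h1.of_compl⟩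

lemma infinite_of_axis {Q Y : Type} [Group Q] [MetricSpace Y] [MulAction Q Y] (hQ : Geo Y Q)
    {k : Q} {τ : ℝ} (hτ : 0 < τ) {c : ℝ → Y} (hk : Axis k τ c) : Infinite Q := by
  have := hQ.isom
  refine Infinite.of_injective (fun n : ℤ => k ^ n) fun m n hmn => ?_
  by_contra hne
  refine axis_pow_ne hτ hk (i := m - n) (sub_ne_zero.2 hne) ?_
  have hmn' : k ^ m = k ^ n := hmn
  rw [zpow_sub, hmn', mul_inv_cancel]

variable {E : Set X} {Q Y F : Type} [Group Q] [MetricSpace Y] [MulAction Q Y] [MetricSpace F]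
  {K : Subgroup G} {hE : CC K E} {ρ : K →* Q} {e : E ≃ Y × F}

/-- **Main theorem.** -/
theorem ext_main (hG : Geo X G) (hGC : GC X)
    (hfin : ∀ u v : V, {C : Set V | C ∈ Wp G A B ∧ u ∈ C ∧ v ∉ C}.Finite)
    (hBA : B ⊆ A) (ht₀ : t₀ • A ⊂ B)
    {d : ℕ} (hd : ∀ S : Finset G, (∀ g ∈ S, ∀ g' ∈ S, g ≠ g' → TT A B g g') → S.card ≤ d)
    (hK1 : K ≤ Kp G A B) (hK2 : K.relIndex (Kp G A B) ≠ 0) (h : Fib hE ρ e) {k : Q} {τ : ℝ} (hτ : 0 < τ) {c : ℝ → Y} (hk : Axis k τ c)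
    (hHP : HP c = ∅)
    (hch : ∀ J : ℕ → Subgroup G, J 0 ≤ Kr ρ → (∀ n, J (n + 1) ≤ J n) →
      ∃ n, (J (n + 1)).relIndex (J n) ≠ 0) :
    (∃ g : G, RankOne X g) ∨ ∃ (a h : G) (B₀ : Set X), A ⊆ a • A ∧ h • B ⊆ B ∧
      CC (Kp G (a • A) (h • B)) B₀ ∧ Nontrivial B₀ ∧
      ∃ (Z : Type) (_ : MetricSpace Z) (_ : Nontrivial Z) (e : X ≃ Z × B₀),
        ∀ x x' : X, dist x x' ^ 2 = dist (e x).1 (e x').1 ^ 2 + dist (e x).2 (e x').2 ^ 2 := by
  have := hG.isom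
  have := hG.proper
  obtain ⟨o, ho⟩ := hE.ne
  by_cases hstb : HasStb G A B
  · exact sep_main hG hGC o hfin hBA ht₀ (cc_fin hG hK1 hK2 hE) hd hstb
  right
  have htA : t₀ • A ⊂ A := ht₀.trans_subset hBA
  obtain ⟨hne, hnu⟩ := ne_of_shift htA
  have hneB : B.Nonempty := (hne.smul_set (a := t₀)).mono ht₀.subset
  have hnuB : Bᶜ.Nonempty := hnu.mono (compl_subset_compl.2 hBA)
  have hD := cls_Wp hfin hne hnu hneB hnuB
  have hA0 : A ∈ Wp G A B := ⟨1, Or.inl (one_smul _ _).symm⟩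
  have hB0 : B ∈ Wp G A B := ⟨1, Or.inr (one_smul _ _).symm⟩
  have hA1 : ∀ g : G, g • A ∈ Wp G A B := fun g => ⟨g, Or.inl rfl⟩
  have hB1 : ∀ g : G, g • B ∈ Wp G A B := fun g => ⟨g, Or.inr rfl⟩
  -- small intersections give a stable pair
  have hbig : ∀ h₁ h₂ : G, A ⊆ h₁ • B → h₂ • A ⊆ B →
      ((IK K h₁).map ρ).index ≠ 0 ∨ ((IK K h₂).map ρ).index ≠ 0 := by
    intro h₁ h₂ o1 o2
    by_contra hc
    push Not at hc
    obtain ⟨κ, hκ⟩ := h.tri hG hτ hk hHP hc.1 hc.2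
    apply hstb
    obtain ⟨κ1, κ2⟩ := mem_Kp.1 (hK1 κ.2)
    set x : G := (κ : G) * h₂ with hx
    have i1 : h₁ • B ⊆ h₁ • A := Set.smul_set_mono hBA
    have i2 : A ⊆ h₁ • A := o1.trans i1
    have i3 : x • A ⊆ B := by
      have := Set.smul_set_mono (a := (κ : G)) o2
      rwa [κ2, ← mul_smul] at this
    have i4 : x • B ⊆ x • A := Set.smul_set_mono hBA
    have i5 : x • B ⊆ B := i4.trans i3
    have i6 : x • B ⊆ h₁ • A := i5.trans (hBA.trans i2)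
    refine hasStb_of_longer hfin hBA ht₀ hch i2 i5 ?_
    set M : Subgroup G := K ⊓ (cj K h₁ ⊓ cj K x) with hM
    have m1 : M.relIndex (Kp G (h₁ • A) (x • B)) ≠ 0 :=
      Subgroup.relIndex_inf_ne_zero (Subgroup.relIndex_ne_zero_trans hK2
        (hD.between (hA1 h₁) (hB1 x) hA0 hB0 (i5.trans hBA) i2 i5 (hBA.trans i2)))
        (Subgroup.relIndex_inf_ne_zero (Subgroup.relIndex_ne_zero_trans (cj_relIndex hK2 h₁)
          (hD.between (hA1 h₁) (hB1 x) (hA1 h₁) (hB1 h₁) i6 Subset.rfl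
            (i5.trans (hBA.trans o1)) i1))
          (Subgroup.relIndex_ne_zero_trans (cj_relIndex hK2 x)
          (hD.between (hA1 h₁) (hB1 x) (hA1 x) (hB1 x) i4 (i3.trans (hBA.trans i2)) Subset.rfl
            i6)))
    refine Subgroup.relIndex_ne_zero_trans ?_ m1
    refine kr_of_finite (ρ := ρ) inf_le_left (hκ.subset ?_)
    rintro _ ⟨s, hs, rfl⟩
    refine ⟨s, ⟨?_, ?_⟩, rfl⟩
    · rw [mem_IK]
      exact mem_cj.1 hs.2.1
    · rw [mem_IK]
      have e1 : h₂⁻¹ * ((κ⁻¹ * s * κ : K) : G) * h₂ = x⁻¹ * (s : G) * x := by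
        rw [hx, Subgroup.coe_mul, Subgroup.coe_mul, Subgroup.coe_inv]; group
      rw [e1]
      exact mem_cj.1 hs.2.2
  have hQ := infinite_of_axis h.geo hτ hk
  by_cases hin : ∀ h : G, h • A ⊆ B → ((IK K h).map ρ).index ≠ 0
  · obtain ⟨x, B₀, h1, h2, h3, h4⟩ := inner_main hG hGC hfin hBA ht₀ hd hK1 hK2 hE hQ hch hin
    exact ⟨1, x, B₀, by rw [one_smul], h1, by rw [one_smul]; exact h2, h3, h4⟩
  · push Not at hin
    obtain ⟨h₂, o2, n2⟩ := hin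
    have hout : ∀ h : G, A ⊆ h • B → ((IK K h).map ρ).index ≠ 0 := fun h₁ o1 =>
      (hbig h₁ h₂ o1 o2).resolve_right (fun h' => h' n2)
    have ht' : t₀⁻¹ • Bᶜ ⊂ Aᶜ := by
      have h1 : A ⊂ t₀⁻¹ • B := by
        have := smul_ssub t₀⁻¹ ht₀
        rwa [inv_smul_smul] at this
      rw [Set.smul_set_compl]
      exact ⟨compl_subset_compl.2 h1.subset, fun hc => h1.2 (compl_subset_compl.1 hc)⟩
    have hfin' : ∀ u v : V, {C : Set V | C ∈ Wp G Bᶜ Aᶜ ∧ u ∈ C ∧ v ∉ C}.Finite := by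
      intro u v
      refine ((hfin v u).image compl).subset ?_
      rintro C ⟨⟨g, hg⟩, hu, hv⟩
      refine ⟨Cᶜ, ⟨⟨g, ?_⟩, hv, fun hc => hc hu⟩, compl_compl _⟩
      rcases hg with rfl | rfl
      · right; rw [Set.smul_set_compl, compl_compl]
      · left; rw [Set.smul_set_compl, compl_compl]
    obtain ⟨x, B₀, h1, h2, h3, h4⟩ := inner_main (A := Bᶜ) (B := Aᶜ) (t₀ := t₀⁻¹) hG hGC hfin'
      (compl_subset_compl.2 hBA) ht' (fun S hS => hd S fun g hg g' hg' hne =>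
        (hS g hg g' hg' hne).of_compl) (by rw [Kp_flip]; exact hK1) (by rw [Kp_flip]; exact hK2)
      hE hQ hch (fun g hg => hout g (by
        rw [Set.smul_set_compl] at hg
        exact compl_subset_compl.1 hg))
    refine ⟨x, 1, B₀, ?_, by rw [one_smul], ?_, h3, h4⟩
    · rw [Set.smul_set_compl] at h1
      exact compl_subset_compl.1 h1
    · rw [Set.smul_set_compl, Kp_flip] at h2
      rw [one_smul]
      exact h2

end Pool.Agent.V7H57.WL
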