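import Pool.Agent.V7H57.WL.Rkn

/-!
# Convex cocompact subgroups with a factor on which they act with rank one isometries
-/

set_option autoImplicit false

open Metric Set Filter Topology
open Pool.Agent.TH60.FP Pool.Agent.TH60.FP.Strip Pool.Agent.Y34.HB Pool.Agent.Y34.EL
open Pool.Agent.T6.H46.RR Pool.Agent.T6.H67.TA Pool.Agent.T6.H46.RC Pool.Agent.V7H57.RK
open scoped Pointwise

namespace Pool.Agent.V7H57.WL

lemma fib_num {a b a' b' A A' s t : ℝ} (ha : 0 ≤ a) (hb : 0 ≤ b) (ha' : 0 ≤ a') (hb' : 0 ≤ b')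
    (hA : 0 ≤ A) (hA' : 0 ≤ A') (hs : 0 ≤ s) (ht : 0 ≤ t) (h1 : s ^ 2 = a ^ 2 + a' ^ 2)
    (h2 : t ^ 2 = b ^ 2 + b' ^ 2) (h3 : (s + t) ^ 2 = A ^ 2 + A' ^ 2) (h4 : A ≤ a + b)
    (h5 : A' ≤ a' + b') : A = a + b ∧ a * t = b * s := by
  have e1 : (s * t) ^ 2 = (a * b + a' * b') ^ 2 + (a * b' - a' * b) ^ 2 := by
    rw [mul_pow, h1, h2]; ring
  have e2 : A ^ 2 ≤ (a + b) ^ 2 := pow_le_pow_left₀ hA h4 2
  have e3 : A' ^ 2 ≤ (a' + b') ^ 2 := pow_le_pow_left₀ hA' h5 2
  have e4 : s * t ≤ a * b + a' * b' := by nlinarith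
  have hst : 0 ≤ s * t := by positivity
  have hab : 0 ≤ a * b + a' * b' := by positivity
  have e5 : (s * t) ^ 2 ≤ (a * b + a' * b') ^ 2 := pow_le_pow_left₀ hst e4 2
  have e6 : (a * b' - a' * b) ^ 2 ≤ 0 := by linarith
  have e7 : a * b' - a' * b = 0 := by
    have := sq_nonneg (a * b' - a' * b)
    exact pow_eq_zero_iff two_ne_zero |>.1 (le_antisymm e6 this)
  have e8 : s * t = a * b + a' * b' := by
    have h8 : (s * t) ^ 2 = (a * b + a' * b') ^ 2 := by rw [e1, e7]; ring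
    exact (sq_eq_sq₀ hst hab).1 h8
  have e9 : A ^ 2 = (a + b) ^ 2 := by nlinarith
  refine ⟨(sq_eq_sq₀ hA (by positivity)).1 e9, ?_⟩
  have e10 : (a * t) ^ 2 = (b * s) ^ 2 := by
    rw [mul_pow, mul_pow, h1, h2]
    have : a * b' = a' * b := by linarith
    have h11 : (a * b') ^ 2 = (a' * b) ^ 2 := by rw [this]
    nlinarith
  exact (sq_eq_sq₀ (by positivity) (by positivity)).1 e10

variable {G : Type} [Group G] {X : Type} [MetricSpace X] [MulAction G X]

/-- `K` acts on `E = Y × F` and through `ρ` on `Y` -/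
structure Fib {K : Subgroup G} {E : Set X} (hE : CC K E) {Q Y F : Type} [Group Q] [MetricSpace Y]
    [MulAction Q Y] [MetricSpace F] (ρ : K →* Q) (e : E ≃ Y × F) : Prop where
  geo : Geo Y Q
  surj : Function.Surjective ρ
  sq : ∀ x y : E, dist x y ^ 2 = dist (e x).1 (e y).1 ^ 2 + dist (e x).2 (e y).2 ^ 2
  eqv : ∀ (a : K) (x : E), (e ⟨(a : G) • (x : X), hE.inv a a.2 x x.2⟩).1 = ρ a • (e x).1

variable {K : Subgroup G} {E : Set X} {hE : CC K E} {Q Y F : Type} [Group Q] [MetricSpace Y]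
  [MulAction Q Y] [MetricSpace F] {ρ : K →* Q} {e : E ≃ Y × F}

lemma Fib.lip (h : Fib hE ρ e) (x y : E) : dist (e x).1 (e y).1 ≤ dist x y := by
  have h1 := h.sq x y
  have h2 := sq_nonneg (dist (e x).2 (e y).2)
  exact (pow_le_pow_iff_left₀ dist_nonneg dist_nonneg two_ne_zero).1 (by linarith)

lemma Fib.geod (h : Fib hE ρ e) {x m y : E} (hm : dist x m + dist m y = dist x y) :
    dist (e x).1 (e m).1 + dist (e m).1 (e y).1 = dist (e x).1 (e y).1 ∧
      dist (e x).1 (e m).1 * dist m y = dist (e m).1 (e y).1 * dist x m := by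
  have := fib_num (a := dist (e x).1 (e m).1) (b := dist (e m).1 (e y).1)
    (a' := dist (e x).2 (e m).2) (b' := dist (e m).2 (e y).2) (A := dist (e x).1 (e y).1)
    (A' := dist (e x).2 (e y).2) (s := dist x m) (t := dist m y) dist_nonneg dist_nonneg
    dist_nonneg dist_nonneg dist_nonneg dist_nonneg dist_nonneg dist_nonneg (h.sq x m) (h.sq m y)
    (by rw [hm]; exact h.sq x y) (dist_triangle _ _ _) (dist_triangle _ _ _)
  exact ⟨this.1.symm, this.2⟩

/-- geodesics lift -/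
lemma Fib.lift (hG : Geo X G) (h : Fib hE ρ e) {m : Y} {x₁ x₂ : E}
    (hm : dist (e x₁).1 m + dist m (e x₂).1 = dist (e x₁).1 (e x₂).1) :
    ∃ x : E, (e x).1 = m ∧ dist x₁ x + dist x x₂ = dist x₁ x₂ ∧
      dist x₁ x * dist (e x₁).1 (e x₂).1 = dist (e x₁).1 m * dist x₁ x₂ := by
  have hEn := cn_sub hG.cn hE
  have := hG.proper
  have hEp : ProperSpace E := ProperSpace.of_isClosed hE.closed
  have hYn := h.geo.cn
  have hYp := h.geo.proper
  set y₁ := (e x₁).1 with hy₁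
  set y₂ := (e x₂).1 with hy₂
  rcases eq_or_lt_of_le (dist_nonneg (x := y₁) (y := y₂)) with h0 | h0
  · have h1 : dist y₁ m = 0 := by
      have e1 := dist_nonneg (x := y₁) (y := m)
      have e2 := dist_nonneg (x := m) (y := y₂)
      linarith
    refine ⟨x₁, dist_eq_zero.1 h1, by rw [dist_self, zero_add], ?_⟩
    rw [dist_self, h1, zero_mul, zero_mul]
  · set l : ℝ := dist y₁ m / dist y₁ y₂ with hl
    have hl0 : 0 ≤ l := by positivity
    have hl1 : l ≤ 1 := by
      rw [hl, div_le_one h0]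
      have := dist_nonneg (x := m) (y := y₂)
      linarith
    have hlm : l * dist y₁ y₂ = dist y₁ m := by rw [hl, div_mul_cancel₀ _ h0.ne']
    have hD : 0 < dist x₁ x₂ := h0.trans_le (h.lip _ _)
    obtain ⟨x, hx⟩ := ex_on hEn (o := x₁) (p := x₂) (t := l * dist x₁ x₂) (by positivity)
      (by nlinarith)
    have hx1 : dist x₁ x = l * dist x₁ x₂ := hx.1
    have hx2 : dist x x₂ = dist x₁ x₂ - l * dist x₁ x₂ := hx.2
    have hsum : dist x₁ x + dist x x₂ = dist x₁ x₂ := by rw [hx1, hx2]; ring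
    obtain ⟨g1, g2⟩ := h.geod hsum
    rw [hx1, hx2] at g2
    have g3 : dist y₁ (e x).1 = dist y₁ m := by
      have g4 : dist y₁ (e x).1 * dist x₁ x₂ = dist y₁ m * dist x₁ x₂ := by
        rw [← hlm, ← g1]
        linear_combination g2
      exact mul_right_cancel₀ hD.ne' g4
    refine ⟨x, on_uniq hYn (o := y₁) (p := y₂) (t := dist y₁ m) ⟨g3, ?_⟩ ⟨rfl, ?_⟩, hsum, ?_⟩
    · rw [← g3]; linarith
    · linarith
    · rw [hx1, ← hlm]; ring

/-- the images of the intersections with conjugates are quasi-convex -/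
lemma Fib.qc (hG : Geo X G) (h : Fib hE ρ e) (g : G) (o : Y) : QCat ((IK K g).map ρ) o := by
  have hYn := h.geo.cn
  have hYp := h.geo.proper
  have hYi := h.geo.isom
  obtain ⟨x₀, hx₀⟩ := hE.ne
  let x₁ : E := ⟨x₀, hx₀⟩
  refine QCat.change hYn (o := (e x₁).1) ?_ o
  obtain ⟨R₁, hR₁⟩ := qc_IK hG hE g x₁
  refine ⟨R₁, ?_⟩
  rintro _ ⟨s, hs, rfl⟩ z hz
  have e1 : ∀ a : K, ρ a • (e x₁).1 = (e ⟨(a : G) • (x₁ : X), hE.inv a a.2 x₁ x₁.2⟩).1 :=
    fun a => (h.eqv a x₁).symm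
  rw [e1] at hz
  obtain ⟨x, hx, hx', -⟩ := h.lift hG hz
  obtain ⟨a, ha, ha'⟩ := hR₁ s hs x hx'
  refine ⟨ρ a, ⟨a, ha, rfl⟩, ?_⟩
  rw [e1, ← hx]
  exact (h.lip _ _).trans ha'

/-- the distance of the fibre over a point from the translate of `E` -/
noncomputable def fb (E : Set X) (e : E ≃ Y × F) (g : G) (y : Y) : ℝ :=
  ⨅ f : F, ph E g ((e.symm (y, f) : E) : X)

lemma fb_le (g : G) {x : E} : fb E e g (e x).1 ≤ ph E g (x : X) := by
  have h1 : BddBelow (Set.range fun f : F => ph E g ((e.symm ((e x).1, f) : E) : X)) :=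
    ⟨0, by rintro _ ⟨f, rfl⟩; exact infDist_nonneg⟩
  have h2 := ciInf_le h1 (e x).2
  rwa [show ((e x).1, (e x).2) = e x from rfl, Equiv.symm_apply_apply] at h2

lemma le_fb [Nonempty F] (g : G) {y : Y} {C : ℝ}
    (h : ∀ x : E, (e x).1 = y → C ≤ ph E g (x : X)) : C ≤ fb E e g y :=
  le_ciInf fun f => h _ (by rw [Equiv.apply_symm_apply])

lemma fb_near [Nonempty F] (g : G) (y : Y) {ε : ℝ} (hε : 0 < ε) :
    ∃ x : E, (e x).1 = y ∧ ph E g (x : X) ≤ fb E e g y + ε := by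
  by_contra hcon
  push Not at hcon
  have := le_fb (e := e) g (y := y) (C := fb E e g y + ε) fun x hx => (hcon x hx).le
  linarith

lemma fb_lip [IsIsometricSMul G X] [Nonempty F] (h : Fib hE ρ e) (g : G) (x y : Y) :
    |fb E e g x - fb E e g y| ≤ dist x y := by
  have key : ∀ x y : Y, fb E e g x ≤ fb E e g y + dist x y := by
    intro x y
    refine le_of_forall_pos_le_add fun ε hε => ?_
    obtain ⟨z, hz, hz'⟩ := fb_near (e := e) g y hε
    set w : E := e.symm (x, (e z).2) with hw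
    have hew : e w = (x, (e z).2) := by rw [hw, Equiv.apply_symm_apply]
    have h1 : fb E e g x ≤ ph E g (w : X) := by
      have := fb_le (e := e) g (x := w)
      rwa [hew] at this
    have h2 := ph_lip E g (w : X) (z : X)
    have h3 : dist (w : X) z = dist x y := by
      have h4 : dist w z ^ 2 = dist x y ^ 2 := by
        rw [h.sq, hew, hz, dist_self]; ring
      exact (sq_eq_sq₀ dist_nonneg dist_nonneg).1 h4
    rw [h3, abs_le] at h2
    linarith
  rw [abs_le]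
  have h1 := key x y
  have h2 := key y x
  rw [dist_comm y x] at h2
  constructor <;> linarith

lemma fb_convex (hG : Geo X G) [Nonempty F] (h : Fib hE ρ e) (g : G) (x y m : Y)
    (hm : dist x m + dist m y = dist x y) :
    dist x y * fb E e g m ≤ dist m y * fb E e g x + dist x m * fb E e g y := by
  have := hG.isom
  have := hG.proper
  refine le_of_forall_pos_le_add fun ε hε => ?_
  obtain ⟨δ, hδ, hδε⟩ : ∃ δ : ℝ, 0 < δ ∧ dist x y * δ ≤ ε := by
    refine ⟨ε / (dist x y + 1), by positivity, ?_⟩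
    rw [mul_div_assoc', div_le_iff₀ (by positivity)]
    nlinarith [dist_nonneg (x := x) (y := y)]
  obtain ⟨x₁, hx₁, hx₁'⟩ := fb_near (e := e) g x hδ
  obtain ⟨y₁, hy₁, hy₁'⟩ := fb_near (e := e) g y hδ
  rw [← hx₁, ← hy₁] at hm
  obtain ⟨m₁, hm₁, hm₁', hm₁''⟩ := h.lift hG hm
  have h1 := ph_convex hG.cn hE g (x₁ : X) (y₁ : X) (m₁ : X) hm₁'
  have h2 := fb_le (e := e) g (x := m₁)
  rw [hm₁] at h2
  rw [hx₁, hy₁] at hm₁'' hm
  have hxm := dist_nonneg (x := x) (y := m)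
  have hmy := dist_nonneg (x := m) (y := y)
  rcases eq_or_lt_of_le (dist_nonneg (x := x) (y := y)) with h0 | h0
  · have e1 : dist x m = 0 := by linarith
    have e2 : dist m y = 0 := by linarith
    rw [← h0, e1, e2]
    linarith
  · have hD : 0 < dist (x₁ : X) y₁ := by
      have := h.lip x₁ y₁
      rw [hx₁, hy₁] at this
      exact h0.trans_le this
    have e1 : dist (x₁ : X) m₁ * dist x y = dist x m * dist (x₁ : X) y₁ := hm₁''
    have e0 : dist (x₁ : X) m₁ + dist (m₁ : X) y₁ = dist (x₁ : X) y₁ := hm₁'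
    have e2 : dist (m₁ : X) y₁ * dist x y = dist m y * dist (x₁ : X) y₁ := by
      have e3 : dist (m₁ : X) y₁ = dist (x₁ : X) y₁ - dist (x₁ : X) m₁ := by linarith
      have e4 : dist m y = dist x y - dist x m := by linarith
      rw [e3, e4, sub_mul, sub_mul, e1]
      ring
    have h3 : dist (x₁ : X) y₁ * (dist x y * ph E g (m₁ : X)) ≤
        dist (x₁ : X) y₁ * (dist m y * ph E g (x₁ : X) + dist x m * ph E g (y₁ : X)) := by
      have h4 := mul_le_mul_of_nonneg_left h1 h0.le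
      calc dist (x₁ : X) y₁ * (dist x y * ph E g (m₁ : X))
          = dist x y * (dist (x₁ : X) y₁ * ph E g (m₁ : X)) := by ring
        _ ≤ dist x y * (dist (m₁ : X) y₁ * ph E g (x₁ : X) +
            dist (x₁ : X) m₁ * ph E g (y₁ : X)) := h4
        _ = dist (m₁ : X) y₁ * dist x y * ph E g (x₁ : X) +
            dist (x₁ : X) m₁ * dist x y * ph E g (y₁ : X) := by ring
        _ = _ := by rw [e1, e2]; ring
    have h5 := le_of_mul_le_mul_left h3 hD
    have h6 := mul_le_mul_of_nonneg_left h2 h0.le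
    have h7 := mul_le_mul_of_nonneg_left hx₁' hmy
    have h8 := mul_le_mul_of_nonneg_left hy₁' hxm
    have h9 : dist m y * δ + dist x m * δ = dist x y * δ := by rw [← hm]; ring
    nlinarith

/-- if all conjugates of the rank one element have powers in the image of the intersection with a
conjugate, then this image has finite index -/
lemma index_of_cobounded (hQ : Geo Y Q) {M : Subgroup Q} (y₀ : Y) (R : ℝ)
    (h : ∀ y : Y, ∃ a ∈ M, dist y (a • y₀) ≤ R) : M.index ≠ 0 := by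
  have := hQ.isom
  have hS := finite_short hQ y₀ R
  have : Finite (Q ⧸ M) := by
    have hfin := hS.to_subtype
    refine Finite.of_surjective
      (fun s : {s : Q | dist y₀ (s • y₀) ≤ R} => (QuotientGroup.mk (s : Q) : Q ⧸ M)) ?_
    intro q
    obtain ⟨a, ha, ha'⟩ := h ((q.out)⁻¹ • y₀)
    refine ⟨⟨q.out * a, ?_⟩, ?_⟩
    · show dist y₀ ((q.out * a) • y₀) ≤ R
      rw [← dist_smul (q.out)⁻¹, mul_smul, inv_smul_smul]
      exact ha'
    · show (QuotientGroup.mk (q.out * a) : Q ⧸ M) = q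
      rw [QuotientGroup.mk_mul_of_mem _ ha, QuotientGroup.out_eq']
  exact Subgroup.index_ne_zero_of_finite

lemma Fib.full (hG : Geo X G) (h : Fib hE ρ e) {k : Q} {τ : ℝ}
    (hτ : 0 < τ) {c : ℝ → Y} (hk : Axis k τ c) (hHP : HP c = ∅) (g : G)
    (hf : ∀ s : Q, ∃ l : ℕ, 0 < l ∧ (s * k * s⁻¹) ^ l ∈ (IK K g).map ρ) :
    ((IK K g).map ρ).index ≠ 0 := by
  have := hG.proper
  have := hG.isom
  have := h.geo.isom
  have := h.geo.proper
  obtain ⟨x₀, hx₀⟩ := hE.ne
  let x₁ : E := ⟨x₀, hx₀⟩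
  have hFne : Nonempty F := ⟨(e x₁).2⟩
  have hinv : ∀ a ∈ IK K g, ∀ y : Y, fb E e g (ρ a • y) = fb E e g y := by
    have key : ∀ a ∈ IK K g, ∀ y : Y, fb E e g (ρ a • y) ≤ fb E e g y := by
      intro a ha y
      refine le_of_forall_pos_le_add fun ε hε => ?_
      obtain ⟨x, hx, hx'⟩ := fb_near (e := e) g y hε
      have h1 := fb_le (e := e) g (x := ⟨(a : G) • (x : X), hE.inv a a.2 x x.2⟩)
      rw [h.eqv, hx] at h1
      have h2 : ph E g ((⟨(a : G) • (x : X), hE.inv a a.2 x x.2⟩ : E) : X) = ph E g (x : X) :=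
        ph_inv hE (mem_IK.1 ha) _
      rw [h2] at h1
      exact h1.trans hx'
    intro a ha y
    refine le_antisymm (key a ha y) ?_
    have h1 := key a⁻¹ (inv_mem ha) (ρ a • y)
    rwa [map_inv, inv_smul_smul] at h1
  obtain ⟨C, hC⟩ := full_bound h.geo hτ hk hHP (fun y => fb E e g y)
    (fun x y => fb_lip h g x y) (fun x y m hm => fb_convex hG h g x y m hm) (by
      intro s t
      obtain ⟨l, hl, a, ha, ha'⟩ := hf s
      have hax := axis_conj hk s
      refine periodic_const (f := fun t => fb E e g (s • c t)) (P := l * τ)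
        (mul_pos (by exact_mod_cast hl) hτ) (fun t => ?_) (fun a b t hat htb => ?_) t
      · have h1 := axis_zpow hax (l : ℤ) t
        rw [zpow_natCast] at h1
        push_cast at h1
        show fb E e g (s • c (t + l * τ)) = fb E e g (s • c t)
        rw [← h1, ← ha']
        exact hinv a ha _
      · have hiso : ∀ u v : ℝ, dist (s • c u) (s • c v) = |u - v| := by
          intro u v
          have := hax.1.dist_eq u v
          rw [Real.dist_eq] at this
          exact this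
        have h2 := fb_convex hG h g (s • c a) (s • c b) (s • c t) (by
            rw [hiso, hiso, hiso, abs_of_nonpos (by linarith), abs_of_nonpos (by linarith),
              abs_of_nonpos (by linarith)]
            ring)
        rw [hiso, hiso, hiso, abs_of_nonpos (by linarith), abs_of_nonpos (by linarith),
          abs_of_nonpos (by linarith)] at h2
        show (b - a) * fb E e g (s • c t) ≤ (b - t) * fb E e g (s • c a) +
          (t - a) * fb E e g (s • c b)
        linarith)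
  obtain ⟨R₁, hR₁⟩ := coarse hG hE hx₀ g (C + 1)
  refine index_of_cobounded h.geo (e x₁).1 R₁ fun y => ?_
  obtain ⟨x, hx, hx'⟩ := fb_near (e := e) g y one_pos
  obtain ⟨a, ha, ha'⟩ := hR₁ x x.2 (hx'.trans (by linarith [hC y]))
  refine ⟨ρ a, ⟨a, ha, rfl⟩, ?_⟩
  rw [← hx]
  have h1 := h.eqv a x₁
  rw [← h1]
  exact (h.lip _ _).trans ha'

/-- two translates such that the images of the intersections have infinite index: a third one with
finite image -/
lemma Fib.tri (hG : Geo X G) (h : Fib hE ρ e) {k : Q} {τ : ℝ}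
    (hτ : 0 < τ) {c : ℝ → Y} (hk : Axis k τ c) (hHP : HP c = ∅) {h₁ h₂ : G}
    (n1 : ((IK K h₁).map ρ).index = 0) (n2 : ((IK K h₂).map ρ).index = 0) :
    ∃ κ : K, (ρ '' {x : K | x ∈ IK K h₁ ∧ κ⁻¹ * x * κ ∈ IK K h₂}).Finite := by
  have := h.geo.isom
  have := h.geo.proper
  by_cases f1 : ∀ s : Q, ∃ l : ℕ, 0 < l ∧ (s * k * s⁻¹) ^ l ∈ (IK K h₁).map ρ
  · exact absurd n1 (h.full hG hτ hk hHP _ f1)
  by_cases f2 : ∀ s : Q, ∃ l : ℕ, 0 < l ∧ (s * k * s⁻¹) ^ l ∈ (IK K h₂).map ρ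
  · exact absurd n2 (h.full hG hτ hk hHP _ f2)
  push Not at f1 f2
  obtain ⟨s₁, hs₁⟩ := f1
  obtain ⟨s₂, hs₂⟩ := f2
  obtain ⟨R, D, hP⟩ := pass_of_axis h.geo.cn hτ hk hHP
  obtain ⟨g, hg⟩ := dyn h.geo (axis_conj hk s₂) (hP.smul s₂) (axis_conj hk s₁) (hP.smul s₁)
    (A₁ := (IK K h₁).map ρ) (A₂ := (IK K h₂).map ρ) (h.qc hG h₁) (h.qc hG h₂) hs₂ hs₁
  obtain ⟨κ, rfl⟩ := h.surj g
  refine ⟨κ, hg.subset ?_⟩
  rintro _ ⟨x, ⟨hx1, hx2⟩, rfl⟩
  exact ⟨⟨x, hx1, rfl⟩, ⟨κ⁻¹ * x * κ, hx2, by rw [map_mul, map_mul, map_inv]⟩⟩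

end Pool.Agent.V7H57.WL
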