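import Pool.Agent.V7H57.WL.Main

/-!
# The final theorem on walls and flats
-/

set_option autoImplicit false

open Metric Set Filter Topology
open Pool.Agent.TH60.FP Pool.Agent.TH60.FP.Strip Pool.Agent.Y34.HB Pool.Agent.Y34.EL
open Pool.Agent.T6.H46.RR Pool.Agent.T6.H67.TA Pool.Agent.T6.H46.RC Pool.Agent.V7H57.RK
open scoped Pointwise

namespace Pool.Agent.V7H57.WL

variable {X : Type} [MetricSpace X] {G : Type} [Group G] [MulAction G X]
variable {V : Type} [MulAction G V] {W : Set (Set V)}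

theorem wall_flats (hG : Geo X G) (hW1 : ∀ A ∈ W, Aᶜ ∈ W)
    (hW2 : ∀ A ∈ W, ∀ g : G, g • A ∈ W)
    (hW3 : ∀ u v : V, {A | A ∈ W ∧ u ∈ A ∧ v ∉ A}.Finite) {d : ℕ}
    (hd : ∀ S : Finset (Set V), (∀ A ∈ S, A ∈ W) → (∀ A ∈ S, ∀ B ∈ S, A ≠ B → Tv A B) →
      S.card ≤ d) (m : ℕ)
    (hVA : ∀ Z : ℕ → Set V, (∀ i ≤ m, Z i ∈ W) → (∀ i < m, Z (i + 1) ⊂ Z i) →
      ∃ A' ≤ MulAction.stabilizer G (Z 0) ⊓ MulAction.stabilizer G (Z m),
        A'.relIndex (MulAction.stabilizer G (Z 0) ⊓ MulAction.stabilizer G (Z m)) ≠ 0 ∧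
        A'.FG ∧ ∀ a ∈ A', ∀ b ∈ A', a * b = b * a)
    (hE : m = 0 ∨ ∀ A ∈ W, ∃ B : Set X, CC (MulAction.stabilizer G A) B) (o : X) (v0 : V)
    {k : ℕ} (hk : 2 ≤ k) {F : E k → X} (hF : Isometry F) :
    (∃ φ : Multiplicative (ℤ × ℤ) →* G, Function.Injective φ) ∨
    ∃ f ∈ closure {f : E k → X | ∃ (g : G) (p : E k), f = fun z => g • F (z + p)}, ∃ N : ℕ,
      Isometry f ∧ (∀ z, ∃ g : G, dist (f z) (g • o) ≤ N ∧
        {A | A ∈ W ∧ v0 ∈ A ∧ g • v0 ∉ A}.ncard ≤ N) ∧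
      {g : G | {A | A ∈ W ∧ v0 ∈ A ∧ g • v0 ∉ A}.ncard ≤ N}.Infinite := by
  have := hG.isom
  have := hG.proper
  have hE' : ∀ A ∈ W, ∃ B : Set X, CC (MulAction.stabilizer G A) B := by
    rcases hE with h | h
    · intro A hA
      obtain ⟨A', h1, h2, h3, h4⟩ := hVA (fun _ => A) (fun _ _ => hA) fun i hi => by omega
      rw [inf_idem] at h1 h2
      obtain ⟨B', hB'⟩ := cc_abelian hG A' h3 h4 o
      exact cc_fin hG h1 h2 hB'
    · exact h
  obtain ⟨D0, ρ, E0, C, h⟩ := exists_dat hG hW1 hW2 hW3 hE' o v0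
  have hL := FL.fam_closure hG hF
  set L := closure {f : E k → X | ∃ (g : G) (p : E k), f = fun z => g • F (z + p)} with hLd
  have hFL : F ∈ L := subset_closure ⟨1, 0, by funext z; rw [one_smul, add_zero]⟩
  by_cases hN : Far G W o v0 L
  · left
    refine h.main hk hW3 hd hL ⟨F, hFL⟩ hN m fun Z h1 h2 => ?_
    obtain ⟨A', -, h3, h4, h5⟩ := hVA Z h1 h2
    exact ⟨A', h3, h4, h5⟩
  · right
    unfold Far at hN
    push Not at hN
    obtain ⟨f, hf, N, hfN⟩ := hN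
    have hfi := hL.isom f hf
    refine ⟨f, hf, N, hfi, hfN, fun hQ => ?_⟩
    obtain ⟨R, hR⟩ := ((hQ.image fun g : G => dist (g • o) (f 0))).bddAbove
    have hb : ∀ z, dist (f z) (f 0) ≤ N + R := by
      intro z
      obtain ⟨g, hg1, hg2⟩ := hfN z
      have h1 : dist (g • o) (f 0) ≤ R := hR ⟨g, hg2, rfl⟩
      exact (dist_triangle _ (g • o) _).trans (add_le_add hg1 h1)
    have h1 := hb (EuclideanSpace.single (⟨0, by omega⟩ : Fin k) (N + R + 1 : ℝ))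
    rw [hfi.dist_eq, dist_zero_right, EuclideanSpace.norm_single, Real.norm_eq_abs] at h1
    have h2 := le_abs_self (N + R + 1 : ℝ)
    linarith

end Pool.Agent.V7H57.WL
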