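import Pool.Agent.V7H57.WL.Crit

/-!
# Elements which shift a half-space, without assumptions on the stabiliser
-/

set_option autoImplicit false

open Metric Set Filter Topology
open Pool.Agent.TH60.FP Pool.Agent.TH60.FP.Strip Pool.Agent.Y34.HB Pool.Agent.Y34.EL
open Pool.Agent.T6.H46.RR Pool.Agent.T6.H67.TA Pool.Agent.T6.H46.RC Pool.Agent.V7H57.RK
open scoped Pointwise

namespace Pool.Agent.V7H57.WL

variable {X : Type} [MetricSpace X] {G : Type} [Group G] [MulAction G X]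
variable {V : Type} [MulAction G V]
variable {A : Set V} {t : G} {c : ℝ → X} {τ : ℝ} {H : ℝ × NNReal → X} {v0 : V}

/-- the translates which contain a given point -/
lemma eventually_mem (hfin : ∀ u v : V, {B : Set V | (∃ g : G, B = g • A) ∧ u ∈ B ∧ v ∉ B}.Finite)
    (ht : t • A ⊂ A) (v : V) : ∃ J : ℤ, (∀ i ≤ -J, v ∈ t ^ i • A) ∧ ∀ i ≥ J, v ∉ t ^ i • A := by
  obtain ⟨w, hw1, hw2⟩ := Set.exists_of_ssubset ht
  have hinj := zinj ht hw1 hw2
  have h1 : ∃ i : ℤ, v ∈ t ^ i • A := by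
    by_contra hc
    push Not at hc
    refine Set.infinite_of_injective_forall_mem (f := fun n : ℕ => t ^ (-(n : ℤ)) • A)
      (s := {B : Set V | (∃ g : G, B = g • A) ∧ w ∈ B ∧ v ∉ B}) ?_ ?_ (hfin w v)
    · intro n m hnm
      have := hinj hnm
      omega
    · intro n
      exact ⟨⟨_, rfl⟩, by
        have := (zmem ht hw1 hw2 0 (-(n : ℤ))).2 (by omega)
        rwa [zpow_zero, one_smul] at this, hc _⟩
  have h2 : ∃ i : ℤ, v ∉ t ^ i • A := by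
    by_contra hc
    push Not at hc
    refine Set.infinite_of_injective_forall_mem (f := fun n : ℕ => t ^ ((n : ℤ) + 1) • A)
      (s := {B : Set V | (∃ g : G, B = g • A) ∧ v ∈ B ∧ w ∉ B}) ?_ ?_ (hfin v w)
    · intro n m hnm
      have := hinj hnm
      omega
    · intro n
      refine ⟨⟨_, rfl⟩, hc _, fun hm => ?_⟩
      have := (zmem ht hw1 hw2 0 ((n : ℤ) + 1)).1 (by rwa [zpow_zero, one_smul])
      omega
  obtain ⟨i1, h1⟩ := h1
  obtain ⟨i2, h2⟩ := h2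
  refine ⟨max (-i1) i2, fun i hi => zmono ht (by omega) h1, fun i hi hm => h2 ?_⟩
  exact zmono ht (by omega) hm

/-- the last crossing of a horizontal line -/
lemma last_cross (hG : Geo X G)
    (hfin : ∀ u v : V, {B : Set V | (∃ g : G, B = g • A) ∧ u ∈ B ∧ v ∉ B}.Finite)
    (ht : t • A ⊂ A) (hτ : 0 < τ) (hc : Axis t τ c) (hH : H ∈ HP c) {D0 : ℝ}
    (hcov : ∀ x : X, ∃ g : G, dist x (g • c 0) ≤ D0) (y : NNReal) :
    ∃ (R : ℝ) (β : ℤ → ℝ), 0 ≤ R ∧ (∀ i, |β i - i * τ| ≤ R) ∧ Monotone β ∧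
      ∀ i, (∃ g : G, dist (H (β i, y)) (g • c 0) ≤ D0 + 1 ∧ g • v0 ∉ t ^ i • A) ∧
        ∃ g : G, dist (H (β i, y)) (g • c 0) ≤ D0 + 1 ∧ g • v0 ∈ t ^ i • A := by
  classical
  have := hG.isom
  -- the finitely many elements
  set Γ : Set G := {h | dist (c 0) (h • c 0) ≤ D0 + y + τ} with hΓ
  have hΓf : Γ.Finite := finite_short hG (c 0) _
  choose J hJ using fun h : G => eventually_mem hfin ht (h • v0)
  obtain ⟨M, hM⟩ := (hΓf.image J).bddAbove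
  have hJM : ∀ h ∈ Γ, J h ≤ M := fun h hh => hM ⟨h, hh, rfl⟩
  have key : ∀ (s : ℝ) (g : G), dist (H (s, y)) (g • c 0) ≤ D0 →
      ∀ i : ℤ, (i * τ ≤ s - (|(M : ℝ)| + 1) * τ → g • v0 ∈ t ^ i • A) ∧
        (s + (|(M : ℝ)| + 1) * τ ≤ i * τ → g • v0 ∉ t ^ i • A) := by
    intro s g hg i
    set n : ℤ := ⌊s / τ⌋ with hn
    have f1 : (n : ℝ) * τ ≤ s := by
      have := Int.floor_le (s / τ)
      rwa [le_div_iff₀ hτ] at this
    have f2 : s ≤ n * τ + τ := by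
      have := (Int.lt_floor_add_one (s / τ)).le
      rw [div_le_iff₀ hτ] at this
      linarith
    have e1 : c (n * τ) = t ^ n • c 0 := by rw [axis_zpow hc, zero_add]
    have d1 : dist (t ^ n • c 0) (g • c 0) ≤ D0 + y + τ := by
      have d2 := dist_triangle4 (t ^ n • c 0) (H (s, 0)) (H (s, y)) (g • c 0)
      rw [hp_ver hH, NNReal.coe_zero, zero_sub, abs_neg, abs_of_nonneg (NNReal.coe_nonneg y),
        hH.2, ← e1, hc.1.dist_eq, Real.dist_eq, abs_of_nonpos (by linarith)] at d2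
      rw [← e1]
      linarith
    have hmem : (t ^ n)⁻¹ * g ∈ Γ := by
      show dist (c 0) (((t ^ n)⁻¹ * g) • c 0) ≤ D0 + y + τ
      rw [mul_smul, ← dist_smul (t ^ n), smul_inv_smul]
      exact d1
    obtain ⟨j1, j2⟩ := hJ ((t ^ n)⁻¹ * g)
    have hJM' := hJM _ hmem
    have e2 : g • v0 ∈ t ^ i • A ↔ ((t ^ n)⁻¹ * g) • v0 ∈ t ^ (i - n) • A := by
      have e3 : t ^ i • A = t ^ n • (t ^ (i - n) • A) := by
        rw [smul_smul, ← zpow_add]; congr 2; ring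
      rw [e3, mul_smul, ← Set.mem_smul_set_iff_inv_smul_mem]
    have hMle : (M : ℝ) ≤ |(M : ℝ)| := le_abs_self _
    constructor
    · intro hi
      rw [e2]
      refine j1 _ ?_
      have h1 : (i : ℝ) * τ ≤ ((n : ℝ) - |(M : ℝ)|) * τ := by linarith
      have h2 := le_of_mul_le_mul_right h1 hτ
      have h3 : (i : ℝ) - n ≤ -(M : ℝ) := by linarith
      have h4 : i - n ≤ -M := by exact_mod_cast h3
      omega
    · intro hi
      rw [e2]
      refine j2 _ ?_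
      have h1 : ((n : ℝ) + (|(M : ℝ)| + 1)) * τ ≤ i * τ := by linarith
      have h2 := le_of_mul_le_mul_right h1 hτ
      have h3 : (M : ℝ) ≤ (i : ℝ) - n := by linarith
      have h4 : M ≤ i - n := by exact_mod_cast h3
      show J ((t ^ n)⁻¹ * g) ≤ i - n
      omega
  set R : ℝ := (|(M : ℝ)| + 1) * τ with hR
  have hR0 : 0 ≤ R := by positivity
  set S : ℤ → Set ℝ := fun i => {s | ∃ g : G, dist (H (s, y)) (g • c 0) ≤ D0 ∧
    g • v0 ∉ t ^ i • A} with hS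
  have hne : ∀ i, (i : ℝ) * τ - R ∈ S i := by
    intro i
    obtain ⟨g, hg⟩ := hcov (H (i * τ - R, y))
    exact ⟨g, hg, (key _ g hg i).2 (by linarith)⟩
  have hbd : ∀ i, ∀ s ∈ S i, s ≤ i * τ + R := by
    rintro i s ⟨g, hg1, hg2⟩
    by_contra hlt
    exact hg2 ((key s g hg1 i).1 (by linarith))
  have hbd' : ∀ i, BddAbove (S i) := fun i => ⟨_, hbd i⟩
  refine ⟨R, fun i => sSup (S i), hR0, ?_, ?_, ?_⟩
  · intro i
    have h1 : sSup (S i) ≤ i * τ + R := csSup_le ⟨_, hne i⟩ (hbd i)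
    have h2 : i * τ - R ≤ sSup (S i) := le_csSup (hbd' i) (hne i)
    rw [abs_le]
    constructor <;> linarith
  · intro i j hij
    refine csSup_le_csSup (hbd' j) ⟨_, hne i⟩ ?_
    rintro s ⟨g, hg1, hg2⟩
    exact ⟨g, hg1, fun hm => hg2 (zmono ht hij hm)⟩
  · intro i
    constructor
    · obtain ⟨s, hs, hs2⟩ := exists_lt_of_lt_csSup ⟨_, hne i⟩
        (show sSup (S i) - 1 < sSup (S i) by linarith)
      have hs3 := le_csSup (hbd' i) hs
      obtain ⟨g, hg1, hg2⟩ := hs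
      refine ⟨g, ?_, hg2⟩
      have h1 := dist_triangle (H (sSup (S i), y)) (H (s, y)) (g • c 0)
      rw [hp_hor hH, abs_of_nonneg (by linarith)] at h1
      linarith
    · obtain ⟨g, hg⟩ := hcov (H (sSup (S i) + 1, y))
      refine ⟨g, ?_, ?_⟩
      · have h1 := dist_triangle (H (sSup (S i), y)) (H (sSup (S i) + 1, y)) (g • c 0)
        rw [hp_hor hH, sub_add_cancel_left, abs_neg, abs_one] at h1
        linarith
      · by_contra hm
        have h1 := le_csSup (hbd' i) (show sSup (S i) + 1 ∈ S i from ⟨g, hg, hm⟩)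
        linarith

/-- **Main theorem.**  No assumption on the stabiliser of `A`. -/
theorem skew_free (hG : Geo X G) (o : X) {A : Set V}
    (hfin : ∀ u v : V, {B : Set V | (∃ g : G, B = g • A) ∧ u ∈ B ∧ v ∉ B}.Finite)
    {t : G} (ht : t • A ⊂ A) : RankOne X t ∨ ∀ n : ℕ, (Cs t A 0 n : Set G).Infinite := by
  classical
  have := hG.isom
  have := hG.proper
  have hord : ∀ n : ℕ, 0 < n → t ^ n ≠ 1 := by
    intro n hn h1
    have h2 := shift_pow ht n hn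
    rw [h1, one_smul] at h2
    exact ssubset_irrefl A h2
  obtain ⟨τ, c, hτ, hc⟩ := exists_axis_inf hG o hord
  by_cases hH : HP c = ∅
  · exact Or.inl ⟨τ, c, hτ, hc, hH⟩
  right
  obtain ⟨H, hH⟩ := Set.nonempty_iff_ne_empty.2 hH
  obtain ⟨v0, -, -⟩ := Set.exists_of_ssubset ht
  obtain ⟨K, hK, hcov⟩ := hG.cc
  obtain ⟨D0, hD0⟩ := hK.isBounded.subset_closedBall (c 0)
  have hcov' : ∀ x : X, ∃ g : G, dist x (g • c 0) ≤ D0 := by
    intro x
    obtain ⟨g, hg⟩ := hcov x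
    refine ⟨g⁻¹, ?_⟩
    rw [← dist_smul g, smul_inv_smul]
    exact mem_closedBall.1 (hD0 hg)
  intro k
  set D : ℝ := k * τ + 1 with hD
  -- the points
  have hpt : ∀ q : ℕ, ∃ x : X, (q : ℝ) ≤ dist x (c 0) ∧ ∀ l : ℕ, l ≤ k →
      (∃ g : G, dist x (g • c 0) ≤ D + D0 + 1 ∧ g • v0 ∉ t ^ (l : ℤ) • A) ∧
      ∃ g : G, dist x (g • c 0) ≤ D + D0 + 1 ∧ g • v0 ∈ t ^ (l : ℤ) • A := by
    intro q
    set y : NNReal := (q : NNReal) with hy
    have hyc : (y : ℝ) = q := by rw [hy]; simp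
    obtain ⟨R, β, hR0, hβ, hmono, hcr⟩ := last_cross (v0 := v0) hG hfin ht hτ hc hH hcov' y
    obtain ⟨N, hN⟩ := exists_nat_ge (2 * R)
    have hM : β ((k * (N + 1) : ℕ) : ℤ) - β ((0 : ℕ) : ℤ) ≤ ((N + 1 : ℕ) : ℝ) * D := by
      have e1 := hβ ((k * (N + 1) : ℕ) : ℤ)
      have e2 := hβ ((0 : ℕ) : ℤ)
      rw [abs_le] at e1 e2
      have e3 : ((((0 : ℕ) : ℤ)) : ℝ) * τ = 0 := by simp
      rw [e3] at e2
      have e4 : ((((k * (N + 1) : ℕ) : ℤ)) : ℝ) * τ = (N + 1) * (k * τ) := by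
        push_cast; ring
      rw [e4] at e1
      have e5 : ((N + 1 : ℕ) : ℝ) * D = (N + 1) * (k * τ) + (N + 1) := by
        rw [hD]; push_cast; ring
      rw [e5]
      linarith [e1.2, e2.1]
    obtain ⟨j, hj, hjD⟩ := exists_block (M := fun n : ℕ => β (n : ℤ)) (k := k) (D := D)
      (Nat.succ_pos N) hM
    have haxis : c 0 = (t ^ ((k * j : ℕ) : ℤ))⁻¹ • c (((k * j : ℕ) : ℤ) * τ) := by
      rw [eq_inv_smul_iff, axis_zpow hc, zero_add]
    refine ⟨(t ^ ((k * j : ℕ) : ℤ))⁻¹ • H (β ((k * j : ℕ) : ℤ), y), ?_, fun l hl => ?_⟩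
    · conv_rhs => rw [haxis, dist_smul, ← hH.2]
      have e2 : dist (H (β ((k * j : ℕ) : ℤ), y)) (H ((((k * j : ℕ) : ℤ) : ℝ) * τ, 0)) ^ 2 =
          (β ((k * j : ℕ) : ℤ) - (((k * j : ℕ) : ℤ) : ℝ) * τ) ^ 2 + (q : ℝ) ^ 2 := by
        rw [hH.1, hyc, NNReal.coe_zero, sub_zero]
      refine abs_le_of_sq_le_sq' ?_ dist_nonneg |>.2
      rw [e2]
      nlinarith [sq_nonneg (β ((k * j : ℕ) : ℤ) - (((k * j : ℕ) : ℤ) : ℝ) * τ)]
    · have h3 : β ((k * j : ℕ) : ℤ) ≤ β ((k * j + l : ℕ) : ℤ) := hmono (by push_cast; omega)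
      have h4 : β ((k * j + l : ℕ) : ℤ) ≤ β ((k * (j + 1) : ℕ) : ℤ) := hmono (by
        rw [Nat.mul_succ]; push_cast; omega)
      have h5 : ∀ g : G, dist (H (β ((k * j + l : ℕ) : ℤ), y)) (g • c 0) ≤ D0 + 1 →
          dist ((t ^ ((k * j : ℕ) : ℤ))⁻¹ • H (β ((k * j : ℕ) : ℤ), y))
            (((t ^ ((k * j : ℕ) : ℤ))⁻¹ * g) • c 0) ≤ D + D0 + 1 := by
        intro g hg
        rw [mul_smul, dist_smul]
        have h6 := dist_triangle (H (β ((k * j : ℕ) : ℤ), y)) (H (β ((k * j + l : ℕ) : ℤ), y))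
          (g • c 0)
        rw [hp_hor hH, abs_of_nonpos (by linarith)] at h6
        linarith
      have h6 : ∀ g : G, ((t ^ ((k * j : ℕ) : ℤ))⁻¹ * g) • v0 ∈ t ^ (l : ℤ) • A ↔
          g • v0 ∈ t ^ ((k * j + l : ℕ) : ℤ) • A := by
        intro g
        have e3 : t ^ ((k * j + l : ℕ) : ℤ) • A = t ^ ((k * j : ℕ) : ℤ) • (t ^ (l : ℤ) • A) := by
          rw [smul_smul, ← zpow_add]; push_cast; rfl
        rw [e3, mul_smul, ← Set.mem_smul_set_iff_inv_smul_mem]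
      obtain ⟨⟨g1, g2, g3⟩, g4, g5, g6⟩ := hcr ((k * j + l : ℕ) : ℤ)
      exact ⟨⟨_, h5 g1 g2, fun hm => g3 ((h6 g1).1 hm)⟩, _, h5 g4 g5, (h6 g4).2 g6⟩
  choose x hx1 hx2 using hpt
  choose δ hδ using fun q : ℕ => hcov' (x q)
  set Γ : Set G := {h | dist (c 0) (h • c 0) ≤ D + 2 * D0 + 1} with hΓ
  have hΓf : Γ.Finite := finite_short hG (c 0) _
  set F : Set (Set V) := {B : Set V | ∃ z ∈ Γ ×ˢ Γ, (∃ g : G, B = g • A) ∧ z.1 • v0 ∈ B ∧
    z.2 • v0 ∉ B} with hF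
  have hFf : F.Finite := by
    refine ((hΓf.prod hΓf).biUnion fun z _ => hfin (z.1 • v0) (z.2 • v0)).subset ?_
    rintro B ⟨z, hz, h1, h2, h3⟩
    exact mem_biUnion hz ⟨h1, h2, h3⟩
  have key := FL.inf_stab (K := ⨅ l : Fin (k + 1), MulAction.stabilizer G (t ^ ((l : ℕ) : ℤ) • A))
    (β := Fin (k + 1) → Set V) (Y := Set.univ.pi fun _ => F)
    (Set.Finite.pi fun _ => hFf) δ (fun g l => g⁻¹ • (t ^ ((l : ℕ) : ℤ) • A)) ?_ ?_ ?_
  · refine key.mono ?_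
    intro a ha
    rw [SetLike.mem_coe, Subgroup.mem_iInf] at ha
    rw [SetLike.mem_coe, mem_Cs]
    intro l l1 l2
    obtain ⟨k', rfl⟩ := Int.eq_ofNat_of_zero_le l1
    have := ha ⟨k', by omega⟩
    rw [MulAction.mem_stabilizer_iff] at this
    exact this
  · intro q l _
    obtain ⟨⟨g1, g2, g3⟩, g4, g5, g6⟩ := hx2 q l (Nat.lt_succ_iff.1 l.2)
    have e0 : ∀ g : G, dist (x q) (g • c 0) ≤ D + D0 + 1 → (δ q)⁻¹ * g ∈ Γ := by
      intro g hg
      show dist (c 0) (((δ q)⁻¹ * g) • c 0) ≤ D + 2 * D0 + 1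
      rw [mul_smul, ← dist_smul (δ q), smul_inv_smul]
      have h1 := dist_triangle (δ q • c 0) (x q) (g • c 0)
      have h2 := hδ q
      rw [dist_comm] at h2
      linarith
    have e1 : ∀ g : G, ((δ q)⁻¹ * g) • v0 ∈ (δ q)⁻¹ • (t ^ ((l : ℕ) : ℤ) • A) ↔
        g • v0 ∈ t ^ ((l : ℕ) : ℤ) • A := by
      intro g
      rw [mul_smul]
      exact Set.smul_mem_smul_set_iff
    exact ⟨((δ q)⁻¹ * g4, (δ q)⁻¹ * g1), ⟨e0 _ g5, e0 _ g2⟩,
      ⟨(δ q)⁻¹ * t ^ ((l : ℕ) : ℤ), by rw [mul_smul]⟩, (e1 _).2 g6, fun hm => g3 ((e1 _).1 hm)⟩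
  · intro g g' he
    rw [Subgroup.mem_iInf]
    intro l
    have e1 : g⁻¹ • (t ^ ((l : ℕ) : ℤ) • A) = g'⁻¹ • (t ^ ((l : ℕ) : ℤ) • A) := congrFun he l
    rw [MulAction.mem_stabilizer_iff, mul_smul, ← e1, smul_inv_smul]
  · intro g
    obtain ⟨N, hN⟩ := exists_nat_gt (D0 + dist (g • c 0) (c 0))
    refine (Set.finite_Iio N).subset ?_
    intro q hq
    rw [Set.mem_ofPred_eq] at hq
    rw [Set.mem_Iio]
    have e1 := hx1 q
    have e2 := hδ q
    rw [hq] at e2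
    have e3 := dist_triangle (x q) (g • c 0) (c 0)
    have e4 : (q : ℝ) < N := by linarith
    exact_mod_cast e4

end Pool.Agent.V7H57.WL
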