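import Pool.Agent.V7H57.WL.Fin

/-!
# Flat half-planes bounded by the axis of an element which shifts a half-space
-/

set_option autoImplicit false

open Metric Set Filter Topology
open Pool.Agent.TH60.FP Pool.Agent.TH60.FP.Strip Pool.Agent.Y34.HB Pool.Agent.Y34.EL
open Pool.Agent.T6.H46.RR Pool.Agent.T6.H67.TA Pool.Agent.T6.H46.RC Pool.Agent.V7H57.RK
open scoped Pointwise

namespace Pool.Agent.V7H57.WL

variable {X : Type} [MetricSpace X] {G : Type} [Group G] [MulAction G X]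
variable {V : Type} [MulAction G V] {W : Set (Set V)}
variable {o : X} {D0 : ℝ} {v0 : V} {ρ : Set V → X → ℝ} {E0 : Set (Set V)} {C : ℝ}

/-- the side does not change along a path outside -/
lemma Dat.path (h : Dat G W o D0 v0 ρ E0 C) {A : Set V} (hA : A ∈ W) {f : ℝ → X} {L : ℝ}
    (hL : 0 ≤ L) (hf : ∀ u v, 0 ≤ u → u ≤ L → 0 ≤ v → v ≤ L → dist (f u) (f v) ≤ |u - v|)
    (hd : ∀ u, 0 ≤ u → u ≤ L → ¬ Ins G ρ E0 C A (f u)) (hs : Sd G o D0 v0 A (f 0)) :
    Sd G o D0 v0 A (f L) := by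
  obtain ⟨N, hN⟩ := exists_nat_gt L
  have hN0 : (0 : ℝ) < N := lt_of_le_of_lt hL hN
  have hmem : ∀ i : ℕ, i ≤ N → 0 ≤ ((i : ℝ) / N) * L ∧ ((i : ℝ) / N) * L ≤ L := by
    intro i hi
    have h1 : (i : ℝ) / N ≤ 1 := by
      rw [div_le_one hN0]
      exact_mod_cast hi
    have h2 : 0 ≤ (i : ℝ) / N := by positivity
    exact ⟨by positivity, by nlinarith⟩
  have key : ∀ i : ℕ, i ≤ N → Sd G o D0 v0 A (f (((i : ℝ) / N) * L)) := by
    intro i
    induction i with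
    | zero => intro _; simpa using hs
    | succ i ih =>
      intro hi
      have h1 := ih (by omega)
      obtain ⟨m1, m2⟩ := hmem i (by omega)
      obtain ⟨m3, m4⟩ := hmem (i + 1) hi
      rcases h.side A (f ((((i + 1 : ℕ) : ℝ) / N) * L)) with h2 | h2
      · exact h2
      · refine (h.one_side hA ?_ h2 h1 (Or.inl (hd _ m3 m4))).elim
        refine (hf _ _ m3 m4 m1 m2).trans ?_
        have e : (((i + 1 : ℕ) : ℝ) / N) * L - ((i : ℝ) / N) * L = L / N := by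
          push_cast
          field_simp
          ring
        rw [e, abs_of_nonneg (by positivity), div_le_one hN0]
        exact hN.le
  have h1 := key N le_rfl
  rw [div_self hN0.ne', one_mul] at h1
  exact h1

section hp

variable {c : ℝ → X} {H : ℝ × NNReal → X}

lemma hp_conv (hH : H ∈ HP c) {p q m : ℝ × NNReal} {l : ℝ} (hl0 : 0 ≤ l) (hl1 : l ≤ 1)
    (h1 : m.1 = p.1 + l * (q.1 - p.1)) (h2 : (m.2 : ℝ) = p.2 + l * (q.2 - p.2)) :
    dist (H p) (H m) = l * dist (H p) (H q) ∧ dist (H m) (H q) = (1 - l) * dist (H p) (H q) := by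
  have e1 : dist (H p) (H m) ^ 2 = (l * dist (H p) (H q)) ^ 2 := by
    rw [mul_pow, hH.1, hH.1, h1, h2]; ring
  have e2 : dist (H m) (H q) ^ 2 = ((1 - l) * dist (H p) (H q)) ^ 2 := by
    rw [mul_pow, hH.1, hH.1, h1, h2]; ring
  have n0 : 0 ≤ dist (H p) (H q) := dist_nonneg
  exact ⟨(pow_left_inj₀ dist_nonneg (mul_nonneg hl0 n0) two_ne_zero).1 e1,
    (pow_left_inj₀ dist_nonneg (mul_nonneg (by linarith) n0) two_ne_zero).1 e2⟩

lemma hp_ins (h : Dat G W o D0 v0 ρ E0 C) {A : Set V} (hA : A ∈ W) (hH : H ∈ HP c)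
    {p q m : ℝ × NNReal} {l : ℝ} (hl0 : 0 ≤ l) (hl1 : l ≤ 1)
    (h1 : m.1 = p.1 + l * (q.1 - p.1)) (h2 : (m.2 : ℝ) = p.2 + l * (q.2 - p.2))
    (hp : Ins G ρ E0 C A (H p)) (hq : Ins G ρ E0 C A (H q)) : Ins G ρ E0 C A (H m) := by
  obtain ⟨d1, d2⟩ := hp_conv hH hl0 hl1 h1 h2
  refine ⟨hp.1, ?_⟩
  rcases eq_or_lt_of_le (dist_nonneg (x := H p) (y := H q)) with h0 | h0
  · rw [← h0, mul_zero] at d1
    rw [← dist_eq_zero.1 d1]; exact hp.2
  · have h3 := h.rho.conv A hA (H p) (H q) (H m) (by rw [d1, d2]; ring)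
    rw [d1, d2] at h3
    have h4 : (1 - l) * dist (H p) (H q) * ρ A (H p) + l * dist (H p) (H q) * ρ A (H q) ≤
        dist (H p) (H q) * C := by
      have i1 := mul_le_mul_of_nonneg_left hp.2
        (mul_nonneg (by linarith : (0 : ℝ) ≤ 1 - l) h0.le)
      have i2 := mul_le_mul_of_nonneg_left hq.2 (mul_nonneg hl0 h0.le)
      linarith
    exact le_of_mul_le_mul_left (h3.trans h4) h0

lemma hp_hor (hH : H ∈ HP c) (s s' : ℝ) (y : NNReal) : dist (H (s, y)) (H (s', y)) = |s - s'| := by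
  have e : dist (H (s, y)) (H (s', y)) ^ 2 = |s - s'| ^ 2 := by
    rw [hH.1, sq_abs]; ring
  exact (pow_left_inj₀ dist_nonneg (abs_nonneg _) two_ne_zero).1 e

lemma hp_ver (hH : H ∈ HP c) (s : ℝ) (y y' : NNReal) :
    dist (H (s, y)) (H (s, y')) = |(y : ℝ) - y'| := by
  have e : dist (H (s, y)) (H (s, y')) ^ 2 = |(y : ℝ) - y'| ^ 2 := by
    rw [hH.1, sq_abs]; ring
  exact (pow_left_inj₀ dist_nonneg (abs_nonneg _) two_ne_zero).1 e

lemma hp_cont (hH : H ∈ HP c) (y : NNReal) : Continuous fun s : ℝ => H (s, y) := by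
  have : Isometry fun s : ℝ => H (s, y) := Isometry.of_dist_eq fun s s' => by
    rw [hp_hor hH, Real.dist_eq]
  exact this.continuous

end hp

section skew

variable {A : Set V} {t : G}

lemma zmono (ht : t • A ⊂ A) {i j : ℤ} (hij : i ≤ j) : t ^ j • A ⊆ t ^ i • A := by
  have hn : ∀ n : ℕ, t ^ (n : ℤ) • A ⊆ A := by
    intro n
    rw [zpow_natCast]
    rcases Nat.eq_zero_or_pos n with h0 | h0
    · rw [h0, pow_zero, one_smul]
    · exact (shift_pow ht n h0).subset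
  obtain ⟨n, hn'⟩ := Int.eq_ofNat_of_zero_le (sub_nonneg.2 hij)
  have e : j = i + n := by omega
  rw [e, zpow_add, mul_smul]
  exact Set.smul_set_mono (hn n)

lemma zmem (ht : t • A ⊂ A) (h0 : v0 ∈ A) (h1 : v0 ∉ t • A) (n i : ℤ) :
    t ^ n • v0 ∈ t ^ i • A ↔ i ≤ n := by
  have e : t ^ n • v0 ∈ t ^ i • A ↔ v0 ∈ t ^ (i - n) • A := by
    rw [show i - n = -n + i by ring, zpow_add, mul_smul, zpow_neg, Set.mem_inv_smul_set_iff]
  rw [e]
  constructor
  · intro hm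
    by_contra hc
    have := zmono ht (show (1 : ℤ) ≤ i - n by omega) hm
    rw [zpow_one] at this
    exact h1 this
  · intro hle
    have := zmono ht (show i - n ≤ 0 by omega)
    rw [zpow_zero, one_smul] at this
    exact this h0

lemma zinj (ht : t • A ⊂ A) (h0 : v0 ∈ A) (h1 : v0 ∉ t • A) :
    Function.Injective fun i : ℤ => t ^ i • A := by
  intro i j hij
  simp only at hij
  have e1 := (zmem ht h0 h1 i i).2 le_rfl
  have e2 := (zmem ht h0 h1 j j).2 le_rfl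
  rw [hij, zmem ht h0 h1] at e1
  rw [← hij, zmem ht h0 h1] at e2
  omega

variable {c : ℝ → X} {τ : ℝ} {H : ℝ × NNReal → X}

lemma zW (h : Dat G W o D0 v0 ρ E0 C) (hA : A ∈ W) (i : ℤ) : t ^ i • A ∈ W := h.act A hA _

/-- sides of the points of the axis -/
lemma Dat.ax_side (h : Dat G W (c 0) D0 v0 ρ E0 C) (ht : t • A ⊂ A) (h0 : v0 ∈ A)
    (h1 : v0 ∉ t • A) (hc : Axis t τ c) (i n : ℤ) :
    (i ≤ n → Sd G (c 0) D0 v0 (t ^ i • A) (c (n * τ))) ∧
      (n < i → Sd G (c 0) D0 v0 (t ^ i • A)ᶜ (c (n * τ))) := by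
  have := h.geo.isom
  have hD : 0 ≤ D0 := by
    obtain ⟨g, hg⟩ := h.cov (c 0)
    exact dist_nonneg.trans hg
  have e : c (n * τ) = t ^ n • c 0 := by rw [axis_zpow hc, zero_add]
  constructor
  · intro hin
    exact ⟨t ^ n, by rw [e, dist_self]; exact hD, (zmem ht h0 h1 n i).2 hin⟩
  · intro hin
    refine ⟨t ^ n, by rw [e, dist_self]; exact hD, fun hm => ?_⟩
    have := (zmem ht h0 h1 n i).1 hm
    omega

/-- the walls near a point of the axis -/
lemma Dat.ax_near (h : Dat G W (c 0) D0 v0 ρ E0 C) (hA : A ∈ W) (ht : t • A ⊂ A) (h0 : v0 ∈ A)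
    (h1 : v0 ∉ t • A) (hτ : 0 < τ) (hc : Axis t τ c) (r : ℝ) : ∃ R : ℝ, 0 ≤ R ∧
      ∀ (i : ℤ) (s : ℝ), (∃ k : G, k • (t ^ i • A) ∈ E0) → ρ (t ^ i • A) (c s) ≤ r →
        |s - i * τ| ≤ R := by
  have := h.geo.isom
  have hfin : {n : ℤ | (∃ k : G, k • (t ^ n • A) ∈ E0) ∧ ρ (t ^ n • A) (c 0) ≤ r + τ}.Finite := by
    refine Set.Finite.of_finite_image ((h.loc_fin (r + τ)).subset ?_)
      ((zinj ht h0 h1).injOn (s := {n : ℤ | (∃ k : G, k • (t ^ n • A) ∈ E0) ∧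
        ρ (t ^ n • A) (c 0) ≤ r + τ}))
    rintro _ ⟨n, hn, rfl⟩
    exact hn
  obtain ⟨M, hM⟩ := (hfin.image fun n : ℤ => |(n : ℝ)|).bddAbove
  refine ⟨max 0 (τ + M * τ), le_max_left _ _, fun i s hk hs => le_max_of_le_right ?_⟩
  set n : ℤ := ⌊s / τ⌋ with hn
  have f1 : (n : ℝ) * τ ≤ s := by
    have := Int.floor_le (s / τ)
    rwa [le_div_iff₀ hτ] at this
  have f2 : s ≤ n * τ + τ := by
    have := (Int.lt_floor_add_one (s / τ)).le
    rw [div_le_iff₀ hτ] at this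
    linarith
  have h2 : ρ (t ^ i • A) (c (n * τ)) ≤ r + τ := by
    have h3 := h.rho.lip (t ^ i • A) (c (n * τ)) (c s)
    rw [hc.1.dist_eq, Real.dist_eq, abs_of_nonpos (by linarith)] at h3
    linarith
  have e1 : t ^ (i - n) • A = (t ^ n)⁻¹ • (t ^ i • A) := by
    rw [smul_smul, ← zpow_neg, ← zpow_add]
    congr 2; ring
  have e2 : c 0 = (t ^ n)⁻¹ • c (n * τ) := by
    rw [eq_inv_smul_iff, axis_zpow hc, zero_add]
  have hmem : |((i - n : ℤ) : ℝ)| ≤ M := by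
    refine hM ⟨i - n, ⟨?_, ?_⟩, rfl⟩
    · obtain ⟨k, hk⟩ := hk
      exact ⟨k * t ^ n, by rw [e1, mul_smul, smul_inv_smul]; exact hk⟩
    · rw [e1]
      conv_lhs => rw [e2]
      rw [h.rho.inv _ (h.act A hA _)]
      exact h2
  push_cast at hmem
  have h3 : |s - i * τ| ≤ τ + |(i : ℝ) - n| * τ := by
    have : s - i * τ = (s - n * τ) - ((i : ℝ) - n) * τ := by ring
    rw [this]
    refine (abs_sub _ _).trans ?_
    rw [abs_mul, abs_of_pos hτ, abs_of_nonneg (by linarith : 0 ≤ s - n * τ)]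
    linarith
  have h4 := mul_le_mul_of_nonneg_right hmem hτ.le
  linarith

end skew

end Pool.Agent.V7H57.WL
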