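import Pool.Agent.V7H57.WL.Dat

/-!
# Flats which are unbounded in the wall metric are separated by walls everywhere
-/

set_option autoImplicit false

open Metric Set Filter Topology
open Pool.Agent.TH60.FP Pool.Agent.TH60.FP.Strip Pool.Agent.Y34.HB Pool.Agent.Y34.EL
open Pool.Agent.T6.H46.RR Pool.Agent.T6.H67.TA Pool.Agent.T6.H46.RC Pool.Agent.V7H57.RK
open scoped Pointwise

namespace Pool.Agent.V7H57.WL

variable {X : Type} [MetricSpace X] {G : Type} [Group G] [MulAction G X]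
variable {V : Type} [MulAction G V] {W : Set (Set V)}
variable {o : X} {D0 : ℝ} {v0 : V} {ρ : Set V → X → ℝ} {E0 : Set (Set V)} {C : ℝ} {k : ℕ}

/-- no flat of the family is bounded in the wall metric -/
def Far (G : Type) [Group G] [MulAction G V] [MulAction G X] (W : Set (Set V)) (o : X) (v0 : V)
    (L : Set (E k → X)) : Prop :=
  ∀ f ∈ L, ∀ N : ℕ, ∃ z, ∀ g : G, dist (f z) (g • o) ≤ N →
    N < {A | A ∈ W ∧ v0 ∈ A ∧ g • v0 ∉ A}.ncard

/-- the number of the half-spaces near a point -/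
lemma Dat.num (h : Dat G W o D0 v0 ρ E0 C) : ∃ N1 : ℕ, ∀ x : X,
    {A : Set V | Ins G ρ E0 C A x}.Finite ∧ {A : Set V | Ins G ρ E0 C A x}.ncard ≤ N1 := by
  have := h.geo.isom
  have hfin := h.loc_fin (C + D0)
  refine ⟨{A : Set V | (∃ k : G, k • A ∈ E0) ∧ ρ A o ≤ C + D0}.ncard, fun x => ?_⟩
  obtain ⟨g, hg⟩ := h.cov x
  have hmaps : ∀ A ∈ {A : Set V | Ins G ρ E0 C A x},
      g⁻¹ • A ∈ {A : Set V | (∃ k : G, k • A ∈ E0) ∧ ρ A o ≤ C + D0} := by
    rintro A hA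
    obtain ⟨h1, h2⟩ := h.ins_smul g⁻¹ (show Ins G ρ E0 C A x from hA)
    refine ⟨h1, ?_⟩
    have h3 := h.rho.lip (g⁻¹ • A) o (g⁻¹ • x)
    have h4 : dist o (g⁻¹ • x) = dist x (g • o) := by
      rw [← dist_smul g, smul_inv_smul, dist_comm]
    linarith
  have hinj : Set.InjOn (fun A : Set V => g⁻¹ • A) {A : Set V | Ins G ρ E0 C A x} :=
    (MulAction.injective g⁻¹).injOn
  exact ⟨Set.Finite.of_finite_image (hfin.subset (by rintro _ ⟨A, hA, rfl⟩; exact hmaps A hA))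
    hinj, Set.ncard_le_ncard_of_injOn _ hmaps hinj hfin⟩

/-- some wall separates the flat -/
lemma Dat.all_sep (h : Dat G W o D0 v0 ρ E0 C)
    (hW3 : ∀ u v : V, {A | A ∈ W ∧ u ∈ A ∧ v ∉ A}.Finite) {L : Set (E k → X)}
    (hN : Far G W o v0 L) {f : E k → X} (hf : f ∈ L) : ∃ A ∈ W,
      ∃ z1 z2 : E k, ¬ Ins G ρ E0 C A (f z1) ∧ ¬ Ins G ρ E0 C A (f z2) ∧
        Sd G o D0 v0 Aᶜ (f z1) ∧ Sd G o D0 v0 A (f z2) := by
  classical
  by_contra hno
  push Not at hno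
  obtain ⟨N1, hN1⟩ := h.num
  obtain ⟨g0, hg0⟩ := h.cov (f 0)
  set c0 := {A | A ∈ W ∧ v0 ∈ A ∧ g0 • v0 ∉ A}.ncard with hc0
  obtain ⟨n0, hn0⟩ := exists_nat_ge D0
  obtain ⟨z, hz⟩ := hN f hf (n0 + (c0 + (N1 + N1)))
  obtain ⟨g, hg⟩ := h.cov (f z)
  have h1 := hz g (hg.trans (hn0.trans (by exact_mod_cast Nat.le_add_right _ _)))
  have hsub : {A | A ∈ W ∧ v0 ∈ A ∧ g • v0 ∉ A} ⊆ {A | A ∈ W ∧ v0 ∈ A ∧ g0 • v0 ∉ A} ∪
      ({A : Set V | Ins G ρ E0 C A (f 0)} ∪ {A : Set V | Ins G ρ E0 C A (f z)}) := by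
    rintro A ⟨hA, hA1, hA2⟩
    by_cases hg0A : g0 • v0 ∈ A
    · right
      by_contra hc
      rw [mem_union, not_or] at hc
      exact hno A hA z 0 hc.2 hc.1 ⟨g, hg, hA2⟩ ⟨g0, hg0, hg0A⟩
    · exact Or.inl ⟨hA, hA1, hg0A⟩
  have h2 := Set.ncard_le_ncard hsub ((hW3 _ _).union ((hN1 _).1.union (hN1 _).1))
  have h3 := Set.ncard_union_le {A | A ∈ W ∧ v0 ∈ A ∧ g0 • v0 ∉ A}
    ({A : Set V | Ins G ρ E0 C A (f 0)} ∪ {A : Set V | Ins G ρ E0 C A (f z)})
  have h4 := Set.ncard_union_le {A : Set V | Ins G ρ E0 C A (f 0)}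
    {A : Set V | Ins G ρ E0 C A (f z)}
  have h5 := (hN1 (f 0)).2
  have h6 := (hN1 (f z)).2
  omega

lemma Dat.ev_side (h : Dat G W o D0 v0 ρ E0 C) {A : Set V} (hA : A ∈ W) {x : ℕ → X} {y : X}
    (hx : Tendsto x (hyperfilter ℕ : Filter ℕ) (𝓝 y)) (h1 : ¬ Ins G ρ E0 C A y)
    (h2 : Sd G o D0 v0 A y) : ∀ᶠ n in (hyperfilter ℕ : Filter ℕ),
      ¬ Ins G ρ E0 C A (x n) ∧ Sd G o D0 v0 A (x n) := by
  have e1 : ∀ᶠ n in (hyperfilter ℕ : Filter ℕ), ¬ Ins G ρ E0 C A (x n) := by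
    by_cases hk : ∃ g : G, g • A ∈ E0
    · have h3 : C < ρ A y := by
        by_contra hc
        exact h1 ⟨hk, not_lt.1 hc⟩
      filter_upwards [(((h.cont A).tendsto _).comp hx).eventually (eventually_gt_nhds h3)]
        with n hn hi
      exact absurd hi.2 (not_le.2 hn)
    · exact Eventually.of_forall fun n hi => hk hi.1
  have e2 : ∀ᶠ n in (hyperfilter ℕ : Filter ℕ), dist (x n) y < 1 :=
    hx.eventually (ball_mem_nhds y one_pos)
  filter_upwards [e1, e2] with n hn1 hn2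
  refine ⟨hn1, ?_⟩
  rcases h.side A (x n) with hs | hs
  · exact hs
  · exact (h.one_side hA hn2.le hs h2 (Or.inl hn1)).elim

/-- near every point of a flat of the family some wall separates the flat -/
lemma Dat.unif_sep (h : Dat G W o D0 v0 ρ E0 C)
    (hW3 : ∀ u v : V, {A | A ∈ W ∧ u ∈ A ∧ v ∉ A}.Finite) {L : Set (E k → X)} (hL : Fam G L)
    (hN : Far G W o v0 L) : ∃ M : ℝ, 0 ≤ M ∧ ∀ f ∈ L, ∀ p : E k, ∃ A ∈ W,
      ∃ z1 z2 : E k, dist z1 p ≤ M ∧ dist z2 p ≤ M ∧ ¬ Ins G ρ E0 C A (f z1) ∧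
        ¬ Ins G ρ E0 C A (f z2) ∧ Sd G o D0 v0 Aᶜ (f z1) ∧ Sd G o D0 v0 A (f z2) := by
  classical
  have := h.geo.isom
  by_contra hc
  push Not at hc
  have hc' : ∀ n : ℕ, ∃ f ∈ L, ∃ p : E k, ∀ A ∈ W, ∀ z1 z2 : E k,
      dist z1 p ≤ n → dist z2 p ≤ n → ¬ Ins G ρ E0 C A (f z1) → ¬ Ins G ρ E0 C A (f z2) →
        Sd G o D0 v0 Aᶜ (f z1) → ¬ Sd G o D0 v0 A (f z2) :=
    fun n => hc n (Nat.cast_nonneg n)
  choose f hf p hp using hc'
  choose g hg using fun n => h.cov (f n (p n))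
  obtain ⟨φ, hφ, hlim⟩ := FL.exists_lim (o := o) (R := D0) h.geo hL
    (F := fun n z => (g n)⁻¹ • f n (p n + z))
    (fun n => hL.smul _ (hL.trans _ (hf n) (p n)) (g n)⁻¹)
    (fun n => by
      show dist ((g n)⁻¹ • f n (p n + 0)) o ≤ D0
      rw [add_zero, ← dist_smul (g n), smul_inv_smul]; exact hg n)
  obtain ⟨A, hA, z1, z2, h1, h2, h3, h4⟩ := h.all_sep hW3 hN hφ
  have e1 := h.ev_side (h.compl A hA) (hlim z1) (fun hi => h1 (hi.symm' h)) h3
  have e2 := h.ev_side hA (hlim z2) h2 h4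
  obtain ⟨n, hn1, hn2, hn3, hn4⟩ :=
    (e1.and (e2.and ((FL.ev_large ‖z1‖).and (FL.ev_large ‖z2‖)))).exists
  refine hp n (g n • A) (h.act _ hA _) (p n + z1) (p n + z2)
    (by rw [dist_self_add_left]; exact hn3) (by rw [dist_self_add_left]; exact hn4) ?_ ?_ ?_ ?_
  · intro hi
    have := h.ins_smul (g n)⁻¹ hi
    rw [inv_smul_smul] at this
    exact hn1.1 (this.symm h)
  · intro hi
    have := h.ins_smul (g n)⁻¹ hi
    rw [inv_smul_smul] at this
    exact hn2.1 this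
  · have := h.side_smul (g n) hn1.2
    rwa [smul_inv_smul, Set.smul_set_compl] at this
  · have := h.side_smul (g n) hn2.2
    rwa [smul_inv_smul] at this

/-- a wall which separates the flat near `p` -/
lemma Dat.sep_at (h : Dat G W o D0 v0 ρ E0 C) {f : E k → X} (hf : Isometry f) {M : ℝ}
    (hsep : ∀ p : E k, ∃ A ∈ W, ∃ z1 z2 : E k, dist z1 p ≤ M ∧ dist z2 p ≤ M ∧
      ¬ Ins G ρ E0 C A (f z1) ∧ ¬ Ins G ρ E0 C A (f z2) ∧ Sd G o D0 v0 Aᶜ (f z1) ∧
      Sd G o D0 v0 A (f z2)) (p : E k) :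
    ∃ A ∈ W, ∃ n : E k, ‖n‖ = 1 ∧ Sep G o D0 v0 ρ E0 C f A p n M := by
  obtain ⟨A, hA, z1, z2, c1, c2, c3, c4, c5, c6⟩ := hsep p
  obtain ⟨n, hn, hs⟩ := h.sep hA hf c1 c2 c3 c4 c5 c6
  exact ⟨A, hA, n, hn, hs⟩

/-- a vector which is not orthogonal to finitely many unit vectors -/
lemma exists_generic {S : Set (E k)} (hS : S.Finite) (h1 : ∀ n ∈ S, ‖n‖ = 1) :
    ∃ u : E k, ∀ n ∈ S, inner ℝ n u ≠ (0 : ℝ) := by
  classical
  set T : Finset (Subspace ℝ (E k)) := hS.toFinset.image fun n => (Submodule.span ℝ {n})ᗮ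
    with hT
  have htop : ⊤ ∉ T := by
    intro ht
    obtain ⟨n, hn, hn2⟩ := Finset.mem_image.1 ht
    have hn1 := h1 n (hS.mem_toFinset.1 hn)
    have h2 : n ∈ (Submodule.span ℝ {n})ᗮ := by rw [hn2]; trivial
    have h3 := Submodule.mem_orthogonal_singleton_iff_inner_right.1 h2
    rw [real_inner_self_eq_norm_sq, hn1] at h3
    norm_num at h3
  have h2 := Subspace.biUnion_ne_univ_of_top_notMem htop
  obtain ⟨u, hu⟩ := (Set.ne_univ_iff_exists_notMem _).1 h2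
  refine ⟨u, fun n hn h0 => hu ?_⟩
  refine mem_biUnion (x := (Submodule.span ℝ {n})ᗮ) ?_ ?_
  · exact Finset.mem_coe.2 (Finset.mem_image.2 ⟨n, hS.mem_toFinset.2 hn, rfl⟩)
  · exact Submodule.mem_orthogonal_singleton_iff_inner_right.2 h0

/-- there are finitely many directions of separating walls -/
lemma Dat.dir_fin (h : Dat G W o D0 v0 ρ E0 C) {d : ℕ}
    (hd : ∀ S : Finset (Set V), (∀ A ∈ S, A ∈ W) → (∀ A ∈ S, ∀ B ∈ S, A ≠ B → Tv A B) →
      S.card ≤ d) {f : E k → X} {M : ℝ} :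
    {n : E k | ‖n‖ = 1 ∧ ∃ A ∈ W, ∃ p, Sep G o D0 v0 ρ E0 C f A p n M}.Finite := by
  classical
  by_contra hinf
  obtain ⟨s, hs, hcard⟩ := Set.Infinite.exists_subset_card_eq hinf (2 * d + 1)
  have hs1 : ∀ n ∈ s, ‖n‖ = 1 := fun n hn => (hs hn).1
  obtain ⟨u, hu⟩ := exists_generic (S := (s : Set (E k))) s.finite_toSet hs1
  have hA : ∀ n : E k, ∃ A : Set V, n ∈ s → A ∈ W ∧ ∃ p, Sep G o D0 v0 ρ E0 C f A p n M := by
    intro n
    by_cases hn : n ∈ s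
    · obtain ⟨A, hA, hp⟩ := (hs hn).2
      exact ⟨A, fun _ => ⟨hA, hp⟩⟩
    · exact ⟨∅, fun h => absurd h hn⟩
  choose A hA using hA
  have key : ∀ t : Finset (E k), t ⊆ s → (∀ n ∈ t, ∀ n' ∈ t, n' ≠ -n) → t.card ≤ d := by
    intro t hts hpar
    have htv : ∀ n ∈ t, ∀ n' ∈ t, n ≠ n' → Tv (A n) (A n') := by
      intro n hn n' hn' hne
      obtain ⟨a1, p1, s1⟩ := hA n (hts hn)
      obtain ⟨a2, p2, s2⟩ := hA n' (hts hn')
      exact h.tv a1 a2 (hs1 n (hts hn)) (hs1 n' (hts hn')) s1 s2 (Ne.symm hne)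
        (hpar n hn n' hn')
    have hinj : Set.InjOn A t := by
      intro n hn n' hn' he
      by_contra hne
      have := (htv n hn n' hn' hne).2.1
      rw [he] at this
      obtain ⟨x, hx1, hx2⟩ := this
      exact hx2 hx1
    rw [← Finset.card_image_of_injOn hinj]
    refine hd _ ?_ ?_
    · intro B hB
      obtain ⟨n, hn, rfl⟩ := Finset.mem_image.1 hB
      exact (hA n (hts hn)).1
    · intro B hB B' hB' hne
      obtain ⟨n, hn, rfl⟩ := Finset.mem_image.1 hB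
      obtain ⟨n', hn', rfl⟩ := Finset.mem_image.1 hB'
      exact htv n hn n' hn' fun he => hne (by rw [he])
  have k1 := key (s.filter fun n => (0 : ℝ) < inner ℝ n u) (Finset.filter_subset _ _) (by
    intro n hn n' hn' he
    have e1 := (Finset.mem_filter.1 hn).2
    have e2 := (Finset.mem_filter.1 hn').2
    rw [he, inner_neg_left] at e2
    linarith)
  have k2 := key (s.filter fun n => ¬ (0 : ℝ) < inner ℝ n u) (Finset.filter_subset _ _) (by
    intro n hn n' hn' he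
    have e1 := (Finset.mem_filter.1 hn).2
    have e2 := (Finset.mem_filter.1 hn').2
    have e3 := hu n (Finset.mem_coe.2 (Finset.mem_filter.1 hn).1)
    rw [he, inner_neg_left] at e2
    exact e3 (le_antisymm (not_lt.1 e1) (by linarith)))
  have k3 := Finset.card_filter_add_card_filter_not (s := s) (fun n : E k => (0 : ℝ) < inner ℝ n u)
  omega

/-- a chain in a finite set without large antichains -/
lemma exists_chain {d : ℕ} {R : ℕ → ℕ → Prop}
    (hR : ∀ S : Finset ℕ, (∀ s ∈ S, ∀ t ∈ S, ¬ R s t) → S.card ≤ d) (q : ℕ) :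
    ∀ S : Finset ℕ, d * q < S.card →
      ∃ c : ℕ → ℕ, (∀ i ≤ q, c i ∈ S) ∧ ∀ i < q, R (c i) (c (i + 1)) := by
  classical
  induction q with
  | zero =>
    intro S hS
    obtain ⟨s, hs⟩ := Finset.card_pos.1 (by omega : 0 < S.card)
    exact ⟨fun _ => s, fun _ _ => hs, fun i hi => absurd hi (Nat.not_lt_zero i)⟩
  | succ q ih =>
    intro S hS
    have h1 : (S.filter fun t => ∀ s ∈ S, ¬ R s t).card ≤ d := hR _ fun s hs t ht =>
      (Finset.mem_filter.1 ht).2 s (Finset.mem_filter.1 hs).1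
    have h2 := Finset.card_filter_add_card_filter_not (s := S) (fun t => ∀ s ∈ S, ¬ R s t)
    obtain ⟨c, hc1, hc2⟩ := ih (S.filter fun t => ¬ ∀ s ∈ S, ¬ R s t) (by
      have : d * (q + 1) = d * q + d := by ring
      omega)
    obtain ⟨hc3, hc4⟩ := Finset.mem_filter.1 (hc1 0 (Nat.zero_le q))
    push Not at hc4
    obtain ⟨s, hs, hs2⟩ := hc4
    refine ⟨fun i => Nat.casesOn i s c, ?_, ?_⟩
    · intro i hi
      cases i with
      | zero => exact hs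
      | succ i => exact (Finset.mem_filter.1 (hc1 i (by omega))).1
    · intro i hi
      cases i with
      | zero => exact hs2
      | succ i => exact hc2 i (by omega)

end Pool.Agent.V7H57.WL
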