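import Pool.Agent.V7H57.WL.Alg

/-!
# The walls which separate a flat
-/

set_option autoImplicit false

open Metric Set Filter Topology
open Pool.Agent.TH60.FP Pool.Agent.TH60.FP.Strip Pool.Agent.Y34.HB Pool.Agent.Y34.EL
open Pool.Agent.T6.H46.RR Pool.Agent.T6.H67.TA Pool.Agent.T6.H46.RC Pool.Agent.V7H57.RK
open scoped Pointwise

namespace Pool.Agent.V7H57.WL

variable {X : Type} [MetricSpace X] {G : Type} [Group G] [MulAction G X]
variable {V : Type} [MulAction G V] {W : Set (Set V)}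
variable {o : X} {D0 : ℝ} {v0 : V} {ρ : Set V → X → ℝ} {E0 : Set (Set V)} {C : ℝ} {k : ℕ}

lemma Tv.symm {A B : Set V} (h : Tv A B) : Tv B A :=
  ⟨by rw [inter_comm]; exact h.1, by rw [inter_comm]; exact h.2.2.1,
    by rw [inter_comm]; exact h.2.1, by rw [inter_comm]; exact h.2.2.2⟩

lemma Tv.irrefl {A : Set V} (h : Tv A A) : False := by
  obtain ⟨x, hx1, hx2⟩ := h.2.1
  exact hx2 hx1

/-- parallel or transverse -/
lemma Dat.order (h : Dat G W o D0 v0 ρ E0 C) {f : E k → X} {M : ℝ} (hM : 0 ≤ M) {u : E k}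
    {A A' : Set V} (hA : A ∈ W) (hA' : A' ∈ W) {n n' : E k} (hn : ‖n‖ = 1) (hn' : ‖n'‖ = 1)
    {s t : ℕ} (hst : s < t) (hs : Sep G o D0 v0 ρ E0 C f A ((s : ℝ) • u) n M)
    (hs' : Sep G o D0 v0 ρ E0 C f A' ((t : ℝ) • u) n' M) (hu : 2 * M + 1 ≤ inner ℝ n u)
    (hu' : 2 * M + 1 ≤ inner ℝ n' u) (hnR : ¬ (A' ⊂ A ∧ n = n')) : Tv A A' := by
  by_cases he : n = n'
  · subst he
    have hst' : (1 : ℝ) ≤ (t : ℝ) - s := by
      have : (s : ℝ) + 1 ≤ t := by exact_mod_cast hst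
      linarith
    have hle : 2 * M + 1 ≤ ((t : ℝ) - s) * inner ℝ n u := by
      have := mul_le_mul_of_nonneg_right hst' (by linarith : (0 : ℝ) ≤ inner ℝ n u)
      linarith
    have inn : ∀ a b c : ℝ, inner ℝ n (a • u + b • n - c • u) = (a - c) * inner ℝ n u + b := by
      intro a b c
      rw [inner_sub_right, inner_add_right, real_inner_smul_right, real_inner_smul_right,
        real_inner_smul_right, real_inner_self_eq_norm_sq, hn]
      ring
    obtain ⟨g1, hg1⟩ := h.cov (f ((t : ℝ) • u + M • n))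
    obtain ⟨g2, hg2⟩ := h.cov (f ((s : ℝ) • u + M • n))
    obtain ⟨g3, hg3⟩ := h.cov (f ((s : ℝ) • u + (-M) • n))
    have x1 := hs.1 ((t : ℝ) • u + M • n) (by rw [inn]; linarith)
    have y1 := hs'.1 ((t : ℝ) • u + M • n) (by rw [inn]; linarith)
    have x2 := hs.1 ((s : ℝ) • u + M • n) (by rw [inn]; linarith)
    have y2 := hs'.2 ((s : ℝ) • u + M • n) (by rw [inn]; linarith)
    have x3 := hs.2 ((s : ℝ) • u + (-M) • n) (by rw [inn]; linarith)
    have y3 := hs'.2 ((s : ℝ) • u + (-M) • n) (by rw [inn]; linarith)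
    have m1 := h.side_all hA x1.1 x1.2 hg1
    have m1' := h.side_all hA' y1.1 y1.2 hg1
    have m2 := h.side_all hA x2.1 x2.2 hg2
    have m2' := h.side_all' hA' y2.1 y2.2 hg2
    have m3 := h.side_all' hA x3.1 x3.2 hg3
    have m3' := h.side_all' hA' y3.1 y3.2 hg3
    refine ⟨⟨_, m1, m1'⟩, ⟨_, m2, m2'⟩, ?_, ⟨_, m3, m3'⟩⟩
    by_contra hc
    rw [Set.not_nonempty_iff_eq_empty] at hc
    refine hnR ⟨⟨fun x hx => ?_, fun hsub => ?_⟩, rfl⟩
    · by_contra hxA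
      have : x ∈ Aᶜ ∩ A' := ⟨hxA, hx⟩
      rw [hc] at this
      exact this
    · exact m2' (hsub m2)
  · refine h.tv hA hA' hn hn' hs hs' (fun h1 => he h1.symm) fun h1 => ?_
    rw [h1, inner_neg_left] at hu'
    linarith

/-- **Main step.** -/
theorem Dat.main (h : Dat G W o D0 v0 ρ E0 C) (hk : 2 ≤ k)
    (hW3 : ∀ u v : V, {A | A ∈ W ∧ u ∈ A ∧ v ∉ A}.Finite) {d : ℕ}
    (hd : ∀ S : Finset (Set V), (∀ A ∈ S, A ∈ W) → (∀ A ∈ S, ∀ B ∈ S, A ≠ B → Tv A B) →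
      S.card ≤ d) {L : Set (E k → X)} (hL : Fam G L)
    (hne : L.Nonempty) (hN : Far G W o v0 L) (m : ℕ)
    (hVA : ∀ Z : ℕ → Set V, (∀ i ≤ m, Z i ∈ W) → (∀ i < m, Z (i + 1) ⊂ Z i) →
      ∃ A' : Subgroup G,
        A'.relIndex (MulAction.stabilizer G (Z 0) ⊓ MulAction.stabilizer G (Z m)) ≠ 0 ∧
        A'.FG ∧ ∀ a ∈ A', ∀ b ∈ A', a * b = b * a) :
    ∃ φ : Multiplicative (ℤ × ℤ) →* G, Function.Injective φ := by
  classical
  have := h.geo.isom
  obtain ⟨f, hfL⟩ := hne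
  have hf := hL.isom f hfL
  obtain ⟨M, hM, hsep⟩ := h.unif_sep hW3 hL hN
  have hat := h.sep_at hf (hsep f hfL)
  -- a direction which is transverse to all walls
  set Nf : Set (E k) := {n : E k | ‖n‖ = 1 ∧ ∃ A ∈ W, ∃ p, Sep G o D0 v0 ρ E0 C f A p n M}
    with hNfd
  have hNf : Nf.Finite := h.dir_fin hd
  obtain ⟨u0, hu0⟩ := exists_generic hNf fun n hn => hn.1
  obtain ⟨u, hu⟩ : ∃ u : E k, ∀ n ∈ Nf, 2 * M + 1 ≤ |inner ℝ n u| := by
    obtain ⟨B, hB⟩ := (hNf.image fun n => |inner ℝ n u0|⁻¹).bddAbove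
    refine ⟨((2 * M + 1) * B) • u0, fun n hn => ?_⟩
    have h1 : 0 < |inner ℝ n u0| := abs_pos.2 (hu0 n hn)
    have h2 : |inner ℝ n u0|⁻¹ ≤ B := hB ⟨n, hn, rfl⟩
    have h3 : 1 ≤ B * |inner ℝ n u0| := by
      have := mul_le_mul_of_nonneg_right h2 h1.le
      rwa [inv_mul_cancel₀ h1.ne'] at this
    have h4 : (2 * M + 1) * B ≤ |(2 * M + 1) * B| := le_abs_self _
    rw [real_inner_smul_right, abs_mul]
    have h5 := mul_le_mul_of_nonneg_right h4 h1.le
    have h6 := mul_le_mul_of_nonneg_left h3 (by linarith : (0 : ℝ) ≤ 2 * M + 1)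
    rw [mul_one] at h6
    calc 2 * M + 1 ≤ _ := h6
      _ = (2 * M + 1) * B * |inner ℝ n u0| := by ring
      _ ≤ _ := h5
  have hor : ∀ p : E k, ∃ A ∈ W, ∃ n : E k, ‖n‖ = 1 ∧ Sep G o D0 v0 ρ E0 C f A p n M ∧
      2 * M + 1 ≤ inner ℝ n u := by
    intro p
    obtain ⟨A, hA, n, hn, hs⟩ := hat p
    have h1 := hu n ⟨hn, A, hA, p, hs⟩
    rcases le_total (0 : ℝ) (inner ℝ n u) with h2 | h2
    · rw [abs_of_nonneg h2] at h1
      exact ⟨A, hA, n, hn, hs, h1⟩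
    · rw [abs_of_nonpos h2] at h1
      refine ⟨Aᶜ, h.compl A hA, -n, by rw [norm_neg, hn], Sep.neg h (by rw [neg_neg]; exact hs), ?_⟩
      rw [inner_neg_left]; exact h1
  choose A hA n hn hs hnu using fun t : ℕ => hor ((t : ℝ) • u)
  -- the order of the walls
  let R : ℕ → ℕ → Prop := fun s t => s < t ∧ A t ⊂ A s ∧ n s = n t
  have hRT : ∀ s t, s < t → ¬ R s t → Tv (A s) (A t) := fun s t hst hnR =>
    h.order hM (hA s) (hA t) (hn s) (hn t) hst (hs s) (hs t) (hnu s) (hnu t)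
      fun hc => hnR ⟨hst, hc.1, hc.2⟩
  have hR : ∀ S : Finset ℕ, (∀ s ∈ S, ∀ t ∈ S, ¬ R s t) → S.card ≤ d := by
    intro S hS
    have htv : ∀ s ∈ S, ∀ t ∈ S, s ≠ t → Tv (A s) (A t) := by
      intro s hs' t ht hne
      rcases lt_or_gt_of_ne hne with h1 | h1
      · exact hRT s t h1 (hS s hs' t ht)
      · exact (hRT t s h1 (hS t ht s hs')).symm
    have hinj : Set.InjOn A S := by
      intro s hs' t ht he
      by_contra hne
      have h1 := htv s hs' t ht hne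
      rw [he] at h1
      exact h1.irrefl
    rw [← Finset.card_image_of_injOn hinj]
    refine hd _ ?_ ?_
    · intro B hB
      obtain ⟨s, -, rfl⟩ := Finset.mem_image.1 hB
      exact hA s
    · intro B hB B' hB' hne
      obtain ⟨s, hs', rfl⟩ := Finset.mem_image.1 hB
      obtain ⟨t, ht, rfl⟩ := Finset.mem_image.1 hB'
      exact htv s hs' t ht fun he => hne (by rw [he])
  -- the windows
  set Lw : ℕ := d * m + 1 with hLw
  have hwin : ∀ j : ℕ, ∃ c : ℕ → ℕ, (∀ i ≤ m, j * Lw ≤ c i ∧ c i < j * Lw + Lw) ∧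
      ∀ i < m, R (c i) (c (i + 1)) := by
    intro j
    obtain ⟨c, hc1, hc2⟩ := exists_chain hR m (Finset.Ico (j * Lw) (j * Lw + Lw))
      (by rw [Nat.card_Ico]; omega)
    exact ⟨c, fun i hi => Finset.mem_Ico.1 (hc1 i hi), hc2⟩
  choose c hc1 hc2 using hwin
  have hcn : ∀ j i, i ≤ m → n (c j i) = n (c j 0) := by
    intro j i
    induction i with
    | zero => intro _; rfl
    | succ i ih =>
      intro hi
      rw [← ih (by omega)]
      exact ((hc2 j i (by omega)).2.2).symm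
  -- the walls are near the flat
  have hnear : ∀ (l : ℕ) (q : E k), inner ℝ (n l) q = (0 : ℝ) → (∃ g : G, g • A l ∈ E0) ∧
      ρ (A l) (f ((l : ℝ) • u + q)) ≤ C + M := by
    intro l q hq
    exact h.mid (hA l) hf (hn l) hM (hs l) (by rw [add_sub_cancel_left]; exact hq)
  have hnear' : ∀ (l i : ℕ) (q : E k), inner ℝ (n l) q = (0 : ℝ) →
      ρ (A l) (f ((i : ℝ) • u + q)) ≤ C + M + |(i : ℝ) - l| * ‖u‖ := by
    intro l i q hq
    have h1 := h.rho.lip (A l) (f ((i : ℝ) • u + q)) (f ((l : ℝ) • u + q))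
    have h2 : dist (f ((i : ℝ) • u + q)) (f ((l : ℝ) • u + q)) = |(i : ℝ) - l| * ‖u‖ := by
      rw [hf.dist_eq, dist_add_right, dist_eq_norm, ← sub_smul, norm_smul, Real.norm_eq_abs]
    rw [h2] at h1
    linarith [(hnear l q hq).2]
  have hty : ∀ (l i : ℕ) (q : E k) (g : G) (B : ℝ), inner ℝ (n l) q = (0 : ℝ) →
      dist (f ((i : ℝ) • u + q)) (g • o) ≤ D0 → |(i : ℝ) - l| ≤ B →
      g⁻¹ • A l ∈ {A : Set V | (∃ k : G, k • A ∈ E0) ∧ ρ A o ≤ C + M + B * ‖u‖ + D0} := by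
    intro l i q g B hq hg hB
    have h1 := mul_le_mul_of_nonneg_right hB (norm_nonneg u)
    exact h.type hg (hnear l q hq).1 ((hnear' l i q hq).trans (by linarith))
  -- the first pigeonhole principle
  choose γ hγ using fun j : ℕ => h.cov (f (((j * Lw : ℕ) : ℝ) • u + (0 : E k)))
  set F1 : Set (Set V) := {A : Set V | (∃ k : G, k • A ∈ E0) ∧
    ρ A o ≤ C + M + (Lw : ℝ) * ‖u‖ + D0} with hF1
  have hF1f : F1.Finite := h.loc_fin _
  have hwab : ∀ j i, i ≤ m → |((j * Lw : ℕ) : ℝ) - c j i| ≤ (Lw : ℝ) := by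
    intro j i hi
    obtain ⟨e1, e2⟩ := hc1 j i hi
    have e3 : ((j * Lw : ℕ) : ℝ) ≤ c j i := by exact_mod_cast e1
    have e4 : (c j i : ℝ) ≤ ((j * Lw : ℕ) : ℝ) + Lw := by exact_mod_cast e2.le
    rw [abs_le]
    constructor <;> linarith [(Nat.cast_nonneg Lw : (0 : ℝ) ≤ Lw)]
  have hmaps : ∀ j : ℕ, (((γ j)⁻¹ • A (c j 0), (γ j)⁻¹ • A (c j m)) : Set V × Set V) ∈
      F1 ×ˢ F1 := fun j =>
    ⟨hty (c j 0) (j * Lw) 0 (γ j) Lw (inner_zero_right _) (hγ j) (hwab j 0 (Nat.zero_le m)),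
      hty (c j m) (j * Lw) 0 (γ j) Lw (inner_zero_right _) (hγ j) (hwab j m le_rfl)⟩
  have hcinj : Function.Injective fun j => c j 0 := by
    have key : ∀ i j, i < j → c i 0 < c j 0 := by
      intro i j hij
      have e1 := (hc1 i 0 (Nat.zero_le m)).2
      have e2 := (hc1 j 0 (Nat.zero_le m)).1
      have e3 : i * Lw + Lw ≤ j * Lw := by
        have := Nat.mul_le_mul_right Lw (Nat.succ_le_of_lt hij)
        rwa [Nat.succ_mul] at this
      omega
    intro i j hij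
    rcases lt_trichotomy i j with h1 | h1 | h1
    · exact absurd hij (key i j h1).ne
    · exact h1
    · exact absurd hij (key j i h1).ne'
  obtain ⟨i, j, hRij, hτ⟩ : ∃ i j : ℕ, R (c i 0) (c j 0) ∧
      (((γ i)⁻¹ • A (c i 0), (γ i)⁻¹ • A (c i m)) : Set V × Set V) =
      ((γ j)⁻¹ • A (c j 0), (γ j)⁻¹ • A (c j m)) := by
    have : Finite (F1 ×ˢ F1 : Set (Set V × Set V)) := hF1f.prod hF1f
    obtain ⟨y, hy⟩ := Finite.exists_infinite_fiber (fun j : ℕ =>
      (⟨((γ j)⁻¹ • A (c j 0), (γ j)⁻¹ • A (c j m)), hmaps j⟩ : (F1 ×ˢ F1 : Set (Set V × Set V))))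
    rw [Set.infinite_coe_iff] at hy
    obtain ⟨J, hJ, hJc⟩ := hy.exists_subset_card_eq (d + 1)
    have hval : ∀ j ∈ J, (((γ j)⁻¹ • A (c j 0), (γ j)⁻¹ • A (c j m)) : Set V × Set V) = y := by
      intro j hj
      exact congrArg Subtype.val (hJ hj)
    obtain ⟨c', hc1', hc2'⟩ := exists_chain hR 1 (J.image fun j => c j 0) (by
      rw [Finset.card_image_of_injective _ hcinj, hJc]; omega)
    obtain ⟨i, hi, hi'⟩ := Finset.mem_image.1 (hc1' 0 (Nat.zero_le 1))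
    obtain ⟨j, hj, hj'⟩ := Finset.mem_image.1 (hc1' 1 le_rfl)
    refine ⟨i, j, ?_, (hval i hi).trans (hval j hj).symm⟩
    rw [hi', hj']
    exact hc2' 0 Nat.zero_lt_one
  have hτ1 : (γ i)⁻¹ • A (c i 0) = (γ j)⁻¹ • A (c j 0) := congrArg Prod.fst hτ
  have hτ2 : (γ i)⁻¹ • A (c i m) = (γ j)⁻¹ • A (c j m) := congrArg Prod.snd hτ
  set g : G := γ j * (γ i)⁻¹ with hg
  have hmv : ∀ x y : Set V, (γ i)⁻¹ • x = (γ j)⁻¹ • y → g • x = y := by
    intro x y hxy
    rw [hg, mul_smul, hxy, smul_inv_smul]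
  have g1 := hmv _ _ hτ1
  have g2 := hmv _ _ hτ2
  have hsh : g • A (c i 0) ⊂ A (c i 0) := by
    rw [g1]; exact hRij.2.1
  -- a vector orthogonal to the normal vector
  set ν : E k := n (c i 0) with hν
  have hν1 : ‖ν‖ = 1 := hn _
  obtain ⟨w, hw, hnw⟩ : ∃ w : E k, ‖w‖ = 1 ∧ inner ℝ ν w = (0 : ℝ) := by
    have h1 : ∃ w : E k, w ∈ (Submodule.span ℝ {ν})ᗮ ∧ w ≠ 0 := by
      by_contra hc
      push Not at hc
      have h2 : (Submodule.span ℝ {ν})ᗮ = ⊥ := (Submodule.eq_bot_iff _).2 hc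
      have h3 := Submodule.finrank_add_finrank_orthogonal (Submodule.span ℝ {ν})
      rw [h2, finrank_bot, finrank_span_singleton (norm_ne_zero_iff.1 (by rw [hν1]; norm_num)),
        finrank_euclideanSpace, Fintype.card_fin] at h3
      omega
    obtain ⟨w, hw, hw0⟩ := h1
    have hwn : 0 < ‖w‖ := norm_pos_iff.2 hw0
    refine ⟨‖w‖⁻¹ • w, by rw [norm_smul, norm_inv, norm_norm, inv_mul_cancel₀ hwn.ne'], ?_⟩
    rw [real_inner_smul_right, Submodule.mem_orthogonal_singleton_iff_inner_right.1 hw, mul_zero]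
  -- the second pigeonhole principle
  set K : Subgroup G := MulAction.stabilizer G (A (c i 0)) ⊓ MulAction.stabilizer G (A (c i m))
    with hK
  set K' : Subgroup G := K ⊓ (MulAction.stabilizer G (A (c j 0)) ⊓
    MulAction.stabilizer G (A (c j m))) with hK'
  choose δ hδ using fun t : ℕ => h.cov (f ((c i 0 : ℝ) • u + (t : ℝ) • w))
  set B : ℕ := c i 0 + c i m + c j 0 + c j m with hB
  have hF2f := h.loc_fin (C + M + (B : ℝ) * ‖u‖ + D0)
  set F2 : Set (Set V) := {A : Set V | (∃ k : G, k • A ∈ E0) ∧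
    ρ A o ≤ C + M + (B : ℝ) * ‖u‖ + D0} with hF2
  have hm2 : ∀ (l : ℕ) (t : ℕ), l ≤ B → n l = ν → (δ t)⁻¹ • A l ∈ F2 := by
    intro l t hl hnl
    refine hty l (c i 0) ((t : ℝ) • w) (δ t) B
      (by rw [hnl, real_inner_smul_right, hnw, mul_zero]) (hδ t) ?_
    have hl' : (l : ℝ) ≤ B := by exact_mod_cast hl
    have hi' : (c i 0 : ℝ) ≤ B := by
      have : c i 0 ≤ B := by omega
      exact_mod_cast this
    have e1 : (0 : ℝ) ≤ c i 0 := Nat.cast_nonneg _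
    have e2 : (0 : ℝ) ≤ l := Nat.cast_nonneg l
    rw [abs_le]
    constructor <;> linarith
  have n2 : n (c i m) = ν := hcn i m le_rfl
  have n3 : n (c j 0) = ν := hRij.2.2.symm
  have n4 : n (c j m) = ν := (hcn j m le_rfl).trans n3
  have hinf : (K' : Set G).Infinite := by
    refine FL.inf_stab (β := (Set V × Set V) × (Set V × Set V))
      (Y := (F2 ×ˢ F2) ×ˢ (F2 ×ˢ F2)) ((hF2f.prod hF2f).prod (hF2f.prod hF2f)) δ
      (fun g => ((g⁻¹ • A (c i 0), g⁻¹ • A (c i m)), (g⁻¹ • A (c j 0), g⁻¹ • A (c j m))))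
      ?_ ?_ ?_
    · intro t
      exact ⟨⟨hm2 _ t (by omega) rfl, hm2 _ t (by omega) n2⟩,
        ⟨hm2 _ t (by omega) n3, hm2 _ t (by omega) n4⟩⟩
    · intro g g' he
      have e1 : g⁻¹ • A (c i 0) = g'⁻¹ • A (c i 0) := congrArg (fun z => z.1.1) he
      have e2 : g⁻¹ • A (c i m) = g'⁻¹ • A (c i m) := congrArg (fun z => z.1.2) he
      have e3 : g⁻¹ • A (c j 0) = g'⁻¹ • A (c j 0) := congrArg (fun z => z.2.1) he
      have e4 : g⁻¹ • A (c j m) = g'⁻¹ • A (c j m) := congrArg (fun z => z.2.2) he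
      have hfix : ∀ x : Set V, g⁻¹ • x = g'⁻¹ • x → g * g'⁻¹ ∈ MulAction.stabilizer G x := by
        intro x hx
        rw [MulAction.mem_stabilizer_iff, mul_smul, ← hx, smul_inv_smul]
      exact ⟨⟨hfix _ e1, hfix _ e2⟩, ⟨hfix _ e3, hfix _ e4⟩⟩
    · intro g
      obtain ⟨N, hN⟩ := exists_nat_gt (2 * D0)
      by_cases hem : ∃ t0, δ t0 = g
      · obtain ⟨t0, ht0⟩ := hem
        refine (Set.finite_Iio (t0 + N + 1)).subset ?_
        intro t ht
        rw [Set.mem_ofPred_eq] at ht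
        rw [Set.mem_Iio]
        by_contra hlt
        have h1 := dist_triangle_right (f ((c i 0 : ℝ) • u + (t : ℝ) • w))
          (f ((c i 0 : ℝ) • u + (t0 : ℝ) • w)) (g • o)
        have h2 := hδ t
        have h3 := hδ t0
        rw [ht] at h2
        rw [ht0] at h3
        rw [hf.dist_eq, dist_add_left, dist_eq_norm, ← sub_smul, norm_smul, hw, mul_one] at h1
        have h4 : (t0 : ℝ) + N + 1 ≤ t := by exact_mod_cast not_lt.1 hlt
        rw [Real.norm_eq_abs, abs_of_nonneg (by linarith [(Nat.cast_nonneg N : (0 : ℝ) ≤ N)])]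
          at h1
        linarith
      · refine Set.finite_empty.subset ?_
        intro t ht
        exact hem ⟨t, ht⟩
  obtain ⟨A', hA1, hA2, hA3⟩ := hVA (fun l => A (c i l)) (fun l _ => hA _)
    fun l hl => (hc2 i l hl).2.1
  refine z2_final h.geo o hsh hA1 hA2 hA3 (L := K') inf_le_left hinf ?_ ?_
  · intro s hs
    have hs1 : s • A (c j 0) = A (c j 0) := hs.2.1
    have hs2 : s • A (c j m) = A (c j m) := hs.2.2
    refine ⟨?_, ?_⟩
    · show (g⁻¹ * s * g) • A (c i 0) = A (c i 0)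
      rw [mul_smul, mul_smul, g1, hs1, ← g1, inv_smul_smul]
    · show (g⁻¹ * s * g) • A (c i m) = A (c i m)
      rw [mul_smul, mul_smul, g2, hs2, ← g2, inv_smul_smul]
  · intro s hs
    exact hs.1.1

end Pool.Agent.V7H57.WL
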