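import Pool.Agent.V7H57.WL.Fib

/-!
# If the convex set is near all nested translates then it contains a factor
-/

set_option autoImplicit false

open Metric Set Filter Topology
open Pool.Agent.TH60.FP Pool.Agent.TH60.FP.Strip Pool.Agent.Y34.HB Pool.Agent.Y34.EL
open Pool.Agent.T6.H46.RR Pool.Agent.T6.H67.TA Pool.Agent.T6.H46.RC Pool.Agent.V7H57.RK
open scoped Pointwise

namespace Pool.Agent.V7H57.WL

variable {G : Type} [Group G] {X : Type} [MetricSpace X] [MulAction G X]

lemma IK_index_of_bd (hG : Geo X G) {K : Subgroup G} {E : Set X} (hE : CC K E) {g : G}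
    (hg : Bd E g) : (IK K g).index ≠ 0 := by
  obtain ⟨o, ho⟩ := hE.ne
  obtain ⟨r, hr⟩ := hg
  obtain ⟨R₁, hR₁⟩ := coarse hG hE ho g r
  let _ := bact hE
  exact index_of_cobounded (geo_sub hG hE) (⟨o, ho⟩ : E) R₁ fun y => hR₁ y y.2 (hr y y.2)

variable {V : Type} [MulAction G V] {A B : Set V} {t₀ : G}

lemma mem_Kp_smul_iff {g s : G} {P Q : Set V} :
    s ∈ Kp G (g • P) (g • Q) ↔ g⁻¹ * s * g ∈ Kp G P Q := by
  refine ⟨mem_Kp_smul, fun h => ?_⟩
  rw [mem_Kp, mul_smul, mul_smul, inv_smul_eq_iff, mul_smul, mul_smul, inv_smul_eq_iff] at h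
  exact mem_Kp.2 h

lemma Kp_index_of_bd (hG : Geo X G) {E : Set X} (hE : CC (Kp G A B) E) {g : G}
    (hg : Bd E g) : (Kp G (g • A) (g • B)).relIndex (Kp G A B) ≠ 0 := by
  have h1 := IK_index_of_bd hG hE hg
  have h2 : (Kp G (g • A) (g • B)).subgroupOf (Kp G A B) = IK (Kp G A B) g := by
    ext s
    rw [Subgroup.mem_subgroupOf, mem_IK, mem_Kp_smul_iff]
  rw [Subgroup.relIndex, h2]
  exact h1

lemma relIndex_le_right {H K L : Subgroup G} (h : K ≤ L) (h1 : H.relIndex L ≠ 0) :
    H.relIndex K ≠ 0 := fun h0 => h1 (Subgroup.relIndex_eq_zero_of_le_right h h0)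

lemma bd_mid (hG : Geo X G) {D : Set (Set V)} (hD : Cls G D) {E : Set X} (hE : CC (Kp G A B) E)
    {g h : G} (hg : Bd E g) {P Q : Set V} (hP : P ∈ D) (hQ : Q ∈ D)
    (hAh : (h • A)ᶜ ∈ D) (hBh : (h • B)ᶜ ∈ D) (hBA : B ⊆ A)
    (hL : ∀ s ∈ Kp G A B, s ∈ Kp G (g • A) (g • B) → s ∈ Kp G P Q)
    (h1 : Q ⊆ (h • A)ᶜ) (h2 : (h • B)ᶜ ⊆ P) : Bd E h := by
  have e : (h • A)ᶜ ⊆ (h • B)ᶜ := compl_subset_compl.2 (Set.smul_set_mono hBA)
  have c1 := Kp_index_of_bd hG hE hg
  have c2 : (Kp G (h • A) (h • B)).relIndex (Kp G P Q) ≠ 0 := by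
    rw [← Kp_flip]
    exact hD.between hP hQ hBh hAh (h1.trans e) h2 h1 (e.trans h2)
  have c3 : (Kp G (h • A) (h • B)).relIndex (Kp G (g • A) (g • B) ⊓ Kp G A B) ≠ 0 :=
    relIndex_le_right (fun s hs => hL s hs.2 hs.1) c2
  have c4 : (Kp G (g • A) (g • B) ⊓ Kp G A B).relIndex (Kp G A B) ≠ 0 := by
    rw [Subgroup.inf_relIndex_right]; exact c1
  refine bd_of_index hG hE (M := Kp G (h • A) (h • B)) (Subgroup.relIndex_ne_zero_trans c3 c4)
    fun s hs => mem_Kp_smul hs

/-- **The factor.** -/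
theorem prod_of_inner (hG : Geo X G) (hGC : GC X)
    (hfin : ∀ u v : V, {C : Set V | C ∈ Wp G A B ∧ u ∈ C ∧ v ∉ C}.Finite)
    (hBA : B ⊆ A) (ht₀ : t₀ • A ⊂ B)
    {d : ℕ} (hd : ∀ S : Finset G, (∀ g ∈ S, ∀ g' ∈ S, g ≠ g' → TT A B g g') → S.card ≤ d)
    {E : Set X} (hE : CC (Kp G A B) E) (hI : ∀ h : G, h • A ⊆ B → Bd E h) :
    ∃ B₀ : Set X, B₀ ⊆ E ∧ CC (Kp G A B) B₀ ∧
      ∃ (Z : Type) (_ : MetricSpace Z) (_ : Nontrivial Z) (e : X ≃ Z × B₀),
        ∀ x x' : X, dist x x' ^ 2 = dist (e x).1 (e x').1 ^ 2 + dist (e x).2 (e x').2 ^ 2 := by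
  have := hG.isom
  have := hG.proper
  have htA : t₀ • A ⊂ A := ht₀.trans_subset hBA
  obtain ⟨hne, hnu⟩ := ne_of_shift htA
  have hneB : B.Nonempty := (hne.smul_set (a := t₀)).mono ht₀.subset
  have hnuB : Bᶜ.Nonempty := hnu.mono (compl_subset_compl.2 hBA)
  have hDm := cls_Wm hfin hne hnu hneB hnuB
  have hO : ∀ h : G, A ⊆ h • B → Bd E h := by
    intro h hh
    have h1 : h⁻¹ • A ⊆ B := by
      rw [Set.smul_set_subset_iff_subset_inv_smul_set, inv_inv]; exact hh
    have := bd_two hG hE (hI _ h1)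
    rwa [inv_inv] at this
  have ht₀S : t₀ ∈ BdS hG hE := mem_BdS.2 (hI _ ht₀.subset)
  have hfi : (BdS hG hE).index ≠ 0 := by
    by_cases hflip : Flips G A
    · -- both kinds of flips exist
      obtain ⟨⟨p, hp⟩, y, hy⟩ := hflip
      have hp' : p • A ⊆ Aᶜ := by
        intro v hv hvA
        have : v ∈ p • A ∩ A := ⟨hv, hvA⟩
        rw [hp] at this
        exact this
      set q : G := t₀ * y * t₀⁻¹ with hq
      have hq' : (q • B)ᶜ ⊆ B := by
        rw [hq, mul_smul, mul_smul, ← Set.smul_set_compl]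
        have e1 : A ⊆ t₀⁻¹ • B := by
          rw [Set.subset_smul_set_iff, inv_inv]; exact ht₀.subset
        have e2 : (y • t₀⁻¹ • B)ᶜ ⊆ A :=
          (compl_subset_compl.2 (Set.smul_set_mono e1)).trans hy
        exact (Set.smul_set_mono e2).trans ht₀.subset
      have hA1 : ∀ g : G, g • A ∈ Wm G A B := fun g => Wp_sub ⟨g, Or.inl rfl⟩
      have hB1 : ∀ g : G, g • B ∈ Wm G A B := fun g => Wp_sub ⟨g, Or.inr rfl⟩
      have hO' : ∀ h : G, Outer A B h → Bd E h := by
        rintro h (hh | hh)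
        · exact hO h hh
        · have e1 : (h • B)ᶜ ⊆ (h * q) • B := by
            have := Set.smul_set_mono (a := h) (compl_subset_comm.1 hq')
            rwa [Set.smul_set_compl, ← mul_smul] at this
          have e2 : (h • A)ᶜ ⊆ (h • B)ᶜ := compl_subset_compl.2 (Set.smul_set_mono hBA)
          have hb : Bd E (h * q) := hO _ (hh.trans (e2.trans e1))
          refine bd_mid hG hDm hE hb (hB1 (h * q)) (P := (h * q) • B) (Q := A) ?_
            (Wm_compl _ (hA1 h)) (Wm_compl _ (hB1 h)) hBA (fun s hs hs' => ?_) hh e1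
          · have := hA1 (1 : G)
            rwa [one_smul] at this
          · exact mem_Kp.2 ⟨(mem_Kp.1 hs').2, (mem_Kp.1 hs).1⟩
      have hI' : ∀ h : G, Inner A B h → Bd E h := by
        rintro h (hh | hh)
        · exact hI h hh
        · have e1 : (h * p) • A ⊆ (h • A)ᶜ := by
            have := Set.smul_set_mono (a := h) hp'
            rwa [Set.smul_set_compl, ← mul_smul] at this
          have e2 : (h • A)ᶜ ⊆ (h • B)ᶜ := compl_subset_compl.2 (Set.smul_set_mono hBA)
          have hb : Bd E (h * p) := hI _ (e1.trans (e2.trans hh))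
          refine bd_mid hG hDm hE hb (P := B) (Q := (h * p) • A) ?_ (hA1 (h * p))
            (Wm_compl _ (hA1 h)) (Wm_compl _ (hB1 h)) hBA (fun s hs hs' => ?_) e1 hh
          · have := hB1 (1 : G)
            rwa [one_smul] at this
          · exact mem_Kp.2 ⟨(mem_Kp.1 hs).2, (mem_Kp.1 hs').1⟩
      refine index_of_bounded hd fun g g' hg => ?_
      have h1 : ¬ Bd E (g'⁻¹ * g) := fun hc => hg (mem_BdS.2 hc)
      have h2 : TT A B (g'⁻¹ * g) 1 := by
        by_contra hc
        exact h1 (near_of_not_tt hG hBA ht₀ hE hO' hI' hc)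
      have h3 := h2.smul g'
      rwa [mul_inv_cancel_left, mul_one] at h3
    · have hfA : ∀ u v : V, {C : Set V | (∃ g : G, C = g • A) ∧ u ∈ C ∧ v ∉ C}.Finite := by
        intro u v
        refine (hfin u v).subset ?_
        rintro C ⟨⟨g, rfl⟩, hu, hv⟩
        exact ⟨⟨g, Or.inl rfl⟩, hu, hv⟩
      have hsubC : ∀ C : Set V, (C = A ∨ C = B) → B ⊆ C ∧ C ⊆ A ∧ t₀ • A ⊆ C := by
        rintro C (rfl | rfl)
        · exact ⟨hBA, Subset.rfl, htA.subset⟩
        · exact ⟨Subset.rfl, hBA, ht₀.subset⟩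
      have fin : ∀ i : G → G, (∀ g, g⁻¹ * i g ∈ BdS hG hE) →
          (∀ g g' : G, ∀ C C' : Set V, (C = A ∨ C = B) → (C' = A ∨ C' = B) →
            (i g • C ∩ i g' • C').Nonempty ∧ ¬ (i g • C)ᶜ ⊆ i g' • C') →
          (BdS hG hE).index ≠ 0 := by
        intro i hi hex
        refine index_of_bounded' hd i hi fun g g' hg => ?_
        have key : ∀ C C' : Set V, (C = A ∨ C = B) → (C' = A ∨ C' = B) →
            Tv (i g • C) (i g' • C') := by
          intro C C' d1 d2
          by_contra hc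
          apply hg
          rw [mem_BdS]
          obtain ⟨e1, e2⟩ := hex g g' C C' d1 d2
          obtain ⟨c1, c2, -⟩ := hsubC C d1
          obtain ⟨c3, c4, -⟩ := hsubC C' d2
          rcases not_tv hc with h1 | h1 | h1 | h1
          · rw [h1] at e1
            exact absurd rfl e1.ne_empty
          · refine near_nest hG ht₀ hE hO hI c1 c2 c3 c4 (Or.inl ?_)
            rw [mul_smul, Set.smul_set_subset_iff_subset_inv_smul_set, inv_inv]
            exact h1
          · refine near_nest hG ht₀ hE hO hI c1 c2 c3 c4 (Or.inr ?_)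
            rw [mul_smul, Set.subset_smul_set_iff, inv_inv]
            exact h1
          · exact absurd h1 e2
        exact ⟨key _ _ (Or.inl rfl) (Or.inl rfl), key _ _ (Or.inl rfl) (Or.inr rfl),
          key _ _ (Or.inr rfl) (Or.inl rfl), key _ _ (Or.inr rfl) (Or.inr rfl)⟩
      obtain ⟨v, -⟩ := hne
      unfold Flips at hflip
      rw [not_and_or] at hflip
      rcases hflip with hno | hno
      · -- no disjoint translates
        push Not at hno
        have hex : ∀ g : G, ∃ i : ℤ, v ∉ (g * t₀ ^ i) • A := by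
          intro g
          obtain ⟨J, -, hJ⟩ := eventually_mem hfA htA (g⁻¹ • v)
          refine ⟨J, fun hc => hJ J le_rfl ?_⟩
          rw [mul_smul] at hc
          rwa [← Set.mem_smul_set_iff_inv_smul_mem]
        choose i hi using hex
        refine fin (fun g => g * t₀ ^ i g) (fun g => ?_) ?_
        · rw [inv_mul_cancel_left]
          exact Subgroup.zpow_mem _ ht₀S _
        · intro g g' C C' d1 d2
          obtain ⟨-, k2, k1⟩ := hsubC C d1
          obtain ⟨-, k4, k3⟩ := hsubC C' d2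
          constructor
          · obtain ⟨w, hw1, hw2⟩ := hno ((g' * t₀ ^ i g' * t₀)⁻¹ * (g * t₀ ^ i g * t₀))
            refine ⟨(g' * t₀ ^ i g' * t₀) • w, ?_, ?_⟩
            · rw [mul_smul, Set.mem_inv_smul_set_iff] at hw1
              refine Set.smul_set_mono k1 ?_
              rwa [smul_smul (g * t₀ ^ i g)]
            · refine Set.smul_set_mono k3 ?_
              rw [smul_smul (g' * t₀ ^ i g')]
              exact Set.smul_mem_smul_set hw2
          · intro hc
            refine hi g' (Set.smul_set_mono k4 (hc fun hm => hi g (Set.smul_set_mono k2 hm)))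
      · -- no covering translates
        push Not at hno
        have hex : ∀ g : G, ∃ i : ℤ, v ∈ (g * t₀ ^ i) • t₀ • A := by
          intro g
          obtain ⟨J, hJ, -⟩ := eventually_mem hfA htA (g⁻¹ • v)
          refine ⟨-J - 1, ?_⟩
          have := hJ (-J) le_rfl
          rw [mul_smul, smul_smul (t₀ ^ (-J - 1)) t₀ A, ← zpow_add_one, sub_add_cancel]
          rwa [Set.mem_smul_set_iff_inv_smul_mem]
        choose i hi using hex
        refine fin (fun g => g * t₀ ^ i g) (fun g => ?_) ?_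
        · rw [inv_mul_cancel_left]
          exact Subgroup.zpow_mem _ ht₀S _
        · intro g g' C C' d1 d2
          obtain ⟨-, k0, k2⟩ := hsubC C d1
          obtain ⟨-, k1, k4⟩ := hsubC C' d2
          refine ⟨⟨v, Set.smul_set_mono k2 (hi g), Set.smul_set_mono k4 (hi g')⟩, fun hc => ?_⟩
          refine hno ((g' * t₀ ^ i g')⁻¹ * (g * t₀ ^ i g)) ?_
          rw [mul_smul, ← Set.smul_set_compl, Set.smul_set_subset_iff_subset_inv_smul_set,
            inv_inv]
          exact (compl_subset_compl.2 (Set.smul_set_mono k0)).trans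
            (hc.trans (Set.smul_set_mono k1))
  have hle : Kp G A B ≤ BdS hG hE := fun s hs => mem_BdS.2 (Bd.of_mem hE hs)
  obtain ⟨B₀, hsub, h₀, h1 | h1⟩ := split_of_fi hG hGC hfi hle hE (fun g hg => mem_BdS.1 hg)
  · exact absurd h1 (not_univ_pair hG (fun s hs => (mem_Kp.1 hs).1) htA h₀)
  · exact ⟨B₀, hsub, h₀, h1⟩

end Pool.Agent.V7H57.WL
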