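import Pool.Agent.V7H57.WL.Crit

/-!
# Stabilisers of nested pairs of half-spaces
-/

set_option autoImplicit false

open Metric Set Filter Topology
open Pool.Agent.TH60.FP Pool.Agent.TH60.FP.Strip Pool.Agent.Y34.HB Pool.Agent.Y34.EL
open Pool.Agent.T6.H46.RR Pool.Agent.T6.H67.TA Pool.Agent.T6.H46.RC Pool.Agent.V7H57.RK
open scoped Pointwise

namespace Pool.Agent.V7H57.WL

variable {G : Type} [Group G] {V : Type} [MulAction G V]

/-- the common stabiliser of two sets -/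
def Kp (G : Type) [Group G] {V : Type} [MulAction G V] (P Q : Set V) : Subgroup G :=
  MulAction.stabilizer G P ⊓ MulAction.stabilizer G Q

lemma mem_Kp {P Q : Set V} {s : G} : s ∈ Kp G P Q ↔ s • P = P ∧ s • Q = Q := by
  unfold Kp
  rw [Subgroup.mem_inf, MulAction.mem_stabilizer_iff, MulAction.mem_stabilizer_iff]

lemma Kp_flip (P Q : Set V) : Kp G Qᶜ Pᶜ = Kp G P Q := by
  unfold Kp
  rw [stab_compl, stab_compl, inf_comm]

lemma Kp_smul (g : G) (P Q : Set V) :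
    Kp G (g • P) (g • Q) = (Kp G P Q).map (MulAut.conj g).toMonoidHom := by
  unfold Kp
  rw [MulAction.stabilizer_smul_eq_stabilizer_map_conj,
    MulAction.stabilizer_smul_eq_stabilizer_map_conj,
    Subgroup.map_inf _ _ _ (MulAut.conj g).injective]

lemma Kp_shift (g : G) (P Q P' Q' : Set V) :
    (Kp G (g • P) (g • Q)).relIndex (Kp G (g • P') (g • Q')) =
      (Kp G P Q).relIndex (Kp G P' Q') := by
  rw [Kp_smul, Kp_smul, Subgroup.relIndex_map_map_of_injective _ _ (MulAut.conj g).injective]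

lemma mem_Kp_smul {g s : G} {P Q : Set V} (hs : s ∈ Kp G (g • P) (g • Q)) :
    g⁻¹ * s * g ∈ Kp G P Q := by
  rw [mem_Kp] at hs ⊢
  rw [mul_smul, mul_smul, hs.1, inv_smul_smul, mul_smul, mul_smul, hs.2, inv_smul_smul]
  exact ⟨rfl, rfl⟩

/-- an invariant class of half-spaces -/
structure Cls (G : Type) [Group G] {V : Type} [MulAction G V] (D : Set (Set V)) : Prop where
  act : ∀ B ∈ D, ∀ g : G, g • B ∈ D
  fin : ∀ u v : V, {B | B ∈ D ∧ u ∈ B ∧ v ∉ B}.Finite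
  ne : ∀ B ∈ D, B.Nonempty
  nu : ∀ B ∈ D, Bᶜ.Nonempty

lemma stab_fin {K : Subgroup G} {B : Set V} {F : Set (Set V)} (hF : F.Finite)
    (h : ∀ s ∈ K, s • B ∈ F) : (MulAction.stabilizer G B).relIndex K ≠ 0 := by
  have h1 : (MulAction.stabilizer G B).subgroupOf K = MulAction.stabilizer K B := by
    ext s; rfl
  rw [Subgroup.relIndex, h1, MulAction.index_stabilizer]
  have hfin : (MulAction.orbit K B).Finite := hF.subset (by rintro _ ⟨s, rfl⟩; exact h s s.2)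
  exact ((Set.ncard_pos hfin).2 (MulAction.nonempty_orbit B)).ne'

variable {D : Set (Set V)}

lemma Cls.stab_between (hD : Cls G D) {P Q B : Set V} (hP : P ∈ D) (hQ : Q ∈ D) (hB : B ∈ D)
    (h1 : Q ⊆ B) (h2 : B ⊆ P) : (MulAction.stabilizer G B).relIndex (Kp G P Q) ≠ 0 := by
  obtain ⟨u, hu⟩ := hD.ne Q hQ
  obtain ⟨v, hv⟩ := hD.nu P hP
  refine stab_fin (hD.fin u v) fun s hs => ?_
  rw [mem_Kp] at hs
  refine ⟨hD.act B hB s, ?_, fun hc => hv ?_⟩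
  · have := Set.smul_set_mono (a := s) h1
    rw [hs.2] at this
    exact this hu
  · have := Set.smul_set_mono (a := s) h2
    rw [hs.1] at this
    exact this hc

lemma Cls.between (hD : Cls G D) {P Q P1 Q1 : Set V} (hP : P ∈ D) (hQ : Q ∈ D) (hP1 : P1 ∈ D)
    (hQ1 : Q1 ∈ D) (h1 : Q ⊆ P1) (h2 : P1 ⊆ P) (h3 : Q ⊆ Q1) (h4 : Q1 ⊆ P) :
    (Kp G P1 Q1).relIndex (Kp G P Q) ≠ 0 :=
  Subgroup.relIndex_inf_ne_zero (hD.stab_between hP hQ hP1 h1 h2)
    (hD.stab_between hP hQ hQ1 h3 h4)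

/-- the stabilisers of the longer pairs have finite index -/
def Stb (G : Type) [Group G] {V : Type} [MulAction G V] (D : Set (Set V)) (P Q : Set V) : Prop :=
  ∀ P' ∈ D, ∀ Q' ∈ D, P ⊆ P' → Q' ⊆ Q → (Kp G P' Q').relIndex (Kp G P Q) ≠ 0

lemma Stb.smul (hD : Cls G D) {P Q : Set V} (h : Stb G D P Q) (g : G) :
    Stb G D (g • P) (g • Q) := by
  intro P' hP' Q' hQ' h1 h2
  have := h (g⁻¹ • P') (hD.act _ hP' _) (g⁻¹ • Q') (hD.act _ hQ' _)
    (by rw [Set.subset_smul_set_iff, inv_inv]; exact h1)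
    (by rw [Set.smul_set_subset_iff_subset_inv_smul_set, inv_inv]; exact h2)
  rw [← Kp_shift g, smul_inv_smul, smul_inv_smul] at this
  exact this

lemma Stb.ext (hD : Cls G D) {P Q P2 Q2 : Set V} (hP : P ∈ D) (hQ : Q ∈ D) (hQP : Q ⊆ P)
    (h : Stb G D P Q) (hP2 : P2 ∈ D) (hQ2 : Q2 ∈ D) (h1 : P ⊆ P2) (h2 : Q2 ⊆ Q) :
    Stb G D P2 Q2 := by
  intro P' hP' Q' hQ' a b
  exact Subgroup.relIndex_ne_zero_trans (h P' hP' Q' hQ' (h1.trans a) (b.trans h2))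
    (hD.between hP2 hQ2 hP hQ (h2.trans hQP) h1 h2 (hQP.trans h1))

/-- the chain condition gives stable pairs -/
theorem exists_stb (hD : Cls G D) {P0 Q0 : Set V} (hP0 : P0 ∈ D) (hQ0 : Q0 ∈ D) (h0 : Q0 ⊆ P0)
    (hch : ∀ J : ℕ → Subgroup G, J 0 ≤ Kp G P0 Q0 → (∀ n, J (n + 1) ≤ J n) →
      (∀ n, ∃ F : Finset (Set V), (∀ B ∈ F, B ∈ D) ∧ (∀ B ∈ F, ∀ C ∈ F, B ⊆ C ∨ C ⊆ B) ∧
        J n = ⨅ B ∈ F, MulAction.stabilizer G B) →
      ∃ n, (J (n + 1)).relIndex (J n) ≠ 0) :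
    ∃ P ∈ D, ∃ Q ∈ D, P0 ⊆ P ∧ Q ⊆ Q0 ∧ Stb G D P Q := by
  classical
  by_contra hcon
  push Not at hcon
  let Z := {z : Set V × Set V // z.1 ∈ D ∧ z.2 ∈ D ∧ P0 ⊆ z.1 ∧ z.2 ⊆ Q0}
  have step : ∀ s : Z, ∃ s' : Z, s.1.1 ⊆ s'.1.1 ∧ s'.1.2 ⊆ s.1.2 ∧
      (Kp G s'.1.1 s'.1.2).relIndex (Kp G s.1.1 s.1.2) = 0 := by
    rintro ⟨⟨P, Q⟩, hP, hQ, h1, h2⟩
    have h3 := hcon P hP Q hQ h1 h2
    unfold Stb at h3
    push Not at h3
    obtain ⟨P', hP', Q', hQ', h4, h5, h6⟩ := h3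
    exact ⟨⟨⟨P', Q'⟩, hP', hQ', h1.trans h4, h5.trans h2⟩, h4, h5, h6⟩
  choose f hf1 hf2 hf3 using step
  let s : ℕ → Z := fun n => f^[n] ⟨(P0, Q0), hP0, hQ0, Subset.rfl, Subset.rfl⟩
  have hs : ∀ n, s (n + 1) = f (s n) := fun n => Function.iterate_succ_apply' f n _
  have hs0 : s 0 = ⟨(P0, Q0), hP0, hQ0, Subset.rfl, Subset.rfl⟩ := rfl
  have hup : ∀ n k : ℕ, (s n).1.1 ⊆ (s (n + k)).1.1 ∧ (s (n + k)).1.2 ⊆ (s n).1.2 := by
    intro n k
    induction k with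
    | zero => exact ⟨Subset.rfl, Subset.rfl⟩
    | succ k ih =>
      rw [← add_assoc, hs]
      exact ⟨ih.1.trans (hf1 _), (hf2 _).trans ih.2⟩
  have hle : ∀ k n : ℕ, k ≤ n → (s k).1.1 ⊆ (s n).1.1 ∧ (s n).1.2 ⊆ (s k).1.2 := by
    intro k n hkn
    have := hup k (n - k)
    rwa [Nat.add_sub_cancel' hkn] at this
  have hQP : ∀ n, (s n).1.2 ⊆ (s n).1.1 := fun n => (s n).2.2.2.2.trans (h0.trans (s n).2.2.2.1)
  set J : ℕ → Subgroup G := fun n => ⨅ k : Fin (n + 1), Kp G (s k).1.1 (s k).1.2 with hJ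
  have memJ : ∀ n (a : G), a ∈ J n ↔ ∀ k : ℕ, k ≤ n → a ∈ Kp G (s k).1.1 (s k).1.2 := by
    intro n a
    rw [hJ, Subgroup.mem_iInf]
    exact ⟨fun h k hk => h ⟨k, by omega⟩, fun h k => h k (by omega)⟩
  have hJle : ∀ n, J n ≤ Kp G (s n).1.1 (s n).1.2 := fun n a ha => (memJ n a).1 ha n le_rfl
  have hJfin : ∀ n, (J n).relIndex (Kp G (s n).1.1 (s n).1.2) ≠ 0 := by
    intro n
    refine Subgroup.relIndex_iInf_ne_zero fun k : Fin (n + 1) => ?_
    obtain ⟨h1, h2⟩ := hle k n (by omega)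
    exact hD.between (s n).2.1 (s n).2.2.1 (s k).2.1 (s k).2.2.1 (h2.trans (hQP k)) h1 h2
      ((hQP k).trans h1)
  obtain ⟨n, hn⟩ := hch J (by
      have := hJle 0
      rwa [hs0] at this)
    (fun n a ha => (memJ n a).2 fun k hk => (memJ (n + 1) a).1 ha k (by omega))
    (fun n => by
      refine ⟨(Finset.range (n + 1)).biUnion fun k => {(s k).1.1, (s k).1.2}, ?_, ?_, ?_⟩
      · intro B hB
        rw [Finset.mem_biUnion] at hB
        obtain ⟨k, -, hk⟩ := hB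
        rw [Finset.mem_insert, Finset.mem_singleton] at hk
        rcases hk with rfl | rfl
        · exact (s k).2.1
        · exact (s k).2.2.1
      · intro B hB C hC
        rw [Finset.mem_biUnion] at hB hC
        obtain ⟨k, -, hk⟩ := hB
        obtain ⟨l, -, hl⟩ := hC
        rw [Finset.mem_insert, Finset.mem_singleton] at hk hl
        have hkl : (s k).1.2 ⊆ (s l).1.1 :=
          (s k).2.2.2.2.trans (h0.trans (s l).2.2.2.1)
        have hlk : (s l).1.2 ⊆ (s k).1.1 :=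
          (s l).2.2.2.2.trans (h0.trans (s k).2.2.2.1)
        rcases hk with rfl | rfl
        · rcases hl with rfl | rfl
          · rcases le_total k l with h | h
            · exact Or.inl (hle k l h).1
            · exact Or.inr (hle l k h).1
          · exact Or.inr hlk
        · rcases hl with rfl | rfl
          · exact Or.inl hkl
          · rcases le_total k l with h | h
            · exact Or.inr (hle k l h).2
            · exact Or.inl (hle l k h).2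
      · ext a
        rw [memJ]
        simp only [Subgroup.mem_iInf, Finset.mem_biUnion, Finset.mem_range, Finset.mem_insert,
          Finset.mem_singleton, mem_Kp, MulAction.mem_stabilizer_iff]
        constructor
        · rintro h B ⟨k, hk, rfl | rfl⟩
          · exact (h k (by omega)).1
          · exact (h k (by omega)).2
        · intro h k hk
          exact ⟨h _ ⟨k, by omega, Or.inl rfl⟩, h _ ⟨k, by omega, Or.inr rfl⟩⟩)
  have h1 : (Kp G (s (n + 1)).1.1 (s (n + 1)).1.2).relIndex (J n) ≠ 0 :=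
    mt (Subgroup.relIndex_eq_zero_of_le_left (hJle (n + 1))) hn
  have h2 := Subgroup.relIndex_ne_zero_trans h1 (hJfin n)
  rw [hs] at h2
  exact h2 (hf3 _)

/-! ### commensuration -/

/-- `g` commensurates the stabiliser of the pair -/
def Cm (P Q : Set V) (g : G) : Prop :=
  (Kp G (g • P) (g • Q)).relIndex (Kp G P Q) ≠ 0 ∧
    (Kp G P Q).relIndex (Kp G (g • P) (g • Q)) ≠ 0

lemma Cm.mul {P Q : Set V} {g h : G} (hg : Cm P Q g) (hh : Cm P Q h) : Cm P Q (g * h) := by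
  unfold Cm
  rw [mul_smul, mul_smul]
  refine ⟨Subgroup.relIndex_ne_zero_trans ?_ hg.1, Subgroup.relIndex_ne_zero_trans hg.2 ?_⟩
  · rw [Kp_shift]; exact hh.1
  · rw [Kp_shift]; exact hh.2

lemma Cm.inv {P Q : Set V} {g : G} (hg : Cm P Q g) : Cm P Q g⁻¹ := by
  unfold Cm
  rw [← Kp_shift g, ← Kp_shift g P Q, smul_inv_smul, smul_inv_smul]
  exact ⟨hg.2, hg.1⟩

lemma Cm.one (P Q : Set V) : Cm (G := G) P Q 1 := by
  unfold Cm
  rw [one_smul, one_smul, Subgroup.relIndex_self]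
  exact ⟨one_ne_zero, one_ne_zero⟩

lemma Cm.zpow {P Q : Set V} {g : G} (hg : Cm P Q g) (i : ℤ) : Cm P Q (g ^ i) := by
  have hn : ∀ n : ℕ, Cm P Q (g ^ n) := by
    intro n
    induction n with
    | zero => rw [pow_zero]; exact Cm.one P Q
    | succ n ih => rw [pow_succ]; exact ih.mul hg
  obtain ⟨n, rfl | rfl⟩ := i.eq_nat_or_neg
  · rw [zpow_natCast]; exact hn n
  · rw [zpow_neg, zpow_natCast]; exact (hn n).inv

variable {P Q : Set V}

lemma cm_below (hD : Cls G D) (hP : P ∈ D) (hQ : Q ∈ D) (hQP : Q ⊆ P) (hst : Stb G D P Q) {g : G}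
    (hg : g • P ⊆ Q) : Cm P Q g := by
  have e1 : g • Q ⊆ g • P := Set.smul_set_mono hQP
  refine ⟨Subgroup.relIndex_ne_zero_trans (K := Kp G P (g • Q)) ?_ ?_,
    Subgroup.relIndex_ne_zero_trans (K := Kp G P (g • Q)) ?_ ?_⟩
  · exact hD.between hP (hD.act _ hQ g) (hD.act _ hP g) (hD.act _ hQ g) e1 (hg.trans hQP)
      Subset.rfl (e1.trans (hg.trans hQP))
  · exact hst P hP _ (hD.act _ hQ g) Subset.rfl (e1.trans hg)
  · exact hD.between hP (hD.act _ hQ g) hP hQ (e1.trans (hg.trans hQP)) Subset.rfl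
      (e1.trans hg) hQP
  · exact hst.smul hD g P hP _ (hD.act _ hQ g) (hg.trans hQP) Subset.rfl

lemma cm_flip (hD : Cls G D) (hcl : ∀ B ∈ D, Bᶜ ∈ D) (hP : P ∈ D) (hQ : Q ∈ D) (hQP : Q ⊆ P)
    (hst : Stb G D P Q) {g : G} {P' Q' : Set V} (hP' : P' ∈ D) (hQ' : Q' ∈ D) (h1 : P ⊆ P')
    (h2 : (g • Q)ᶜ ⊆ P') (h3 : Q' ⊆ Q) (h4 : Q' ⊆ (g • P)ᶜ) : Cm P Q g := by
  have e1 : (g • P)ᶜ ⊆ (g • Q)ᶜ := compl_subset_compl.2 (Set.smul_set_mono hQP)
  refine ⟨Subgroup.relIndex_ne_zero_trans (K := Kp G P' Q') ?_ ?_,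
    Subgroup.relIndex_ne_zero_trans (K := Kp G P' Q') ?_ ?_⟩
  · rw [← Kp_flip (g • P)]
    exact hD.between hP' hQ' (hcl _ (hD.act _ hQ g)) (hcl _ (hD.act _ hP g)) (h4.trans e1) h2 h4
      (e1.trans h2)
  · exact hst P' hP' Q' hQ' h1 h3
  · exact hD.between hP' hQ' hP hQ (h3.trans hQP) h1 h3 (hQP.trans h1)
  · have := hst.smul hD g Q'ᶜ (hcl _ hQ') P'ᶜ (hcl _ hP') (subset_compl_comm.1 h4)
      (compl_subset_comm.1 h2)
    rwa [Kp_flip] at this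

lemma cm_a (hD : Cls G D) (hP : P ∈ D) (hQ : Q ∈ D) (hQP : Q ⊆ P) (hst : Stb G D P Q) {t : G}
    (ht : t • P ⊆ Q) {g : G} {i : ℤ} (hg : g • P ⊆ t ^ i • P) : Cm P Q g := by
  have ct := cm_below hD hP hQ hQP hst ht
  have h1 : (t * ((t ^ i)⁻¹ * g)) • P ⊆ Q := by
    rw [mul_smul, mul_smul]
    refine (Set.smul_set_mono (a := t) ?_).trans ht
    rw [Set.smul_set_subset_iff_subset_inv_smul_set, inv_inv]
    exact hg
  have h2 := cm_below hD hP hQ hQP hst h1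
  have e : g = t ^ i * t⁻¹ * (t * ((t ^ i)⁻¹ * g)) := by group
  rw [e]
  exact ((ct.zpow i).mul ct.inv).mul h2

lemma cm_b (hD : Cls G D) (hP : P ∈ D) (hQ : Q ∈ D) (hQP : Q ⊆ P) (hst : Stb G D P Q) {t : G}
    (ht : t • P ⊆ Q) {g : G} {i : ℤ} (hg : t ^ i • P ⊆ g • P) : Cm P Q g := by
  have ct := cm_below hD hP hQ hQP hst ht
  have h1 : Cm P Q (g⁻¹ * t ^ i) := by
    refine cm_a hD hP hQ hQP hst ht (i := 0) ?_
    rw [zpow_zero, one_smul, mul_smul, Set.smul_set_subset_iff_subset_inv_smul_set, inv_inv]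
    exact hg
  have e : g = t ^ i * (g⁻¹ * t ^ i)⁻¹ := by group
  rw [e]
  exact (ct.zpow i).mul h1.inv

lemma cm_c (hD : Cls G D) (hcl : ∀ B ∈ D, Bᶜ ∈ D) (hP : P ∈ D) (hQ : Q ∈ D) (hQP : Q ⊆ P)
    (hst : Stb G D P Q) {t : G} (ht : t • P ⊆ Q) {g : G} {i : ℤ}
    (hg : t ^ i • P ⊆ (g • P)ᶜ) : Cm P Q g := by
  have ct := cm_below hD hP hQ hQP hst ht
  have h1 : P ⊆ (((t ^ i)⁻¹ * g) • P)ᶜ := by
    have h2 := Set.smul_set_mono (a := (t ^ i)⁻¹) hg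
    rwa [inv_smul_smul, Set.smul_set_compl, ← mul_smul] at h2
  have h2 : Cm P Q ((t ^ i)⁻¹ * g) := by
    have e1 : (((t ^ i)⁻¹ * g) • P)ᶜ ⊆ (((t ^ i)⁻¹ * g) • Q)ᶜ :=
      compl_subset_compl.2 (Set.smul_set_mono hQP)
    exact cm_flip hD hcl hP hQ hQP hst (hcl _ (hD.act _ hQ _)) hQ (h1.trans e1) Subset.rfl
      Subset.rfl (hQP.trans h1)
  have e : g = t ^ i * ((t ^ i)⁻¹ * g) := by group
  rw [e]
  exact (ct.zpow i).mul h2

lemma cm_d (hD : Cls G D) (hcl : ∀ B ∈ D, Bᶜ ∈ D) (hP : P ∈ D) (hQ : Q ∈ D) (hQP : Q ⊆ P)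
    (hst : Stb G D P Q) {t : G} (ht : t • P ⊆ Q) {g : G} {i : ℤ}
    (hg : (g • P)ᶜ ⊆ t ^ i • P) : Cm P Q g := by
  have ct := cm_below hD hP hQ hQP hst ht
  set y : G := (t ^ i)⁻¹ * g with hy
  have h1 : (y • P)ᶜ ⊆ P := by
    have h2 := Set.smul_set_mono (a := (t ^ i)⁻¹) hg
    rwa [inv_smul_smul, Set.smul_set_compl, ← mul_smul] at h2
  have h2 : Cm P Q (t * y * t⁻¹) := by
    have e1 : ((t * y * t⁻¹) • Q)ᶜ ⊆ Q := by
      have e2 : P ⊆ t⁻¹ • Q := by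
        rw [Set.subset_smul_set_iff, inv_inv]; exact ht
      have e3 : ((t * y * t⁻¹) • Q)ᶜ ⊆ ((t * y) • P)ᶜ := by
        refine compl_subset_compl.2 ?_
        rw [mul_smul (t * y)]
        exact Set.smul_set_mono e2
      refine e3.trans ?_
      rw [mul_smul, ← Set.smul_set_compl]
      exact (Set.smul_set_mono h1).trans ht
    have e4 : ((t * y * t⁻¹) • P)ᶜ ⊆ ((t * y * t⁻¹) • Q)ᶜ :=
      compl_subset_compl.2 (Set.smul_set_mono hQP)
    exact cm_flip hD hcl hP hQ hQP hst hP (hcl _ (hD.act _ hP _)) Subset.rfl (e1.trans hQP)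
      (e4.trans e1) Subset.rfl
  have e : g = t ^ i * (t⁻¹ * (t * y * t⁻¹) * t) := by rw [hy]; group
  rw [e]
  exact (ct.zpow i).mul ((ct.inv.mul h2).mul ct)

end Pool.Agent.V7H57.WL
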