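import Pool.Agent.V7H57.FL.Fin

/-!
# Equivariant families of convex functions indexed by half-spaces
-/

set_option autoImplicit false

open Metric Set Filter Topology
open Pool.Agent.TH60.FP Pool.Agent.TH60.FP.Strip Pool.Agent.Y34.HB Pool.Agent.Y34.EL
open Pool.Agent.T6.H46.RR Pool.Agent.T6.H67.TA Pool.Agent.T6.H46.RC Pool.Agent.V7H57.RK
open scoped Pointwise

namespace Pool.Agent.V7H57.WL

variable {X : Type} [MetricSpace X] {G : Type} [Group G] [MulAction G X]
variable {V : Type} [MulAction G V] {W : Set (Set V)}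

/-- an equivariant family of functions, the distances from convex sets on which the stabilisers
of the half-spaces act cocompactly -/
structure Rho (G : Type) [Group G] [MulAction G X] [MulAction G V] (W : Set (Set V))
    (ρ : Set V → X → ℝ) : Prop where
  symm : ∀ A x, ρ Aᶜ x = ρ A x
  inv : ∀ A ∈ W, ∀ (g : G) x, ρ (g • A) (g • x) = ρ A x
  lip : ∀ A x y, ρ A x ≤ ρ A y + dist x y
  conv : ∀ A ∈ W, ∀ x y m, dist x m + dist m y = dist x y →
    dist x y * ρ A m ≤ dist m y * ρ A x + dist x m * ρ A y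
  coc : ∀ A ∈ W, ∀ (o : X) (r : ℝ), ∃ R : ℝ, ∀ x, ρ A x ≤ r →
    ∃ g ∈ MulAction.stabilizer G A, dist (g • x) o ≤ R

theorem exists_rho (hG : Geo X G) (hW1 : ∀ A ∈ W, Aᶜ ∈ W) (hW2 : ∀ A ∈ W, ∀ g : G, g • A ∈ W)
    (hE : ∀ A ∈ W, ∃ B : Set X, CC (MulAction.stabilizer G A) B) :
    ∃ ρ : Set V → X → ℝ, Rho G W ρ := by
  classical
  have := hG.isom
  have := hG.proper
  -- representatives of the orbits
  let q : Set V → Set V := fun e => (Quotient.mk (MulAction.orbitRel G (Set V)) e).out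
  have hq : ∀ e, ∃ t : G, t • q e = e := by
    intro e
    have h1 : (MulAction.orbitRel G (Set V)).r (q e) e :=
      Quotient.mk_out (s := MulAction.orbitRel G (Set V)) e
    obtain ⟨g, hg⟩ := h1
    exact ⟨g⁻¹, by rw [← hg]; exact inv_smul_smul g e⟩
  choose t ht using hq
  have hqg : ∀ (g : G) (e : Set V), q (g • e) = q e := by
    intro g e
    have : Quotient.mk (MulAction.orbitRel G (Set V)) (g • e) =
        Quotient.mk (MulAction.orbitRel G (Set V)) e :=
      Quotient.sound (s := MulAction.orbitRel G (Set V)) ⟨g, rfl⟩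
    show (Quotient.mk (MulAction.orbitRel G (Set V)) (g • e)).out = _
    rw [this]
  have hadj : ∀ e ∈ W, q e ∈ W := by
    intro e he
    have h1 : q e = (t e)⁻¹ • e := by rw [eq_inv_smul_iff, ht]
    rw [h1]
    exact hW2 _ he _
  have hB : ∀ e : Set V, ∃ B : Set X, e ∈ W → CC (MulAction.stabilizer G e) B := by
    intro e
    by_cases he : e ∈ W
    · obtain ⟨B, hB⟩ := hE _ he
      exact ⟨B, fun _ => hB⟩
    · exact ⟨∅, fun h => absurd h he⟩
  choose B hB using hB
  let r0 : Set V → X → ℝ := fun e x => ph (B (q e)) (t e) x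
  have r_inv : ∀ e ∈ W, ∀ (g : G) x, r0 (g • e) (g • x) = r0 e x := by
    intro e he g x
    show infDist ((t (g • e))⁻¹ • g • x) (B (q (g • e))) = infDist ((t e)⁻¹ • x) (B (q e))
    rw [hqg]
    have hk : (t (g • e))⁻¹ * g * t e ∈ MulAction.stabilizer G (q e) := by
      rw [MulAction.mem_stabilizer_iff, mul_smul, mul_smul, ht, inv_smul_eq_iff]
      conv_lhs => rw [← ht (g • e), hqg]
    have h1 := infDist_inv (hB _ (hadj e he)) hk ((t e)⁻¹ • x)
    rw [← h1]
    congr 1
    rw [smul_smul, smul_smul]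
    congr 1
    group
  have r_lip : ∀ e x y, r0 e x ≤ r0 e y + dist x y := by
    intro e x y
    have := ph_lip (B (q e)) (t e) x y
    rw [abs_le] at this
    show ph (B (q e)) (t e) x ≤ ph (B (q e)) (t e) y + dist x y
    linarith
  refine ⟨fun A x => max (r0 A x) (r0 Aᶜ x), ?_, ?_, ?_, ?_, ?_⟩
  · intro A x
    show max (r0 Aᶜ x) (r0 Aᶜᶜ x) = _
    rw [compl_compl]
    exact max_comm _ _
  · intro A hA g x
    show max (r0 (g • A) (g • x)) (r0 (g • A)ᶜ (g • x)) = _
    rw [← Set.smul_set_compl, r_inv A hA, r_inv Aᶜ (hW1 A hA)]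
  · intro A x y
    have h1 := r_lip A x y
    have h2 := r_lip Aᶜ x y
    refine max_le ?_ ?_
    · exact h1.trans (add_le_add_left (le_max_left _ _) _)
    · exact h2.trans (add_le_add_left (le_max_right _ _) _)
  · intro A hA x y m hm
    have h1 := ph_convex hG.cn (hB _ (hadj A hA)) (t A) x y m hm
    have h2 := ph_convex hG.cn (hB _ (hadj Aᶜ (hW1 A hA))) (t Aᶜ) x y m hm
    show dist x y * max (ph (B (q A)) (t A) m) (ph (B (q Aᶜ)) (t Aᶜ) m) ≤
      dist m y * max (ph (B (q A)) (t A) x) (ph (B (q Aᶜ)) (t Aᶜ) x) +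
      dist x m * max (ph (B (q A)) (t A) y) (ph (B (q Aᶜ)) (t Aᶜ) y)
    have e1 := mul_le_mul_of_nonneg_left (le_max_left (ph (B (q A)) (t A) x)
      (ph (B (q Aᶜ)) (t Aᶜ) x)) (dist_nonneg (x := m) (y := y))
    have e2 := mul_le_mul_of_nonneg_left (le_max_right (ph (B (q A)) (t A) x)
      (ph (B (q Aᶜ)) (t Aᶜ) x)) (dist_nonneg (x := m) (y := y))
    have e3 := mul_le_mul_of_nonneg_left (le_max_left (ph (B (q A)) (t A) y)
      (ph (B (q Aᶜ)) (t Aᶜ) y)) (dist_nonneg (x := x) (y := m))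
    have e4 := mul_le_mul_of_nonneg_left (le_max_right (ph (B (q A)) (t A) y)
      (ph (B (q Aᶜ)) (t Aᶜ) y)) (dist_nonneg (x := x) (y := m))
    rw [mul_max_of_nonneg _ _ dist_nonneg]
    exact max_le (by linarith) (by linarith)
  · intro A hA o r
    have hcc := hB _ (hadj A hA)
    obtain ⟨C, hC, hcov⟩ := hcc.cc
    obtain ⟨D, hD⟩ := (hC.image (continuous_const_smul (t A))).isBounded.subset_closedBall o
    refine ⟨r + D, fun x hx => ?_⟩
    have hx' : infDist ((t A)⁻¹ • x) (B (q A)) ≤ r := (le_max_left _ _).trans hx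
    obtain ⟨z, hz, hz'⟩ := hcc.closed.exists_infDist_eq_dist hcc.ne ((t A)⁻¹ • x)
    rw [hz'] at hx'
    obtain ⟨h, hh, hhz⟩ := hcov z hz
    refine ⟨t A * h * (t A)⁻¹, ?_, ?_⟩
    · rw [MulAction.mem_stabilizer_iff] at hh ⊢
      have h2 : (t A)⁻¹ • A = q A := by rw [inv_smul_eq_iff, ht]
      rw [mul_smul, mul_smul, h2, hh, ht]
    · have h1 : dist (t A • h • z) o ≤ D := mem_closedBall.1 (hD ⟨_, hhz, rfl⟩)
      have h2 := dist_triangle (t A • h • (t A)⁻¹ • x) (t A • h • z) o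
      rw [dist_smul, dist_smul] at h2
      rw [mul_smul, mul_smul]
      linarith

end Pool.Agent.V7H57.WL
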