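import Pool.Agent.V7H57.WL.Two

/-!
# Rank rigidity with a rank one element in the common stabiliser of a pair of half-spaces
-/

set_option autoImplicit false

open Metric Set Filter Topology
open Pool.Agent.TH60.FP Pool.Agent.TH60.FP.Strip Pool.Agent.Y34.HB Pool.Agent.Y34.EL
open Pool.Agent.T6.H46.RR Pool.Agent.T6.H67.TA Pool.Agent.T6.H46.RC Pool.Agent.V7H57.RK
open scoped Pointwise

namespace Pool.Agent.V7H57.WL

variable {G : Type} [Group G] {X : Type} [MetricSpace X] [MulAction G X]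
variable {V : Type} [MulAction G V] {A B : Set V} {t₀ : G}

lemma mem_BdS {hG : Geo X G} {K : Subgroup G} {E : Set X} {hE : CC K E} {g : G} :
    g ∈ BdS hG hE ↔ Bd E g :=
  ⟨fun h => h.1, fun h => ⟨h, bd_two hG hE h⟩⟩

/-- translates of the pair which are nested with it are near -/
theorem near_nest (hG : Geo X G) (ht₀ : t₀ • A ⊂ B)
    {E : Set X} (hE : CC (Kp G A B) E)
    (hO : ∀ h : G, A ⊆ h • B → Bd E h) (hI : ∀ h : G, h • A ⊆ B → Bd E h) {g : G}
    {C C' : Set V} (c1 : B ⊆ C) (c2 : C ⊆ A) (c3 : B ⊆ C') (c4 : C' ⊆ A)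
    (h : g • C ⊆ C' ∨ C' ⊆ g • C) : Bd E g := by
  have := hG.isom
  have := hG.proper
  have b1 : Bd E t₀ := hI _ ht₀.subset
  have b2 : Bd E t₀⁻¹ := hO _ (by
    rw [Set.subset_smul_set_iff, inv_inv]; exact ht₀.subset)
  rcases h with h1 | h1
  · have h2 : (t₀ * g * t₀) • A ⊆ B := by
      rw [mul_smul, mul_smul]
      have e1 : g • t₀ • A ⊆ A :=
        (Set.smul_set_mono (ht₀.subset.trans c1)).trans (h1.trans c4)
      exact (Set.smul_set_mono e1).trans ht₀.subset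
    have h3 := (b2.mul hE (hI _ h2)).mul hE b2
    have e : t₀⁻¹ * (t₀ * g * t₀) * t₀⁻¹ = g := by group
    rwa [e] at h3
  · have h2 : A ⊆ (t₀⁻¹ * g * t₀⁻¹) • B := by
      rw [mul_smul, mul_smul, Set.subset_smul_set_iff, inv_inv]
      have e1 : A ⊆ t₀⁻¹ • B := by
        rw [Set.subset_smul_set_iff, inv_inv]; exact ht₀.subset
      exact ht₀.subset.trans (c3.trans (h1.trans ((Set.smul_set_mono c2).trans
        (Set.smul_set_mono e1))))
    have h3 := (b1.mul hE (hO _ h2)).mul hE b1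
    have e : t₀ * (t₀⁻¹ * g * t₀⁻¹) * t₀ = g := by group
    rwa [e] at h3

/-- **Main theorem.** -/
theorem rkn_main (hG : Geo X G) (hGC : GC X)
    (hfin : ∀ u v : V, {C : Set V | C ∈ Wp G A B ∧ u ∈ C ∧ v ∉ C}.Finite)
    (hBA : B ⊆ A) (ht₀ : t₀ • A ⊂ B)
    {d : ℕ} (hd : ∀ S : Finset G, (∀ g ∈ S, ∀ g' ∈ S, g ≠ g' → TT A B g g') → S.card ≤ d)
    {E : Set X} (hE : CC (Kp G A B) E) (k : Kp G A B) {τ : ℝ}
    (hτ : 0 < τ) {c : ℝ → E} (hk : @Axis E _ (Kp G A B) _ (bact hE) k τ c) (hHP : HP c = ∅) :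
    (∃ g : G, RankOne X g) ∨ ∃ B₀ : Set X, B₀ ⊆ E ∧ CC (Kp G A B) B₀ ∧ Nontrivial B₀ ∧
      ∃ (Z : Type) (_ : MetricSpace Z) (_ : Nontrivial Z) (e : X ≃ Z × B₀),
        ∀ x x' : X, dist x x' ^ 2 = dist (e x).1 (e x').1 ^ 2 + dist (e x).2 (e x').2 ^ 2 := by
  have := hG.isom
  have := hG.proper
  have htA : t₀ • A ⊂ A := ht₀.trans_subset hBA
  obtain ⟨hne, hnu⟩ := ne_of_shift htA
  by_cases hflip : Flips G A
  · -- both kinds of flips exist
    obtain ⟨⟨p, hp⟩, y, hy⟩ := hflip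
    have hp' : p • A ⊆ Aᶜ := by
      intro v hv hvA
      have : v ∈ p • A ∩ A := ⟨hv, hvA⟩
      rw [hp] at this
      exact this
    have hq' : ((t₀ * y * t₀⁻¹) • B)ᶜ ⊆ B := by
      rw [mul_smul, mul_smul, ← Set.smul_set_compl]
      have e1 : A ⊆ t₀⁻¹ • B := by
        rw [Set.subset_smul_set_iff, inv_inv]; exact ht₀.subset
      have e2 : (y • t₀⁻¹ • B)ᶜ ⊆ A :=
        (compl_subset_compl.2 (Set.smul_set_mono e1)).trans hy
      exact (Set.smul_set_mono e2).trans ht₀.subset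
    exact rko_main hG hGC hfin hBA ht₀ hp' hq' hd hE k hτ hk hHP
  by_cases hno : ∃ g : G, RankOne X g
  · exact Or.inl hno
  right
  obtain ⟨o, ho⟩ := hE.ne
  -- nested translates are near
  have hO : ∀ h : G, A ⊆ h • B → Bd E h := by
    intro h hh
    by_contra hn
    have h1 : h⁻¹ • A ⊆ B := by
      rw [Set.smul_set_subset_iff_subset_inv_smul_set, inv_inv]; exact hh
    have h2 : ¬ Bd E h⁻¹ := fun hc => hn (by
      have := bd_two hG hE hc
      rwa [inv_inv] at this)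
    exact hno (chain_rank_io hG o hfin hBA ht₀ hE k hτ hk hHP hh h1 hn h2)
  have hI : ∀ h : G, h • A ⊆ B → Bd E h := by
    intro h hh
    have h1 : A ⊆ h⁻¹ • B := by
      rw [Set.subset_smul_set_iff, inv_inv]; exact hh
    have := bd_two hG hE (hO _ h1)
    rwa [inv_inv] at this
  have ht₀S : t₀ ∈ BdS hG hE := mem_BdS.2 (hI _ ht₀.subset)
  have hfA : ∀ u v : V, {C : Set V | (∃ g : G, C = g • A) ∧ u ∈ C ∧ v ∉ C}.Finite := by
    intro u v
    refine (hfin u v).subset ?_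
    rintro C ⟨⟨g, rfl⟩, hu, hv⟩
    exact ⟨⟨g, Or.inl rfl⟩, hu, hv⟩
  have hsubC : ∀ C : Set V, (C = A ∨ C = B) → B ⊆ C ∧ C ⊆ A ∧ t₀ • A ⊆ C := by
    rintro C (rfl | rfl)
    · exact ⟨hBA, Subset.rfl, htA.subset⟩
    · exact ⟨Subset.rfl, hBA, ht₀.subset⟩
  have fin : ∀ i : G → G, (∀ g, g⁻¹ * i g ∈ BdS hG hE) →
      (∀ g g' : G, ∀ C C' : Set V, (C = A ∨ C = B) → (C' = A ∨ C' = B) →
        (i g • C ∩ i g' • C').Nonempty ∧ ¬ (i g • C)ᶜ ⊆ i g' • C') →
      (BdS hG hE).index ≠ 0 := by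
    intro i hi hex
    refine index_of_bounded' hd i hi fun g g' hg => ?_
    have key : ∀ C C' : Set V, (C = A ∨ C = B) → (C' = A ∨ C' = B) →
        Tv (i g • C) (i g' • C') := by
      intro C C' d1 d2
      by_contra hc
      apply hg
      rw [mem_BdS]
      obtain ⟨e1, e2⟩ := hex g g' C C' d1 d2
      obtain ⟨c1, c2, -⟩ := hsubC C d1
      obtain ⟨c3, c4, -⟩ := hsubC C' d2
      rcases not_tv hc with h1 | h1 | h1 | h1
      · rw [h1] at e1
        exact absurd rfl e1.ne_empty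
      · refine near_nest hG ht₀ hE hO hI c1 c2 c3 c4 (Or.inl ?_)
        rw [mul_smul, Set.smul_set_subset_iff_subset_inv_smul_set, inv_inv]
        exact h1
      · refine near_nest hG ht₀ hE hO hI c1 c2 c3 c4 (Or.inr ?_)
        rw [mul_smul, Set.subset_smul_set_iff, inv_inv]
        exact h1
      · exact absurd h1 e2
    exact ⟨key _ _ (Or.inl rfl) (Or.inl rfl), key _ _ (Or.inl rfl) (Or.inr rfl),
      key _ _ (Or.inr rfl) (Or.inl rfl), key _ _ (Or.inr rfl) (Or.inr rfl)⟩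
  obtain ⟨v, -⟩ := hne
  have hfi : (BdS hG hE).index ≠ 0 := by
    unfold Flips at hflip
    rw [not_and_or] at hflip
    rcases hflip with hno | hno
    · -- no disjoint translates
      push Not at hno
      have hex : ∀ g : G, ∃ i : ℤ, v ∉ (g * t₀ ^ i) • A := by
        intro g
        obtain ⟨J, -, hJ⟩ := eventually_mem hfA htA (g⁻¹ • v)
        refine ⟨J, fun hc => hJ J le_rfl ?_⟩
        rw [mul_smul] at hc
        rwa [← Set.mem_smul_set_iff_inv_smul_mem]
      choose i hi using hex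
      refine fin (fun g => g * t₀ ^ i g) (fun g => ?_) ?_
      · rw [inv_mul_cancel_left]
        exact Subgroup.zpow_mem _ ht₀S _
      · intro g g' C C' d1 d2
        obtain ⟨-, k2, k1⟩ := hsubC C d1
        obtain ⟨-, k4, k3⟩ := hsubC C' d2
        constructor
        · obtain ⟨w, hw1, hw2⟩ := hno ((g' * t₀ ^ i g' * t₀)⁻¹ * (g * t₀ ^ i g * t₀))
          refine ⟨(g' * t₀ ^ i g' * t₀) • w, ?_, ?_⟩
          · rw [mul_smul, Set.mem_inv_smul_set_iff] at hw1
            refine Set.smul_set_mono k1 ?_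
            rwa [smul_smul (g * t₀ ^ i g)]
          · refine Set.smul_set_mono k3 ?_
            rw [smul_smul (g' * t₀ ^ i g')]
            exact Set.smul_mem_smul_set hw2
        · intro hc
          refine hi g' (Set.smul_set_mono k4 (hc fun hm => hi g (Set.smul_set_mono k2 hm)))
    · -- no covering translates
      push Not at hno
      have hex : ∀ g : G, ∃ i : ℤ, v ∈ (g * t₀ ^ i) • t₀ • A := by
        intro g
        obtain ⟨J, hJ, -⟩ := eventually_mem hfA htA (g⁻¹ • v)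
        refine ⟨-J - 1, ?_⟩
        have := hJ (-J) le_rfl
        rw [mul_smul, smul_smul (t₀ ^ (-J - 1)) t₀ A, ← zpow_add_one, sub_add_cancel]
        rwa [Set.mem_smul_set_iff_inv_smul_mem]
      choose i hi using hex
      refine fin (fun g => g * t₀ ^ i g) (fun g => ?_) ?_
      · rw [inv_mul_cancel_left]
        exact Subgroup.zpow_mem _ ht₀S _
      · intro g g' C C' d1 d2
        obtain ⟨-, k0, k2⟩ := hsubC C d1
        obtain ⟨-, k1, k4⟩ := hsubC C' d2
        refine ⟨⟨v, Set.smul_set_mono k2 (hi g), Set.smul_set_mono k4 (hi g')⟩, fun hc => ?_⟩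
        refine hno ((g' * t₀ ^ i g')⁻¹ * (g * t₀ ^ i g)) ?_
        rw [mul_smul, ← Set.smul_set_compl, Set.smul_set_subset_iff_subset_inv_smul_set, inv_inv]
        exact (compl_subset_compl.2 (Set.smul_set_mono k0)).trans
          (hc.trans (Set.smul_set_mono k1))
  have hle : Kp G A B ≤ BdS hG hE := fun s hs => mem_BdS.2 (Bd.of_mem hE hs)
  obtain ⟨B₀, hsub, h₀, h1 | h1⟩ := split_of_fi hG hGC hfi hle hE (fun g hg => mem_BdS.1 hg)
  · exact absurd h1 (not_univ_pair hG (fun s hs => (mem_Kp.1 hs).1) htA h₀)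
  · exact ⟨B₀, hsub, h₀, nontrivial_of_axis hE h₀ hsub k hτ hk, h1⟩

end Pool.Agent.V7H57.WL
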