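import Pool.Agent.V7H57.WL.Wid

/-!
# Pairs of half-spaces whose common stabiliser contains a rank one element of its convex set
-/

set_option autoImplicit false

open Metric Set Filter Topology
open Pool.Agent.TH60.FP Pool.Agent.TH60.FP.Strip Pool.Agent.Y34.HB Pool.Agent.Y34.EL
open Pool.Agent.T6.H46.RR Pool.Agent.T6.H67.TA Pool.Agent.T6.H46.RC Pool.Agent.V7H57.RK
open scoped Pointwise

namespace Pool.Agent.V7H57.WL

variable {G : Type} [Group G] {X : Type} [MetricSpace X] [MulAction G X]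

/-- two translates with small intersections with `K`: a third one with finite triple intersection -/
lemma tri (hG : Geo X G) {K : Subgroup G} {B : Set X} (hB : CC K B) (k : K) {τ : ℝ}
    (hτ : 0 < τ) {c : ℝ → B} (hk : @Axis B _ K _ (bact hB) k τ c) (hHP : HP c = ∅)
    {h₁ h₂ : G} (n1 : ¬ Bd B h₁) (n2 : ¬ Bd B h₂) :
    ∃ g ∈ K, {s : G | s ∈ K ∧ h₁⁻¹ * s * h₁ ∈ K ∧ (g * h₂)⁻¹ * s * (g * h₂) ∈ K}.Finite := by
  have := hG.proper
  have := hG.isom
  let _ := bact hB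
  have hGB := geo_sub hG hB
  have := hGB.isom
  have := hGB.proper
  by_cases f1 : ∀ s : K, ∃ l : ℕ, 0 < l ∧ (s * k * s⁻¹) ^ l ∈ IK K h₁
  · exact absurd (full hG hB k hτ hk hHP _ f1) n1
  by_cases f2 : ∀ s : K, ∃ l : ℕ, 0 < l ∧ (s * k * s⁻¹) ^ l ∈ IK K h₂
  · exact absurd (full hG hB k hτ hk hHP _ f2) n2
  push Not at f1 f2
  obtain ⟨s₁, hs₁⟩ := f1
  obtain ⟨s₂, hs₂⟩ := f2
  obtain ⟨R, D, hP⟩ := pass_of_axis hGB.cn hτ hk hHP
  obtain ⟨g, hg⟩ := dyn hGB (axis_conj hk s₂) (hP.smul s₂) (axis_conj hk s₁) (hP.smul s₁)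
    (A₁ := IK K h₁) (A₂ := IK K h₂) (qc_IK hG hB h₁) (qc_IK hG hB h₂) hs₂ hs₁
  refine ⟨g, g.2, (hg.image (fun s : K => (s : G))).subset ?_⟩
  rintro s ⟨e1, e2, e3⟩
  refine ⟨⟨s, e1⟩, ⟨?_, ?_⟩, rfl⟩
  · rw [mem_IK]; exact e2
  · rw [mem_IK]
    show h₂⁻¹ * ((g : G)⁻¹ * s * g) * h₂ ∈ K
    have e : h₂⁻¹ * ((g : G)⁻¹ * s * g) * h₂ = ((g : G) * h₂)⁻¹ * s * ((g : G) * h₂) := by group
    rw [e]; exact e3

variable {V : Type} [MulAction G V] {A B : Set V} {t₀ : G}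

/-- things outside of the pair -/
def Outer (A B : Set V) (h : G) : Prop := A ⊆ h • B ∨ A ⊆ (h • A)ᶜ

/-- things inside the pair -/
def Inner (A B : Set V) (h : G) : Prop := h • A ⊆ B ∨ (h • B)ᶜ ⊆ B

lemma Outer.sets (hBA : B ⊆ A) {h : G} (ho : Outer A B h) : ∃ C₁ ∈ Wm G A B, ∃ C₂ ∈ Wm G A B,
    A ⊆ C₂ ∧ C₂ ⊆ C₁ ∧ ∀ s : G, s • C₁ = C₁ → s • C₂ = C₂ → s ∈ Kp G (h • A) (h • B) := by
  rcases ho with ho | ho
  · exact ⟨h • A, Or.inl ⟨h, Or.inl rfl⟩, h • B, Or.inl ⟨h, Or.inr rfl⟩, ho,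
      Set.smul_set_mono hBA, fun s h1 h2 => mem_Kp.2 ⟨h1, h2⟩⟩
  · refine ⟨(h • B)ᶜ, Or.inr ⟨h, Or.inr (compl_compl _)⟩, (h • A)ᶜ,
      Or.inr ⟨h, Or.inl (compl_compl _)⟩, ho, compl_subset_compl.2 (Set.smul_set_mono hBA),
      fun s h1 h2 => mem_Kp.2 ⟨?_, ?_⟩⟩
    · rwa [Set.smul_set_compl, compl_inj_iff] at h2
    · rwa [Set.smul_set_compl, compl_inj_iff] at h1

lemma Inner.sets (hBA : B ⊆ A) {h : G} (ho : Inner A B h) : ∃ C₃ ∈ Wm G A B, ∃ C₄ ∈ Wm G A B,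
    C₃ ⊆ B ∧ C₄ ⊆ C₃ ∧ ∀ s : G, s • C₃ = C₃ → s • C₄ = C₄ → s ∈ Kp G (h • A) (h • B) := by
  rcases ho with ho | ho
  · exact ⟨h • A, Or.inl ⟨h, Or.inl rfl⟩, h • B, Or.inl ⟨h, Or.inr rfl⟩, ho,
      Set.smul_set_mono hBA, fun s h1 h2 => mem_Kp.2 ⟨h1, h2⟩⟩
  · refine ⟨(h • B)ᶜ, Or.inr ⟨h, Or.inr (compl_compl _)⟩, (h • A)ᶜ,
      Or.inr ⟨h, Or.inl (compl_compl _)⟩, ho, compl_subset_compl.2 (Set.smul_set_mono hBA),
      fun s h1 h2 => mem_Kp.2 ⟨?_, ?_⟩⟩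
    · rwa [Set.smul_set_compl, compl_inj_iff] at h2
    · rwa [Set.smul_set_compl, compl_inj_iff] at h1

/-- an inner translate moved by an element of the stabiliser -/
lemma Inner.move {h κ : G} (ho : Inner A B h) (hκ : κ • B = B) : Inner A B (κ * h) := by
  rcases ho with ho | ho
  · left
    rw [mul_smul, ← hκ]
    exact Set.smul_set_mono ho
  · right
    have h1 := Set.smul_set_mono (a := κ) ho
    rw [Set.smul_set_compl, hκ] at h1
    rwa [mul_smul]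

/-- double skewering -/
lemma dbl (hBA : B ⊆ A) (ht₀ : t₀ • A ⊂ B) {p q : G} (hp : p • A ⊆ Aᶜ) (hq : (q • B)ᶜ ⊆ B)
    {C C' : Set V} (hC : C ∈ Wm G A B) (hC' : C' ∈ Wm G A B) : ∃ x : G, x • C ⊂ C' := by
  have htA : t₀ • A ⊂ A := ht₀.trans_subset hBA
  have up : ∀ C ∈ Wm G A B, ∃ a : G, C ⊆ a • A := by
    rintro C (⟨a, rfl | rfl⟩ | ⟨a, h | h⟩)
    · exact ⟨a, Subset.rfl⟩
    · exact ⟨a, Set.smul_set_mono hBA⟩
    · have e : C = (a • A)ᶜ := by rw [← h, compl_compl]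
      refine ⟨a * q⁻¹, ?_⟩
      rw [e, mul_smul, ← Set.smul_set_compl]
      refine Set.smul_set_mono ?_
      rw [Set.subset_smul_set_iff, inv_inv, Set.smul_set_compl]
      exact (compl_subset_compl.2 (Set.smul_set_mono hBA)).trans (hq.trans hBA)
    · have e : C = (a • B)ᶜ := by rw [← h, compl_compl]
      refine ⟨a * q⁻¹, ?_⟩
      rw [e, mul_smul, ← Set.smul_set_compl]
      refine Set.smul_set_mono ?_
      rw [Set.subset_smul_set_iff, inv_inv, Set.smul_set_compl]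
      exact hq.trans hBA
  have down : ∀ C ∈ Wm G A B, ∃ a : G, a • A ⊆ C := by
    rintro C (⟨a, rfl | rfl⟩ | ⟨a, h | h⟩)
    · exact ⟨a, Subset.rfl⟩
    · refine ⟨a * t₀, ?_⟩
      rw [mul_smul]
      exact Set.smul_set_mono ht₀.subset
    · have e : C = (a • A)ᶜ := by rw [← h, compl_compl]
      refine ⟨a * p, ?_⟩
      rw [e, mul_smul, ← Set.smul_set_compl]
      exact Set.smul_set_mono hp
    · have e : C = (a • B)ᶜ := by rw [← h, compl_compl]
      refine ⟨a * p, ?_⟩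
      rw [e, mul_smul, ← Set.smul_set_compl]
      exact Set.smul_set_mono (hp.trans (compl_subset_compl.2 hBA))
  obtain ⟨a, ha⟩ := up C hC
  obtain ⟨b, hb⟩ := down C' hC'
  refine ⟨b * t₀ * a⁻¹, ?_⟩
  have h1 : (b * t₀ * a⁻¹) • C ⊆ b • t₀ • A := by
    have := Set.smul_set_mono (a := b * t₀ * a⁻¹) ha
    rwa [mul_smul (b * t₀) a⁻¹ (a • A), inv_smul_smul, mul_smul b t₀ A] at this
  exact (ssubset_of_subset_of_ssubset h1 (smul_ssub b htA)).trans_subset hb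

/-- a chain of half-spaces with a finite common stabiliser, mapped properly into itself -/
lemma chain_core (hG : Geo X G) (o : X) {D : Set (Set V)} (hD : Cls G D) (hBA : B ⊆ A)
    (hAW : A ∈ D) (hBW : B ∈ D) {C₁ C₂ C₃ C₄ : Set V} (hC₁ : C₁ ∈ D) (hC₂ : C₂ ∈ D)
    (hC₃ : C₃ ∈ D) (hC₄ : C₄ ∈ D) (c1 : A ⊆ C₂) (c2 : C₂ ⊆ C₁) (d1 : C₃ ⊆ B) (d2 : C₄ ⊆ C₃)
    {s : G} (hs : s • C₁ ⊂ C₄)
    (hMf : ((Kp G C₁ C₂ ⊓ (Kp G A B ⊓ Kp G C₃ C₄) : Subgroup G) : Set G).Finite) :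
    RankOne X s := by
  have hBC : B ⊆ C₁ := hBA.trans (c1.trans c2)
  have hsC : s • C₁ ⊂ C₁ := hs.trans_subset (d2.trans (d1.trans hBC))
  refine (skew_free hG o (A := C₁) ?_ hsC).resolve_right fun h1 => ?_
  · intro u v
    refine (hD.fin u v).subset ?_
    rintro C ⟨⟨g, rfl⟩, hu, hv⟩
    exact ⟨hD.act _ hC₁ g, hu, hv⟩
  · refine h1 1 ?_
    have hsW := hD.act _ hC₁ s
    have j4 : s • C₁ ⊆ C₄ := hs.subset
    have j3 : s • C₁ ⊆ C₃ := j4.trans d2
    have jB : s • C₁ ⊆ B := j3.trans d1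
    have jA : s • C₁ ⊆ A := jB.trans hBA
    have j2 : s • C₁ ⊆ C₂ := jA.trans c1
    have i2 : C₂ ⊆ C₁ := c2
    have iA : A ⊆ C₁ := c1.trans c2
    have i3 : C₃ ⊆ C₁ := d1.trans hBC
    have i4 : C₄ ⊆ C₁ := d2.trans i3
    have hMi : (Kp G C₁ C₂ ⊓ (Kp G A B ⊓ Kp G C₃ C₄)).relIndex (Kp G C₁ (s • C₁)) ≠ 0 :=
      Subgroup.relIndex_inf_ne_zero
        (hD.between hC₁ hsW hC₁ hC₂ hsC.subset Subset.rfl j2 i2)
        (Subgroup.relIndex_inf_ne_zero (hD.between hC₁ hsW hAW hBW jA iA jB hBC)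
          (hD.between hC₁ hsW hC₃ hC₄ j3 i3 j4 i4))
    refine (finite_of_index hMf hMi).subset ?_
    intro x hx
    rw [SetLike.mem_coe, mem_Cs] at hx
    rw [SetLike.mem_coe, mem_Kp]
    have e0 := hx 0 le_rfl (by norm_num)
    have e1 := hx 1 (by norm_num) (by norm_num)
    rw [zpow_zero, one_smul] at e0
    rw [zpow_one] at e1
    exact ⟨e0, e1⟩

/-- **Chains with a small middle.**  If there are an outer and an inner translate of the pair whose
convex sets do not contain `E` in a neighbourhood then there is a rank one isometry. -/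
theorem chain_rank (hG : Geo X G) (o : X)
    (hfin : ∀ u v : V, {C : Set V | C ∈ Wp G A B ∧ u ∈ C ∧ v ∉ C}.Finite)
    (hBA : B ⊆ A) (ht₀ : t₀ • A ⊂ B) {p q : G} (hp : p • A ⊆ Aᶜ) (hq : (q • B)ᶜ ⊆ B)
    {E : Set X} (hE : CC (Kp G A B) E) (k : Kp G A B) {τ : ℝ}
    (hτ : 0 < τ) {c : ℝ → E} (hk : @Axis E _ (Kp G A B) _ (bact hE) k τ c) (hHP : HP c = ∅)
    {h₁ h₂ : G} (o1 : Outer A B h₁) (o2 : Inner A B h₂) (n1 : ¬ Bd E h₁) (n2 : ¬ Bd E h₂) :
    ∃ g : G, RankOne X g := by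
  have htA : t₀ • A ⊂ A := ht₀.trans_subset hBA
  obtain ⟨hne, hnu⟩ := ne_of_shift htA
  have hneB : B.Nonempty := (hne.smul_set (a := t₀)).mono ht₀.subset
  have hnuB : Bᶜ.Nonempty := hnu.mono (compl_subset_compl.2 hBA)
  have hD := cls_Wm hfin hne hnu hneB hnuB
  have hAW : A ∈ Wm G A B := Or.inl ⟨1, Or.inl (one_smul _ _).symm⟩
  have hBW : B ∈ Wm G A B := Or.inl ⟨1, Or.inr (one_smul _ _).symm⟩
  obtain ⟨κ, hκ, hF⟩ := tri hG hE k hτ hk hHP n1 n2
  obtain ⟨C₁, hC₁, C₂, hC₂, c1, c2, c3⟩ := o1.sets hBA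
  obtain ⟨C₃, hC₃, C₄, hC₄, d1, d2, d3⟩ := (o2.move (mem_Kp.1 hκ).2).sets hBA
  obtain ⟨s, hs⟩ := dbl hBA ht₀ hp hq hC₁ hC₄
  refine ⟨s, chain_core hG o hD hBA hAW hBW hC₁ hC₂ hC₃ hC₄ c1 c2 d1 d2 hs (hF.subset ?_)⟩
  rintro x ⟨x1, x2, x3⟩
  obtain ⟨x4, x5⟩ := mem_Kp.1 x1
  obtain ⟨x6, x7⟩ := mem_Kp.1 x3
  exact ⟨x2, mem_Kp_smul (c3 x x4 x5), mem_Kp_smul (d3 x x6 x7)⟩

/-- chains of translates of the pair, without flips -/
theorem chain_rank_io (hG : Geo X G) (o : X)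
    (hfin : ∀ u v : V, {C : Set V | C ∈ Wp G A B ∧ u ∈ C ∧ v ∉ C}.Finite)
    (hBA : B ⊆ A) (ht₀ : t₀ • A ⊂ B)
    {E : Set X} (hE : CC (Kp G A B) E) (k : Kp G A B) {τ : ℝ}
    (hτ : 0 < τ) {c : ℝ → E} (hk : @Axis E _ (Kp G A B) _ (bact hE) k τ c) (hHP : HP c = ∅)
    {h₁ h₂ : G} (o1 : A ⊆ h₁ • B) (o2 : h₂ • A ⊆ B) (n1 : ¬ Bd E h₁) (n2 : ¬ Bd E h₂) :
    ∃ g : G, RankOne X g := by
  have htA : t₀ • A ⊂ A := ht₀.trans_subset hBA
  obtain ⟨hne, hnu⟩ := ne_of_shift htA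
  have hneB : B.Nonempty := (hne.smul_set (a := t₀)).mono ht₀.subset
  have hnuB : Bᶜ.Nonempty := hnu.mono (compl_subset_compl.2 hBA)
  have hD := cls_Wp hfin hne hnu hneB hnuB
  obtain ⟨κ, hκ, hF⟩ := tri hG hE k hτ hk hHP n1 n2
  have hA1 : ∀ g : G, g • A ∈ Wp G A B := fun g => ⟨g, Or.inl rfl⟩
  have hB1 : ∀ g : G, g • B ∈ Wp G A B := fun g => ⟨g, Or.inr rfl⟩
  have hAW : A ∈ Wp G A B := ⟨1, Or.inl (one_smul _ _).symm⟩
  have hBW : B ∈ Wp G A B := ⟨1, Or.inr (one_smul _ _).symm⟩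
  have hκB := (mem_Kp.1 hκ).2
  refine ⟨κ * h₂ * t₀ * h₁⁻¹, chain_core hG o hD hBA hAW hBW (hA1 h₁) (hB1 h₁)
    (hA1 (κ * h₂)) (hB1 (κ * h₂)) o1 (Set.smul_set_mono hBA) ?_ (Set.smul_set_mono hBA) ?_
    (hF.subset ?_)⟩
  · have := Set.smul_set_mono (a := κ) o2
    rwa [hκB, ← mul_smul] at this
  · rw [mul_smul, inv_smul_smul, mul_smul]
    exact smul_ssub _ ht₀
  · rintro x ⟨x1, x2, x3⟩
    exact ⟨x2, mem_Kp_smul x1, mem_Kp_smul x3⟩

/-- without rank one isometries all inner and outer translates are near -/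
theorem all_near (hG : Geo X G)
    (hBA : B ⊆ A) {p q : G} (hp : p • A ⊆ Aᶜ) (hq : (q • B)ᶜ ⊆ B)
    {E : Set X} (hE : CC (Kp G A B) E)
    (hno : ∀ h₁ h₂ : G, Outer A B h₁ → Inner A B h₂ → Bd E h₁ ∨ Bd E h₂) :
    (∀ h : G, Outer A B h → Bd E h) ∧ ∀ h : G, Inner A B h → Bd E h := by
  have := hG.isom
  have := hG.proper
  have hp' : Outer A B p⁻¹ := by
    right
    rw [subset_compl_comm]
    rw [Set.smul_set_subset_iff_subset_inv_smul_set, inv_inv, Set.smul_set_compl,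
      subset_compl_comm]
    exact hp
  have hq' : Inner A B q⁻¹ := by
    right
    rw [← Set.smul_set_compl, Set.smul_set_subset_iff_subset_inv_smul_set, inv_inv,
      compl_subset_comm]
    exact hq
  by_cases h : ∀ h : G, Outer A B h → Bd E h
  · refine ⟨h, fun g hg => ?_⟩
    have h1 : Outer A B (p * g) := by
      rcases hg with hg | hg
      · right
        rw [subset_compl_comm, mul_smul]
        exact (Set.smul_set_mono (hg.trans hBA)).trans hp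
      · left
        rw [mul_smul]
        have h2 := Set.smul_set_mono (a := p) hg
        rw [Set.smul_set_compl] at h2
        exact (subset_compl_comm.1 ((Set.smul_set_mono hBA).trans hp)).trans
          (compl_subset_comm.1 h2)
    have h3 := (h _ hp').mul hE (h _ h1)
    rwa [inv_mul_cancel_left] at h3
  · push Not at h
    obtain ⟨h₁, o1, n1⟩ := h
    have hin : ∀ h : G, Inner A B h → Bd E h := fun h₂ o2 =>
      (hno h₁ h₂ o1 o2).resolve_left n1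
    refine ⟨fun g hg => ?_, hin⟩
    have h1 : Inner A B (q * g) := by
      rcases hg with hg | hg
      · right
        rw [mul_smul]
        have h2 := compl_subset_compl.2 (Set.smul_set_mono (a := q) (hBA.trans hg))
        exact h2.trans hq
      · left
        rw [mul_smul]
        have h2 : g • A ⊆ Bᶜ := (subset_compl_comm.1 hg).trans (compl_subset_compl.2 hBA)
        have h3 := Set.smul_set_mono (a := q) h2
        rw [Set.smul_set_compl] at h3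
        exact h3.trans hq
    have h3 := (hin _ hq').mul hE (hin _ h1)
    rwa [inv_mul_cancel_left] at h3

/-- translates of the pair which are not transverse to it are near -/
theorem near_of_not_tt (hG : Geo X G) (hBA : B ⊆ A) (ht₀ : t₀ • A ⊂ B)
    {E : Set X} (hE : CC (Kp G A B) E)
    (hO : ∀ h : G, Outer A B h → Bd E h) (hI : ∀ h : G, Inner A B h → Bd E h) {g : G}
    (hg : ¬ TT A B g 1) : Bd E g := by
  have := hG.isom
  have := hG.proper
  have b1 : Bd E t₀ := hI _ (Or.inl ht₀.subset)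
  have b2 : Bd E t₀⁻¹ := hO _ (Or.inl (by
    rw [Set.subset_smul_set_iff, inv_inv]; exact ht₀.subset))
  have key : ∀ C C' : Set V, B ⊆ C → C ⊆ A → B ⊆ C' → C' ⊆ A → ¬ Tv (g • C) C' → Bd E g := by
    intro C C' c1 c2 c3 c4 hc
    rcases not_tv hc with h1 | h1 | h1 | h1
    · -- disjoint
      have h2 : Outer A B (t₀⁻¹ * g * t₀) := by
        right
        rw [mul_smul, mul_smul]
        have e1 : g • t₀ • A ⊆ (t₀ • A)ᶜ := by
          intro v hv hv'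
          have k1 : v ∈ g • C := Set.smul_set_mono (ht₀.subset.trans c1) hv
          have k2 : v ∈ C' := c3 (ht₀.subset hv')
          have : v ∈ g • C ∩ C' := ⟨k1, k2⟩
          rw [h1] at this
          exact this
        have e2 := Set.smul_set_mono (a := t₀⁻¹) e1
        rw [Set.smul_set_compl, inv_smul_smul] at e2
        exact subset_compl_comm.1 e2
      have h3 := (b1.mul hE (hO _ h2)).mul hE b2
      have e : t₀ * (t₀⁻¹ * g * t₀) * t₀⁻¹ = g := by group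
      rwa [e] at h3
    · have h2 : Inner A B (t₀ * g * t₀) := by
        left
        rw [mul_smul, mul_smul]
        have e1 : g • t₀ • A ⊆ A :=
          (Set.smul_set_mono (ht₀.subset.trans c1)).trans (h1.trans c4)
        exact (Set.smul_set_mono e1).trans ht₀.subset
      have h3 := (b2.mul hE (hI _ h2)).mul hE b2
      have e : t₀⁻¹ * (t₀ * g * t₀) * t₀⁻¹ = g := by group
      rwa [e] at h3
    · have h2 : Outer A B (t₀⁻¹ * g * t₀⁻¹) := by
        left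
        rw [mul_smul, mul_smul, Set.subset_smul_set_iff, inv_inv]
        have e1 : A ⊆ t₀⁻¹ • B := by
          rw [Set.subset_smul_set_iff, inv_inv]; exact ht₀.subset
        exact ht₀.subset.trans (c3.trans (h1.trans ((Set.smul_set_mono c2).trans
          (Set.smul_set_mono e1))))
      have h3 := (b1.mul hE (hO _ h2)).mul hE b1
      have e : t₀ * (t₀⁻¹ * g * t₀⁻¹) * t₀ = g := by group
      rwa [e] at h3
    · have h2 : Inner A B (t₀ * g * t₀⁻¹) := by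
        right
        rw [mul_smul, mul_smul, ← Set.smul_set_compl]
        have e1 : A ⊆ t₀⁻¹ • B := by
          rw [Set.subset_smul_set_iff, inv_inv]; exact ht₀.subset
        have e2 : (g • t₀⁻¹ • B)ᶜ ⊆ A :=
          (compl_subset_compl.2 (Set.smul_set_mono (c2.trans e1))).trans (h1.trans c4)
        exact (Set.smul_set_mono e2).trans ht₀.subset
      have h3 := (b2.mul hE (hI _ h2)).mul hE b1
      have e : t₀⁻¹ * (t₀ * g * t₀⁻¹) * t₀ = g := by group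
      rwa [e] at h3
  by_contra hn
  apply hg
  unfold TT
  rw [one_smul, one_smul]
  refine ⟨?_, ?_, ?_, ?_⟩
  · by_contra hc; exact hn (key A A hBA Subset.rfl hBA Subset.rfl hc)
  · by_contra hc; exact hn (key A B hBA Subset.rfl Subset.rfl hBA hc)
  · by_contra hc; exact hn (key B A Subset.rfl hBA hBA Subset.rfl hc)
  · by_contra hc; exact hn (key B B Subset.rfl hBA Subset.rfl hBA hc)

lemma Tv.smul {C C' : Set V} (h : Tv C C') (g : G) : Tv (g • C) (g • C') := by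
  unfold Tv at h ⊢
  rw [← Set.smul_set_compl, ← Set.smul_set_compl, ← Set.smul_set_inter, ← Set.smul_set_inter,
    ← Set.smul_set_inter, ← Set.smul_set_inter]
  exact ⟨h.1.smul_set, h.2.1.smul_set, h.2.2.1.smul_set, h.2.2.2.smul_set⟩

lemma Tv.symm' {C C' : Set V} (h : Tv C C') : Tv C' C := by
  obtain ⟨h1, h2, h3, h4⟩ := h
  exact ⟨by rwa [inter_comm], by rwa [inter_comm], by rwa [inter_comm], by rwa [inter_comm]⟩

lemma TT.smul {g g' : G} (h : TT A B g g') (x : G) : TT A B (x * g) (x * g') := by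
  obtain ⟨h1, h2, h3, h4⟩ := h
  unfold TT
  rw [mul_smul, mul_smul, mul_smul, mul_smul]
  exact ⟨h1.smul x, h2.smul x, h3.smul x, h4.smul x⟩

lemma TT.symm' {g g' : G} (h : TT A B g g') : TT A B g' g := by
  obtain ⟨h1, h2, h3, h4⟩ := h
  exact ⟨h1.symm', h3.symm', h2.symm', h4.symm'⟩

/-- the subgroup of the elements which move `E` to a parallel position -/
def BdS (hG : Geo X G) {K : Subgroup G} {E : Set X} (hE : CC K E) : Subgroup G where
  carrier := {g | Bd E g ∧ Bd E g⁻¹}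
  mul_mem' := by
    have := hG.isom
    have := hG.proper
    rintro a b ⟨h1, h2⟩ ⟨h3, h4⟩
    refine ⟨h1.mul hE h3, ?_⟩
    rw [mul_inv_rev]
    exact h4.mul hE h2
  one_mem' := by
    have := hG.isom
    refine ⟨Bd.of_mem hE K.one_mem, ?_⟩
    rw [inv_one]
    exact Bd.of_mem hE K.one_mem
  inv_mem' := by
    rintro a ⟨h1, h2⟩
    exact ⟨h2, by rwa [inv_inv]⟩

lemma index_of_bounded {S : Subgroup G} {d : ℕ} {R : G → G → Prop}
    (hd : ∀ T : Finset G, (∀ g ∈ T, ∀ g' ∈ T, g ≠ g' → R g g') → T.card ≤ d)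
    (h : ∀ g g', g'⁻¹ * g ∉ S → R g g') : S.index ≠ 0 := by
  classical
  intro h0
  have := Subgroup.index_eq_zero_iff_infinite.1 h0
  obtain ⟨T, hT⟩ := Infinite.exists_subset_card_eq (G ⧸ S) (d + 1)
  let f : G ⧸ S → G := fun q => q.out
  have hf : ∀ q, (QuotientGroup.mk (f q) : G ⧸ S) = q := fun q => QuotientGroup.out_eq' q
  have hinj : Function.Injective f := fun q q' he => by rw [← hf q, ← hf q', he]
  have h1 := hd (T.image f) (by
    intro g hg g' hg' hne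
    obtain ⟨q, -, rfl⟩ := Finset.mem_image.1 hg
    obtain ⟨q', -, rfl⟩ := Finset.mem_image.1 hg'
    refine h _ _ fun hc => hne ?_
    have h2 : (QuotientGroup.mk (f q') : G ⧸ S) = QuotientGroup.mk (f q) :=
      QuotientGroup.eq.2 hc
    rw [hf, hf] at h2
    rw [h2])
  rw [Finset.card_image_of_injective _ hinj, hT] at h1
  omega

lemma index_of_bounded' {S : Subgroup G} {d : ℕ} {R : G → G → Prop}
    (hd : ∀ T : Finset G, (∀ g ∈ T, ∀ g' ∈ T, g ≠ g' → R g g') → T.card ≤ d) (i : G → G)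
    (hi : ∀ g, g⁻¹ * i g ∈ S) (h : ∀ g g', (i g')⁻¹ * i g ∉ S → R (i g) (i g')) :
    S.index ≠ 0 := by
  classical
  intro h0
  have := Subgroup.index_eq_zero_iff_infinite.1 h0
  obtain ⟨T, hT⟩ := Infinite.exists_subset_card_eq (G ⧸ S) (d + 1)
  let f : G ⧸ S → G := fun q => i q.out
  have hf : ∀ q, (QuotientGroup.mk (f q) : G ⧸ S) = q := by
    intro q
    have h1 : (QuotientGroup.mk q.out : G ⧸ S) = QuotientGroup.mk (f q) :=
      QuotientGroup.eq.2 (hi q.out)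
    rw [← h1, QuotientGroup.out_eq']
  have hinj : Function.Injective f := fun q q' he => by rw [← hf q, ← hf q', he]
  have h1 := hd (T.image f) (by
    intro g hg g' hg' hne
    obtain ⟨q, -, rfl⟩ := Finset.mem_image.1 hg
    obtain ⟨q', -, rfl⟩ := Finset.mem_image.1 hg'
    refine h _ _ fun hc => hne ?_
    have h2 : (QuotientGroup.mk (f q') : G ⧸ S) = QuotientGroup.mk (f q) :=
      QuotientGroup.eq.2 hc
    rw [hf, hf] at h2
    rw [h2])
  rw [Finset.card_image_of_injective _ hinj, hT] at h1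
  omega

/-- **Main theorem.** -/
theorem rko_main (hG : Geo X G) (hGC : GC X)
    (hfin : ∀ u v : V, {C : Set V | C ∈ Wp G A B ∧ u ∈ C ∧ v ∉ C}.Finite)
    (hBA : B ⊆ A) (ht₀ : t₀ • A ⊂ B) {p q : G} (hp : p • A ⊆ Aᶜ) (hq : (q • B)ᶜ ⊆ B)
    {d : ℕ} (hd : ∀ S : Finset G, (∀ g ∈ S, ∀ g' ∈ S, g ≠ g' → TT A B g g') → S.card ≤ d)
    {E : Set X} (hE : CC (Kp G A B) E) (k : Kp G A B) {τ : ℝ}
    (hτ : 0 < τ) {c : ℝ → E} (hk : @Axis E _ (Kp G A B) _ (bact hE) k τ c) (hHP : HP c = ∅) :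
    (∃ g : G, RankOne X g) ∨ ∃ B₀ : Set X, B₀ ⊆ E ∧ CC (Kp G A B) B₀ ∧ Nontrivial B₀ ∧
      ∃ (Z : Type) (_ : MetricSpace Z) (_ : Nontrivial Z) (e : X ≃ Z × B₀),
        ∀ x x' : X, dist x x' ^ 2 = dist (e x).1 (e x').1 ^ 2 + dist (e x).2 (e x').2 ^ 2 := by
  have := hG.isom
  have := hG.proper
  by_cases hno : ∃ g : G, RankOne X g
  · exact Or.inl hno
  right
  obtain ⟨o, ho⟩ := hE.ne
  obtain ⟨hO, hI⟩ := all_near hG hBA hp hq hE (fun h₁ h₂ o1 o2 => by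
    by_contra hc
    push Not at hc
    exact hno (chain_rank hG o hfin hBA ht₀ hp hq hE k hτ hk hHP o1 o2 hc.1 hc.2))
  have htA : t₀ • A ⊂ A := ht₀.trans_subset hBA
  have hfi : (BdS hG hE).index ≠ 0 := by
    refine index_of_bounded hd fun g g' hg => ?_
    have h1 : ¬ (Bd E (g'⁻¹ * g) ∧ Bd E (g'⁻¹ * g)⁻¹) := hg
    rw [not_and_or] at h1
    rcases h1 with h1 | h1
    · have h2 : TT A B (g'⁻¹ * g) 1 := by
        by_contra hc
        exact h1 (near_of_not_tt hG hBA ht₀ hE hO hI hc)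
      have h3 := h2.smul g'
      rwa [mul_inv_cancel_left, mul_one] at h3
    · have h2 : TT A B (g'⁻¹ * g)⁻¹ 1 := by
        by_contra hc
        exact h1 (near_of_not_tt hG hBA ht₀ hE hO hI hc)
      have h3 := (h2.smul g).symm'
      rw [mul_inv_rev, inv_inv, mul_inv_cancel_left, mul_one] at h3
      exact h3
  have hle : Kp G A B ≤ BdS hG hE := fun s hs =>
    ⟨Bd.of_mem hE hs, Bd.of_mem hE ((Kp G A B).inv_mem hs)⟩
  obtain ⟨B₀, hsub, h₀, h1 | h1⟩ := split_of_fi hG hGC hfi hle hE (fun g hg => hg.1)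
  · exact absurd h1 (not_univ_pair hG (fun s hs => (mem_Kp.1 hs).1) htA h₀)
  · exact ⟨B₀, hsub, h₀, nontrivial_of_axis hE h₀ hsub k hτ hk, h1⟩

end Pool.Agent.V7H57.WL
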