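import Pool.Agent.V7H57.WL.Half

/-!
# The translates of a shifted half-space near the horizontal lines of a flat half-plane
-/

set_option autoImplicit false

open Metric Set Filter Topology
open Pool.Agent.TH60.FP Pool.Agent.TH60.FP.Strip Pool.Agent.Y34.HB Pool.Agent.Y34.EL
open Pool.Agent.T6.H46.RR Pool.Agent.T6.H67.TA Pool.Agent.T6.H46.RC Pool.Agent.V7H57.RK
open scoped Pointwise

namespace Pool.Agent.V7H57.WL

variable {X : Type} [MetricSpace X] {G : Type} [Group G] [MulAction G X]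
variable {V : Type} [MulAction G V] {W : Set (Set V)}
variable {D0 : ℝ} {v0 : V} {ρ : Set V → X → ℝ} {E0 : Set (Set V)} {C : ℝ}
variable {A : Set V} {t : G} {c : ℝ → X} {τ : ℝ} {H : ℝ × NNReal → X}

lemma Dat.low (h : Dat G W (c 0) D0 v0 ρ E0 C) (hH : H ∈ HP c) {B : Set V} {s : ℝ}
    {y : NNReal} {r : ℝ} (hr : C + y ≤ r) (hi : Ins G ρ E0 C B (H (s, y))) : ρ B (c s) ≤ r := by
  have h1 := h.rho.lip B (c s) (H (s, y))
  rw [← hH.2 s, hp_ver hH, NNReal.coe_zero, zero_sub, abs_neg,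
    abs_of_nonneg (NNReal.coe_nonneg y)] at h1
  rw [← hH.2 s]
  linarith [hi.2]

/-- vertical path -/
lemma Dat.vert (h : Dat G W (c 0) D0 v0 ρ E0 C) (hH : H ∈ HP c) {B : Set V} (hB : B ∈ W)
    {s : ℝ} {y : NNReal} (hd : ∀ u : NNReal, u ≤ y → ¬ Ins G ρ E0 C B (H (s, u)))
    (hs : Sd G (c 0) D0 v0 B (c s)) : Sd G (c 0) D0 v0 B (H (s, y)) := by
  have key := h.path hB (f := fun u => H (s, Real.toNNReal u)) (L := (y : ℝ)) y.2 ?_ ?_ ?_
  · simp only [Real.toNNReal_coe] at key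
    exact key
  · intro u v hu _ hv _
    rw [hp_ver hH, Real.coe_toNNReal _ hu, Real.coe_toNNReal _ hv]
  · intro u hu huy
    exact hd _ (Real.toNNReal_le_iff_le_coe.2 huy)
  · simp only [Real.toNNReal_zero]
    rw [hH.2]; exact hs

lemma Dat.left_side (h : Dat G W (c 0) D0 v0 ρ E0 C) (hA : A ∈ W) (ht : t • A ⊂ A)
    (h0 : v0 ∈ A) (h1 : v0 ∉ t • A) (hτ : 0 < τ) (hc : Axis t τ c) (hH : H ∈ HP c) (i : ℤ)
    (s : ℝ) (y : NNReal) (hd : ∀ s' ≤ s, ¬ Ins G ρ E0 C (t ^ i • A) (H (s', y))) :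
    Sd G (c 0) D0 v0 (t ^ i • A)ᶜ (H (s, y)) := by
  obtain ⟨R, hR0, hR⟩ := h.ax_near hA ht h0 h1 hτ hc (C + y)
  have hAi : t ^ i • A ∈ W := zW h hA i
  obtain ⟨n, hn1, hn2, hn3⟩ : ∃ n : ℤ, n < i ∧ (n : ℝ) * τ ≤ s ∧ (n : ℝ) * τ < i * τ - R := by
    obtain ⟨N, hN⟩ := exists_nat_gt (max (|s| / τ) (max 0 ((R + |(i : ℝ)| * τ) / τ)) + |(i : ℝ)|)
    have e1 : |s| / τ < N := lt_of_le_of_lt ((le_max_left _ _).trans
      (le_add_of_nonneg_right (abs_nonneg _))) hN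
    have e2 : (R + |(i : ℝ)| * τ) / τ < N := lt_of_le_of_lt (((le_max_right _ _).trans
      (le_max_right _ _)).trans (le_add_of_nonneg_right (abs_nonneg _))) hN
    have e3 : |(i : ℝ)| < N := by
      refine lt_of_le_of_lt ?_ hN
      have : (0 : ℝ) ≤ max (|s| / τ) (max 0 ((R + |(i : ℝ)| * τ) / τ)) :=
        (le_max_left _ _).trans (le_max_right _ _)
      linarith
    rw [div_lt_iff₀ hτ] at e1 e2
    refine ⟨-N, ?_, ?_, ?_⟩
    · have : (-(N : ℤ) : ℝ) < i := by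
        push_cast
        linarith [neg_abs_le (i : ℝ)]
      exact_mod_cast this
    · push_cast
      have := neg_abs_le s
      linarith
    · push_cast
      have e4 : -(|(i : ℝ)| * τ) ≤ i * τ := by
        rw [← neg_mul]
        exact mul_le_mul_of_nonneg_right (neg_abs_le _) hτ.le
      linarith
  have hAc : (t ^ i • A)ᶜ ∈ W := h.compl _ hAi
  have s1 : Sd G (c 0) D0 v0 (t ^ i • A)ᶜ (H ((n : ℝ) * τ, y)) := by
    refine h.vert hH hAc ?_ ((h.ax_side ht h0 h1 hc i n).2 hn1)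
    intro u hu hi
    have hi' := hi.symm' h
    have h2 := hR i (n * τ) hi'.1 (h.low hH (by
      have : (u : ℝ) ≤ y := by exact_mod_cast hu
      linarith) hi')
    rw [abs_le] at h2
    linarith
  have key := h.path hAc (f := fun u => H ((n : ℝ) * τ + u, y)) (L := s - n * τ)
    (by linarith) ?_ ?_ ?_
  · simp only [add_sub_cancel] at key
    exact key
  · intro u v _ _ _ _
    rw [hp_hor hH]
    simp
  · intro u hu huy hi
    exact hd _ (by linarith) (hi.symm' h)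
  · simp only [add_zero]; exact s1

lemma Dat.right_side (h : Dat G W (c 0) D0 v0 ρ E0 C) (hA : A ∈ W) (ht : t • A ⊂ A)
    (h0 : v0 ∈ A) (h1 : v0 ∉ t • A) (hτ : 0 < τ) (hc : Axis t τ c) (hH : H ∈ HP c) (i : ℤ)
    (s : ℝ) (y : NNReal) (hd : ∀ s' ≥ s, ¬ Ins G ρ E0 C (t ^ i • A) (H (s', y))) :
    Sd G (c 0) D0 v0 (t ^ i • A) (H (s, y)) := by
  obtain ⟨R, hR0, hR⟩ := h.ax_near hA ht h0 h1 hτ hc (C + y)
  have hAi : t ^ i • A ∈ W := zW h hA i
  obtain ⟨n, hn1, hn2, hn3⟩ : ∃ n : ℤ, i ≤ n ∧ s ≤ (n : ℝ) * τ ∧ i * τ + R < (n : ℝ) * τ := by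
    obtain ⟨N, hN⟩ := exists_nat_gt (max (|s| / τ) (max 0 ((R + |(i : ℝ)| * τ) / τ)) + |(i : ℝ)|)
    have e1 : |s| / τ < N := lt_of_le_of_lt ((le_max_left _ _).trans
      (le_add_of_nonneg_right (abs_nonneg _))) hN
    have e2 : (R + |(i : ℝ)| * τ) / τ < N := lt_of_le_of_lt (((le_max_right _ _).trans
      (le_max_right _ _)).trans (le_add_of_nonneg_right (abs_nonneg _))) hN
    have e3 : |(i : ℝ)| < N := by
      refine lt_of_le_of_lt ?_ hN
      have : (0 : ℝ) ≤ max (|s| / τ) (max 0 ((R + |(i : ℝ)| * τ) / τ)) :=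
        (le_max_left _ _).trans (le_max_right _ _)
      linarith
    rw [div_lt_iff₀ hτ] at e1 e2
    refine ⟨N, ?_, ?_, ?_⟩
    · have : (i : ℝ) < ((N : ℤ) : ℝ) := by
        push_cast
        linarith [le_abs_self (i : ℝ)]
      exact le_of_lt (by exact_mod_cast this)
    · push_cast
      have := le_abs_self s
      linarith
    · push_cast
      have e4 : i * τ ≤ |(i : ℝ)| * τ := mul_le_mul_of_nonneg_right (le_abs_self _) hτ.le
      linarith
  have s1 : Sd G (c 0) D0 v0 (t ^ i • A) (H ((n : ℝ) * τ, y)) := by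
    refine h.vert hH hAi ?_ ((h.ax_side ht h0 h1 hc i n).1 hn1)
    intro u hu hi
    have h2 := hR i (n * τ) hi.1 (h.low hH (by
      have : (u : ℝ) ≤ y := by exact_mod_cast hu
      linarith) hi)
    rw [abs_le] at h2
    linarith
  have key := h.path hAi (f := fun u => H ((n : ℝ) * τ - u, y)) (L := n * τ - s)
    (by linarith) ?_ ?_ ?_
  · simp only [sub_sub_cancel] at key
    exact key
  · intro u v _ _ _ _
    rw [hp_hor hH]
    refine le_of_eq ?_
    rw [abs_sub_comm]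
    congr 1; ring
  · intro u hu huy
    exact hd _ (by linarith)
  · simp only [sub_zero]; exact s1

/-- every translate is near every horizontal line -/
lemma Dat.hor_ex (h : Dat G W (c 0) D0 v0 ρ E0 C) (hA : A ∈ W) (ht : t • A ⊂ A)
    (h0 : v0 ∈ A) (h1 : v0 ∉ t • A) (hτ : 0 < τ) (hc : Axis t τ c) (hH : H ∈ HP c) (i : ℤ)
    (y : NNReal) : ∃ s, Ins G ρ E0 C (t ^ i • A) (H (s, y)) := by
  by_contra hno
  push Not at hno
  exact h.one_side (zW h hA i) (x := H (0, y)) (y := H (0, y))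
    (by rw [dist_self]; exact zero_le_one)
    (h.left_side hA ht h0 h1 hτ hc hH i 0 y fun s' _ => hno s')
    (h.right_side hA ht h0 h1 hτ hc hH i 0 y fun s' _ => hno s') (Or.inl (hno 0))

/-- linear bound -/
lemma Dat.hor_bd (h : Dat G W (c 0) D0 v0 ρ E0 C) (hA : A ∈ W) (ht : t • A ⊂ A)
    (h0 : v0 ∈ A) (h1 : v0 ∉ t • A) (hτ : 0 < τ) (hc : Axis t τ c) (hH : H ∈ HP c) :
    ∃ R : ℝ, 0 ≤ R ∧ ∀ (i : ℤ) (s : ℝ) (y : NNReal), Ins G ρ E0 C (t ^ i • A) (H (s, y)) →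
      |s - i * τ| ≤ R * (1 + y) := by
  obtain ⟨R, hR0, hR⟩ := h.ax_near hA ht h0 h1 hτ hc (C + 1)
  refine ⟨2 * R, by linarith, fun i s y hi => ?_⟩
  have hy0 : (0 : ℝ) ≤ y := y.2
  rcases le_total (y : ℝ) 1 with hy | hy
  · have h2 := hR i s hi.1 (h.low hH (by linarith) hi)
    nlinarith [mul_nonneg hR0 hy0]
  · obtain ⟨s0, hs0⟩ := h.hor_ex hA ht h0 h1 hτ hc hH i 0
    have hs1 := hR i s0 hs0.1 (h.low hH (by rw [NNReal.coe_zero]; linarith) hs0)
    have hy1 : (0 : ℝ) < y := by linarith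
    have hl1 : (y : ℝ)⁻¹ ≤ 1 := inv_le_one_of_one_le₀ hy
    have hm : Ins G ρ E0 C (t ^ i • A) (H (s0 + (y : ℝ)⁻¹ * (s - s0), 1)) := by
      refine hp_ins h (zW h hA i) hH (p := (s0, 0)) (q := (s, y)) (l := (y : ℝ)⁻¹)
        (by positivity) hl1 rfl ?_ hs0 hi
      show ((1 : NNReal) : ℝ) = ((0 : NNReal) : ℝ) + (y : ℝ)⁻¹ * ((y : ℝ) - ((0 : NNReal) : ℝ))
      rw [NNReal.coe_one, NNReal.coe_zero, zero_add, sub_zero, inv_mul_cancel₀ hy1.ne']
    have h2 := hR i _ hm.1 (h.low hH (by rw [NNReal.coe_one]) hm)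
    have h3 : |(y : ℝ)⁻¹ * (s - s0)| ≤ 2 * R := by
      have e : (y : ℝ)⁻¹ * (s - s0) = (s0 + (y : ℝ)⁻¹ * (s - s0) - i * τ) - (s0 - i * τ) := by
        ring
      rw [e]
      exact (abs_sub _ _).trans (by linarith)
    have h4 : |s - s0| ≤ 2 * R * y := by
      rw [abs_mul, abs_of_pos (inv_pos.2 hy1)] at h3
      have h5 := mul_le_mul_of_nonneg_left h3 hy0
      rw [← mul_assoc, mul_inv_cancel₀ hy1.ne', one_mul] at h5
      linarith
    have e : s - i * τ = (s - s0) + (s0 - i * τ) := by ring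
    rw [e]
    refine (abs_add_le _ _).trans ?_
    linarith

/-- the first point of a horizontal line near a translate -/
lemma Dat.hor_min (h : Dat G W (c 0) D0 v0 ρ E0 C) (hA : A ∈ W) (ht : t • A ⊂ A)
    (h0 : v0 ∈ A) (h1 : v0 ∉ t • A) (hτ : 0 < τ) (hc : Axis t τ c) (hH : H ∈ HP c) (i : ℤ)
    (y : NNReal) : ∃ a, Ins G ρ E0 C (t ^ i • A) (H (a, y)) ∧
      ∀ s, Ins G ρ E0 C (t ^ i • A) (H (s, y)) → a ≤ s := by
  obtain ⟨R, hR0, hR⟩ := h.hor_bd hA ht h0 h1 hτ hc hH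
  set S : Set ℝ := {s | Ins G ρ E0 C (t ^ i • A) (H (s, y))} with hS
  obtain ⟨s0, hs0⟩ := h.hor_ex hA ht h0 h1 hτ hc hH i y
  have hcl : IsClosed S := by
    have e : S = {s | ρ (t ^ i • A) (H (s, y)) ≤ C} := by
      ext s
      exact ⟨fun hs => hs.2, fun hs => ⟨hs0.1, hs⟩⟩
    rw [e]
    exact isClosed_le ((h.cont _).comp (hp_cont hH y)) continuous_const
  have hbd : BddBelow S := by
    refine ⟨i * τ - R * (1 + y), fun s hs => ?_⟩
    have := hR i s y hs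
    rw [abs_le] at this
    linarith
  have hne : S.Nonempty := ⟨s0, hs0⟩
  exact ⟨sInf S, hcl.csInf_mem hne hbd, fun s hs => csInf_le hbd hs⟩

/-- the maximum of the first terms -/
noncomputable def pmax (a : ℕ → ℝ) : ℕ → ℝ
  | 0 => a 0
  | n + 1 => max (pmax a n) (a (n + 1))

lemma pmax_mono (a : ℕ → ℝ) : Monotone (pmax a) :=
  monotone_nat_of_le_succ fun _ => le_max_left _ _

lemma le_pmax (a : ℕ → ℝ) : ∀ n, a n ≤ pmax a n
  | 0 => le_rfl
  | _ + 1 => le_max_right _ _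

lemma pmax_eq (a : ℕ → ℝ) : ∀ n, ∃ j ≤ n, pmax a n = a j
  | 0 => ⟨0, le_rfl, rfl⟩
  | n + 1 => by
    obtain ⟨j, hj, he⟩ := pmax_eq a n
    rcases le_total (pmax a n) (a (n + 1)) with h | h
    · exact ⟨n + 1, le_rfl, max_eq_right h⟩
    · exact ⟨j, by omega, (max_eq_left h).trans he⟩

lemma Dat.pmax_ins (h : Dat G W (c 0) D0 v0 ρ E0 C) (hA : A ∈ W) (ht : t • A ⊂ A)
    (h0 : v0 ∈ A) (h1 : v0 ∉ t • A) (hτ : 0 < τ) (hc : Axis t τ c) (hH : H ∈ HP c)
    (y : NNReal) {a : ℕ → ℝ} (ha : ∀ n : ℕ, Ins G ρ E0 C (t ^ (n : ℤ) • A) (H (a n, y)))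
    (hmin : ∀ (n : ℕ) (s : ℝ), Ins G ρ E0 C (t ^ (n : ℤ) • A) (H (s, y)) → a n ≤ s) (n : ℕ) :
    Ins G ρ E0 C (t ^ (n : ℤ) • A) (H (pmax a n, y)) := by
  obtain ⟨j, hj, he⟩ := pmax_eq a n
  by_contra hno
  have hle := le_pmax a n
  have r1 : Sd G (c 0) D0 v0 (t ^ (n : ℤ) • A) (H (pmax a n, y)) := by
    refine h.right_side hA ht h0 h1 hτ hc hH n _ y fun s' hs' hi => hno ?_
    rcases eq_or_lt_of_le (hle.trans hs') with h2 | h2
    · have : pmax a n = s' := le_antisymm hs' (by rw [← h2]; exact hle)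
      rw [this]; exact hi
    · refine hp_ins h (zW h hA n) hH (p := (a n, y)) (q := (s', y))
        (l := (pmax a n - a n) / (s' - a n)) (div_nonneg (by linarith) (by linarith))
        ((div_le_one (by linarith)).2 (by linarith)) ?_ ?_ (ha n) hi
      · show pmax a n = a n + (pmax a n - a n) / (s' - a n) * (s' - a n)
        rw [div_mul_cancel₀ _ (by linarith)]
        ring
      · show (y : ℝ) = y + (pmax a n - a n) / (s' - a n) * ((y : ℝ) - y)
        ring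
  have r2 : Sd G (c 0) D0 v0 (t ^ (j : ℤ) • A) (H (a j, y)) := by
    rw [← he]
    obtain ⟨g, hg1, hg2⟩ := r1
    exact ⟨g, hg1, zmono ht (by exact_mod_cast hj) hg2⟩
  have hl : ∀ s' ≤ a j - 1, ¬ Ins G ρ E0 C (t ^ (j : ℤ) • A) (H (s', y)) := by
    intro s' hs' hi
    have := hmin j s' hi
    linarith
  have r3 := h.left_side hA ht h0 h1 hτ hc hH j (a j - 1) y hl
  exact h.one_side (zW h hA j) (by rw [hp_hor hH]; simp) r3 r2 (Or.inl (hl _ le_rfl))

/-- a short block -/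
lemma exists_block {M : ℕ → ℝ} {k q : ℕ} {D : ℝ} (hq : 0 < q)
    (hM : M (k * q) - M 0 ≤ q * D) : ∃ j < q, M (k * (j + 1)) - M (k * j) ≤ D := by
  by_contra hno
  push Not at hno
  have key : ∀ n : ℕ, 0 < n → n ≤ q → n * D < M (k * n) - M 0 := by
    intro n
    induction n with
    | zero => intro h; omega
    | succ n ih =>
      intro _ hn
      have h1 := hno n (by omega)
      rcases Nat.eq_zero_or_pos n with h0 | h0
      · subst h0
        simpa using h1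
      · have h2 := ih h0 (by omega)
        push_cast
        linarith
  exact absurd hM (not_le.2 (key q hq le_rfl))

/-- the common stabiliser of the consecutive translates is infinite -/
theorem Dat.inf_chain (h : Dat G W (c 0) D0 v0 ρ E0 C) (hA : A ∈ W) (ht : t • A ⊂ A)
    (h0 : v0 ∈ A) (h1 : v0 ∉ t • A) (hτ : 0 < τ) (hc : Axis t τ c) (hH : H ∈ HP c) (k : ℕ) :
    ((⨅ l : Fin (k + 1), MulAction.stabilizer G (t ^ (l : ℕ) • A) : Subgroup G) :
      Set G).Infinite := by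
  classical
  have := h.geo.isom
  obtain ⟨R, hR0, hR⟩ := h.hor_bd hA ht h0 h1 hτ hc hH
  set D : ℝ := k * τ + 4 * R with hD
  have hD0 : 0 ≤ D := by positivity
  -- the points
  have hpt : ∀ q : ℕ, ∃ x : X, (q : ℝ) + 1 ≤ dist x (c 0) ∧ ∀ l : ℕ, l ≤ k →
      (∃ g : G, g • (t ^ l • A) ∈ E0) ∧ ρ (t ^ l • A) x ≤ C + D := by
    intro q
    set y : NNReal := ((q + 1 : ℕ) : NNReal) with hy
    have hyc : (y : ℝ) = q + 1 := by rw [hy]; push_cast; ring
    choose a ha hmin using fun n : ℕ => h.hor_min hA ht h0 h1 hτ hc hH n y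
    have hins := h.pmax_ins hA ht h0 h1 hτ hc hH y ha hmin
    have hM : pmax a (k * (q + 1)) - pmax a 0 ≤ ((q + 1 : ℕ) : ℝ) * D := by
      obtain ⟨j, hj, he⟩ := pmax_eq a (k * (q + 1))
      have e1 := hR j _ y (ha j)
      have e2 := hR (0 : ℕ) _ y (ha 0)
      rw [abs_le] at e1 e2
      rw [he]
      have e3 : pmax a 0 = a 0 := rfl
      rw [e3]
      have e4 : (j : ℝ) ≤ k * (q + 1) := by exact_mod_cast hj
      have e5 := mul_le_mul_of_nonneg_right e4 hτ.le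
      push_cast at e1 e2 ⊢
      rw [hyc] at e1 e2
      have e6 : (0 : ℝ) ≤ q := Nat.cast_nonneg q
      have e7 : R * (1 + (q + 1)) ≤ 2 * R * (q + 1) := by nlinarith
      rw [hD]
      nlinarith [e1.2, e2.1]
    obtain ⟨j, hj, hjD⟩ := exists_block (Nat.succ_pos q) hM
    refine ⟨(t ^ (k * j))⁻¹ • H (pmax a (k * j), y), ?_, fun l hl => ?_⟩
    · have e1 : c 0 = (t ^ (k * j))⁻¹ • c (((k * j : ℕ) : ℝ) * τ) := by
        rw [eq_inv_smul_iff, ← zpow_natCast, axis_zpow hc, zero_add]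
        push_cast; rfl
      conv_rhs => rw [e1, dist_smul, ← hH.2]
      have e2 : dist (H (pmax a (k * j), y)) (H (((k * j : ℕ) : ℝ) * τ, 0)) ^ 2 =
          (pmax a (k * j) - ((k * j : ℕ) : ℝ) * τ) ^ 2 + ((q : ℝ) + 1) ^ 2 := by
        rw [hH.1, hyc, NNReal.coe_zero, sub_zero]
      refine abs_le_of_sq_le_sq' ?_ dist_nonneg |>.2
      rw [e2]
      nlinarith [sq_nonneg (pmax a (k * j) - ((k * j : ℕ) : ℝ) * τ)]
    · have e1 : t ^ l • A = (t ^ (k * j))⁻¹ • (t ^ ((k * j + l : ℕ) : ℤ) • A) := by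
        rw [eq_inv_smul_iff, smul_smul, ← pow_add, zpow_natCast]
      have hI := hins (k * j + l)
      have hWl : t ^ ((k * j + l : ℕ) : ℤ) • A ∈ W := zW h hA _
      rw [e1]
      refine ⟨?_, ?_⟩
      · obtain ⟨g, hg⟩ := hI.1
        exact ⟨g * t ^ (k * j), by rw [mul_smul, smul_inv_smul]; exact hg⟩
      · rw [h.rho.inv _ hWl]
        have h2 := h.rho.lip (t ^ ((k * j + l : ℕ) : ℤ) • A) (H (pmax a (k * j), y))
          (H (pmax a (k * j + l), y))
        rw [hp_hor hH] at h2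
        have h3 := pmax_mono a (show k * j ≤ k * j + l by omega)
        have h4 := pmax_mono a (show k * j + l ≤ k * (j + 1) by rw [Nat.mul_succ]; omega)
        rw [abs_of_nonpos (by linarith)] at h2
        linarith [hI.2]
  choose x hx1 hx2 using hpt
  choose δ hδ using fun q : ℕ => h.cov (x q)
  set F : Set (Set V) := {B : Set V | (∃ g : G, g • B ∈ E0) ∧ ρ B (c 0) ≤ C + D + D0} with hF
  have hFf : F.Finite := h.loc_fin _
  refine FL.inf_stab (β := Fin (k + 1) → Set V) (Y := Set.univ.pi fun _ => F)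
    (Set.Finite.pi fun _ => hFf) δ (fun g l => g⁻¹ • (t ^ (l : ℕ) • A)) ?_ ?_ ?_
  · intro q l _
    obtain ⟨e1, e2⟩ := hx2 q l (Nat.lt_succ_iff.1 l.2)
    exact h.type (hδ q) e1 e2
  · intro g g' he
    rw [Subgroup.mem_iInf]
    intro l
    have e1 : g⁻¹ • (t ^ (l : ℕ) • A) = g'⁻¹ • (t ^ (l : ℕ) • A) := congrFun he l
    rw [MulAction.mem_stabilizer_iff, mul_smul, ← e1, smul_inv_smul]
  · intro g
    obtain ⟨N, hN⟩ := exists_nat_gt (D0 + dist (g • c 0) (c 0))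
    refine (Set.finite_Iio N).subset ?_
    intro q hq
    rw [Set.mem_ofPred_eq] at hq
    rw [Set.mem_Iio]
    have e1 := hx1 q
    have e2 := hδ q
    rw [hq] at e2
    have e3 := dist_triangle (x q) (g • c 0) (c 0)
    have e4 : (q : ℝ) < N := by linarith
    exact_mod_cast e4

end Pool.Agent.V7H57.WL
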