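import Pool.Agent.V7H57.WL.Pair
import Pool.Agent.T6.H46.RC.Fin

/-!
# Splitting with a subgroup of finite index
-/

set_option autoImplicit false

open Metric Set Filter Topology
open Pool.Agent.TH60.FP Pool.Agent.TH60.FP.Strip Pool.Agent.Y34.HB Pool.Agent.Y34.EL
open Pool.Agent.T6.H46.RR Pool.Agent.T6.H67.TA Pool.Agent.T6.H46.RC Pool.Agent.V7H57.RK
open scoped Pointwise

namespace Pool.Agent.V7H57.WL

variable {G : Type} [Group G] {X : Type} [MetricSpace X] [MulAction G X]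

/-- subgroups of finite index act geometrically -/
lemma geo_fi (hG : Geo X G) {G' : Subgroup G} (hfi : G'.index ≠ 0) : Geo X G' := by
  have := hG.proper
  have := hG.isom
  have := hG.disc
  refine ⟨hG.proper, ⟨fun g x y => edist_smul_left (g : G) x y⟩, ⟨?_⟩, ?_, hG.cn⟩
  · intro K L hK hL
    have h1 := ProperlyDiscontinuousSMul.finite_disjoint_inter_image (Γ := G) hK hL
    refine Set.Finite.of_finite_image (f := ((↑) : G' → G)) (h1.subset ?_)
      Subtype.val_injective.injOn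
    rintro _ ⟨g, hg, rfl⟩
    exact hg
  · obtain ⟨C, hC, hcov⟩ := hG.cc
    obtain ⟨F, hF, hrep⟩ := exists_reps (L := (⊤ : Subgroup G)) (M := G')
      (by rw [Subgroup.relIndex_top_right]; exact hfi)
    refine ⟨⋃ r ∈ F, (fun x => r • x) '' C, hF.isCompact_biUnion fun r _ =>
      hC.image (continuous_const_smul r), fun x => ?_⟩
    obtain ⟨g, hg⟩ := hcov x
    obtain ⟨r, hr, hgr⟩ := hrep g⁻¹ trivial
    have h2 : r * g ∈ G' := by
      have := G'.inv_mem hgr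
      simpa using this
    refine ⟨⟨r * g, h2⟩, mem_biUnion hr ⟨g • x, hg, ?_⟩⟩
    show r • g • x = (r * g) • x
    rw [mul_smul]

/-- **Splitting.** -/
theorem split_of_fi (hG : Geo X G) (hGC : GC X) {G' : Subgroup G} (hfi : G'.index ≠ 0)
    {L : Subgroup G} (hL : L ≤ G') {B : Set X} (hB : CC L B) (hbd : ∀ g ∈ G', Bd B g) :
    ∃ B₀ : Set X, B₀ ⊆ B ∧ CC L B₀ ∧ ((∀ x, x ∈ B₀) ∨
      ∃ (Z : Type) (_ : MetricSpace Z) (_ : Nontrivial Z) (e : X ≃ Z × B₀),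
      ∀ x x' : X, dist x x' ^ 2 = dist (e x).1 (e x').1 ^ 2 + dist (e x).2 (e x').2 ^ 2) := by
  have hG' := geo_fi hG hfi
  have hB' : CC (L.subgroupOf G') B := by
    refine ⟨hB.ne, hB.closed, hB.conv, ?_, ?_⟩
    · intro g hg x hx
      exact hB.inv _ (Subgroup.mem_subgroupOf.1 hg) x hx
    · obtain ⟨C, hC, hcov⟩ := hB.cc
      refine ⟨C, hC, fun x hx => ?_⟩
      obtain ⟨g, hg, hgx⟩ := hcov x hx
      exact ⟨⟨g, hL hg⟩, Subgroup.mem_subgroupOf.2 hg, hgx⟩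
  obtain ⟨B₀, hsub, h₀, h⟩ := split_of_bd hG' hGC hB' (fun g => hbd g g.2)
  refine ⟨B₀, hsub, ⟨h₀.ne, h₀.closed, h₀.conv, ?_, ?_⟩, h⟩
  · intro g hg x hx
    exact h₀.inv ⟨g, hL hg⟩ (Subgroup.mem_subgroupOf.2 hg) x hx
  · obtain ⟨C, hC, hcov⟩ := h₀.cc
    refine ⟨C, hC, fun x hx => ?_⟩
    obtain ⟨g, hg, hgx⟩ := hcov x hx
    exact ⟨g, Subgroup.mem_subgroupOf.1 hg, hgx⟩

end Pool.Agent.V7H57.WL
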