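import Pool.Agent.V7H57.WL.Rko
import Pool.Agent.T6.H46.RC.Par4

/-!
# Convex cocompact subgroups have no proper self-commensurations

If `g⁻¹ B` is in a neighbourhood of `B` then `B` is in a neighbourhood of `g⁻¹ B`.
-/

set_option autoImplicit false

open Metric Set Filter Topology
open Pool.Agent.TH60.FP Pool.Agent.TH60.FP.Strip Pool.Agent.Y34.HB Pool.Agent.Y34.EL
open Pool.Agent.T6.H46.RR Pool.Agent.T6.H46.RC

namespace Pool.Agent.V7H57.WL

section embed

variable {Y : Type} [MetricSpace Y] [ProperSpace Y] {K : Type} [Group K] [MulAction K Y]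
  [IsIsometricSMul K Y]

/-- an isometric self-embedding of a cocompact geodesic space, whose image is cocompact under the
isometries which preserve it, is surjective -/
theorem self_embed (hY : CN Y) {τ : Y → Y} (hτ : Isometry τ) {o : Y} {D : ℝ}
    (hD : ∀ x : Y, ∃ k : K, dist x (k • o) ≤ D) {R₁ : ℝ}
    (hR₁ : ∀ x y : Y, ∃ a s : K, dist (a • y) x ≤ R₁ ∧ ∀ z : Y, τ (a • z) = s • τ z) :
    Function.Surjective τ := by
  classical
  set R : ℝ := 1 + R₁ with hR
  -- near the image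
  have hnear : ∀ y z : Y, dist z (τ y) ≤ 1 → ∀ ε : ℝ, 0 < ε → ∃ b, dist z (τ b) < ε := by
    intro y₀ z₀ hz₀ ε hε
    let P : ℕ → Prop := fun n => ∃ (x : Y) (S : Finset Y), (∀ u ∈ S, dist u x ≤ R) ∧
      (∀ u ∈ S, ∀ v ∈ S, u ≠ v → ε ≤ dist u v) ∧ S.card = n
    have hP0 : P 0 := ⟨o, ∅, by simp, by simp, rfl⟩
    obtain ⟨N, hN⟩ : ∃ N : ℕ, ∀ n, P n → n ≤ N := by
      obtain ⟨T, -, hT, hcov⟩ := (isCompact_closedBall o (R + D)).finite_cover_balls
        (e := ε / 2) (by positivity)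
      refine ⟨hT.toFinset.card, ?_⟩
      rintro n ⟨x, S, h1, h2, rfl⟩
      obtain ⟨k, hk⟩ := hD x
      have h3 : ∀ u ∈ S, ∃ w ∈ T, dist (k⁻¹ • u) w < ε / 2 := by
        intro u hu
        have h4 : k⁻¹ • u ∈ closedBall o (R + D) := by
          rw [mem_closedBall, ← dist_smul k, smul_inv_smul]
          have := dist_triangle u x (k • o)
          have := h1 u hu
          linarith
        have h5 := hcov h4
        simp only [mem_iUnion, mem_ball, exists_prop] at h5
        exact h5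
      have h3' : ∀ u : Y, ∃ w : Y, u ∈ S → w ∈ T ∧ dist (k⁻¹ • u) w < ε / 2 := by
        intro u
        by_cases hu : u ∈ S
        · obtain ⟨w, hw, hw'⟩ := h3 u hu
          exact ⟨w, fun _ => ⟨hw, hw'⟩⟩
        · exact ⟨u, fun h => absurd h hu⟩
      choose f hf using h3'
      refine Finset.card_le_card_of_injOn f (fun u hu => by
        rw [Finset.mem_coe, Set.Finite.mem_toFinset]
        exact (hf u hu).1) ?_
      intro u hu v hv huv
      by_contra hne
      have h6 := h2 u hu v hv hne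
      have h7 := (hf u hu).2
      have h8 := (hf v hv).2
      have huv' : f u = f v := huv
      rw [huv'] at h7
      have h9 := dist_triangle_right (k⁻¹ • u) (k⁻¹ • v) (f v)
      rw [dist_smul] at h9
      linarith
    obtain ⟨n, ⟨x, S, h1, h2, h3⟩, hmax⟩ : ∃ n, P n ∧ ∀ m, P m → m ≤ n :=
      ⟨Nat.findGreatest P N, Nat.findGreatest_spec (Nat.zero_le N) hP0, fun m hm =>
        Nat.le_findGreatest (hN m hm) hm⟩
    have hfull : ∀ z : Y, dist z (τ x) ≤ R → ∃ u ∈ S, dist z (τ u) < ε := by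
      intro z hz
      by_contra hc
      push Not at hc
      have h4 : P (n + 1) := by
        refine ⟨τ x, insert z (S.image τ), ?_, ?_, ?_⟩
        · intro u hu
          rcases Finset.mem_insert.1 hu with rfl | hu
          · exact hz
          · obtain ⟨v, hv, rfl⟩ := Finset.mem_image.1 hu
            rw [hτ.dist_eq]
            exact h1 v hv
        · intro u hu v hv huv
          rcases Finset.mem_insert.1 hu with rfl | hu
          · rcases Finset.mem_insert.1 hv with rfl | hv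
            · exact absurd rfl huv
            · obtain ⟨v', hv', rfl⟩ := Finset.mem_image.1 hv
              exact hc v' hv'
          · obtain ⟨u', hu', rfl⟩ := Finset.mem_image.1 hu
            rcases Finset.mem_insert.1 hv with rfl | hv
            · rw [dist_comm]
              exact hc u' hu'
            · obtain ⟨v', hv', rfl⟩ := Finset.mem_image.1 hv
              rw [hτ.dist_eq]
              exact h2 u' hu' v' hv' fun h => huv (by rw [h])
        · rw [Finset.card_insert_of_notMem, Finset.card_image_of_injective _ hτ.injective, h3]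
          intro hz'
          obtain ⟨v, hv, hvz⟩ := Finset.mem_image.1 hz'
          have := hc v hv
          rw [hvz, dist_self] at this
          linarith
      have := hmax _ h4
      omega
    obtain ⟨a, s, ha, hs⟩ := hR₁ x y₀
    obtain ⟨u, -, hu⟩ := hfull (s • z₀) (by
      have e1 := dist_triangle (s • z₀) (s • τ y₀) (τ x)
      rw [dist_smul, ← hs, hτ.dist_eq] at e1
      linarith)
    refine ⟨a⁻¹ • u, ?_⟩
    rw [← dist_smul s, ← hs, smul_inv_smul]
    exact hu
  have hmem : ∀ y z : Y, dist z (τ y) ≤ 1 → z ∈ range τ := by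
    intro y z hz
    have : Nonempty Y := ⟨o⟩
    have hcl : IsClosed (range τ) := hτ.isClosedEmbedding.isClosed_range
    rw [← hcl.closure_eq, Metric.mem_closure_iff]
    intro ε hε
    obtain ⟨b, hb⟩ := hnear y z hz ε hε
    exact ⟨τ b, mem_range_self b, hb⟩
  intro z
  have : Nonempty Y := ⟨o⟩
  have hcl : IsClosed (range τ) := hτ.isClosedEmbedding.isClosed_range
  obtain ⟨_, ⟨y, rfl⟩, hy⟩ := hcl.exists_infDist_eq_dist (range_nonempty τ) z
  by_cases h1 : dist z (τ y) ≤ 1
  · exact hmem y z h1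
  · exfalso
    push Not at h1
    obtain ⟨v, hv1, hv2⟩ := ex_on hY (o := τ y) (p := z) (t := 1) zero_le_one
      (by rw [dist_comm]; exact h1.le)
    have hv : v ∈ range τ := hmem y v (by rw [dist_comm, hv1])
    have h2 := infDist_le_dist_of_mem (x := z) hv
    rw [hy, dist_comm z v, hv2, dist_comm (τ y) z] at h2
    linarith

end embed

/-- **The one-sided sandwich lemma.** -/
theorem pair_one {X Y : Type} [MetricSpace X] [MetricSpace Y] (hX : CN X) [ProperSpace X]
    (hY : CN Y) [ProperSpace Y] {β γ : Y → X}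
    (hβ : Isometry β) (hγ : Isometry γ) {w : ℝ} (hw : ∀ y, infDist (β y) (range γ) = w) (o : Y) :
    ∃ τ : Y → Y, Isometry τ ∧ (∀ y, dist (β y) (γ (τ y)) = w) ∧
      ∀ y z, w ^ 2 + dist (τ y) z ^ 2 ≤ dist (β y) (γ z) ^ 2 := by
  have : Nonempty Y := ⟨o⟩
  have hclγ : IsClosed (range γ) := hγ.isClosedEmbedding.isClosed_range
  have h1 : ∀ y, ∃ u, dist (β y) (γ u) = w := by
    intro y
    obtain ⟨_, ⟨u, rfl⟩, hu⟩ := hclγ.exists_infDist_eq_dist (range_nonempty γ) (β y)
    exact ⟨u, by rw [← hu, hw]⟩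
  have hwl : ∀ y z, w ≤ dist (β y) (γ z) := by
    intro y z
    rw [← hw y]; exact infDist_le_dist_of_mem (mem_range_self z)
  choose τ hτ using h1
  have p1 : ∀ y z, w ^ 2 + dist (τ y) z ^ 2 ≤ dist (β y) (γ z) ^ 2 := by
    intro y z
    have := proj_sq hX hY hγ (p := β y) (u := τ y) (fun z => by rw [hτ]; exact hwl y z) z
    rwa [hτ] at this
  have p2 : ∀ y z, w ^ 2 + dist y z ^ 2 ≤ dist (γ (τ y)) (β z) ^ 2 := by
    intro y z
    have h2 : dist (γ (τ y)) (β y) = w := by rw [dist_comm, hτ]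
    have := proj_sq hX hY hβ (p := γ (τ y)) (u := y)
      (fun z => by rw [h2, dist_comm]; exact hwl z _) z
    rwa [h2] at this
  refine ⟨τ, Isometry.of_dist_eq fun x y => ?_, hτ, p1⟩
  have h3 : dist (β x) (γ (τ y)) ^ 2 + dist (β y) (γ (τ x)) ^ 2 ≤
      dist x y ^ 2 + dist (τ x) (τ y) ^ 2 + 2 * w ^ 2 := by
    have := four hX (β x) (β y) (γ (τ y)) (γ (τ x))
    rw [hβ.dist_eq, hτ, hγ.dist_eq, dist_comm (γ (τ x)) (β x), hτ, dist_comm (τ y)] at this
    linarith
  have h4 := p1 x (τ y)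
  have h5 := p1 y (τ x)
  have h6 := p2 x y
  have h7 := p2 y x
  rw [dist_comm (γ _)] at h6 h7
  rw [dist_comm (τ y)] at h5
  rw [dist_comm y x] at h7
  have h8 : dist (τ x) (τ y) ^ 2 = dist x y ^ 2 := by
    apply le_antisymm <;> linarith
  exact (pow_left_inj₀ dist_nonneg dist_nonneg two_ne_zero).1 h8

variable {G : Type} [Group G] {X : Type} [MetricSpace X] [MulAction G X]

/-- the minimal case -/
lemma two_min (hG : Geo X G) {K : Subgroup G} {B : Set X} (hB : CC K B)
    (hM : @Mn K _ B _ (bact hB)) {g : G} (hg : Bd B g) : Bd B g⁻¹ := by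
  have := hG.isom
  have := hG.proper
  let _ := bact hB
  have hGB := geo_sub hG hB
  have := hGB.proper
  have := hGB.isom
  have hY := hGB.cn
  have hX := hG.cn
  have hγ : Isometry (Subtype.val : B → X) := isometry_subtype_coe
  have hβ : Isometry (fun y : B => g⁻¹ • (y : X)) := (isometry_smul X g⁻¹).comp hγ
  have hrγ : range (Subtype.val : B → X) = B := Subtype.range_coe
  obtain ⟨o', ho'⟩ := hB.ne
  set o : B := ⟨o', ho'⟩ with ho
  obtain ⟨τ, hτ, hτw, hp⟩ := pair_one hX hY hβ hγ (w := infDist (g⁻¹ • (o : X))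
      (range (Subtype.val : B → X)))
    (fun x => by
      refine hM.const' hY (f := fun y : B => infDist (g⁻¹ • (y : X)) (range (Subtype.val : B → X)))
        (index_IK hG hB hg)
        ((continuous_infDist_pt _).comp hβ.continuous) (cvx_infDist hX hY hβ hγ)
        (fun _ => infDist_nonneg) ?_ x o
      intro a ha z
      show infDist (g⁻¹ • (a : G) • (z : X)) (range (Subtype.val : B → X)) =
        infDist (g⁻¹ • (z : X)) (range (Subtype.val : B → X))
      rw [hrγ]
      exact ph_inv hB (mem_IK.1 ha) _) o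
  set w := infDist (g⁻¹ • (o : X)) (range (Subtype.val : B → X)) with hw
  -- equivariance
  have heq : ∀ (a : K) (ha : a ∈ IK K g) (y : B),
      τ (a • y) = (⟨g⁻¹ * a * g, mem_IK.1 ha⟩ : K) • τ y := by
    intro a ha y
    have h1 := hp (a • y) ((⟨g⁻¹ * a * g, mem_IK.1 ha⟩ : K) • τ y)
    have e1 : dist (g⁻¹ • ((a • y : B) : X))
        (((⟨g⁻¹ * a * g, mem_IK.1 ha⟩ : K) • τ y : B) : X) = w := by
      have e2 : (((⟨g⁻¹ * a * g, mem_IK.1 ha⟩ : K) • τ y : B) : X) =
          (g⁻¹ * (a : G) * g) • (τ y : X) := rfl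
      have e3 : g⁻¹ • ((a • y : B) : X) = (g⁻¹ * (a : G) * g) • g⁻¹ • (y : X) := by
        show g⁻¹ • (a : G) • (y : X) = _
        rw [smul_smul, smul_smul]; congr 1; group
      rw [e2, e3, dist_smul]
      exact hτw y
    have e4 : dist (g⁻¹ • ((a • y : B) : X))
        (((⟨g⁻¹ * a * g, mem_IK.1 ha⟩ : K) • τ y : B) : X) ^ 2 = w ^ 2 := by rw [e1]
    have h2 : w ^ 2 + dist (τ (a • y)) ((⟨g⁻¹ * a * g, mem_IK.1 ha⟩ : K) • τ y) ^ 2 ≤ w ^ 2 := by
      rw [← e4]
      rw [← e4] at h1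
      exact h1
    have h3 : dist (τ (a • y)) ((⟨g⁻¹ * a * g, mem_IK.1 ha⟩ : K) • τ y) ^ 2 = 0 :=
      le_antisymm (by linarith) (sq_nonneg _)
    exact dist_eq_zero.1 (pow_eq_zero_iff two_ne_zero |>.1 h3)
  obtain ⟨D, -, hD⟩ := cc_near hG hB ho'
  obtain ⟨r, hr⟩ := hg
  obtain ⟨R₁, hR₁⟩ := coarse hG hB ho' g r
  have hsurj : Function.Surjective τ := by
    refine self_embed (K := K) hY hτ (o := o) (D := D) ?_ (R₁ := R₁ + R₁) ?_
    · intro x
      obtain ⟨k, hk, hk'⟩ := hD x x.2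
      exact ⟨⟨k, hk⟩, hk'⟩
    · intro x y
      obtain ⟨a, ha, ha'⟩ := hR₁ x x.2 (hr x x.2)
      obtain ⟨b, hb, hb'⟩ := hR₁ y y.2 (hr y y.2)
      have hab : a * b⁻¹ ∈ IK K g := (IK K g).mul_mem ha ((IK K g).inv_mem hb)
      refine ⟨a * b⁻¹, _, ?_, fun z => heq _ hab z⟩
      have e1 := dist_triangle ((a * b⁻¹) • y) (a • o) x
      have e2 : dist ((a * b⁻¹) • y) (a • o) = dist y (b • o) := by
        rw [mul_smul, dist_smul, ← dist_smul b (b⁻¹ • y), smul_inv_smul]
      have e3 : dist (a • o) x ≤ R₁ := by rw [dist_comm]; exact ha'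
      have e4 : dist y (b • o) ≤ R₁ := hb'
      linarith
  refine ⟨w, fun x hx => ?_⟩
  obtain ⟨y, hy⟩ := hsurj ⟨x, hx⟩
  have h1 := hτw y
  rw [hy] at h1
  have h1' : dist (g⁻¹ • (y : X)) x = w := h1
  show infDist (g⁻¹⁻¹ • x) B ≤ w
  rw [inv_inv, ← h1', dist_comm, ← dist_smul g, smul_inv_smul]
  exact infDist_le_dist_of_mem y.2

/-- **Two-sidedness.**  If a convex cocompact `B` is near `g B` then it is near `g⁻¹ B`. -/
theorem bd_two (hG : Geo X G) {K : Subgroup G} {B : Set X} (hB : CC K B) {g : G}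
    (hg : Bd B g) : Bd B g⁻¹ := by
  have := hG.isom
  have := hG.proper
  obtain ⟨B₀, hsub, h₀, hM⟩ := exists_minimal hB
  obtain ⟨r, hr⟩ := two_min hG h₀ hM (hg.restrict hG hB h₀ hsub)
  obtain ⟨o, ho⟩ := h₀.ne
  obtain ⟨D, hD0, hD⟩ := cc_near hG hB (hsub ho)
  refine ⟨r + D, fun x hx => ?_⟩
  obtain ⟨k, hk, hkx⟩ := hD x hx
  have h1 := ph_lip B g⁻¹ x (k • o)
  rw [abs_le] at h1
  have h2 : ph B g⁻¹ (k • o) ≤ ph B₀ g⁻¹ (k • o) :=
    infDist_le_infDist_of_subset hsub h₀.ne
  have h3 := hr (k • o) (h₀.inv k hk o ho)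
  linarith

end Pool.Agent.V7H57.WL
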