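import Pool.Agent.V7H57.WL.Split
import Pool.Agent.V7H57.WL.Free

/-!
# Pairs of half-spaces with boundedly many pairwise transverse translates
-/

set_option autoImplicit false

open Metric Set Filter Topology
open Pool.Agent.TH60.FP Pool.Agent.TH60.FP.Strip Pool.Agent.Y34.HB Pool.Agent.Y34.EL
open Pool.Agent.T6.H46.RR Pool.Agent.T6.H67.TA Pool.Agent.T6.H46.RC Pool.Agent.V7H57.RK
open scoped Pointwise

namespace Pool.Agent.V7H57.WL

variable {G : Type} [Group G] {V : Type} [MulAction G V]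

/-- the translates of `A` and `B` -/
def Wp (G : Type) [Group G] {V : Type} [MulAction G V] (A B : Set V) : Set (Set V) :=
  {C | ∃ g : G, C = g • A ∨ C = g • B}

/-- the translates of `A` and `B` and their complements -/
def Wm (G : Type) [Group G] {V : Type} [MulAction G V] (A B : Set V) : Set (Set V) :=
  {C | C ∈ Wp G A B ∨ Cᶜ ∈ Wp G A B}

variable {A B : Set V} {t₀ : G}

lemma ne_of_shift (ht : t₀ • A ⊂ A) : A.Nonempty ∧ Aᶜ.Nonempty := by
  constructor
  · obtain ⟨v, hv, -⟩ := Set.exists_of_ssubset ht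
    exact ⟨v, hv⟩
  · rw [Set.nonempty_compl]
    rintro rfl
    rw [Set.smul_set_univ] at ht
    exact ssubset_irrefl _ ht

lemma smul_ssub {B C : Set V} (g : G) (h : B ⊂ C) : g • B ⊂ g • C := by
  refine ⟨Set.smul_set_mono h.subset, fun h1 => h.2 ?_⟩
  have h2 := Set.smul_set_mono (a := g⁻¹) h1
  rwa [inv_smul_smul, inv_smul_smul] at h2

lemma Wp_act : ∀ C ∈ Wp G A B, ∀ g : G, g • C ∈ Wp G A B := by
  rintro C ⟨g, rfl | rfl⟩ k
  · exact ⟨k * g, Or.inl (by rw [mul_smul])⟩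
  · exact ⟨k * g, Or.inr (by rw [mul_smul])⟩

lemma cls_Wp (hfin : ∀ u v : V, {C : Set V | C ∈ Wp G A B ∧ u ∈ C ∧ v ∉ C}.Finite)
    (h1 : A.Nonempty) (h2 : Aᶜ.Nonempty) (h3 : B.Nonempty) (h4 : Bᶜ.Nonempty) :
    Cls G (Wp G A B) := by
  refine ⟨Wp_act, hfin, ?_, ?_⟩
  · rintro C ⟨g, rfl | rfl⟩
    · exact h1.smul_set
    · exact h3.smul_set
  · rintro C ⟨g, rfl | rfl⟩
    · rw [← Set.smul_set_compl]; exact h2.smul_set
    · rw [← Set.smul_set_compl]; exact h4.smul_set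

lemma Wm_compl : ∀ C ∈ Wm G A B, Cᶜ ∈ Wm G A B := by
  rintro C (h | h)
  · right; rw [compl_compl]; exact h
  · exact Or.inl h

lemma Wp_sub : Wp G A B ⊆ Wm G A B := fun _ h => Or.inl h

lemma cls_Wm (hfin : ∀ u v : V, {C : Set V | C ∈ Wp G A B ∧ u ∈ C ∧ v ∉ C}.Finite)
    (h1 : A.Nonempty) (h2 : Aᶜ.Nonempty) (h3 : B.Nonempty) (h4 : Bᶜ.Nonempty) :
    Cls G (Wm G A B) := by
  have hD := cls_Wp hfin h1 h2 h3 h4
  refine ⟨?_, ?_, ?_, ?_⟩
  · rintro C (h | h) k
    · exact Or.inl (hD.act _ h k)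
    · right
      rw [← Set.smul_set_compl]
      exact hD.act _ h k
  · intro u v
    refine ((hfin u v).union ((hfin v u).image compl)).subset ?_
    rintro C ⟨h | h, hu, hv⟩
    · exact Or.inl ⟨h, hu, hv⟩
    · exact Or.inr ⟨Cᶜ, ⟨h, hv, fun hc => hc hu⟩, compl_compl _⟩
  · rintro C (h | h)
    · exact hD.ne _ h
    · have := hD.nu _ h
      rwa [compl_compl] at this
  · rintro C (h | h)
    · exact hD.nu _ h
    · exact hD.ne _ h

lemma fin_A (hfin : ∀ u v : V, {C : Set V | C ∈ Wp G A B ∧ u ∈ C ∧ v ∉ C}.Finite) (a : G)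
    (u v : V) : {C : Set V | (∃ g : G, C = g • a • A) ∧ u ∈ C ∧ v ∉ C}.Finite := by
  refine (hfin u v).subset ?_
  rintro C ⟨⟨g, rfl⟩, hu, hv⟩
  exact ⟨⟨g * a, Or.inl (by rw [mul_smul])⟩, hu, hv⟩

lemma not_tv {B C : Set V} (h : ¬ Tv B C) : B ∩ C = ∅ ∨ B ⊆ C ∨ C ⊆ B ∨ Bᶜ ⊆ C := by
  unfold Tv at h
  by_contra hc
  push Not at hc
  obtain ⟨h1, h2, h3, h4⟩ := hc
  apply h
  refine ⟨h1, ?_, ?_, ?_⟩
  · rw [Set.not_subset] at h2
    exact h2
  · rw [Set.not_subset] at h3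
    obtain ⟨x, hx1, hx2⟩ := h3
    exact ⟨x, hx2, hx1⟩
  · rw [Set.not_subset] at h4
    exact h4

/-- the translates of the pair by `g` and `g'` are transverse -/
def TT (A B : Set V) (g g' : G) : Prop :=
  Tv (g • A) (g' • A) ∧ Tv (g • A) (g' • B) ∧ Tv (g • B) (g' • A) ∧ Tv (g • B) (g' • B)

/-- the elements which commensurate the stabiliser of the pair -/
def CmS (G : Type) [Group G] {V : Type} [MulAction G V] (P Q : Set V) : Subgroup G where
  carrier := {g | Cm P Q g}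
  mul_mem' := fun h1 h2 => Cm.mul h1 h2
  one_mem' := Cm.one P Q
  inv_mem' := fun h => Cm.inv h

lemma CmS_fi {P Q : Set V} {d : ℕ} {R : G → G → Prop}
    (hd : ∀ S : Finset G, (∀ g ∈ S, ∀ g' ∈ S, g ≠ g' → R g g') → S.card ≤ d) (i : G → G)
    (hi : ∀ g, Cm P Q (g⁻¹ * i g)) (h : ∀ g g', ¬ Cm P Q (g'⁻¹ * g) → R (i g) (i g')) :
    (CmS G P Q).index ≠ 0 := by
  classical
  intro h0
  have := Subgroup.index_eq_zero_iff_infinite.1 h0
  obtain ⟨T, hT⟩ := Infinite.exists_subset_card_eq (G ⧸ CmS G P Q) (d + 1)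
  let f : G ⧸ CmS G P Q → G := fun q => i q.out
  have hf : ∀ q, (QuotientGroup.mk (f q) : G ⧸ CmS G P Q) = q := by
    intro q
    have h1 : (QuotientGroup.mk q.out : G ⧸ CmS G P Q) = QuotientGroup.mk (f q) :=
      QuotientGroup.eq.2 (hi q.out)
    rw [← h1, QuotientGroup.out_eq']
  have hinj : Function.Injective f := fun q q' he => by rw [← hf q, ← hf q', he]
  have h1 := hd (T.image f) (by
    intro g hg g' hg' hne
    obtain ⟨q, -, rfl⟩ := Finset.mem_image.1 hg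
    obtain ⟨q', -, rfl⟩ := Finset.mem_image.1 hg'
    refine h _ _ fun hc => hne ?_
    have h2 : (QuotientGroup.mk q'.out : G ⧸ CmS G P Q) = QuotientGroup.mk q.out :=
      QuotientGroup.eq.2 hc
    rw [QuotientGroup.out_eq', QuotientGroup.out_eq'] at h2
    rw [h2])
  rw [Finset.card_image_of_injective _ hinj, hT] at h1
  omega

lemma nest_ab {D : Set (Set V)} (hD : Cls G D) {P Q : Set V} (hP : P ∈ D) (hQ : Q ∈ D)
    (hQP : Q ⊆ P) (hst : Stb G D P Q) {t : G} (ht : t • P ⊆ Q) {C C' : Set V} (h1 : Q ⊆ C)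
    (h2 : C' ⊆ P) {g g' : G} (h : g • C ⊆ g' • C') : Cm P Q (g'⁻¹ * g) := by
  have ct := cm_below hD hP hQ hQP hst ht
  have h3 : Cm P Q (g'⁻¹ * g * t) := by
    refine cm_a hD hP hQ hQP hst ht (i := 0) ?_
    rw [zpow_zero, one_smul, mul_smul, mul_smul, Set.smul_set_subset_iff_subset_inv_smul_set,
      inv_inv]
    exact (Set.smul_set_mono (ht.trans h1)).trans (h.trans (Set.smul_set_mono h2))
  have e : g'⁻¹ * g = g'⁻¹ * g * t * t⁻¹ := by group
  rw [e]
  exact h3.mul ct.inv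

lemma nest_c {D : Set (Set V)} (hD : Cls G D) (hcl : ∀ B ∈ D, Bᶜ ∈ D) {P Q : Set V} (hP : P ∈ D)
    (hQ : Q ∈ D) (hQP : Q ⊆ P) (hst : Stb G D P Q) {t : G} (ht : t • P ⊆ Q) {C C' : Set V}
    (h1 : Q ⊆ C) (h2 : Q ⊆ C') {g g' : G} (h : g • C ∩ g' • C' = ∅) : Cm P Q (g'⁻¹ * g) := by
  have ct := cm_below hD hP hQ hQP hst ht
  have h3 : Cm P Q (g'⁻¹ * g * t) := by
    refine cm_c hD hcl hP hQ hQP hst ht (i := 1) ?_
    rw [zpow_one]
    intro v hv hv'
    have k1 : g' • v ∈ g' • C' := Set.smul_mem_smul_set (h2 (ht hv))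
    have k2 : g' • v ∈ g • C := by
      rw [mul_smul, mul_smul, Set.mem_inv_smul_set_iff] at hv'
      exact Set.smul_set_mono (ht.trans h1) hv'
    have : g' • v ∈ g • C ∩ g' • C' := ⟨k2, k1⟩
    rw [h] at this
    exact this
  have e : g'⁻¹ * g = g'⁻¹ * g * t * t⁻¹ := by group
  rw [e]
  exact h3.mul ct.inv

lemma nest_d {D : Set (Set V)} (hD : Cls G D) (hcl : ∀ B ∈ D, Bᶜ ∈ D) {P Q : Set V} (hP : P ∈ D)
    (hQ : Q ∈ D) (hQP : Q ⊆ P) (hst : Stb G D P Q) {t : G} (ht : t • P ⊆ Q) {C C' : Set V}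
    (h1 : C ⊆ P) (h2 : C' ⊆ P) {g g' : G} (h : (g • C)ᶜ ⊆ g' • C') : Cm P Q (g'⁻¹ * g) := by
  refine cm_d hD hcl hP hQ hQP hst ht (i := 0) ?_
  rw [zpow_zero, one_smul]
  intro v hv
  have k1 : g' • v ∈ (g • C)ᶜ := by
    intro hc
    apply hv
    rw [mul_smul, Set.mem_inv_smul_set_iff]
    exact Set.smul_set_mono h1 hc
  exact h2 (Set.smul_mem_smul_set_iff.1 (h k1))

/-- there are both disjoint and covering translates -/
def Flips (G : Type) [Group G] {V : Type} [MulAction G V] (A : Set V) : Prop :=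
  (∃ x : G, x • A ∩ A = ∅) ∧ ∃ y : G, (y • A)ᶜ ⊆ A

/-- there is a stable pair -/
def HasStb (G : Type) [Group G] {V : Type} [MulAction G V] (A B : Set V) : Prop :=
  ∃ P ∈ Wp G A B, ∃ Q ∈ Wp G A B, A ⊆ P ∧ Q ⊆ B ∧ Stb G (Wp G A B) P Q ∧
    (Flips G A → Stb G (Wm G A B) P Q)

lemma up_A (hBA : B ⊆ A) : ∀ P ∈ Wp G A B, ∃ a : G, P ⊆ a • A := by
  rintro P ⟨a, rfl | rfl⟩
  · exact ⟨a, Subset.rfl⟩
  · exact ⟨a, Set.smul_set_mono hBA⟩

lemma down_A (ht₀ : t₀ • A ⊂ B) : ∀ Q ∈ Wp G A B, ∃ h : G, h • A ⊆ Q := by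
  rintro Q ⟨b, rfl | rfl⟩
  · exact ⟨b, Subset.rfl⟩
  · refine ⟨b * t₀, ?_⟩
    rw [mul_smul]
    exact Set.smul_set_mono ht₀.subset

/-- the chain condition gives stable pairs -/
theorem hasStb_of_chain
    (hfin : ∀ u v : V, {C : Set V | C ∈ Wp G A B ∧ u ∈ C ∧ v ∉ C}.Finite)
    (hBA : B ⊆ A) (ht₀ : t₀ • A ⊂ B)
    (hch : ∀ J : ℕ → Subgroup G, J 0 ≤ Kp G A B → (∀ n, J (n + 1) ≤ J n) →
      (∀ n, ∃ F : Finset (Set V), (∀ C ∈ F, C ∈ Wm G A B) ∧
        (∀ C ∈ F, ∀ C' ∈ F, C ⊆ C' ∨ C' ⊆ C) ∧ J n = ⨅ C ∈ F, MulAction.stabilizer G C) →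
      ∃ n, (J (n + 1)).relIndex (J n) ≠ 0) : HasStb G A B := by
  have htA : t₀ • A ⊂ A := ht₀.trans_subset hBA
  obtain ⟨hne, hnu⟩ := ne_of_shift htA
  have hneB : B.Nonempty := (hne.smul_set (a := t₀)).mono ht₀.subset
  have hnuB : Bᶜ.Nonempty := hnu.mono (compl_subset_compl.2 hBA)
  have hDm := cls_Wm hfin hne hnu hneB hnuB
  have hDp := cls_Wp hfin hne hnu hneB hnuB
  have hA1 : ∀ g : G, g • A ∈ Wp G A B := fun g => ⟨g, Or.inl rfl⟩
  have hA0 : A ∈ Wp G A B := ⟨1, Or.inl (one_smul _ _).symm⟩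
  have hB0 : B ∈ Wp G A B := ⟨1, Or.inr (one_smul _ _).symm⟩
  by_cases hflip : Flips G A
  · -- both kinds of flips exist
    obtain ⟨⟨x, hx⟩, y, hy⟩ := hflip
    obtain ⟨P1, hP1, Q1, hQ1, hAP, hQA, hst⟩ := exists_stb hDm (Wp_sub hA0) (Wp_sub hB0)
      hBA hch
    have hQP1 : Q1 ⊆ P1 := hQA.trans (hBA.trans hAP)
    obtain ⟨a, ha⟩ : ∃ a : G, P1 ⊆ a • A := by
      rcases hP1 with hP1 | hP1
      · exact up_A hBA _ hP1
      · obtain ⟨b, hb⟩ := down_A ht₀ _ hP1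
        refine ⟨b * y⁻¹, ?_⟩
        have h1 : P1 ⊆ (b • A)ᶜ := by
          have := compl_subset_compl.2 hb
          rwa [compl_compl] at this
        refine h1.trans ?_
        rw [mul_smul, ← Set.smul_set_compl]
        refine Set.smul_set_mono ?_
        rw [Set.subset_smul_set_iff, inv_inv, Set.smul_set_compl]
        exact hy
    obtain ⟨h, hh⟩ : ∃ h : G, h • A ⊆ Q1 := by
      rcases hQ1 with hQ1 | hQ1
      · exact down_A ht₀ _ hQ1
      · obtain ⟨b, hb⟩ := up_A hBA _ hQ1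
        refine ⟨b * x, ?_⟩
        have h1 : (b • A)ᶜ ⊆ Q1 := by
          have := compl_subset_compl.2 hb
          rwa [compl_compl] at this
        refine Subset.trans ?_ h1
        rw [mul_smul, ← Set.smul_set_compl]
        refine Set.smul_set_mono ?_
        intro v hv hvA
        have : v ∈ x • A ∩ A := ⟨hv, hvA⟩
        rw [hx] at this
        exact this
    have hst2 := hst.ext hDm hP1 hQ1 hQP1 (Wp_sub (hA1 a)) (Wp_sub (hA1 h)) ha hh
    exact ⟨a • A, hA1 a, h • A, hA1 h, hAP.trans ha, hh.trans hQA,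
      fun P' hP' Q' hQ' => hst2 P' (Wp_sub hP') Q' (Wp_sub hQ'), fun _ => hst2⟩
  · -- pure chains
    obtain ⟨P1, hP1, Q1, hQ1, hAP, hQA, hst⟩ := exists_stb hDp hA0 hB0 hBA
      (fun J h1 h2 h3 => hch J h1 h2 fun n => by
        obtain ⟨F, hF1, hF2, hF3⟩ := h3 n
        exact ⟨F, fun C hC => Wp_sub (hF1 C hC), hF2, hF3⟩)
    exact ⟨P1, hP1, Q1, hQ1, hAP, hQA, hst, fun h => absurd h hflip⟩

/-- **The combinatorial part.**  If a bounded number of translates of the pair are pairwise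
transverse then there are nested translates `P`, `Q` of `A` such that a subgroup of finite index
commensurates the stabiliser of the pair. -/
theorem exists_cm (hfin : ∀ u v : V, {C : Set V | C ∈ Wp G A B ∧ u ∈ C ∧ v ∉ C}.Finite)
    (hBA : B ⊆ A) (ht₀ : t₀ • A ⊂ B) {d : ℕ}
    (hd : ∀ S : Finset G, (∀ g ∈ S, ∀ g' ∈ S, g ≠ g' → TT A B g g') → S.card ≤ d)
    (hstb : HasStb G A B) :
    ∃ a h : G, A ⊆ a • A ∧ h • A ⊆ B ∧ Stb G (Wp G A B) (a • A) (h • A) ∧
      (CmS G (a • A) (h • A)).index ≠ 0 := by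
  have htA : t₀ • A ⊂ A := ht₀.trans_subset hBA
  obtain ⟨hne, hnu⟩ := ne_of_shift htA
  have hneB : B.Nonempty := (hne.smul_set (a := t₀)).mono ht₀.subset
  have hnuB : Bᶜ.Nonempty := hnu.mono (compl_subset_compl.2 hBA)
  have hDm := cls_Wm hfin hne hnu hneB hnuB
  have hDp := cls_Wp hfin hne hnu hneB hnuB
  have hA1 : ∀ g : G, g • A ∈ Wp G A B := fun g => ⟨g, Or.inl rfl⟩
  -- the shift of a pair with pure ends
  have hshift : ∀ a h : G, (h * t₀ * a⁻¹) • (a • A) = h • t₀ • A := by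
    intro a h
    rw [mul_smul, mul_smul, inv_smul_smul]
  have hsub0 : ∀ h : G, h • t₀ • A ⊂ h • A := fun h => smul_ssub h htA
  obtain ⟨P1, hP1, Q1, hQ1, hAP, hQA, hst, hstm⟩ := hstb
  have hQP1 : Q1 ⊆ P1 := hQA.trans (hBA.trans hAP)
  obtain ⟨a, ha⟩ := up_A hBA _ hP1
  obtain ⟨h, hh⟩ := down_A ht₀ _ hQ1
  have hst2 := hst.ext hDp hP1 hQ1 hQP1 (hA1 a) (hA1 h) ha hh
  have hAP2 : A ⊆ a • A := hAP.trans ha
  have hQA2 : h • A ⊆ B := hh.trans hQA
  have hQP : h • A ⊆ a • A := hh.trans (hQP1.trans ha)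
  have q1 : h • A ⊆ A := hQA2.trans hBA
  have q2 : B ⊆ a • A := hBA.trans hAP2
  set t : G := h * t₀ * a⁻¹ with ht
  have htP' : t • a • A ⊂ h • A := by
    rw [ht, hshift]; exact hsub0 h
  have htP := htP'.subset
  refine ⟨a, h, hAP2, hQA2, hst2, ?_⟩
  by_cases hflip : Flips G A
  · -- both kinds of flips exist
    have haW : a • A ∈ Wm G A B := Wp_sub (hA1 a)
    have hhW : h • A ∈ Wm G A B := Wp_sub (hA1 h)
    have hst3 := (hstm hflip).ext hDm (Wp_sub hP1) (Wp_sub hQ1) hQP1 haW hhW ha hh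
    refine CmS_fi hd id (fun g => by
      rw [id, inv_mul_cancel]; exact Cm.one _ _) fun g g' hno => ?_
    have key : ∀ C C' : Set V, h • A ⊆ C → C ⊆ a • A → h • A ⊆ C' → C' ⊆ a • A →
        Tv (g • C) (g' • C') := by
      intro C C' c1 c2 c3 c4
      by_contra hc
      apply hno
      rcases not_tv hc with h1 | h1 | h1 | h1
      · exact nest_c hDm Wm_compl haW hhW hQP hst3 htP c1 c3 h1
      · exact nest_ab hDm haW hhW hQP hst3 htP c1 c4 h1
      · have := (nest_ab hDm haW hhW hQP hst3 htP c3 c2 h1).inv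
        rwa [mul_inv_rev, inv_inv] at this
      · exact nest_d hDm Wm_compl haW hhW hQP hst3 htP c2 c4 h1
    exact ⟨key _ _ q1 hAP2 q1 hAP2, key _ _ q1 hAP2 hQA2 q2, key _ _ hQA2 q2 q1 hAP2,
      key _ _ hQA2 q2 hQA2 q2⟩
  · -- pure chains
    have haW : a • A ∈ Wp G A B := hA1 a
    have hhW : h • A ∈ Wp G A B := hA1 h
    have htPP : t • a • A ⊂ a • A := htP'.trans_subset hQP
    have htQQ : t • h • A ⊂ h • A := ssubset_of_subset_of_ssubset (Set.smul_set_mono hQP) htP'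
    have ct := cm_below hDp haW hhW hQP hst2 htP
    -- the pairs of transverse translates
    have fin : ∀ i : G → G, (∀ g, Cm (a • A) (h • A) (g⁻¹ * i g)) →
        (∀ g g' : G, ∀ C C' : Set V, (C = A ∨ C = B) → (C' = A ∨ C' = B) →
          (i g • C ∩ i g' • C').Nonempty ∧ ¬ (i g • C)ᶜ ⊆ i g' • C') →
        (CmS G (a • A) (h • A)).index ≠ 0 := by
      intro i hi hex
      refine CmS_fi hd i hi fun g g' hno => ?_
      have hno' : ¬ Cm (a • A) (h • A) ((i g')⁻¹ * i g) := by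
        intro hc
        apply hno
        have e : g'⁻¹ * g = g'⁻¹ * i g' * ((i g')⁻¹ * i g) * (g⁻¹ * i g)⁻¹ := by group
        rw [e]
        exact ((hi g').mul hc).mul (hi g).inv
      have key : ∀ C C' : Set V, (C = A ∨ C = B) → (C' = A ∨ C' = B) → h • A ⊆ C →
          C ⊆ a • A → h • A ⊆ C' → C' ⊆ a • A → Tv (i g • C) (i g' • C') := by
        intro C C' d1 d2 c1 c2 c3 c4
        by_contra hc
        apply hno'
        obtain ⟨e1, e2⟩ := hex g g' C C' d1 d2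
        rcases not_tv hc with h1 | h1 | h1 | h1
        · rw [h1] at e1
          exact absurd rfl e1.ne_empty
        · exact nest_ab hDp haW hhW hQP hst2 htP c1 c4 h1
        · have := (nest_ab hDp haW hhW hQP hst2 htP c3 c2 h1).inv
          rwa [mul_inv_rev, inv_inv] at this
        · exact absurd h1 e2
      exact ⟨key _ _ (Or.inl rfl) (Or.inl rfl) q1 hAP2 q1 hAP2,
        key _ _ (Or.inl rfl) (Or.inr rfl) q1 hAP2 hQA2 q2,
        key _ _ (Or.inr rfl) (Or.inl rfl) hQA2 q2 q1 hAP2,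
        key _ _ (Or.inr rfl) (Or.inr rfl) hQA2 q2 hQA2 q2⟩
    obtain ⟨v, -⟩ := hne
    have hsubC : ∀ C : Set V, (C = A ∨ C = B) → C ⊆ A ∧ t₀ • A ⊆ C ∧ h • A ⊆ C ∧ C ⊆ a • A := by
      rintro C (rfl | rfl)
      · exact ⟨Subset.rfl, htA.subset, q1, hAP2⟩
      · exact ⟨hBA, ht₀.subset, hQA2, q2⟩
    unfold Flips at hflip
    rw [not_and_or] at hflip
    rcases hflip with hno | hno
    · -- no disjoint translates
      push Not at hno
      have hex : ∀ g : G, ∃ i : ℤ, v ∉ (g * t ^ i) • a • A := by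
        intro g
        obtain ⟨J, -, hJ⟩ := eventually_mem (fin_A hfin a) htPP (g⁻¹ • v)
        refine ⟨J, fun hc => hJ J le_rfl ?_⟩
        rw [mul_smul] at hc
        rwa [← Set.mem_smul_set_iff_inv_smul_mem]
      choose i hi using hex
      refine fin (fun g => g * t ^ i g) (fun g => ?_) ?_
      · rw [inv_mul_cancel_left]
        exact ct.zpow _
      · intro g g' C C' d1 d2
        obtain ⟨-, k1, -, k2⟩ := hsubC C d1
        obtain ⟨-, k3, -, k4⟩ := hsubC C' d2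
        constructor
        · obtain ⟨w, hw1, hw2⟩ := hno ((g' * t ^ i g' * t₀)⁻¹ * (g * t ^ i g * t₀))
          refine ⟨(g' * t ^ i g' * t₀) • w, ?_, ?_⟩
          · rw [mul_smul, Set.mem_inv_smul_set_iff] at hw1
            refine Set.smul_set_mono k1 ?_
            rwa [smul_smul (g * t ^ i g)]
          · refine Set.smul_set_mono k3 ?_
            rw [smul_smul (g' * t ^ i g')]
            exact Set.smul_mem_smul_set hw2
        · intro hc
          refine hi g' (Set.smul_set_mono k4 (hc fun hm => hi g (Set.smul_set_mono k2 hm)))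
    · -- no covering translates
      push Not at hno
      have hex : ∀ g : G, ∃ i : ℤ, v ∈ (g * t ^ i) • h • A := by
        intro g
        obtain ⟨J, hJ, -⟩ := eventually_mem (fin_A hfin h) htQQ (g⁻¹ • v)
        refine ⟨-J, ?_⟩
        have := hJ (-J) le_rfl
        rw [mul_smul]
        rwa [Set.mem_smul_set_iff_inv_smul_mem]
      choose i hi using hex
      refine fin (fun g => g * t ^ i g) (fun g => ?_) ?_
      · rw [inv_mul_cancel_left]
        exact ct.zpow _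
      · intro g g' C C' d1 d2
        obtain ⟨k0, -, k2, -⟩ := hsubC C d1
        obtain ⟨k1, -, k4, -⟩ := hsubC C' d2
        refine ⟨⟨v, Set.smul_set_mono k2 (hi g), Set.smul_set_mono k4 (hi g')⟩, fun hc => ?_⟩
        refine hno ((g' * t ^ i g')⁻¹ * (g * t ^ i g)) ?_
        rw [mul_smul, ← Set.smul_set_compl, Set.smul_set_subset_iff_subset_inv_smul_set, inv_inv]
        exact (compl_subset_compl.2 (Set.smul_set_mono k0)).trans
          (hc.trans (Set.smul_set_mono k1))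

variable {X : Type} [MetricSpace X] [MulAction G X]

lemma not_univ_pair (hG : Geo X G) {L : Subgroup G} {P : Set V} (hL : ∀ s ∈ L, s • P = P) {t : G}
    (ht : t • P ⊂ P) {B : Set X} (hB : CC L B) : ¬ ∀ z, z ∈ B := by
  intro hall
  have := hG.isom
  obtain ⟨o, ho⟩ := hB.ne
  obtain ⟨D₀, hD0, hD⟩ := cc_near hG hB ho
  have hF := finite_short hG o D₀
  have h1 : ∀ n : ℕ, ∃ g ∈ L, dist o ((g⁻¹ * t ^ n) • o) ≤ D₀ := by
    intro n
    obtain ⟨g, hg, hgd⟩ := hD (t ^ n • o) (hall _)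
    refine ⟨g, hg, ?_⟩
    rw [mul_smul, ← dist_smul g, smul_inv_smul, dist_comm]
    exact hgd
  choose g hg hgd using h1
  have hninj : ¬ Function.Injective (fun n : ℕ => (g n)⁻¹ * t ^ n) := by
    intro hinj
    have : (univ : Set ℕ).Finite :=
      Set.Finite.of_injOn (f := fun n : ℕ => (g n)⁻¹ * t ^ n) (fun n _ => hgd n)
        (hinj.injOn) hF
    exact Set.infinite_univ this
  rw [Function.Injective] at hninj
  push Not at hninj
  have key : ∀ m n : ℕ, m < n → (g m)⁻¹ * t ^ m = (g n)⁻¹ * t ^ n → False := by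
    intro m n hmn he
    have e1 : t ^ (n - m) ∈ L := by
      have e2 : t ^ n = t ^ (n - m) * t ^ m := by
        rw [← pow_add]; congr 1; omega
      rw [e2] at he
      have e3 : t ^ (n - m) = g n * (g m)⁻¹ := by
        have : (g m)⁻¹ = (g n)⁻¹ * t ^ (n - m) := by
          have := congrArg (· * (t ^ m)⁻¹) he
          simpa [mul_assoc] using this
        rw [this]; group
      rw [e3]
      exact L.mul_mem (hg n) (L.inv_mem (hg m))
    have h3 := hL _ e1
    have h4 := shift_pow ht (n - m) (by omega)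
    rw [h3] at h4
    exact ssubset_irrefl _ h4
  obtain ⟨m, n, he, hne⟩ := hninj
  rcases lt_or_gt_of_ne hne with h | h
  · exact key m n h he
  · exact key n m h he.symm

lemma finite_of_index {K L : Subgroup G} (hK : (K : Set G).Finite) (h : K.relIndex L ≠ 0) :
    (L : Set G).Finite := by
  obtain ⟨F, hF, hrep⟩ := exists_reps h
  refine ((hK.prod hF).image fun z : G × G => z.1 * z.2).subset ?_
  intro s hs
  obtain ⟨r, hr, hsr⟩ := hrep s hs
  exact ⟨(s * r⁻¹, r), ⟨hsr, hr⟩, by group⟩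

lemma cc_Kp (hG : Geo X G) {P Q : Set V} {B' : Set X} (hB' : CC (Kp G P Q) B') (x : G) :
    CC (Kp G (x • P) (x • Q)) {z | x⁻¹ • z ∈ B'} := by
  have := hG.isom
  refine ⟨?_, ?_, ?_, ?_, ?_⟩
  · obtain ⟨z, hz⟩ := hB'.ne
    exact ⟨x • z, by rw [Set.mem_ofPred_eq, inv_smul_smul]; exact hz⟩
  · exact hB'.closed.preimage (continuous_const_smul x⁻¹)
  · intro p hp q hq m hm
    refine hB'.conv _ hp _ hq _ ?_
    rw [dist_smul, dist_smul, dist_smul]; exact hm
  · intro s hs z hz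
    show x⁻¹ • s • z ∈ B'
    have := hB'.inv _ (mem_Kp_smul hs) _ hz
    rwa [mul_smul, mul_smul, smul_inv_smul] at this
  · obtain ⟨C, hC, hcov⟩ := hB'.cc
    refine ⟨(fun z => x • z) '' C, hC.image (continuous_const_smul x), fun z hz => ?_⟩
    obtain ⟨s, hs, hsx⟩ := hcov _ hz
    refine ⟨x * s * x⁻¹, ?_, ?_⟩
    · rw [Kp_smul]
      exact ⟨s, hs, rfl⟩
    · exact ⟨_, hsx, by simp only [mul_smul]⟩

/-- **Main theorem.** -/
theorem sep_main (hG : Geo X G) (hGC : GC X) (o : X)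
    (hfin : ∀ u v : V, {C : Set V | C ∈ Wp G A B ∧ u ∈ C ∧ v ∉ C}.Finite)
    (hBA : B ⊆ A) (ht₀ : t₀ • A ⊂ B) (hE : ∃ E : Set X, CC (Kp G A B) E)
    {d : ℕ} (hd : ∀ S : Finset G, (∀ g ∈ S, ∀ g' ∈ S, g ≠ g' → TT A B g g') → S.card ≤ d)
    (hstb : HasStb G A B) :
    (∃ g : G, RankOne X g) ∨ ∃ (a h : G) (B₀ : Set X), A ⊆ a • A ∧ h • B ⊆ B ∧
      CC (Kp G (a • A) (h • B)) B₀ ∧ Nontrivial B₀ ∧
      ∃ (Z : Type) (_ : MetricSpace Z) (_ : Nontrivial Z) (e : X ≃ Z × B₀),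
        ∀ x x' : X, dist x x' ^ 2 = dist (e x).1 (e x').1 ^ 2 + dist (e x).2 (e x').2 ^ 2 := by
  have := hG.isom
  have := hG.proper
  obtain ⟨a, h, hAP, hQA, hst, hcm⟩ := exists_cm hfin hBA ht₀ hd hstb
  have htA : t₀ • A ⊂ A := ht₀.trans_subset hBA
  obtain ⟨hne, hnu⟩ := ne_of_shift htA
  have hneB : B.Nonempty := (hne.smul_set (a := t₀)).mono ht₀.subset
  have hnuB : Bᶜ.Nonempty := hnu.mono (compl_subset_compl.2 hBA)
  have hDp := cls_Wp hfin hne hnu hneB hnuB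
  have haW : a • A ∈ Wp G A B := ⟨a, Or.inl rfl⟩
  have hhW : h • A ∈ Wp G A B := ⟨h, Or.inl rfl⟩
  have hQP : h • A ⊆ a • A := hQA.trans (hBA.trans hAP)
  set t : G := h * t₀ * a⁻¹ with ht
  have e0 : t • a • A = h • t₀ • A := by rw [ht, mul_smul, mul_smul, inv_smul_smul]
  have htP' : t • a • A ⊂ h • A := by
    rw [e0]; exact smul_ssub h htA
  have htPP : t • a • A ⊂ a • A := htP'.trans_subset hQP
  by_cases hLf : (Kp G (a • A) (h • A) : Set G).Finite
  · left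
    refine ⟨t, ?_⟩
    rcases skew_free hG o (fin_A hfin a) htPP with h1 | h1
    · exact h1
    · exfalso
      apply h1 1
      have h2 : (Kp G (a • A) (h • A)).relIndex (Kp G (a • A) (t • a • A)) ≠ 0 :=
        hDp.between haW (hDp.act _ haW t) haW hhW htPP.subset Subset.rfl htP'.subset hQP
      refine (finite_of_index hLf h2).subset ?_
      intro s hs
      rw [SetLike.mem_coe, mem_Cs] at hs
      rw [SetLike.mem_coe, mem_Kp]
      have e0 := hs 0 le_rfl (by norm_num)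
      have e1 := hs 1 (by norm_num) (by norm_num)
      rw [zpow_zero, one_smul] at e0
      rw [zpow_one] at e1
      exact ⟨e0, e1⟩
  · right
    -- the longer pair
    set x : G := a * t₀⁻¹ with hx
    have hP'W : x • A ∈ Wp G A B := ⟨_, Or.inl rfl⟩
    have hP''W : x • B ∈ Wp G A B := ⟨_, Or.inr rfl⟩
    have hQ'W : h • B ∈ Wp G A B := ⟨_, Or.inr rfl⟩
    have hPP'' : a • A ⊂ x • B := by
      rw [hx, mul_smul]
      refine smul_ssub a ?_
      have := smul_ssub t₀⁻¹ ht₀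
      rwa [inv_smul_smul] at this
    have hP'P' : x • B ⊆ x • A := Set.smul_set_mono hBA
    have hPP' : a • A ⊂ x • A := hPP''.trans_subset hP'P'
    have hQQ' : h • B ⊆ h • A := Set.smul_set_mono hBA
    have c1 : (Kp G (x • A) (h • B)).relIndex (Kp G (a • A) (h • A)) ≠ 0 :=
      hst _ hP'W _ hQ'W hPP'.subset hQQ'
    have c2 : (Kp G (a • A) (h • A)).relIndex (Kp G (x • A) (h • B)) ≠ 0 :=
      hDp.between hP'W hQ'W haW hhW (hQQ'.trans hQP) hPP'.subset hQQ' (hQP.trans hPP'.subset)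
    have hinf : ¬ (Kp G (x • A) (h • B) : Set G).Finite := fun hf => hLf (finite_of_index hf c1)
    have hle : CmS G (a • A) (h • A) ≤ CmS G (x • A) (h • B) := by
      intro g hg
      have hg' : Cm (a • A) (h • A) g := hg
      refine ⟨Subgroup.relIndex_ne_zero_trans ?_
        (Subgroup.relIndex_ne_zero_trans hg'.1 c2),
        Subgroup.relIndex_ne_zero_trans (Subgroup.relIndex_ne_zero_trans c1 hg'.2) ?_⟩
      · rw [Kp_shift]
        exact c1
      · rw [Kp_shift]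
        exact c2
    have hfi : (CmS G (x • A) (h • B)).index ≠ 0 := fun h0 =>
      hcm (Nat.eq_zero_of_zero_dvd (h0 ▸ Subgroup.index_dvd_of_le hle))
    have hLle : Kp G (x • A) (h • B) ≤ CmS G (x • A) (h • B) := by
      intro s hs
      obtain ⟨s1, s2⟩ := mem_Kp.1 hs
      show Cm (x • A) (h • B) s
      unfold Cm
      rw [s1, s2, Subgroup.relIndex_self]
      exact ⟨one_ne_zero, one_ne_zero⟩
    obtain ⟨E, hE⟩ := hE
    have hB1 := cc_Kp hG hE x
    have e1 : t • x • A = h • A := by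
      rw [hx, ht, smul_smul]; congr 1; group
    have e2 : t • x • B = h • B := by
      rw [hx, ht, smul_smul]; congr 1; group
    obtain ⟨B2, -, hB2⟩ := cc_inter hG hB1 (L := Kp G (x • A) (x • B) ⊓ Kp G (h • A) (h • B)) t (by
      intro s
      rw [Subgroup.mem_inf]
      have k1 : ∀ C : Set V, (t⁻¹ * s * t) • C = C ↔ s • t • C = t • C := by
        intro C
        rw [mul_smul, mul_smul, inv_smul_eq_iff]
      have k2 : t⁻¹ * s * t ∈ Kp G (x • A) (x • B) ↔ s ∈ Kp G (h • A) (h • B) := by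
        rw [mem_Kp, mem_Kp, k1, k1, e1, e2]
      rw [k2])
    have j1 : h • B ⊆ x • B := hQQ'.trans (hQP.trans hPP''.subset)
    obtain ⟨B3, hB3⟩ := cc_fin hG (A := Kp G (x • A) (h • B))
      (A' := Kp G (x • A) (x • B) ⊓ Kp G (h • A) (h • B))
      (fun s hs => mem_Kp.2 ⟨(mem_Kp.1 hs.1).1, (mem_Kp.1 hs.2).2⟩)
      (Subgroup.relIndex_inf_ne_zero
        (hDp.between hP'W hQ'W hP'W hP''W (j1.trans hP'P') Subset.rfl j1 hP'P')
        (hDp.between hP'W hQ'W hhW hQ'W hQQ' (hQP.trans hPP'.subset) Subset.rfl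
          (j1.trans hP'P'))) hB2
    have hbd : ∀ g ∈ CmS G (x • A) (h • B), Bd B3 g := by
      intro g hg
      have hg' : Cm (x • A) (h • B) g := hg
      refine bd_of_index hG hB3 (M := Kp G (g • x • A) (g • h • B)) hg'.1 fun s hs => ?_
      exact mem_Kp_smul hs
    have htPP' : t • x • A ⊂ x • A := by
      rw [e1]
      exact ssubset_of_subset_of_ssubset hQP hPP'
    obtain ⟨B₀, hsub, h₀, h1 | h1⟩ := split_of_fi hG hGC hfi hLle hB3 hbd
    · exact absurd h1 (not_univ_pair hG (fun s hs => (mem_Kp.1 hs).1) htPP' h₀)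
    · refine ⟨x, h, B₀, hAP.trans hPP'.subset, hQQ'.trans hQA, h₀, ?_, h1⟩
      rw [Set.nontrivial_coe_sort]
      by_contra hcon
      rw [Set.not_nontrivial_iff] at hcon
      obtain ⟨z, hz⟩ := h₀.ne
      refine hinf ((finite_short hG z 0).subset fun s hs => ?_)
      have h2 : s • z = z := hcon (h₀.inv s hs z hz) hz
      show dist z (s • z) ≤ 0
      rw [h2, dist_self]

end Pool.Agent.V7H57.WL
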